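import Pool.Agent.Lib.MP_f4617e_lc.LSBasic

/-!
MP_f4617e_lc: the chain of parts (cycle lemma, backward encoding).
-/

set_option autoImplicit false

namespace Pool.Agent.MPf4617e

open Finset Filter Topology

theorem chain_ofNat_add {N : ℕ} (a b : ℕ) :
    Fin.ofNat (N + 1) (a + b) = Fin.ofNat (N + 1) a + Fin.ofNat (N + 1) b := by
  ext
  simp [Fin.val_add]

theorem chain_ofNat_val {N : ℕ} (j : Fin (N + 1)) : Fin.ofNat (N + 1) j.val = j := by
  ext
  rw [Fin.val_ofNat, Nat.mod_eq_of_lt j.isLt]

/-- the cycle lemma -/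
theorem chain_cycle {N : ℕ} (c : Fin (N + 1) → ℤ) (hc : 0 ≤ ∑ j, c j) :
    ∃ s : Fin (N + 1), ∀ k : ℕ, 0 ≤ ∑ t ∈ range k, c (s + Fin.ofNat (N + 1) t) := by
  let C : ℕ → ℤ := fun k => ∑ j ∈ range k, c (Fin.ofNat (N + 1) j)
  have hT : C (N + 1) = ∑ j, c j := by
    simp only [C]
    rw [← Fin.sum_univ_eq_sum_range (fun j => c (Fin.ofNat (N + 1) j))]
    refine Finset.sum_congr rfl fun j _ => ?_
    rw [chain_ofNat_val]
  have hper : ∀ k, C (k + (N + 1)) = C k + C (N + 1) := by
    intro k
    induction k with
    | zero => simp [C]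
    | succ k ih =>
      have h1 : C (k + 1 + (N + 1)) =
          C (k + (N + 1)) + c (Fin.ofNat (N + 1) (k + (N + 1))) := by
        have : k + 1 + (N + 1) = (k + (N + 1)) + 1 := by ring
        simp only [C]
        rw [this, Finset.sum_range_succ]
      have h2 : C (k + 1) = C k + c (Fin.ofNat (N + 1) k) := by
        simp only [C]
        rw [Finset.sum_range_succ]
      have h3 : Fin.ofNat (N + 1) (k + (N + 1)) = Fin.ofNat (N + 1) k := by
        ext
        simp
      rw [h1, h2, h3, ih]
      ring
  obtain ⟨s, hs, hmin⟩ := Finset.exists_min_image (range (N + 1)) C ⟨0, by simp⟩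
  have hall : ∀ k, C s ≤ C k := by
    intro k
    induction k using Nat.strong_induction_on with
    | _ k ih =>
      rcases Nat.lt_or_ge k (N + 1) with h | h
      · exact hmin k (by simpa using h)
      · obtain ⟨k', rfl⟩ := Nat.exists_eq_add_of_le' h
        have := ih k' (by omega)
        rw [hper, hT]
        omega
  refine ⟨Fin.ofNat (N + 1) s, fun k => ?_⟩
  have h : C (s + k) = C s +
      ∑ t ∈ range k, c (Fin.ofNat (N + 1) s + Fin.ofNat (N + 1) t) := by
    simp only [C]
    rw [Finset.sum_range_add]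
    congr 1
    refine Finset.sum_congr rfl fun t _ => ?_
    rw [chain_ofNat_add]
  have := hall (s + k)
  omega

/-- backward encoding -/
theorem chain_back {q K : ℕ} [NeZero q] {P : Type} (S : PartScheme q P K) (n : ℕ)
    (E : ℕ → Finset P) (Q : ℕ → ℕ) (fin : List (Fin q))
    (hQ : ∀ k < n, Q k + S.rho (E k) = S.lam (E (k + 1)) + Q (k + 1))
    (hF : Q n + S.rho (E n) = fin.length) :
    ∃ (b : List (Fin q)) (h : Fin K) (d : ℕ → List (Fin q)),
      b.length = Q 0 ∧ (S.code h).length = S.lam (E 0) ∧
      (∀ k ≤ n, (d k).length = S.rho (E k)) ∧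
      ∀ y : ℕ → P → Fin q, (∀ k ≤ n, ∀ i, i ∉ E k → y k i = S.wd (E k) (d k) i) →
        S.decL b h ((List.range (n + 1)).map y) = fin := by
  induction n generalizing E Q with
  | zero =>
    have hd : (fin.drop (Q 0)).length = S.rho (E 0) := by
      rw [List.length_drop]; omega
    refine ⟨fin.take (Q 0), S.hd (E 0) (fin.drop (Q 0)), fun _ => fin.drop (Q 0), ?_, ?_, ?_, ?_⟩
    · rw [List.length_take]; omega
    · exact S.len_hd _ _ hd
    · intro k hk
      obtain rfl : k = 0 := by omega
      exact hd
    · intro y hy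
      have h1 : (List.range (0 + 1)).map y = [y 0] := rfl
      rw [h1]
      simp only [PartScheme.decL]
      rw [S.rd_hd _ _ _ hd (hy 0 le_rfl), List.take_append_drop]
  | succ n ih =>
    obtain ⟨b', h', d', hb', hh', hd', hy'⟩ := ih (fun k => E (k + 1)) (fun k => Q (k + 1))
      (fun k hk => hQ (k + 1) (by omega)) hF
    set w := S.code h' ++ b' with hw
    have hwl : w.length = Q 0 + S.rho (E 0) := by
      rw [hw, List.length_append, hh', hb']
      exact (hQ 0 (by omega)).symm
    have hd : (w.drop (Q 0)).length = S.rho (E 0) := by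
      rw [List.length_drop]; omega
    refine ⟨w.take (Q 0), S.hd (E 0) (w.drop (Q 0)),
      fun k => match k with
        | 0 => w.drop (Q 0)
        | k + 1 => d' k, ?_, ?_, ?_, ?_⟩
    · rw [List.length_take]; omega
    · exact S.len_hd _ _ hd
    · intro k hk
      match k with
      | 0 => exact hd
      | k + 1 => exact hd' k (by omega)
    · intro y hy
      have h1 : (List.range (n + 1 + 1)).map y =
          y 0 :: y 1 :: (List.range n).map (fun k => y (k + 2)) := by
        rw [List.range_succ_eq_map, List.range_succ_eq_map]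
        simp only [List.map_cons, List.map_map]
        rfl
      have h2 : (List.range (n + 1)).map (fun k => y (k + 1)) =
          y 1 :: (List.range n).map (fun k => y (k + 2)) := by
        rw [List.range_succ_eq_map]
        simp only [List.map_cons, List.map_map]
        rfl
      rw [h1]
      simp only [PartScheme.decL]
      rw [S.rd_hd _ _ _ hd (hy 0 (by omega)), List.take_append_drop, hw, S.parse_code, ← h2]
      exact hy' (fun k => y (k + 1)) fun k hk i hi => hy (k + 1) (by omega) i hi

theorem chain {q K N : ℕ} [NeZero q] {P : Type} (S : PartScheme q P K)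
    (E : Fin (N + 1) → Finset P) (m : List (Fin q))
    (h : (m.length : ℤ) ≤ ∑ j, ((S.rho (E j) : ℤ) - S.lam (E j))) :
    ∃ (s : Fin (N + 1)) (h0 : Fin K) (d : Fin (N + 1) → List (Fin q)),
      (∀ j, (d j).length = S.rho (E j)) ∧
      ∀ y : Fin (N + 1) → P → Fin q, (∀ j i, i ∉ E j → y j i = S.wd (E j) (d j) i) →
        (S.decL [] h0 (List.ofFn fun t : Fin (N + 1) => y (s + t))).take m.length = m := by
  let c : Fin (N + 1) → ℤ := fun t => (S.rho (E t) : ℤ) - S.lam (E (t + Fin.ofNat (N + 1) 1))
  have hsum : ∑ j, c j = ∑ j, ((S.rho (E j) : ℤ) - S.lam (E j)) := by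
    simp only [c, Finset.sum_sub_distrib]
    congr 1
    exact Equiv.sum_comp (Equiv.addRight (Fin.ofNat (N + 1) 1)) fun t => (S.lam (E t) : ℤ)
  obtain ⟨s, hs⟩ := chain_cycle c (by rw [hsum]; exact le_trans (by positivity) h)
  let A : ℕ → ℤ := fun k => ∑ t ∈ range k, c (s + Fin.ofNat (N + 1) t)
  have hA : ∀ k, A (k + 1) = A k + ((S.rho (E (s + Fin.ofNat (N + 1) k)) : ℤ) -
      S.lam (E (s + Fin.ofNat (N + 1) (k + 1)))) := by
    intro k
    simp only [A]
    rw [Finset.sum_range_succ]
    simp only [c, chain_ofNat_add, add_assoc]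
  have hA0 : ∀ k, 0 ≤ A k := hs
  have hAtot : A (N + 1) = ∑ j, ((S.rho (E j) : ℤ) - S.lam (E j)) := by
    rw [← hsum]
    simp only [A]
    rw [← Fin.sum_univ_eq_sum_range (fun j => c (s + Fin.ofNat (N + 1) j))]
    rw [← Equiv.sum_comp (Equiv.addLeft s) c]
    refine Finset.sum_congr rfl fun j _ => ?_
    rw [chain_ofNat_val]
    rfl
  obtain ⟨F, hF⟩ : ∃ F : ℕ, F = (A N).toNat + S.rho (E (s + Fin.ofNat (N + 1) N)) := ⟨_, rfl⟩
  have hmF : m.length ≤ F := by
    have h1 := hA N
    have h2 := hA0 N
    rw [hAtot] at h1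
    omega
  obtain ⟨b, h0, d, hb, -, hd, hy⟩ := chain_back S N (fun k => E (s + Fin.ofNat (N + 1) k))
    (fun k => (A k).toNat) (m ++ List.replicate (F - m.length) 0)
    (by
      intro k _
      have h1 := hA k
      have h2 := hA0 k
      have h3 := hA0 (k + 1)
      omega)
    (by
      rw [List.length_append, List.length_replicate]
      omega)
  have hb0 : b = [] := by
    have : (A 0).toNat = 0 := by simp [A]
    simp only [this] at hb
    exact List.length_eq_zero_iff.1 hb
  subst hb0
  refine ⟨s, h0, fun j => d (j - s).val, ?_, ?_⟩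
  · intro j
    have := hd (j - s).val (by have := (j - s).isLt; omega)
    rw [chain_ofNat_val] at this
    rwa [add_sub_cancel] at this
  · intro y hyy
    have h1 : (List.ofFn fun t : Fin (N + 1) => y (s + t)) =
        (List.range (N + 1)).map fun k => y (s + Fin.ofNat (N + 1) k) := by
      rw [List.ofFn_eq_map, ← List.map_coe_finRange_eq_range, List.map_map]
      refine List.map_congr_left fun t _ => ?_
      simp only [Function.comp, chain_ofNat_val]
    rw [h1, hy fun k => y (s + Fin.ofNat (N + 1) k)]
    · rw [List.take_append_of_le_length le_rfl, List.take_length]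
    · intro k hk i hi
      have h2 : ((s + Fin.ofNat (N + 1) k) - s).val = k := by
        rw [add_sub_cancel_left, Fin.val_ofNat]
        exact Nat.mod_eq_of_lt (by omega)
      have := hyy (s + Fin.ofNat (N + 1) k) i hi
      simp only [h2] at this
      exact this

end Pool.Agent.MPf4617e
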