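import Pool.Agent.Lib.MP_f4617e_lc.LSBasic

/-!
MP_f4617e_lc: the potential bound for the chain recursion.
-/

set_option autoImplicit false

namespace Pool.Agent.MPf4617e

open Finset Filter Topology

/-- the number of clean positions among the last `k` ones -/
noncomputable def chainbd_m {L : ℕ} (E : Finset (Fin L)) (k : ℕ) : ℕ := by
  classical
  exact ((range k).filter fun j => ¬ posIn E (j + 1)).card

theorem chainbd_m_zero {L : ℕ} (E : Finset (Fin L)) : chainbd_m E 0 = 0 := by
  simp [chainbd_m]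

theorem chainbd_m_succ_pos {L : ℕ} (E : Finset (Fin L)) (k : ℕ) (h : posIn E (k + 1)) :
    chainbd_m E (k + 1) = chainbd_m E k := by
  classical
  unfold chainbd_m
  rw [Finset.range_add_one, Finset.filter_insert, if_neg (not_not.mpr h)]

theorem chainbd_m_succ_neg {L : ℕ} (E : Finset (Fin L)) (k : ℕ) (h : ¬ posIn E (k + 1)) :
    chainbd_m E (k + 1) = chainbd_m E k + 1 := by
  classical
  unfold chainbd_m
  rw [Finset.range_add_one, Finset.filter_insert, if_pos h, Finset.card_insert_of_notMem]
  simp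

theorem chainbd_m_top {L : ℕ} (E : Finset (Fin L)) :
    chainbd_m E L + E.card = L := by
  classical
  have h1 : ((range L).filter fun j => posIn E (j + 1)).card = E.card := by
    symm
    refine Finset.card_bij (fun i _ => L - 1 - i.val) ?_ ?_ ?_
    · intro i hi
      have := i.isLt
      rw [Finset.mem_filter, Finset.mem_range]
      exact ⟨by omega, i, hi, by omega⟩
    · intro i _ j _ hij
      have h1 := i.isLt
      have h2 := j.isLt
      apply Fin.ext
      omega
    · intro j hj
      rw [Finset.mem_filter, Finset.mem_range] at hj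
      obtain ⟨hj, i, hi, hij⟩ := hj
      exact ⟨i, hi, by omega⟩
  have h2 := Finset.card_filter_add_card_filter_not (s := range L) (fun j => posIn E (j + 1))
  rw [Finset.card_range, h1] at h2
  unfold chainbd_m
  omega

open Classical in
theorem chainbd_inv {q L : ℕ} {τ c α β Q ρ : ℝ} (hα : α = al q τ) (hQ : Q = q * (1 - τ))
    (hβ : β = 1 - α) (hα0 : 0 < α) (hα1 : α ≤ 1) (hρ0 : 0 < ρ) (hρ1 : ρ ≤ 1)
    (hQ0 : 0 < Q) (hQρ : Q * ρ = 1 + ρ) (hc1 : ρ ≤ c) (hc2 : ρ * (1 / α - ρ) ≤ c)
    (E : Finset (Fin L)) (k : ℕ) :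
    0 < (crec q τ E k).1 ∧
    (1 ≤ k → 0 < (crec q τ E k).2.1 ∧ ρ * (crec q τ E k).2.1 ≤ (crec q τ E k).2.2.1 ∧
      (posIn E k → (crec q τ E k).1 = α * (crec q τ E k).2.1) ∧
      (¬ posIn E k → (crec q τ E k).1 = Q * (crec q τ E k).2.1)) ∧
    (Q * (crec q τ E k).2.2.2.2 ≤ β * (c * chainbd_m E k + 2) * (crec q τ E k).1) ∧
    (1 ≤ k → ¬ posIn E k → Q * (crec q τ E k).2.2.2.2 +
      Q * (β * ρ * ((crec q τ E k).2.2.1 - ρ * (crec q τ E k).2.1)) ≤
        β * (c * chainbd_m E k + 2) * (crec q τ E k).1) := by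
  have hβ0 : 0 ≤ β := by rw [hβ]; linarith
  have hc0 : 0 ≤ c := by linarith
  induction k with
  | zero =>
    refine ⟨by simp [crec], fun h => absurd h (by norm_num), ?_, fun h => absurd h (by norm_num)⟩
    rw [chainbd_m_zero]
    simp only [crec, Nat.cast_zero, mul_zero, zero_add, mul_one]
    positivity
  | succ k ih =>
    obtain ⟨hz, hk1, hX, hX2⟩ := ih
    have e1 : (crec q τ E (k + 1)).1 =
        if posIn E (k + 1) then α * (crec q τ E k).1 else Q * (crec q τ E k).1 := by
      rw [hα, hQ]; rfl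
    have e2 : (crec q τ E (k + 1)).2.1 = (crec q τ E k).1 := rfl
    have e3 : (crec q τ E (k + 1)).2.2.1 = if k = 0 then 1 else if posIn E k then
        (crec q τ E k).2.1 else (crec q τ E k).2.1 + (crec q τ E k).2.2.1 := rfl
    have e5 : (crec q τ E (k + 1)).2.2.2.2 = if posIn E (k + 1) then
        α * (crec q τ E k).2.2.2.2
        else β * (if k = 0 then 1 else if posIn E k then 0 else
          (crec q τ E k).2.1 + (crec q τ E k).2.2.1) + Q * (crec q τ E k).2.2.2.2 := by
      rw [hβ, hα, hQ]; rfl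
    have hS : ρ * (crec q τ E (k + 1)).2.1 ≤ (crec q τ E (k + 1)).2.2.1 := by
      rw [e2, e3]
      by_cases h0 : k = 0
      · subst h0
        simp only [crec, if_true, mul_one]
        exact hρ1
      · obtain ⟨hp, hs, hzp, hzn⟩ := hk1 (Nat.one_le_iff_ne_zero.mpr h0)
        rw [if_neg h0]
        by_cases hE : posIn E k
        · rw [if_pos hE, hzp hE]
          have : ρ * α ≤ 1 := by nlinarith
          nlinarith
        · rw [if_neg hE, hzn hE]
          have : ρ * (Q * (crec q τ E k).2.1) = (1 + ρ) * (crec q τ E k).2.1 := by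
            rw [← hQρ]; ring
          rw [this]
          linarith
    have hclean : ¬ posIn E (k + 1) → Q * (crec q τ E (k + 1)).2.2.2.2 +
        Q * (β * ρ * ((crec q τ E (k + 1)).2.2.1 - ρ * (crec q τ E (k + 1)).2.1)) ≤
          β * (c * chainbd_m E (k + 1) + 2) * (crec q τ E (k + 1)).1 := by
      intro hE1
      rw [e1, e2, e3, e5, if_neg hE1, if_neg hE1, chainbd_m_succ_neg E k hE1]
      push_cast
      by_cases h0 : k = 0
      · subst h0
        rw [chainbd_m_zero]
        simp only [crec, if_true, Nat.cast_zero, mul_zero, mul_one, zero_add, add_zero]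
        have h1 : 1 + ρ * (1 - ρ) ≤ c + 2 := by nlinarith
        calc Q * β + Q * (β * ρ * (1 - ρ)) = (Q * β) * (1 + ρ * (1 - ρ)) := by ring
          _ ≤ (Q * β) * (c + 2) := mul_le_mul_of_nonneg_left h1 (by positivity)
          _ = β * (c + 2) * Q := by ring
      · obtain ⟨hp, hs, hzp, hzn⟩ := hk1 (Nat.one_le_iff_ne_zero.mpr h0)
        rw [if_neg h0, if_neg h0]
        by_cases hE : posIn E k
        · rw [if_pos hE, if_pos hE]
          have h1 : ρ * (1 - ρ * α) ≤ c * α := by
            have : ρ * (1 - ρ * α) = (ρ * (1 / α - ρ)) * α := by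
              field_simp
            rw [this]
            exact mul_le_mul_of_nonneg_right hc2 hα0.le
          have h2 := hzp hE
          have h3 : Q * (Q * (crec q τ E k).2.2.2.2) ≤
              Q * (β * (c * chainbd_m E k + 2) * (crec q τ E k).1) :=
            mul_le_mul_of_nonneg_left hX hQ0.le
          have h4 : Q * β * ((ρ * (1 - ρ * α)) * (crec q τ E k).2.1) ≤
              Q * β * ((c * α) * (crec q τ E k).2.1) :=
            mul_le_mul_of_nonneg_left (mul_le_mul_of_nonneg_right h1 hp.le) (by positivity)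
          calc Q * (β * 0 + Q * (crec q τ E k).2.2.2.2) +
                Q * (β * ρ * ((crec q τ E k).2.1 - ρ * (crec q τ E k).1))
              = Q * (Q * (crec q τ E k).2.2.2.2) +
                Q * β * ((ρ * (1 - ρ * α)) * (crec q τ E k).2.1) := by rw [h2]; ring
            _ ≤ Q * (β * (c * chainbd_m E k + 2) * (crec q τ E k).1) +
                Q * β * ((c * α) * (crec q τ E k).2.1) := add_le_add h3 h4
            _ = β * (c * (chainbd_m E k + 1) + 2) * (Q * (crec q τ E k).1) := by rw [h2]; ring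
        · rw [if_neg hE, if_neg hE]
          have h2 := hzn hE
          have h3 : Q * (Q * (crec q τ E k).2.2.2.2 +
              Q * (β * ρ * ((crec q τ E k).2.2.1 - ρ * (crec q τ E k).2.1))) ≤
              Q * (β * (c * chainbd_m E k + 2) * (crec q τ E k).1) :=
            mul_le_mul_of_nonneg_left (hX2 (Nat.one_le_iff_ne_zero.mpr h0) hE) hQ0.le
          have h4 : Q * β * (Q * ρ * (crec q τ E k).2.1) ≤
              Q * β * (Q * c * (crec q τ E k).2.1) := by
            refine mul_le_mul_of_nonneg_left (mul_le_mul_of_nonneg_right ?_ hp.le) (by positivity)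
            exact mul_le_mul_of_nonneg_left hc1 hQ0.le
          have h5 : β * ((crec q τ E k).2.1 + (crec q τ E k).2.2.1) +
              β * ρ * ((crec q τ E k).2.1 + (crec q τ E k).2.2.1 -
                ρ * (Q * (crec q τ E k).2.1)) =
              Q * (β * ρ * ((crec q τ E k).2.2.1 - ρ * (crec q τ E k).2.1)) +
                β * (Q * ρ * (crec q τ E k).2.1) := by
            have h6 : Q * ρ = 1 + ρ := hQρ
            calc β * ((crec q τ E k).2.1 + (crec q τ E k).2.2.1) +
              β * ρ * ((crec q τ E k).2.1 + (crec q τ E k).2.2.1 -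
                ρ * (Q * (crec q τ E k).2.1))
                = β * (1 + ρ) * ((crec q τ E k).2.1 + (crec q τ E k).2.2.1) -
                  β * ρ * (Q * ρ) * (crec q τ E k).2.1 := by ring
              _ = β * (Q * ρ) * ((crec q τ E k).2.1 + (crec q τ E k).2.2.1) -
                  β * ρ * (Q * ρ) * (crec q τ E k).2.1 := by rw [h6]
              _ = _ := by ring
          calc Q * (β * ((crec q τ E k).2.1 + (crec q τ E k).2.2.1) +
                Q * (crec q τ E k).2.2.2.2) +
                Q * (β * ρ * ((crec q τ E k).2.1 + (crec q τ E k).2.2.1 -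
                  ρ * (crec q τ E k).1))
              = Q * (Q * (crec q τ E k).2.2.2.2) +
                Q * (β * ((crec q τ E k).2.1 + (crec q τ E k).2.2.1) +
                β * ρ * ((crec q τ E k).2.1 + (crec q τ E k).2.2.1 -
                  ρ * (Q * (crec q τ E k).2.1))) := by rw [h2]; ring
            _ = Q * (Q * (crec q τ E k).2.2.2.2 +
              Q * (β * ρ * ((crec q τ E k).2.2.1 - ρ * (crec q τ E k).2.1))) +
                Q * β * (Q * ρ * (crec q τ E k).2.1) := by rw [h5]; ring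
            _ ≤ Q * (β * (c * chainbd_m E k + 2) * (crec q τ E k).1) +
                Q * β * (Q * c * (crec q τ E k).2.1) := add_le_add h3 h4
            _ = β * (c * (chainbd_m E k + 1) + 2) * (Q * (crec q τ E k).1) := by rw [h2]; ring
    refine ⟨?_, fun _ => ⟨?_, hS, ?_, ?_⟩, ?_, fun _ => hclean⟩
    · rw [e1]
      split_ifs
      · positivity
      · positivity
    · rw [e2]; exact hz
    · intro hE1
      rw [e1, e2, if_pos hE1]
    · intro hE1
      rw [e1, e2, if_neg hE1]
    · by_cases hE1 : posIn E (k + 1)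
      · rw [e1, e5, if_pos hE1, if_pos hE1, chainbd_m_succ_pos E k hE1]
        have h3 := mul_le_mul_of_nonneg_left hX hα0.le
        linarith [h3, mul_assoc α Q (crec q τ E k).2.2.2.2]
      · refine le_trans ?_ (hclean hE1)
        have h6 : 0 ≤ Q * (β * ρ * ((crec q τ E (k + 1)).2.2.1 -
            ρ * (crec q τ E (k + 1)).2.1)) := by
          have h7 : 0 ≤ (crec q τ E (k + 1)).2.2.1 - ρ * (crec q τ E (k + 1)).2.1 := by
            linarith
          positivity
        linarith

theorem crec_bound {q L : ℕ} (hq : 4 ≤ q) {τ c : ℝ} (h0 : 0 < τ) (h1 : τ < 1 / 2)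
    (hc1 : 1 / (q * (1 - τ) - 1) ≤ c)
    (hc2 : 1 / (q * (1 - τ) - 1) * (1 / al q τ - 1 / (q * (1 - τ) - 1)) ≤ c)
    (E : Finset (Fin L)) :
    (crec q τ E L).2.2.2.2 ≤
      ((1 - al q τ) * c / (q * (1 - τ)) * (L - E.card) + 2) * (crec q τ E L).1 := by
  have hq' : (4 : ℝ) ≤ q := by exact_mod_cast hq
  obtain ⟨α, hα⟩ : ∃ α, α = al q τ := ⟨_, rfl⟩
  obtain ⟨Q, hQ⟩ : ∃ Q, Q = (q : ℝ) * (1 - τ) := ⟨_, rfl⟩
  obtain ⟨ρ, hρ⟩ : ∃ ρ, ρ = 1 / (Q - 1) := ⟨_, rfl⟩
  obtain ⟨β, hβ⟩ : ∃ β, β = 1 - α := ⟨_, rfl⟩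
  have hQ2 : 2 < Q := by rw [hQ]; nlinarith
  have hα0 : 0 < α := by
    rw [hα, al]
    apply div_pos (by positivity)
    linarith
  have hα1 : α ≤ 1 := by
    rw [hα, al, div_le_one (by linarith)]
    nlinarith
  have hρ0 : 0 < ρ := by rw [hρ]; apply div_pos one_pos; linarith
  have hρ1 : ρ ≤ 1 := by
    rw [hρ, div_le_one (by linarith)]
    linarith
  have hQρ : Q * ρ = 1 + ρ := by
    rw [hρ]
    have : Q - 1 ≠ 0 := by linarith
    field_simp
    ring
  rw [← hQ, ← hρ] at hc1
  rw [← hQ, ← hρ, ← hα] at hc2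
  obtain ⟨hz, -, hX, -⟩ := chainbd_inv (L := L) hα hQ hβ hα0 hα1 hρ0 hρ1 (by linarith) hQρ hc1
    hc2 E L
  have hm : ((chainbd_m E L : ℕ) : ℝ) = L - E.card := by
    have := chainbd_m_top E
    have h3 : ((chainbd_m E L + E.card : ℕ) : ℝ) = L := by exact_mod_cast this
    push_cast at h3
    linarith
  rw [hm] at hX
  rw [← hα, ← hQ, ← hβ]
  have hQ0 : 0 < Q := by linarith
  have h4 : (crec q τ E L).2.2.2.2 ≤
      (β * (c * (L - E.card) + 2) * (crec q τ E L).1) / Q := by
    rw [le_div_iff₀ hQ0]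
    linarith
  refine h4.trans ?_
  have h5 : β / Q ≤ 1 := by
    rw [div_le_one hQ0]
    linarith
  calc (β * (c * (L - E.card) + 2) * (crec q τ E L).1) / Q
      = (β * c / Q * (L - E.card) + (β / Q) * 2) * (crec q τ E L).1 := by ring
    _ ≤ (β * c / Q * (L - E.card) + 2) * (crec q τ E L).1 := by
        refine mul_le_mul_of_nonneg_right ?_ hz.le
        linarith

end Pool.Agent.MPf4617e
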