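import Pool.Agent.Lib.MP_f4617e_lc.LSBasic

/-!
MP_f4617e_lc, module CHA: leaf sums of the chain tree.
-/

set_option autoImplicit false

namespace Pool.Agent.MPf4617e

open Finset Filter Topology

/-! ### Auxiliary lemmas -/

theorem chaintree_succ {q L : ℕ} [NeZero q] (be t : ℝ) (n : ℕ) (hn : n + 1 ≤ L)
    (st : Option (Fin q)) :
    (chT (L := L) be t (n + 1) hn st) = RT.mix 2 ![cpr be t st, 1 - cpr be t st]
      ![.read ⟨L - (n + 1), by omega⟩ (fun a => chT be t n (by omega) (some a)),
        chT be t n (by omega) none] := rfl

theorem chaintree_LS_succ {q L : ℕ} [NeZero q] (be t : ℝ) (n : ℕ) (hn : n + 1 ≤ L)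
    (st : Option (Fin q)) (F : Path L q → ℝ) :
    (chT (L := L) be t (n + 1) hn st).LS F =
      cpr be t st * ∑ a, (chT (L := L) be t n (by omega) (some a)).LS
        (fun l => F ((⟨L - (n + 1), by omega⟩, a) :: l)) +
      (1 - cpr be t st) * (chT (L := L) be t n (by omega) none).LS F := by
  rw [chaintree_succ, RT.LS_mix_two, RT.LS_read]

theorem chaintree_cpr_mem {q : ℕ} [NeZero q] {be t : ℝ} (hbe : 0 ≤ be ∧ be ≤ 1)
    (ht : 0 ≤ t ∧ t ≤ 1) (st : Option (Fin q)) : 0 ≤ cpr be t st ∧ cpr be t st ≤ 1 := by
  cases st with
  | none => exact hbe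
  | some a =>
    simp only [cpr]
    split_ifs
    · exact ⟨le_refl _, zero_le_one⟩
    · exact ⟨zero_le_one, le_refl _⟩
    · exact ht

theorem chaintree_ok {q L : ℕ} [NeZero q] {be t : ℝ} (hbe : 0 ≤ be ∧ be ≤ 1)
    (ht : 0 ≤ t ∧ t ≤ 1) (n : ℕ) (hn : n ≤ L) (st : Option (Fin q)) (S : Finset (Fin L))
    (hS : ∀ i ∈ S, i.val + n < L) : (chT (L := L) be t n hn st).Ok S := by
  induction n generalizing st S with
  | zero => exact trivial
  | succ n ih =>
    rw [chaintree_succ]
    obtain ⟨h0, h1⟩ := chaintree_cpr_mem hbe ht st
    refine ⟨?_, ?_, ?_⟩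
    · intro j
      fin_cases j
      · exact h0
      · show 0 ≤ 1 - cpr be t st
        linarith
    · simp [Fin.sum_univ_two]
    · intro j
      fin_cases j
      · show (RT.read (⟨L - (n + 1), by omega⟩ : Fin L)
          (fun a => chT be t n (by omega) (some a))).Ok S
        refine ⟨?_, ?_⟩
        · intro h
          have := hS _ h
          simp only at this
          omega
        · intro a
          refine ih _ _ _ ?_
          intro i hi
          rcases Finset.mem_insert.1 hi with rfl | hi
          · simp only
            omega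
          · have := hS i hi
            omega
      · show (chT be t n (by omega) none).Ok S
        refine ih _ _ _ ?_
        intro i hi
        have := hS i hi
        omega

theorem chaintree_congr {q L : ℕ} [NeZero q] (be t : ℝ) (n : ℕ) (hn : n ≤ L)
    (st : Option (Fin q)) (f g : Path L q → ℝ)
    (h : ∀ l : Path L q, (∀ p ∈ l, L ≤ p.1.val + n) → f l = g l) :
    (chT (L := L) be t n hn st).LS f = (chT (L := L) be t n hn st).LS g := by
  induction n generalizing st f g with
  | zero => exact h [] (by simp)
  | succ n ih =>
    rw [chaintree_LS_succ, chaintree_LS_succ]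
    congr 1
    · congr 1
      refine Finset.sum_congr rfl fun a _ => ih _ _ _ _ fun l hl => h _ ?_
      intro p hp
      rcases List.mem_cons.1 hp with rfl | hp
      · simp only
        omega
      · have := hl p hp
        omega
    · congr 1
      refine ih _ _ _ _ fun l hl => h _ ?_
      intro p hp
      have := hl p hp
      omega

/-- the state given by the label `a` when the next state is `c` -/
def chaintree_st {q : ℕ} [NeZero q] (c : DSt) (a : Fin q) : DSt :=
  if a = 2 then (if c = .neg then .neg else .one)
  else if a = 1 then (if c = .one then .zero else .one)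
  else .neg

theorem chaintree_posIn {L : ℕ} (E : Finset (Fin L)) (n : ℕ) (hn : n + 1 ≤ L) :
    posIn E (n + 1) ↔ (⟨L - (n + 1), by omega⟩ : Fin L) ∈ E := by
  constructor
  · rintro ⟨i, hi, h⟩
    have : i = (⟨L - (n + 1), by omega⟩ : Fin L) := by
      ext
      simp only
      omega
    rwa [this] at hi
  · intro h
    exact ⟨_, h, by simp only; omega⟩

theorem chaintree_lookup_none {q L : ℕ} (i : Fin L) (l : Path L q)
    (h : ∀ p ∈ l, p.1 ≠ i) : l.lookup i = none := by
  induction l with
  | nil => rfl
  | cons p l ih =>
    obtain ⟨j, b⟩ := p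
    rw [List.lookup_cons]
    have hj : (i == j) = false := by
      have := h (j, b) (by simp)
      simp only [beq_eq_false_iff_ne]
      exact fun h' => this h'.symm
    rw [hj]
    exact ih fun p hp => h p (by simp [hp])

/-- skip: the state of the first position when it is not read -/
theorem chaintree_cst_skip {q L : ℕ} [NeZero q] (E : Finset (Fin L)) (n : ℕ)
    (hn : n + 1 ≤ L) (l : Path L q) (hl : ∀ p ∈ l, L ≤ p.1.val + n) :
    cst E l (n + 1) = if (⟨L - (n + 1), by omega⟩ : Fin L) ∈ E then .one else .neg := by
  have hlt : L - (n + 1) < L := by omega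
  have hlk : l.lookup (⟨L - (n + 1), hlt⟩ : Fin L) = none := by
    refine chaintree_lookup_none _ _ fun p hp h => ?_
    have := hl p hp
    rw [h] at this
    simp only at this
    omega
  simp only [cst, hlt, dif_pos, hlk]

/-- the states after the first position do not depend on the first entry -/
theorem chaintree_cst_cons {q L : ℕ} [NeZero q] (E : Finset (Fin L)) (i : Fin L)
    (a : Fin q) (l : Path L q) (k : ℕ) (hk : i.val + k < L) :
    cst E ((i, a) :: l) k = cst E l k := by
  induction k with
  | zero => rfl
  | succ k ih =>
    have hlt : L - (k + 1) < L := by omega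
    have hlk : List.lookup (⟨L - (k + 1), hlt⟩ : Fin L) ((i, a) :: l) =
        l.lookup (⟨L - (k + 1), hlt⟩ : Fin L) := by
      rw [List.lookup_cons]
      have hj : ((⟨L - (k + 1), hlt⟩ : Fin L) == i) = false := by
        simp only [beq_eq_false_iff_ne]
        intro h
        have := congrArg Fin.val h
        simp only at this
        omega
      rw [hj]
    simp only [cst, hlt, dif_pos, hlk, ih (by omega)]

/-- read: the state of the first position when it is read -/
theorem chaintree_cst_read {q L : ℕ} [NeZero q] (E : Finset (Fin L)) (n : ℕ)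
    (hn : n + 1 ≤ L) (a : Fin q) (l : Path L q)
    (hE : (⟨L - (n + 1), by omega⟩ : Fin L) ∉ E) :
    cst E (((⟨L - (n + 1), by omega⟩ : Fin L), a) :: l) (n + 1) =
      chaintree_st (cst E l n) a := by
  have hlt : L - (n + 1) < L := by omega
  have hlk : List.lookup (⟨L - (n + 1), hlt⟩ : Fin L)
      (((⟨L - (n + 1), hlt⟩ : Fin L), a) :: l) = some a := by
    rw [List.lookup_cons]
    simp
  have hc : cst E (((⟨L - (n + 1), hlt⟩ : Fin L), a) :: l) n = cst E l n :=
    chaintree_cst_cons E _ a l n (by simp only; omega)
  simp only [cst, hlt, dif_pos, hlk, hE, if_false, hc, chaintree_st]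

open Classical in
/-- the indicator of clean paths -/
noncomputable def chaintree_D {q L : ℕ} (E : Finset (Fin L)) (l : Path L q) : ℝ :=
  if Disjoint (sites l) E then 1 else 0

theorem chaintree_D_nil {q L : ℕ} (E : Finset (Fin L)) :
    chaintree_D E ([] : Path L q) = 1 := by
  simp [chaintree_D, sites]

theorem chaintree_D_mem {q L : ℕ} (E : Finset (Fin L)) (i : Fin L) (a : Fin q)
    (l : Path L q) (h : i ∈ E) : chaintree_D E ((i, a) :: l) = 0 := by
  have : ¬ Disjoint (sites ((i, a) :: l)) E := by
    intro hd
    exact Finset.disjoint_left.1 hd (by simp [sites]) h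
  simp [chaintree_D, this]

theorem chaintree_D_notMem {q L : ℕ} (E : Finset (Fin L)) (i : Fin L) (a : Fin q)
    (l : Path L q) (h : i ∉ E) : chaintree_D E ((i, a) :: l) = chaintree_D E l := by
  have : Disjoint (sites ((i, a) :: l)) E ↔ Disjoint (sites l) E := by
    have hs : sites ((i, a) :: l) = insert i (sites l) := by simp [sites]
    rw [hs, Finset.disjoint_insert_left]
    exact ⟨fun h' => h'.2, fun h' => ⟨h, h'⟩⟩
  simp [chaintree_D, this]

open Classical in
/-- number of clean positions with state `one` among the last `k` -/
noncomputable def chaintree_G {q L : ℕ} [NeZero q] (E : Finset (Fin L)) (l : Path L q)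
    (k : ℕ) : ℝ :=
  ∑ j ∈ range k, if ¬ posIn E (j + 1) ∧ cst E l (j + 1) = .one then 1 else 0

theorem chaintree_G_cons {q L : ℕ} [NeZero q] (E : Finset (Fin L)) (i : Fin L)
    (a : Fin q) (l : Path L q) (k : ℕ) (hk : i.val + k < L) :
    chaintree_G E ((i, a) :: l) k = chaintree_G E l k := by
  unfold chaintree_G
  refine Finset.sum_congr rfl fun j hj => ?_
  rw [Finset.mem_range] at hj
  rw [chaintree_cst_cons E i a l (j + 1) (by omega)]

theorem chaintree_card {L : ℕ} (Q : ℕ → Prop) [DecidablePred Q] :
    (univ.filter fun i : Fin L => Q (L - i.val)).card =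
      ((range L).filter fun j => Q (j + 1)).card := by
  refine Finset.card_bij (fun i _ => L - 1 - i.val) ?_ ?_ ?_
  · intro i hi
    simp only [mem_filter, mem_univ, true_and, mem_range] at hi ⊢
    have := i.isLt
    refine ⟨by omega, ?_⟩
    have h2 : L - 1 - i.val + 1 = L - i.val := by omega
    rwa [h2]
  · intro i _ j _ h
    have := i.isLt
    have := j.isLt
    ext
    omega
  · intro j hj
    simp only [mem_filter, mem_range] at hj
    refine ⟨⟨L - 1 - j, by omega⟩, ?_, ?_⟩
    · simp only [mem_filter, mem_univ, true_and]
      have h2 : L - (L - 1 - j) = j + 1 := by omega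
      rw [h2]
      exact hj.2
    · simp only
      omega

theorem chaintree_posIn' {L : ℕ} (E : Finset (Fin L)) (i : Fin L) :
    posIn E (L - i.val) ↔ i ∈ E := by
  constructor
  · rintro ⟨j, hj, h⟩
    have hi := i.isLt
    have : j = i := by
      ext
      omega
    rwa [← this]
  · intro h
    exact ⟨i, h, by have := i.isLt; omega⟩

theorem chaintree_gain {q L : ℕ} [NeZero q] (E : Finset (Fin L)) (l : Path L q) :
    (gain E l : ℝ) = chaintree_G E l L := by
  classical
  have h1 : gain E l = (univ.filter fun i : Fin L =>
      (fun k => ¬ posIn E k ∧ cst E l k = .one) (L - i.val)).card := by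
    unfold gain
    congr 1
    ext i
    simp only [mem_filter, mem_univ, true_and, chaintree_posIn']
  rw [h1, chaintree_card (fun k => ¬ posIn E k ∧ cst E l k = .one)]
  unfold chaintree_G
  rw [Finset.card_filter]
  push_cast
  refine Finset.sum_congr rfl fun j _ => ?_
  congr

/-! ### The recursion -/

section main

variable {q L : ℕ} [NeZero q]

theorem chaintree_one_ne_two (hq : 4 ≤ q) : (1 : Fin q) ≠ 2 := by
  intro h
  have := congrArg Fin.val h
  have h1 : (1 : Fin q).val = 1 % q := rfl
  have h2 : (2 : Fin q).val = 2 % q := rfl
  rw [h1, h2, Nat.mod_eq_of_lt (by omega), Nat.mod_eq_of_lt (by omega)] at this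
  omega

theorem chaintree_cpr_sum (hq : 4 ≤ q) (be t : ℝ) :
    ∑ a : Fin q, cpr be t (some a) = 1 + (q - 2) * t := by
  have h12 := chaintree_one_ne_two hq
  have h : ∀ a : Fin q, cpr be t (some a) =
      t + (if a = 1 then -t else 0) + (if a = 2 then 1 - t else 0) := by
    intro a
    simp only [cpr]
    by_cases h1 : a = 1
    · subst h1
      simp [h12]
    · by_cases h2 : a = 2
      · subst h2
        simp [h1]
      · simp [h1, h2]
  simp only [h, Finset.sum_add_distrib, Finset.sum_ite_eq', Finset.mem_univ, if_true,
    Finset.sum_const, Finset.card_univ, Fintype.card_fin, nsmul_eq_mul]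
  ring

/-- (b) -/
theorem chaintree_b (hq : 4 ≤ q) {be t : ℝ} (ht : 1 + (q - 2) * t = q * be) (k : ℕ)
    (hk : k ≤ L) (F : Path L q → ℝ) :
    ∑ a, (chT (L := L) be t k hk (some a)).LS F = q * (chT (q := q) be t k hk none).LS F := by
  cases k with
  | zero =>
    simp [chT, RT.LS]
  | succ k =>
    simp only [chaintree_LS_succ]
    rw [Finset.sum_add_distrib, ← Finset.sum_mul, ← Finset.sum_mul, Finset.sum_sub_distrib,
      chaintree_cpr_sum hq, ht]
    simp only [Finset.sum_const, Finset.card_univ, Fintype.card_fin, nsmul_eq_mul, cpr]
    ring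

/-- (a) -/
theorem chaintree_a (hq : 4 ≤ q) {τ t : ℝ} (ht : 1 + (q - 2) * t = q * (1 - al q τ))
    (E : Finset (Fin L)) (k : ℕ) (hk : k ≤ L) :
    (chT (q := q) (1 - al q τ) t k hk none).LS (chaintree_D E) = (crec q τ E k).1 := by
  have hq1 : (q : ℝ) - 1 ≠ 0 := by
    have : (4 : ℝ) ≤ q := by exact_mod_cast hq
    linarith
  induction k with
  | zero =>
    show chaintree_D E ([] : Path L q) = 1
    exact chaintree_D_nil E
  | succ k ih =>
    rw [chaintree_LS_succ]
    have hc : cpr (q := q) (1 - al q τ) t none = 1 - al q τ := rfl
    rw [hc, ih (by omega)]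
    by_cases hE : (⟨L - (k + 1), by omega⟩ : Fin L) ∈ E
    · simp only [chaintree_D_mem E _ _ _ hE, RT.LS_zero, Finset.sum_const_zero]
      simp only [crec, (chaintree_posIn E k hk).2 hE, if_true]
      ring
    · simp only [chaintree_D_notMem E _ _ _ hE]
      have hb := chaintree_b hq ht k (by omega) (chaintree_D E)
      rw [ih (by omega)] at hb
      have hpos : ¬ posIn E (k + 1) := fun h => hE ((chaintree_posIn E k hk).1 h)
      simp only [crec, hpos, if_false]
      rw [show (∑ a, (chT (L := L) (1 - al q τ) t k (by omega) (some a)).LS fun l =>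
        chaintree_D E l) = q * (crec q τ E k).1 from hb]
      unfold al
      field_simp
      ring

open Classical in
/-- (d) -/
theorem chaintree_d (hq : 4 ≤ q) {τ t : ℝ} (ht : 1 + (q - 2) * t = q * (1 - al q τ))
    (E : Finset (Fin L)) (k : ℕ) (hk : k + 1 ≤ L) :
    (∑ a : Fin q, (chT (L := L) (1 - al q τ) t k (by omega) (some a)).LS
        (fun l => chaintree_D E l * (if chaintree_st (cst E l k) a = .neg then 0 else 1)) =
      (crec q τ E (k + 1)).2.2.1) ∧
    (∑ a : Fin q, (chT (L := L) (1 - al q τ) t k (by omega) (some a)).LS
        (fun l => chaintree_D E l * (if chaintree_st (cst E l k) a = .one then 1 else 0)) =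
      (crec q τ E (k + 1)).2.2.2.1) := by
  have h12 := chaintree_one_ne_two hq
  induction k with
  | zero =>
    have hst : ∀ a : Fin q, chaintree_st (.neg) a = if a = 1 then DSt.one else DSt.neg := by
      intro a
      unfold chaintree_st
      by_cases h2 : a = 2
      · subst h2
        simp [h12.symm]
      · simp [h2]
    have hL : ∀ (a : Fin q) (F : Path L q → ℝ),
      (chT (L := L) (1 - al q τ) t 0 (by omega) (some a)).LS F = F [] := fun a F => rfl
    simp only [hL, chaintree_D_nil, cst, hst]
    constructor
    · have : ∀ a : Fin q, (1 : ℝ) * (if (if a = 1 then DSt.one else DSt.neg) = DSt.neg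
        then 0 else 1) = if a = 1 then 1 else 0 := by
        intro a
        by_cases h : a = 1 <;> simp [h]
      simp only [this, Finset.sum_ite_eq', Finset.mem_univ, if_true]
      simp [crec]
    · have : ∀ a : Fin q, (1 : ℝ) * (if (if a = 1 then DSt.one else DSt.neg) = DSt.one
        then 1 else 0) = if a = 1 then 1 else 0 := by
        intro a
        by_cases h : a = 1 <;> simp [h]
      simp only [this, Finset.sum_ite_eq', Finset.mem_univ, if_true]
      simp [crec]
  | succ k ih =>
    obtain ⟨ihS, -⟩ := ih (by omega)
    -- the contribution of the label 1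
    have h1 : ∀ F : DSt → ℝ,
        (chT (L := L) (1 - al q τ) t (k + 1) (by omega) (some (1 : Fin q))).LS
          (fun l => chaintree_D E l * F (chaintree_st (cst E l (k + 1)) (1 : Fin q))) =
        (crec q τ E k).1 * F (if posIn E (k + 1) then .zero else .one) := by
      intro F
      rw [chaintree_LS_succ]
      have hc : cpr (q := q) (1 - al q τ) t (some 1) = 0 := by simp [cpr]
      rw [hc, zero_mul, zero_add, sub_zero, one_mul]
      rw [chaintree_congr _ _ _ _ _ _ (fun l => F (if posIn E (k + 1) then .zero else .one) *
        chaintree_D E l)]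
      · rw [RT.LS_const_mul, ← chaintree_a hq ht E k (by omega)]
        ring
      · intro l hl
        rw [chaintree_cst_skip E k (by omega) l hl]
        have hp := chaintree_posIn E k (by omega)
        by_cases hE : posIn E (k + 1)
        · rw [if_pos (hp.1 hE), if_pos hE]
          have : chaintree_st DSt.one (1 : Fin q) = DSt.zero := by
            simp [chaintree_st, h12]
          rw [this]
          ring
        · rw [if_neg (fun h => hE (hp.2 h)), if_neg hE]
          have : chaintree_st DSt.neg (1 : Fin q) = DSt.one := by
            simp [chaintree_st, h12]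
          rw [this]
          ring
    -- the contribution of the label 2
    have h2 : ∀ F : DSt → ℝ,
        (chT (L := L) (1 - al q τ) t (k + 1) (by omega) (some (2 : Fin q))).LS
          (fun l => chaintree_D E l * F (chaintree_st (cst E l (k + 1)) (2 : Fin q))) =
        if posIn E (k + 1) then 0 else
          ∑ a : Fin q, (chT (L := L) (1 - al q τ) t k (by omega) (some a)).LS
            (fun l => chaintree_D E l *
              F (if chaintree_st (cst E l k) a = .neg then .neg else .one)) := by
      intro F
      rw [chaintree_LS_succ]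
      have hc : cpr (q := q) (1 - al q τ) t (some 2) = 1 := by simp [cpr, h12.symm]
      rw [hc, sub_self, zero_mul, add_zero, one_mul]
      have hp := chaintree_posIn E k (by omega)
      by_cases hE : posIn E (k + 1)
      · rw [if_pos hE]
        simp only [chaintree_D_mem E _ _ _ (hp.1 hE), zero_mul, RT.LS_zero,
          Finset.sum_const_zero]
      · rw [if_neg hE]
        have hE' := fun h => hE (hp.2 h)
        refine Finset.sum_congr rfl fun a _ => ?_
        congr 1
        funext l
        rw [chaintree_D_notMem E _ _ _ hE', chaintree_cst_read E k (by omega) a l hE']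
        congr 2
        simp [chaintree_st]
    -- the contribution of the other labels
    have h3 : ∀ (F : DSt → ℝ) (_ : F .neg = 0) (a : Fin q) (_ : a ≠ 1) (_ : a ≠ 2),
        (chT (L := L) (1 - al q τ) t (k + 1) (by omega) (some a)).LS
          (fun l => chaintree_D E l * F (chaintree_st (cst E l (k + 1)) a)) = 0 := by
      intro F hF a ha1 ha2
      have : (fun l : Path L q => chaintree_D E l *
          F (chaintree_st (cst E l (k + 1)) a)) = fun _ => 0 := by
        funext l
        simp [chaintree_st, ha1, ha2, hF]
      rw [this, RT.LS_zero]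
    have htot : ∀ (F : DSt → ℝ) (_ : F .neg = 0),
        ∑ a : Fin q, (chT (L := L) (1 - al q τ) t (k + 1) (by omega) (some a)).LS
          (fun l => chaintree_D E l * F (chaintree_st (cst E l (k + 1)) a)) =
        (crec q τ E k).1 * F (if posIn E (k + 1) then .zero else .one) +
        if posIn E (k + 1) then 0 else
          ∑ a : Fin q, (chT (L := L) (1 - al q τ) t k (by omega) (some a)).LS
            (fun l => chaintree_D E l *
              F (if chaintree_st (cst E l k) a = .neg then .neg else .one)) := by
      intro F hF
      rw [← h1 F, ← h2 F]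
      refine Finset.sum_eq_add_of_mem (1 : Fin q) 2 (Finset.mem_univ _) (Finset.mem_univ _)
        h12 ?_
      rintro a - ⟨ha1, ha2⟩
      exact h3 F hF a ha1 ha2
    have hS := htot (fun s => if s = .neg then 0 else 1) (by simp)
    have hA := htot (fun s => if s = .one then 1 else 0) (by simp)
    have hsub : ∀ (a : Fin q) (l : Path L q),
        (if (if chaintree_st (cst E l k) a = DSt.neg then DSt.neg else DSt.one) = DSt.neg
          then (0 : ℝ) else 1) = if chaintree_st (cst E l k) a = DSt.neg then 0 else 1 := by
      intro a l
      by_cases h : chaintree_st (cst E l k) a = DSt.neg <;> simp [h]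
    have hsub' : ∀ (a : Fin q) (l : Path L q),
        (if (if chaintree_st (cst E l k) a = DSt.neg then DSt.neg else DSt.one) = DSt.one
          then (1 : ℝ) else 0) = if chaintree_st (cst E l k) a = DSt.neg then 0 else 1 := by
      intro a l
      by_cases h : chaintree_st (cst E l k) a = DSt.neg <;> simp [h]
    simp only [hsub, ihS] at hS
    simp only [hsub', ihS] at hA
    constructor
    · refine hS.trans ?_
      have hcr : (crec q τ E (k + 1 + 1)).2.2.1 =
          if posIn E (k + 1) then (crec q τ E k).1
          else (crec q τ E k).1 + (crec q τ E (k + 1)).2.2.1 := by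
        conv_lhs => rw [crec]
        simp only [Nat.succ_ne_zero, if_false]
        rfl
      rw [hcr]
      by_cases hE : posIn E (k + 1) <;> simp [hE]
    · refine hA.trans ?_
      have hcr : (crec q τ E (k + 1 + 1)).2.2.2.1 =
          if posIn E (k + 1) then 0
          else (crec q τ E k).1 + (crec q τ E (k + 1)).2.2.1 := by
        conv_lhs => rw [crec]
        simp only [Nat.succ_ne_zero, if_false]
        rfl
      rw [hcr]
      by_cases hE : posIn E (k + 1) <;> simp [hE]

/-- (c) -/
theorem chaintree_c (hq : 4 ≤ q) {τ t : ℝ} (ht : 1 + (q - 2) * t = q * (1 - al q τ))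
    (E : Finset (Fin L)) (k : ℕ) (hk : k ≤ L) :
    (chT (q := q) (1 - al q τ) t k hk none).LS
      (fun l => chaintree_D E l * chaintree_G E l k) = (crec q τ E k).2.2.2.2 := by
  have hq1 : (q : ℝ) - 1 ≠ 0 := by
    have : (4 : ℝ) ≤ q := by exact_mod_cast hq
    linarith
  induction k with
  | zero =>
    show chaintree_D E ([] : Path L q) * chaintree_G E ([] : Path L q) 0 = 0
    simp [chaintree_G]
  | succ k ih =>
    have hp := chaintree_posIn E k (by omega)
    rw [chaintree_LS_succ]
    have hc : cpr (q := q) (1 - al q τ) t none = 1 - al q τ := rfl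
    rw [hc]
    have hskip : (chT (q := q) (1 - al q τ) t k (by omega) none).LS
        (fun l : Path L q => chaintree_D E l * chaintree_G E l (k + 1)) =
        (crec q τ E k).2.2.2.2 := by
      rw [← ih (by omega)]
      refine chaintree_congr _ _ _ _ _ _ _ fun l hl => ?_
      congr 1
      unfold chaintree_G
      rw [Finset.sum_range_succ, if_neg, add_zero]
      rintro ⟨h1, h2⟩
      rw [chaintree_cst_skip E k (by omega) l hl, if_neg (fun h => h1 (hp.2 h))] at h2
      exact absurd h2 (by decide)
    rw [hskip]
    by_cases hE : posIn E (k + 1)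
    · simp only [chaintree_D_mem E _ _ _ (hp.1 hE), zero_mul, RT.LS_zero,
        Finset.sum_const_zero]
      simp only [crec, hE, if_true]
      ring
    · have hE' := fun h => hE (hp.2 h)
      have hfun : ∀ (a : Fin q) (l : Path L q),
          chaintree_D E (((⟨L - (k + 1), by omega⟩ : Fin L), a) :: l) *
            chaintree_G E (((⟨L - (k + 1), by omega⟩ : Fin L), a) :: l) (k + 1) =
          chaintree_D E l * chaintree_G E l k +
            chaintree_D E l * (if chaintree_st (cst E l k) a = .one then 1 else 0) := by
        intro a l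
        rw [chaintree_D_notMem E _ _ _ hE', ← mul_add]
        congr 1
        have hG : chaintree_G E (((⟨L - (k + 1), by omega⟩ : Fin L), a) :: l) (k + 1) =
            chaintree_G E (((⟨L - (k + 1), by omega⟩ : Fin L), a) :: l) k +
            (if chaintree_st (cst E l k) a = .one then 1 else 0) := by
          unfold chaintree_G
          rw [Finset.sum_range_succ, chaintree_cst_read E k (by omega) a l hE']
          congr 1
          simp [hE]
        rw [hG, chaintree_G_cons E _ a l k (by simp only; omega)]
      have hsum : ∑ a : Fin q, (chT (L := L) (1 - al q τ) t k (by omega) (some a)).LS (fun l =>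
          chaintree_D E (((⟨L - (k + 1), by omega⟩ : Fin L), a) :: l) *
            chaintree_G E (((⟨L - (k + 1), by omega⟩ : Fin L), a) :: l) (k + 1)) =
          q * (crec q τ E k).2.2.2.2 + (crec q τ E (k + 1)).2.2.2.1 := by
        simp only [hfun]
        rw [← (chaintree_d hq ht E k (by omega)).2, ← ih (by omega),
          ← chaintree_b hq ht k (by omega), ← Finset.sum_add_distrib]
        exact Finset.sum_congr rfl fun a _ => RT.LS_add _ _ _
      rw [hsum]
      have hX : (crec q τ E (k + 1)).2.2.2.2 =
          (1 - al q τ) * (crec q τ E (k + 1)).2.2.2.1 +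
            q * (1 - τ) * (crec q τ E k).2.2.2.2 := by
        simp only [crec, hE, if_false]
      rw [hX]
      unfold al
      field_simp
      ring

end main

/-! ### The statements of the module -/

theorem chT_ok {q L : ℕ} [NeZero q] {be t : ℝ} (hbe : 0 ≤ be ∧ be ≤ 1) (ht : 0 ≤ t ∧ t ≤ 1)
    (st : Option (Fin q)) : (chT (L := L) be t L le_rfl st).Ok ∅ :=
  chaintree_ok hbe ht L le_rfl st ∅ (by simp)

open Classical in
theorem chT_LS {q L : ℕ} [NeZero q] (hq : 4 ≤ q) {τ t : ℝ}
    (ht : 1 + (q - 2) * t = q * (1 - al q τ)) (E : Finset (Fin L)) :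
    (chT (q := q) (1 - al q τ) t L le_rfl none).LS
        (fun l => if Disjoint (sites l) E then 1 else 0) = (crec q τ E L).1 ∧
    (chT (q := q) (1 - al q τ) t L le_rfl none).LS
        (fun l => if Disjoint (sites l) E then (gain E l : ℝ) else 0) =
      (crec q τ E L).2.2.2.2 := by
  refine ⟨chaintree_a hq ht E L le_rfl, ?_⟩
  rw [← chaintree_c hq ht E L le_rfl]
  congr 1
  funext l
  rw [chaintree_gain]
  unfold chaintree_D
  split_ifs <;> simp

theorem crec_fst {q L : ℕ} (τ : ℝ) (E : Finset (Fin L)) :
    (crec q τ E L).1 = al q τ ^ E.card * (q * (1 - τ)) ^ (L - E.card) := by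
  classical
  have key : ∀ k : ℕ, (crec q τ E k).1 =
      al q τ ^ ((range k).filter fun j => posIn E (j + 1)).card *
        (q * (1 - τ)) ^ (k - ((range k).filter fun j => posIn E (j + 1)).card) := by
    intro k
    induction k with
    | zero => simp [crec]
    | succ k ih =>
      have hle : ((range k).filter fun j => posIn E (j + 1)).card ≤ k := by
        refine (Finset.card_filter_le _ _).trans ?_
        simp
      by_cases hE : posIn E (k + 1)
      · have h1 : (crec q τ E (k + 1)).1 = al q τ * (crec q τ E k).1 := by
          simp only [crec, hE, if_true]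
        have h2 : ((range (k + 1)).filter fun j => posIn E (j + 1)).card =
            ((range k).filter fun j => posIn E (j + 1)).card + 1 := by
          rw [Finset.range_add_one, Finset.filter_insert, if_pos hE,
            Finset.card_insert_of_notMem]
          simp
        rw [h1, h2, ih]
        have h3 : k + 1 - (((range k).filter fun j => posIn E (j + 1)).card + 1) =
            k - ((range k).filter fun j => posIn E (j + 1)).card := by omega
        rw [h3, pow_succ]
        ring
      · have h1 : (crec q τ E (k + 1)).1 = q * (1 - τ) * (crec q τ E k).1 := by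
          simp only [crec, hE, if_false]
        have h2 : ((range (k + 1)).filter fun j => posIn E (j + 1)).card =
            ((range k).filter fun j => posIn E (j + 1)).card := by
          rw [Finset.range_add_one, Finset.filter_insert, if_neg hE]
        rw [h1, h2, ih]
        have h3 : k + 1 - ((range k).filter fun j => posIn E (j + 1)).card =
            (k - ((range k).filter fun j => posIn E (j + 1)).card) + 1 := by omega
        rw [h3, pow_succ]
        ring
  have hcard : ((range L).filter fun j => posIn E (j + 1)).card = E.card := by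
    rw [← chaintree_card (fun k => posIn E k)]
    congr 1
    ext i
    simp [chaintree_posIn']
  rw [key L, hcard]

end Pool.Agent.MPf4617e
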