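import Pool.Agent.Lib.MP_f4617e_lc.LSBasic

/-!
MP_f4617e_lc: the dynamic programme for the chain table.
-/

set_option autoImplicit false

namespace Pool.Agent.MPf4617e

open Finset Filter Topology

theorem dynprog_one_val {q : ℕ} [NeZero q] (hq : 3 ≤ q) : ((1 : Fin q) : ℕ) = 1 := by
  change 1 % q = 1
  exact Nat.mod_eq_of_lt (by omega)

theorem dynprog_two_val {q : ℕ} [NeZero q] (hq : 3 ≤ q) : ((2 : Fin q) : ℕ) = 2 := by
  change 2 % q = 2
  exact Nat.mod_eq_of_lt (by omega)

theorem dynprog_zero_val {q : ℕ} [NeZero q] : ((0 : Fin q) : ℕ) = 0 := by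
  change 0 % q = 0
  exact Nat.zero_mod q

theorem dynprog_one_ne_two {q : ℕ} [NeZero q] (hq : 3 ≤ q) : (1 : Fin q) ≠ 2 := by
  intro h
  have h1 := congrArg Fin.val h
  rw [dynprog_one_val hq, dynprog_two_val hq] at h1
  omega

theorem zc_ne_zero {q L : ℕ} [NeZero q] (hq : 3 ≤ q) (V : Finset (Fin L)) (i : Fin L)
    (_ : i ∈ V) : (zc V i : Fin q) ≠ 0 := by
  intro h
  have h1 := congrArg Fin.val h
  rw [dynprog_zero_val] at h1
  unfold zc at h1
  split_ifs at h1
  · rw [dynprog_two_val hq] at h1
    omega
  · rw [dynprog_one_val hq] at h1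
    omega

/-- the number of elements of `S` among the last `k` positions -/
def dynprog_v {L : ℕ} (S : Finset (Fin L)) (k : ℕ) : ℕ :=
  (S.filter fun i : Fin L => L ≤ i.val + k).card

theorem dynprog_v_zero {L : ℕ} (S : Finset (Fin L)) : dynprog_v S 0 = 0 := by
  unfold dynprog_v
  rw [Finset.card_eq_zero, Finset.filter_eq_empty_iff]
  intro i _
  have := i.isLt
  omega

theorem dynprog_v_top {L : ℕ} (S : Finset (Fin L)) : dynprog_v S L = S.card := by
  unfold dynprog_v
  rw [Finset.filter_true_of_mem]
  intro i _
  omega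

theorem dynprog_v_mem {L : ℕ} (S : Finset (Fin L)) (k : ℕ) (hk : L - (k + 1) < L)
    (hk2 : k + 1 ≤ L) (h : (⟨L - (k + 1), hk⟩ : Fin L) ∈ S) :
    dynprog_v S (k + 1) = dynprog_v S k + 1 := by
  unfold dynprog_v
  have h1 : (S.filter fun i : Fin L => L ≤ i.val + (k + 1)) =
      insert (⟨L - (k + 1), hk⟩ : Fin L) (S.filter fun i : Fin L => L ≤ i.val + k) := by
    ext i
    rw [Finset.mem_insert, Finset.mem_filter, Finset.mem_filter]
    constructor
    · rintro ⟨h2, h3⟩
      by_cases h4 : L ≤ i.val + k
      · exact Or.inr ⟨h2, h4⟩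
      · left
        apply Fin.ext
        change i.val = L - (k + 1)
        omega
    · rintro (h2 | ⟨h2, h3⟩)
      · rw [h2]
        refine ⟨h, ?_⟩
        change L ≤ L - (k + 1) + (k + 1)
        omega
      · exact ⟨h2, by omega⟩
  rw [h1, Finset.card_insert_of_notMem]
  rw [Finset.mem_filter]
  rintro ⟨-, h2⟩
  change L ≤ L - (k + 1) + k at h2
  omega

theorem dynprog_v_notMem {L : ℕ} (S : Finset (Fin L)) (k : ℕ) (hk : L - (k + 1) < L)
    (hk2 : k + 1 ≤ L) (h : (⟨L - (k + 1), hk⟩ : Fin L) ∉ S) :
    dynprog_v S (k + 1) = dynprog_v S k := by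
  unfold dynprog_v
  congr 1
  ext i
  rw [Finset.mem_filter, Finset.mem_filter]
  constructor
  · rintro ⟨h2, h3⟩
    refine ⟨h2, ?_⟩
    by_contra h4
    apply h
    have h5 : i = (⟨L - (k + 1), hk⟩ : Fin L) := by
      apply Fin.ext
      change i.val = L - (k + 1)
      omega
    rw [← h5]
    exact h2
  · rintro ⟨h2, h3⟩
    exact ⟨h2, by omega⟩

theorem dynprog_cst_succ {q L : ℕ} [NeZero q] (E : Finset (Fin L)) (l : Path L q) (k : ℕ)
    (hk : L - (k + 1) < L) : cst E l (k + 1) =
      (if (⟨L - (k + 1), hk⟩ : Fin L) ∈ E then .one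
      else match l.lookup (⟨L - (k + 1), hk⟩ : Fin L) with
        | none => .neg
        | some a =>
          if a = 2 then (if cst E l k = .neg then .neg else .one)
          else if a = 1 then (if cst E l k = .one then .zero else .one)
          else .neg) := by
  rw [cst]
  exact dif_pos hk

theorem dynprog_inv {q L : ℕ} [NeZero q] (hq : 3 ≤ q) (l : Path L q) (E V : Finset (Fin L))
    (y : Fin L → Fin q) (hy : ∀ i, i ∉ E → y i = word l i) (hV : ∀ i ∈ V, y i = zc V i)
    (k : ℕ) (hk : k ≤ L) :
    dynprog_v V k ≤ dynprog_v (univ.filter fun i : Fin L => cst E l (L - i.val) = .one) k ∧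
    ((∃ j ∈ V, j.val + k = L) → cst E l k ≠ .neg) ∧
    ((¬ ∃ j ∈ V, j.val + k = L) → cst E l k = .one → dynprog_v V k + 1 ≤
      dynprog_v (univ.filter fun i : Fin L => cst E l (L - i.val) = .one) k) := by
  induction k with
  | zero =>
    refine ⟨by rw [dynprog_v_zero, dynprog_v_zero], ?_, ?_⟩
    · rintro ⟨j, -, hj⟩
      have := j.isLt
      omega
    · intro _ h
      exact absurd h (by simp [cst])
  | succ k ih =>
    obtain ⟨ih1, ih2, ih3⟩ := ih (by omega)
    have hkL : L - (k + 1) < L := by omega
    obtain ⟨i0, hi0⟩ : ∃ i0 : Fin L, i0 = ⟨L - (k + 1), hkL⟩ := ⟨_, rfl⟩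
    have hi0v : i0.val + (k + 1) = L := by
      rw [hi0]
      change L - (k + 1) + (k + 1) = L
      omega
    have hpos : (∃ j ∈ V, j.val + (k + 1) = L) ↔ i0 ∈ V := by
      constructor
      · rintro ⟨j, hj, hjk⟩
        have : j = i0 := Fin.ext (by omega)
        rw [← this]
        exact hj
      · intro h
        exact ⟨i0, h, hi0v⟩
    have hc := dynprog_cst_succ E l k hkL
    rw [← hi0] at hc
    have hO : ∀ st, cst E l (k + 1) = st →
        (i0 ∈ (univ.filter fun i : Fin L => cst E l (L - i.val) = .one) ↔ st = .one) := by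
      intro st hst
      rw [Finset.mem_filter]
      have h1 : L - i0.val = k + 1 := by omega
      rw [h1, hst]
      simp
    have hM1 : cst E l (k + 1) = .one →
        dynprog_v (univ.filter fun i : Fin L => cst E l (L - i.val) = .one) (k + 1) =
          dynprog_v (univ.filter fun i : Fin L => cst E l (L - i.val) = .one) k + 1 := by
      intro h
      refine dynprog_v_mem _ k hkL hk ?_
      rw [← hi0]
      exact (hO _ h).mpr rfl
    have hM2 : cst E l (k + 1) ≠ .one →
        dynprog_v (univ.filter fun i : Fin L => cst E l (L - i.val) = .one) (k + 1) =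
          dynprog_v (univ.filter fun i : Fin L => cst E l (L - i.val) = .one) k := by
      intro h
      refine dynprog_v_notMem _ k hkL hk ?_
      rw [← hi0]
      intro h2
      exact h ((hO _ rfl).mp h2)
    rw [hpos]
    by_cases hVi : i0 ∈ V
    · have hv : dynprog_v V (k + 1) = dynprog_v V k + 1 :=
        dynprog_v_mem V k hkL hk (by rw [← hi0]; exact hVi)
      have key : cst E l (k + 1) ≠ .neg ∧ dynprog_v V (k + 1) ≤
          dynprog_v (univ.filter fun i : Fin L => cst E l (L - i.val) = .one) (k + 1) := by
        by_cases hEi : i0 ∈ E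
        · rw [if_pos hEi] at hc
          rw [hM1 hc, hv]
          refine ⟨by rw [hc]; simp, by omega⟩
        · rw [if_neg hEi] at hc
          have hw : word l i0 = zc V i0 := (hy i0 hEi).symm.trans (hV i0 hVi)
          have hne := zc_ne_zero (q := q) hq V i0 hVi
          unfold word at hw
          cases hlk : l.lookup i0 with
          | none =>
            rw [hlk] at hw
            exact absurd hw.symm hne
          | some a =>
            rw [hlk] at hw hc
            have ha : a = zc V i0 := hw
            have hc' : cst E l (k + 1) = (if a = 2 then (if cst E l k = .neg then .neg else .one)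
              else if a = 1 then (if cst E l k = .one then .zero else .one) else .neg) := hc
            unfold zc at ha
            by_cases hj : ∃ j ∈ V, j.val = i0.val + 1
            · rw [if_pos hj] at ha
              rw [if_pos ha] at hc'
              have h1 : ∃ j ∈ V, j.val + k = L := by
                obtain ⟨j, hjV, hj1⟩ := hj
                exact ⟨j, hjV, by omega⟩
              rw [if_neg (ih2 h1)] at hc'
              rw [hM1 hc', hv]
              refine ⟨by rw [hc']; simp, by omega⟩
            · rw [if_neg hj] at ha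
              rw [if_neg (by rw [ha]; exact dynprog_one_ne_two hq), if_pos ha] at hc'
              have h1 : ¬ ∃ j ∈ V, j.val + k = L := by
                rintro ⟨j, hjV, hj1⟩
                exact hj ⟨j, hjV, by omega⟩
              by_cases hs : cst E l k = .one
              · rw [if_pos hs] at hc'
                rw [hM2 (by rw [hc']; simp), hv]
                refine ⟨by rw [hc']; simp, ?_⟩
                exact ih3 h1 hs
              · rw [if_neg hs] at hc'
                rw [hM1 hc', hv]
                refine ⟨by rw [hc']; simp, by omega⟩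
      exact ⟨key.2, fun _ => key.1, fun h => absurd hVi h⟩
    · have hv : dynprog_v V (k + 1) = dynprog_v V k :=
        dynprog_v_notMem V k hkL hk (by rw [← hi0]; exact hVi)
      refine ⟨?_, fun h => absurd h hVi, ?_⟩
      · by_cases hs : cst E l (k + 1) = .one
        · rw [hM1 hs, hv]
          omega
        · rw [hM2 hs, hv]
          exact ih1
      · intro _ hs
        rw [hM1 hs, hv]
        omega

theorem excOf_zc_le_gain {q L : ℕ} [NeZero q] (hq : 3 ≤ q) (l : Path L q)
    (E : Finset (Fin L)) (hd : Disjoint (sites l) E) : excOf zc l E ≤ gain E l := by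
  have _ := hd
  have h1 : (univ.filter fun y : Fin L → Fin q =>
      ∀ i, i ∉ E → y i = word l i).sup (levOf zc) ≤ E.card + gain E l := by
    refine Finset.sup_le fun y hy => ?_
    rw [Finset.mem_filter] at hy
    unfold levOf
    refine Finset.sup_le fun V hV => ?_
    rw [Finset.mem_filter] at hV
    have h2 := (dynprog_inv hq l E V y hy.2 hV.2 L le_rfl).1
    rw [dynprog_v_top, dynprog_v_top] at h2
    refine h2.trans ?_
    have h3 : (univ.filter fun i : Fin L => cst E l (L - i.val) = .one) ⊆
        E ∪ (univ.filter fun i : Fin L => i ∉ E ∧ cst E l (L - i.val) = .one) := by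
      intro i hi
      rw [Finset.mem_filter] at hi
      rw [Finset.mem_union, Finset.mem_filter]
      by_cases h4 : i ∈ E
      · exact Or.inl h4
      · exact Or.inr ⟨Finset.mem_univ _, h4, hi.2⟩
    exact (Finset.card_le_card h3).trans (Finset.card_union_le _ _)
  unfold excOf
  omega

end Pool.Agent.MPf4617e
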