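import Pool.Agent.Lib.MP_f4617e_lc.Engine
import Pool.Agent.Lib.MP_f4617e_lc.DynProg
import Pool.Agent.Lib.MP_f4617e_lc.ChainTree
import Pool.Agent.Lib.MP_f4617e_lc.ChainBd

/-!
MP_f4617e_lc: the chain system.
-/

set_option autoImplicit false

namespace Pool.Agent.MPf4617e

open Finset Filter Topology

open Classical in
theorem ach_chain {q : ℕ} (hq : 4 ≤ q) {τ : ℝ} (h0 : ((q : ℝ) - 1) / q ^ 2 ≤ τ)
    (h1 : 1 / ((q : ℝ) * (q - 1)) < 1 - 2 * τ)
    (h2 : 1 / ((q : ℝ) ^ 2 * τ) - 1 / (q * (q - 1) * (q * (1 - τ) - 1)) < 1 - 2 * τ) :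
    Achievable q τ := by
  have : NeZero q := ⟨by omega⟩
  have hq' : (4 : ℝ) ≤ q := by exact_mod_cast hq
  have hq0 : (0 : ℝ) < q := by linarith
  have hq1 : (0 : ℝ) < q - 1 := by linarith
  have hτ0 : 0 < τ := lt_of_lt_of_le (by positivity) h0
  have hτ1 : τ < 1 / 2 := by
    have : (0 : ℝ) < 1 / ((q : ℝ) * (q - 1)) := by positivity
    linarith
  have ha : al q τ * (q - 1) = τ * q := by unfold al; field_simp
  have ha0 : 0 < al q τ := by unfold al; positivity
  have ha1 : al q τ < 1 := by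
    unfold al; rw [div_lt_one hq1]; nlinarith
  -- the probability t
  obtain ⟨t, ht0, ht1, ht⟩ : ∃ t : ℝ, 0 ≤ t ∧ t ≤ 1 ∧ 1 + (q - 2) * t = q * (1 - al q τ) := by
    have hq2 : (0 : ℝ) < q - 2 := by linarith
    refine ⟨(q * (1 - al q τ) - 1) / (q - 2), ?_, ?_, ?_⟩
    · refine div_nonneg ?_ hq2.le
      have : q * (1 - al q τ) * (q - 1) = q * (q - 1 - τ * q) := by
        rw [← ha]; ring
      nlinarith
    · rw [div_le_one hq2]
      have h3 : (q : ℝ) - 1 ≤ τ * q ^ 2 := by rwa [div_le_iff₀ (by positivity)] at h0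
      have h4 : 1 ≤ q * al q τ := by
        have : q * al q τ * (q - 1) = τ * q ^ 2 := by
          calc q * al q τ * (q - 1) = q * (al q τ * (q - 1)) := by ring
            _ = _ := by rw [ha]; ring
        nlinarith
      nlinarith
    · field_simp; ring
  have hQ : 1 < (q : ℝ) * (1 - τ) := by nlinarith
  set Q : ℝ := q * (1 - τ) with hQd
  set c : ℝ := max (1 / (Q - 1)) (1 / (Q - 1) * (1 / al q τ - 1 / (Q - 1))) with hc
  have hQ1 : 0 < Q - 1 := by linarith
  have hc0 : 0 < c := lt_of_lt_of_le (by positivity) (le_max_left _ _)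
  have hbQ : (1 - al q τ) / (Q - 1) = 1 / (q - 1) := by
    rw [div_eq_div_iff hQ1.ne' hq1.ne']
    have : (1 - al q τ) * (q - 1) = q - 1 - τ * q := by rw [← ha]; ring
    rw [this, hQd]; ring
  set c' : ℝ := (1 - al q τ) * c / Q with hc'
  have hc'0 : 0 ≤ c' := by
    refine div_nonneg (mul_nonneg (by linarith) hc0.le) (by linarith)
  have hkey : c' * (1 - τ) < 1 - 2 * τ := by
    have h3 : c' * (1 - τ) = (1 - al q τ) * c / q := by
      rw [hc', hQd]
      have : (1 : ℝ) - τ ≠ 0 := by linarith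
      field_simp
    rw [h3, hc]
    rcases max_cases (1 / (Q - 1)) (1 / (Q - 1) * (1 / al q τ - 1 / (Q - 1))) with ⟨h, -⟩ | ⟨h, -⟩
    · rw [h]
      have : (1 - al q τ) * (1 / (Q - 1)) / q = 1 / (q * (q - 1)) := by
        rw [mul_one_div, hbQ]; field_simp
      rw [this]; exact h1
    · rw [h]
      have h4 : 1 / al q τ = (q - 1) / (τ * q) := by
        unfold al; rw [one_div_div]
      have : (1 - al q τ) * (1 / (Q - 1) * (1 / al q τ - 1 / (Q - 1))) / q =
          1 / ((q : ℝ) ^ 2 * τ) - 1 / (q * (q - 1) * (Q - 1)) := by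
        rw [← mul_assoc, mul_one_div, hbQ, h4]
        field_simp
      rw [this]; exact h2
  -- the block length
  obtain ⟨L, hL0, hL1⟩ : ∃ L : ℕ, 0 < L ∧ c' * (1 - τ) + 2 / L < 1 - 2 * τ := by
    obtain ⟨L, hL⟩ := exists_nat_gt (2 / (1 - 2 * τ - c' * (1 - τ)))
    have hd : 0 < 1 - 2 * τ - c' * (1 - τ) := by linarith
    have hLp : (0 : ℝ) < L := lt_trans (by positivity) hL
    refine ⟨L, by exact_mod_cast hLp, ?_⟩
    rw [div_lt_iff₀ hd] at hL
    have : 2 / (L : ℝ) < 1 - 2 * τ - c' * (1 - τ) := by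
      rw [div_lt_iff₀ hLp]; linarith
    linarith
  have hLp : (0 : ℝ) < L := by exact_mod_cast hL0
  have hc'1 : c' < 1 := by
    by_contra hcon
    push Not at hcon
    have h3 : (0 : ℝ) < 2 / L := by positivity
    nlinarith
  let T : Table q L := tableOf zc (zc_ne_zero (by omega))
  obtain ⟨W, hWt, hWg⟩ : ∃ W : Law q L, W.tree = chT (1 - al q τ) t L le_rfl none ∧
      ∀ l E, W.good l E ↔ Disjoint (sites l) E :=
    ⟨{ tree := chT (1 - al q τ) t L le_rfl none
       ok := chT_ok ⟨by linarith, by linarith⟩ ⟨ht0, ht1⟩ none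
       good := fun l E => Disjoint (sites l) E
       good_disj := fun _ _ h => h }, rfl, fun _ _ => Iff.rfl⟩
  have hZ : ∀ E : Finset (Fin L), W.Z E = (crec q τ E L).1 := by
    intro E
    rw [← (chT_LS hq ht E).1]
    unfold Law.Z
    rw [hWt]
    exact congrArg _ (funext fun l => if_congr (hWg l E) rfl rfl)
  have hX : ∀ E : Finset (Fin L), W.X T E ≤ (crec q τ E L).2.2.2.2 := by
    intro E
    rw [← (chT_LS hq ht E).2, ← hWt]
    unfold Law.X
    refine RT.LS_mono W.ok fun l _ _ => ?_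
    by_cases h : Disjoint (sites l) E
    · rw [if_pos h, if_pos ((hWg l E).2 h)]
      exact_mod_cast excOf_zc_le_gain (by omega) l E h
    · rw [if_neg h, if_neg (fun h' => h ((hWg l E).1 h'))]
  have hpos : ∀ e : ℕ, 0 < al q τ ^ e * (q * (1 - τ)) ^ (L - e) := by
    intro e
    have : 0 < (q : ℝ) * (1 - τ) := by linarith
    positivity
  refine engine (by omega) hL0 (c1 := 1 - c') (c2 := c' + 2 / L) hτ0 hτ1 (by linarith)
    (by linarith) (by positivity) (by nlinarith) ?_
  refine goodSystem_single T W hpos (fun E => ?_) (fun E => ?_)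
  · rw [hZ, crec_fst]
  · have hZp : 0 < W.Z E := by rw [hZ, crec_fst]; exact hpos _
    have hE : E.card ≤ L := by simpa using Finset.card_le_univ E
    have h3 := crec_bound hq hτ0 hτ1 (c := c) (le_max_left _ _) (le_max_right _ _) E
    rw [← hZ, ← hQd, ← hc'] at h3
    have h4 : W.X T E / W.Z E ≤ c' * (L - E.card) + 2 := by
      rw [div_le_iff₀ hZp]
      exact (hX E).trans h3
    have h5 : (c' + 2 / L) * (L : ℝ) = c' * L + 2 := by field_simp
    rw [h5]
    nlinarith

end Pool.Agent.MPf4617e
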