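import Pool.Agent.Lib.MP_f4617e_lc.LSBasic

/-!
MP_f4617e_lc, module SA: the counting table.
-/

set_option autoImplicit false

namespace Pool.Agent.MPf4617e

open Finset Filter Topology

theorem counttab_val {q L : ℕ} [NeZero q] (hq : L < q) (V : Finset (Fin L)) (i : Fin L) :
    (zs V i : Fin q).val = V.card := by
  have h : V.card ≤ L := by simpa using Finset.card_le_univ V
  simp only [zs, Fin.ofNat]
  exact Nat.mod_eq_of_lt (lt_of_le_of_lt h hq)

theorem zs_ne_zero {q L : ℕ} [NeZero q] (hq : L < q) (V : Finset (Fin L)) (i : Fin L)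
    (_ : i ∈ V) : (zs V i : Fin q) ≠ 0 := by
  intro h
  have h1 := counttab_val hq V i
  rw [h] at h1
  have h2 : 0 < V.card := Finset.card_pos.2 ⟨i, by assumption⟩
  simp at h1
  omega

/-- a position of `V` outside `E` carries a label with value `V.card` -/
theorem counttab_label {q L : ℕ} [NeZero q] (hq : L < q) (l : Path L q)
    (E V : Finset (Fin L)) (y : Fin L → Fin q) (hy : ∀ i, i ∉ E → y i = word l i)
    (hV : ∀ i ∈ V, y i = zs V i) (i : Fin L) (hi : i ∈ V) (hE : i ∉ E) :
    ∃ a : Fin q, (i, a) ∈ l ∧ a.val = V.card := by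
  have h1 : word l i = zs V i := by rw [← hy i hE, hV i hi]
  have h2 : (word l i).val = V.card := by rw [h1, counttab_val hq]
  have h3 : 0 < V.card := Finset.card_pos.2 ⟨i, hi⟩
  unfold word at h2
  rcases h : l.lookup i with _ | a
  · rw [h] at h2
    simp at h2
    omega
  · rw [h] at h2
    refine ⟨a, ?_, by simpa using h2⟩
    rw [List.lookup_eq_some_iff] at h
    obtain ⟨l1, l2, hl, _⟩ := h
    rw [hl]
    simp

theorem counttab_cnt {q L : ℕ} [NeZero q] (hq : L < q) (l : Path L q)
    (E V : Finset (Fin L)) (y : Fin L → Fin q) (hy : ∀ i, i ∉ E → y i = word l i)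
    (hV : ∀ i ∈ V, y i = zs V i) :
    V.card ≤ E.card + cnt V.card (l.map Prod.snd) := by
  have h1 : V \ E ⊆ ((l.filter fun p => p.2.val = V.card).toFinset).image Prod.fst := by
    intro i hi
    rw [Finset.mem_sdiff] at hi
    obtain ⟨a, ha, hav⟩ := counttab_label hq l E V y hy hV i hi.1 hi.2
    rw [mem_image]
    refine ⟨(i, a), ?_, rfl⟩
    rw [List.mem_toFinset, List.mem_filter]
    exact ⟨ha, by simpa using hav⟩
  have h2 : (V \ E).card ≤ cnt V.card (l.map Prod.snd) := by
    calc (V \ E).card ≤ _ := Finset.card_le_card h1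
      _ ≤ ((l.filter fun p => p.2.val = V.card).toFinset).card := Finset.card_image_le
      _ ≤ (l.filter fun p => p.2.val = V.card).length := List.toFinset_card_le _
      _ = cnt V.card (l.map Prod.snd) := by
        unfold cnt
        rw [List.countP_map, List.countP_eq_length_filter]
        rfl
  have h3 : V.card ≤ (V \ E).card + E.card := by
    have := Finset.card_le_card_sdiff_add_card (s := V) (t := E)
    omega
  omega

theorem excOf_zs_eq_zero {q L w0 : ℕ} [NeZero q] (hq : L < q) (l : Path L q)
    (E : Finset (Fin L)) (hn : (l.map Prod.fst).Nodup) (hd : Disjoint (sites l) E)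
    (he : 1 ≤ E.card) (hw : L ≤ l.length + E.card + w0)
    (ht : ¬ Trb L w0 (l.map Prod.snd)) : excOf zs l E = 0 := by
  unfold excOf
  refine Nat.sub_eq_zero_of_le ?_
  refine Finset.sup_le fun y hy => ?_
  rw [mem_filter] at hy
  refine Finset.sup_le fun V hV => ?_
  rw [mem_filter] at hV
  have h1 := counttab_cnt hq l E V y hy.2 hV.2
  have h2 : V.card ≤ L := by simpa using Finset.card_le_univ V
  have h3 : l.length + E.card ≤ L := by
    have h4 : (sites l).card = l.length := by
      unfold sites
      rw [List.toFinset_card_of_nodup hn, List.length_map]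
    have h5 := Finset.card_union_of_disjoint hd
    have h6 : (sites l ∪ E).card ≤ L := by simpa using Finset.card_le_univ (sites l ∪ E)
    omega
  by_contra hlt
  refine ht ⟨V.card, by omega, h2, ?_, ?_⟩
  · rw [List.length_map]
    omega
  · rw [List.length_map]
    rw [max_le_iff]
    omega

theorem excOf_zs_eq_zero' {q L : ℕ} [NeZero q] (hq : L < q) (l : Path L q)
    (E : Finset (Fin L)) (hd : Disjoint (sites l) E)
    (hl : ∀ p ∈ l, p.2.val = 0 ∨ L < p.2.val) : excOf zs l E = 0 := by
  unfold excOf
  refine Nat.sub_eq_zero_of_le ?_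
  refine Finset.sup_le fun y hy => ?_
  rw [mem_filter] at hy
  refine Finset.sup_le fun V hV => ?_
  rw [mem_filter] at hV
  refine Finset.card_le_card fun i hi => ?_
  by_contra hE
  obtain ⟨a, ha, hav⟩ := counttab_label hq l E V y hy.2 hV.2 i hi hE
  have h2 : V.card ≤ L := by simpa using Finset.card_le_univ V
  have h3 : 0 < V.card := Finset.card_pos.2 ⟨i, hi⟩
  rcases hl _ ha with h | h
  · change a.val = 0 at h
    omega
  · change L < a.val at h
    omega

end Pool.Agent.MPf4617e
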