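import Pool.Agent.Lib.MP_f4617e_lc.LSBasic

/-!
MP_f4617e_lc, module CV: greedy covering.
-/

set_option autoImplicit false

namespace Pool.Agent.MPf4617e

open Finset Filter Topology

open Classical in
/-- one greedy step -/
theorem cover_step {Ω Θ : Type} [Fintype Ω] [Fintype Θ] (P : Ω → ℝ) (hP : ∀ ω, 0 ≤ P ω)
    (hs : ∑ ω, P ω = 1) (hit : Ω → Θ → Prop) (p : ℝ)
    (h : ∀ t, p ≤ ∑ ω, P ω * (if hit ω t then 1 else 0)) (U : Finset Θ) :
    ∃ ω : Ω, p * (U.card : ℝ) ≤ ((U.filter fun t => hit ω t).card : ℝ) := by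
  by_contra hcon
  push Not at hcon
  have hsum : ∑ ω, P ω * ((U.filter fun t => hit ω t).card : ℝ) =
      ∑ t ∈ U, ∑ ω, P ω * (if hit ω t then (1 : ℝ) else 0) := by
    rw [Finset.sum_comm]
    refine Finset.sum_congr rfl fun ω _ => ?_
    rw [← Finset.mul_sum, Finset.sum_boole]
  have h1 : p * (U.card : ℝ) ≤ ∑ ω, P ω * ((U.filter fun t => hit ω t).card : ℝ) := by
    rw [hsum]
    calc p * (U.card : ℝ) = ∑ _t ∈ U, p := by simp [mul_comm]
      _ ≤ _ := Finset.sum_le_sum fun t _ => h t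
  have hne : ∃ ω, P ω ≠ 0 := by
    by_contra hz
    push Not at hz
    rw [Finset.sum_congr rfl fun ω _ => hz ω] at hs
    simp at hs
  obtain ⟨ω0, hω0⟩ := hne
  have h2 : ∑ ω, P ω * ((U.filter fun t => hit ω t).card : ℝ) <
      ∑ ω, P ω * (p * (U.card : ℝ)) := by
    refine Finset.sum_lt_sum (fun ω _ => mul_le_mul_of_nonneg_left (hcon ω).le (hP ω))
      ⟨ω0, Finset.mem_univ _, ?_⟩
    exact mul_lt_mul_of_pos_left (hcon ω0) (lt_of_le_of_ne (hP ω0) (Ne.symm hω0))
  rw [← Finset.sum_mul, hs, one_mul] at h2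
  exact absurd h1 (not_le.2 h2)

open Classical in
theorem cover {Ω Θ : Type} [Fintype Ω] [Fintype Θ] (P : Ω → ℝ) (hP : ∀ ω, 0 ≤ P ω)
    (hs : ∑ ω, P ω = 1) (hit : Ω → Θ → Prop) (p : ℝ) (hp : 0 < p)
    (h : ∀ t, p ≤ ∑ ω, P ω * (if hit ω t then 1 else 0)) (K : ℕ)
    (hK : (1 - p) ^ K * Fintype.card Θ < 1) :
    ∃ c : Fin K → Ω, ∀ t, ∃ k, hit (c k) t := by
  rcases isEmpty_or_nonempty Θ with hE | hN
  · have hne : Nonempty Ω := by
      by_contra hz
      rw [not_nonempty_iff] at hz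
      rw [Fintype.sum_empty] at hs
      exact zero_ne_one hs
    exact ⟨fun _ => hne.some, fun t => hE.elim t⟩
  have hp1 : p ≤ 1 := by
    obtain ⟨t⟩ := hN
    refine (h t).trans (le_of_le_of_eq ?_ hs)
    refine Finset.sum_le_sum fun ω _ => ?_
    by_cases hit0 : hit ω t
    · rw [if_pos hit0, mul_one]
    · rw [if_neg hit0, mul_zero]
      exact hP ω
  have key : ∀ n : ℕ, ∃ c : Fin n → Ω,
      ((univ.filter fun t : Θ => ∀ k, ¬ hit (c k) t).card : ℝ) ≤
        (1 - p) ^ n * Fintype.card Θ := by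
    intro n
    induction n with
    | zero =>
      refine ⟨Fin.elim0, ?_⟩
      rw [pow_zero, one_mul]
      exact_mod_cast Finset.card_le_univ _
    | succ n ih =>
      obtain ⟨c, hc⟩ := ih
      set U : Finset Θ := univ.filter fun t : Θ => ∀ k, ¬ hit (c k) t with hU
      obtain ⟨ω, hω⟩ := cover_step P hP hs hit p h U
      refine ⟨Fin.snoc c ω, ?_⟩
      have hset : (univ.filter fun t : Θ => ∀ k, ¬ hit ((Fin.snoc c ω : Fin (n + 1) → Ω) k) t) =
          U.filter fun t => ¬ hit ω t := by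
        ext t
        simp only [hU, Finset.mem_filter, Finset.mem_univ, true_and, Fin.forall_fin_succ',
          Fin.snoc_castSucc, Fin.snoc_last]
      rw [hset]
      have hsplit := Finset.card_filter_add_card_filter_not (s := U) (fun t => hit ω t)
      have hsplitR : ((U.filter fun t => hit ω t).card : ℝ) +
          ((U.filter fun t => ¬ hit ω t).card : ℝ) = U.card := by
        exact_mod_cast hsplit
      calc ((U.filter fun t => ¬ hit ω t).card : ℝ) ≤ (1 - p) * U.card := by linarith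
        _ ≤ (1 - p) * ((1 - p) ^ n * Fintype.card Θ) :=
            mul_le_mul_of_nonneg_left hc (by linarith)
        _ = (1 - p) ^ (n + 1) * Fintype.card Θ := by ring
  obtain ⟨c, hc⟩ := key K
  refine ⟨c, fun t => ?_⟩
  by_contra hcon
  push Not at hcon
  have h0 : (univ.filter fun t : Θ => ∀ k, ¬ hit (c k) t).card < 1 := by
    exact_mod_cast hc.trans_lt hK
  have h1 : t ∈ univ.filter fun t : Θ => ∀ k, ¬ hit (c k) t := by
    simp only [Finset.mem_filter, Finset.mem_univ, true_and]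
    exact hcon
  have h2 := Finset.card_pos.2 ⟨t, h1⟩
  omega

end Pool.Agent.MPf4617e
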