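import Pool.Agent.Lib.MP_f4617e_lc.Stmt

/-!
MP_f4617e_lc: the Hamming bound for `q`-ary codes correcting localized errors.
Definitions used by all files.
-/

set_option autoImplicit false

namespace Pool.Agent.MPf4617e

open Finset

/-! ### Codes with a decoder on an arbitrary finite set of positions -/

/-- `LocCode q S ok Msg`: a code for messages `Msg` on the set of positions `S` with a decoder
that is correct for every admissible error set (`ok E`). -/
def LocCode (q : ℕ) (S : Type) (ok : Finset S → Prop) (Msg : Type) : Prop :=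
  ∃ (enc : Msg → Finset S → S → Fin q) (dec : (S → Fin q) → Msg),
    ∀ m E, ok E → ∀ y : S → Fin q, (∀ i, i ∉ E → y i = enc m E i) → dec y = m

/-! ### Randomised reading trees on a block of `L` positions -/

/-- A path of a reading tree: the list of the positions read together with the symbols
(labels) found there. -/
abbrev Path (L q : ℕ) := List (Fin L × Fin q)

/-- Randomised reading trees. `read i k` reads a label at position `i` and continues with
`k label`; `mix n w t` continues with `t j` with probability `w j`. -/
inductive RT (L q : ℕ) : Type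
  | stop : RT L q
  | read : Fin L → (Fin q → RT L q) → RT L q
  | mix : (n : ℕ) → (Fin n → ℝ) → (Fin n → RT L q) → RT L q

/-- The leaf sum: `mix` nodes average, `read` nodes SUM over the labels. -/
def RT.LS {L q : ℕ} : RT L q → (Path L q → ℝ) → ℝ
  | .stop, f => f []
  | .read i k, f => ∑ a, (k a).LS fun l => f ((i, a) :: l)
  | .mix _ w t, f => ∑ j, w j * (t j).LS f

/-- Validity: no position is read twice (or lies in `S`), the weights of every `mix` node
are nonnegative with sum `1`. -/
def RT.Ok {L q : ℕ} : RT L q → Finset (Fin L) → Prop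
  | .stop, _ => True
  | .read i k, S => i ∉ S ∧ ∀ a, (k a).Ok (insert i S)
  | .mix _ w t, S => (∀ j, 0 ≤ w j) ∧ ∑ j, w j = 1 ∧ ∀ j, (t j).Ok S

/-- positions read along a path -/
def sites {L q : ℕ} (l : Path L q) : Finset (Fin L) := (l.map Prod.fst).toFinset

/-- the word written for a path: the labels at the positions read, the neutral symbol `0`
elsewhere -/
def word {L q : ℕ} [NeZero q] (l : Path L q) : Fin L → Fin q :=
  fun i => (l.lookup i).getD 0

/-- A table: `lev y` is the largest number of positions at which `y` may carry a special word;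
`spec E` is the special word used when the error set is `E`; `exc l E` bounds the excess of the
level over `|E|` when the word of the path `l` was sent and the error set is `E`. -/
structure Table (q L : ℕ) [NeZero q] where
  lev : (Fin L → Fin q) → ℕ
  spec : Finset (Fin L) → Fin L → Fin q
  exc : Path L q → Finset (Fin L) → ℕ
  lev_le : ∀ y, lev y ≤ L
  lev_spec : ∀ (E : Finset (Fin L)) (y : Fin L → Fin q), (∀ i, i ∉ E → y i = spec E i) →
    L ≤ lev y + E.card
  lev_zero : ∀ (E : Finset (Fin L)) (y : Fin L → Fin q), (∀ i, i ∉ E → y i = 0) →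
    lev y ≤ E.card
  lev_exc : ∀ (l : Path L q) (E : Finset (Fin L)) (y : Fin L → Fin q),
    (l.map Prod.fst).Nodup → Disjoint (sites l) E → (∀ i, i ∉ E → y i = word l i) →
      lev y ≤ E.card + exc l E

/-- A law: a randomised reading tree together with the set of (path, error set) pairs that the
encoder accepts. -/
structure Law (q L : ℕ) where
  tree : RT L q
  ok : tree.Ok ∅
  good : Path L q → Finset (Fin L) → Prop
  good_disj : ∀ l E, good l E → Disjoint (sites l) E

open Classical in
/-- total weight of the accepted leaves for the error set `E` -/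
noncomputable def Law.Z {q L : ℕ} (W : Law q L) (E : Finset (Fin L)) : ℝ :=
  W.tree.LS fun l => if W.good l E then 1 else 0

open Classical in
/-- total excess of the accepted leaves for the error set `E` -/
noncomputable def Law.X {q L : ℕ} [NeZero q] (W : Law q L) (T : Table q L)
    (E : Finset (Fin L)) : ℝ :=
  W.tree.LS fun l => if W.good l E then (T.exc l E : ℝ) else 0

/-- `α = τ q / (q - 1)` -/
noncomputable def al (q : ℕ) (τ : ℝ) : ℝ := τ * q / (q - 1)

/-- A good block system at `(q, τ)`: for every sequence of error sets of blocks one of finitely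
many laws has the full weight and a total level at most `c1 * (number of errors) + c2 * (length)`
on average. -/
def GoodSystem (q L : ℕ) [NeZero q] (τ c1 c2 : ℝ) : Prop :=
  ∃ (T : Table q L) (nΛ : ℕ) (W : Fin nΛ → Law q L), ∀ (B : ℕ) (E : Fin B → Finset (Fin L)),
    ∃ k : Fin nΛ,
      (∀ b, 0 < (W k).Z (E b)) ∧
      ∏ b, (al q τ ^ (E b).card * (q * (1 - τ)) ^ (L - (E b).card)) ≤ ∏ b, (W k).Z (E b) ∧
      ∑ b, (((E b).card : ℝ) + (W k).X T (E b) / (W k).Z (E b)) ≤
        c1 * ∑ b, ((E b).card : ℝ) + c2 * (B * L)

/-! ### Readers: deterministic readers with a random key -/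

/-- A finite family of deterministic readers realising the randomised tree `t`. -/
structure Reader (q L : ℕ) [NeZero q] (t : RT L q) where
  Ω : Type
  [fin : Fintype Ω]
  P : Ω → ℝ
  path : Ω → (ℕ → Fin q) → Path L q
  rd : Ω → (Fin L → Fin q) → List (Fin q)
  P_nonneg : ∀ ω, 0 ≤ P ω
  P_sum : ∑ ω, P ω = 1
  avg : ∀ (f : Path L q → ℝ) (δ : ℕ → Fin q),
    ∑ ω, P ω * ((q : ℝ) ^ (path ω δ).length * f (path ω δ)) = t.LS f
  nodup : ∀ ω δ, ((path ω δ).map Prod.fst).Nodup
  rd_ok : ∀ ω δ (y : Fin L → Fin q), (∀ i ∈ sites (path ω δ), y i = word (path ω δ) i) →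
    rd ω y = (List.range (path ω δ).length).map δ

attribute [instance] Reader.fin

/-- the paths of `B` consecutive blocks reading one stream of data -/
def Reader.seqPath {q L : ℕ} [NeZero q] {t : RT L q} (R : Reader q L t) :
    (B : ℕ) → (Fin B → R.Ω) → (ℕ → Fin q) → Fin B → Path L q
  | 0, _, _ => fun b => b.elim0
  | B + 1, w, δ => Fin.cons (R.path (w 0) δ)
      (R.seqPath B (Fin.tail w) fun n => δ (n + (R.path (w 0) δ).length))

/-! ### Part schemes and the chain -/

/-- A scheme for one part with positions `P`: the header `hd E d` of a part with error set `E`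
and data `d` (of length `rho E`) has a prefix code word of length `lam E`; the word `wd E d` is
written in the part; whoever knows the header recovers the data. -/
structure PartScheme (q : ℕ) (P : Type) (K : ℕ) where
  code : Fin K → List (Fin q)
  parse : List (Fin q) → Fin K × List (Fin q)
  parse_code : ∀ h l, parse (code h ++ l) = (h, l)
  rho : Finset P → ℕ
  lam : Finset P → ℕ
  hd : Finset P → List (Fin q) → Fin K
  wd : Finset P → List (Fin q) → P → Fin q
  rd : Fin K → (P → Fin q) → List (Fin q)
  len_hd : ∀ E d, d.length = rho E → (code (hd E d)).length = lam E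
  rd_hd : ∀ E d y, d.length = rho E → (∀ i, i ∉ E → y i = wd E d i) → rd (hd E d) y = d

/-- Decoding a chain of parts: the header of the next part is at the beginning of what has been
decoded so far (and not yet used). -/
def PartScheme.decL {q K : ℕ} {P : Type} (S : PartScheme q P K) :
    List (Fin q) → Fin K → List (P → Fin q) → List (Fin q)
  | b, _, [] => b
  | b, h, [y] => b ++ S.rd h y
  | b, h, y :: y' :: ys =>
      S.decL (S.parse (b ++ S.rd h y)).2 (S.parse (b ++ S.rd h y)).1 (y' :: ys)

/-- Levels of a part (as fractions of its length). -/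
structure PartLev (q : ℕ) [NeZero q] (P : Type) [Fintype P] where
  lev : (P → Fin q) → ℝ
  spec : Finset P → P → Fin q
  lev_nonneg : ∀ y, 0 ≤ lev y
  lev_le_one : ∀ y, lev y ≤ 1
  lev_spec : ∀ (E : Finset P) y, (∀ i, i ∉ E → y i = spec E i) →
    1 - (E.card : ℝ) / Fintype.card P ≤ lev y
  lev_zero : ∀ (E : Finset P) y, (∀ i, i ∉ E → y i = 0) → lev y ≤ (E.card : ℝ) / Fintype.card P

/-! ### The grid and the rendezvous -/

/-- the grid; also the set of pairs (slope, offset) -/
abbrev G (b d : ℕ) := (Fin d → ZMod b) × ZMod b

/-- the line (affine hyperplane) with slope `a.1` and offset `a.2` -/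
def line {b d : ℕ} [NeZero b] (a : G b d) : Finset (G b d) :=
  univ.filter fun g => g.2 = ∑ i, a.1 i * g.1 i + a.2

/-- a profile of error fractions with mean at most `τ` -/
def Prof {b d : ℕ} [NeZero b] (τ : ℝ) (w : G b d → ℝ) : Prop :=
  (∀ g, 0 ≤ w g ∧ w g ≤ 1) ∧ ∑ g, w g ≤ τ * (b : ℝ) ^ (d + 1)

/-- A rendezvous scheme: for the profile `w` and the label `m` the line `enc w m` is light, and it
is recovered from every set `T` of lines that contains it and otherwise only heavy lines. -/
structure RV (b d : ℕ) [NeZero b] (Q : ℕ) (τ θ : ℝ) (a0 a1 : Fin d → ZMod b) where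
  enc : (G b d → ℝ) → ℕ → G b d
  dec : Finset (G b d) → G b d
  lab : G b d → ℕ
  valid : Finset (Fin d → ZMod b)
  not0 : a0 ∉ valid
  not1 : a1 ∉ valid
  enc_valid : ∀ w m, Prof τ w → m < Q → (enc w m).1 ∈ valid
  lab_enc : ∀ w m, Prof τ w → m < Q → lab (enc w m) = m
  light : ∀ w m, Prof τ w → m < Q → ∑ g ∈ line (enc w m), w g ≤ τ * (b : ℝ) ^ d
  dec_ok : ∀ w m, Prof τ w → m < Q → ∀ T : Finset (G b d), enc w m ∈ T →
    (∀ a ∈ T, a.1 ∈ valid) →
    (∀ a ∈ T, a ≠ enc w m → θ * (b : ℝ) ^ d ≤ ∑ g ∈ line a, w g) → dec T = enc w m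

end Pool.Agent.MPf4617e
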