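import Pool.Agent.Lib.MP_f4617e_lc.LSBasic

/-!
MP_f4617e_lc: the grid, its lines, their intersections, light and heavy lines.
-/

set_option autoImplicit false

namespace Pool.Agent.MPf4617e

open Finset Filter Topology

theorem grid_mem {b d : ℕ} [NeZero b] (a g : G b d) :
    g ∈ line a ↔ g.2 = ∑ i, a.1 i * g.1 i + a.2 := by
  simp [line]

theorem card_line {b d : ℕ} [Fact b.Prime] (a : G b d) : (line a).card = b ^ d := by
  have h1 : line a = (univ : Finset (Fin d → ZMod b)).image
      (fun x => ((x, ∑ i, a.1 i * x i + a.2) : G b d)) := by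
    ext g
    rw [grid_mem, Finset.mem_image]
    constructor
    · intro h
      exact ⟨g.1, mem_univ _, by rw [← h]⟩
    · rintro ⟨x, -, rfl⟩
      rfl
  rw [h1, Finset.card_image_of_injective _ fun x y h => congrArg Prod.fst h]
  rw [Finset.card_univ, Fintype.card_fun, ZMod.card, Fintype.card_fin]

theorem inter_line {b d : ℕ} [Fact b.Prime] {a a' : G b d} (h : a ≠ a') :
    b * (line a ∩ line a').card ≤ b ^ d := by
  by_cases h1 : a.1 = a'.1
  · have h2 : line a ∩ line a' = ∅ := by
      ext g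
      rw [Finset.mem_inter, grid_mem, grid_mem]
      constructor
      · rintro ⟨h3, h4⟩
        exfalso
        apply h
        refine Prod.ext h1 ?_
        rw [h3, h1] at h4
        exact add_left_cancel h4
      · intro h3
        exact absurd h3 (Finset.notMem_empty g)
    rw [h2, Finset.card_empty, mul_zero]
    exact Nat.zero_le _
  · obtain ⟨i0, hi0⟩ : ∃ i0, a.1 i0 ≠ a'.1 i0 := by
      by_contra hcon
      push Not at hcon
      exact h1 (funext hcon)
    have hc : a.1 i0 - a'.1 i0 ≠ 0 := sub_ne_zero.mpr hi0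
    have h2 : ((univ : Finset (ZMod b)) ×ˢ (line a ∩ line a')).card ≤
        (univ : Finset (Fin d → ZMod b)).card := by
      refine Finset.card_le_card_of_injOn
        (fun p => p.2.1 + p.1 • (Pi.single i0 (1 : ZMod b) : Fin d → ZMod b))
        (fun p _ => mem_coe.mpr (mem_univ _)) ?_
      rintro ⟨t, g⟩ hg ⟨t', g'⟩ hg' heq
      simp only [coe_product, Set.mem_prod, mem_coe, mem_univ, true_and, Finset.mem_inter,
        grid_mem] at hg hg' heq
      have hval : ∀ (g : G b d) (t : ZMod b), (g.2 = ∑ i, a.1 i * g.1 i + a.2) →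
          (g.2 = ∑ i, a'.1 i * g.1 i + a'.2) →
          ∑ i, (a.1 i - a'.1 i) * (g.1 + t • (Pi.single i0 (1 : ZMod b) : Fin d → ZMod b)) i =
            (a'.2 - a.2) + t * (a.1 i0 - a'.1 i0) := by
        intro g t h3 h4
        have h5 : ∀ i, (a.1 i - a'.1 i) *
            (g.1 + t • (Pi.single i0 (1 : ZMod b) : Fin d → ZMod b)) i =
            (a.1 i * g.1 i - a'.1 i * g.1 i) +
              (if i = i0 then t * (a.1 i0 - a'.1 i0) else 0) := by
          intro i
          rw [Pi.add_apply, Pi.smul_apply, smul_eq_mul, Pi.single_apply]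
          by_cases hi : i = i0
          · rw [if_pos hi, if_pos hi, hi]
            ring
          · rw [if_neg hi, if_neg hi]
            ring
        rw [Finset.sum_congr rfl fun i _ => h5 i, Finset.sum_add_distrib,
          Finset.sum_sub_distrib, Finset.sum_ite_eq' univ i0, if_pos (mem_univ _)]
        rw [h3] at h4
        have h6 : ∑ i, a.1 i * g.1 i - ∑ i, a'.1 i * g.1 i = a'.2 - a.2 := by
          rw [sub_eq_sub_iff_add_eq_add, h4]
          ring
        rw [h6]
      have h3 := hval g t hg.1 hg.2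
      have h4 := hval g' t' hg'.1 hg'.2
      rw [heq, h4] at h3
      have h5 : t' = t := mul_right_cancel₀ hc (add_left_cancel h3)
      subst h5
      have h6 : g.1 = g'.1 := add_right_cancel heq
      have h7 : g.2 = g'.2 := by rw [hg.1, hg'.1, h6]
      exact Prod.ext rfl (Prod.ext h6 h7)
    rw [Finset.card_product, Finset.card_univ, Finset.card_univ, Fintype.card_fun, ZMod.card,
      Fintype.card_fin] at h2
    exact h2

theorem exists_light {b d : ℕ} [Fact b.Prime] {τ : ℝ} {w : G b d → ℝ} (hw : Prof τ w)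
    (α : Fin d → ZMod b) : ∃ u : ZMod b, ∑ g ∈ line (α, u), w g ≤ τ * (b : ℝ) ^ d := by
  by_contra hcon
  push Not at hcon
  have h1 : ∑ u : ZMod b, ∑ g ∈ line (α, u), w g = ∑ g, w g := by
    have h2 : ∀ u : ZMod b, line (α, u) =
        (univ : Finset (G b d)).filter (fun g => g.2 - ∑ i, α i * g.1 i = u) := by
      intro u
      ext g
      rw [grid_mem, Finset.mem_filter]
      constructor
      · intro h
        refine ⟨mem_univ _, ?_⟩
        rw [h]
        ring
      · rintro ⟨-, h⟩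
        rw [← h]
        ring
    rw [Finset.sum_congr rfl fun u _ => by rw [h2 u]]
    exact Finset.sum_fiberwise _ _ _
  have h2 : ∑ u : ZMod b, τ * (b : ℝ) ^ d < ∑ u : ZMod b, ∑ g ∈ line (α, u), w g :=
    Finset.sum_lt_sum_of_nonempty ⟨0, mem_univ _⟩ fun u _ => hcon u
  rw [h1, Finset.sum_const, Finset.card_univ, ZMod.card, nsmul_eq_mul] at h2
  have h3 := hw.2
  rw [pow_succ] at h3
  linarith

theorem grid_final {ι : Type} [Fintype ι] (F w : ι → ℝ) (b N K τ θ : ℝ) (hb : 0 < b)
    (hN : 0 < N) (hK : 0 < K) (hτθ : τ < θ) (hcard : (Fintype.card ι : ℝ) = b * N)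
    (hF1 : ∑ g, F g = K * N) (hFw : K * (θ * N) ≤ ∑ g, F g * w g)
    (hF2 : ∑ g, F g ^ 2 ≤ K * N + K * K * (N / b)) (hw2 : ∑ g, w g ^ 2 ≤ ∑ g, w g)
    (hW : ∑ g, w g ≤ τ * (b * N)) : K ≤ b / (4 * (θ - τ) ^ 2) := by
  have hpos : 0 < (θ - τ) ^ 2 := by
    have : 0 < θ - τ := by linarith
    positivity
  have hbN : 0 < b * N := by positivity
  obtain ⟨μ, hWμ⟩ : ∃ μ : ℝ, ∑ g, w g = μ * (b * N) :=
    ⟨(∑ g, w g) / (b * N), by field_simp⟩
  have hμτ : μ ≤ τ := by
    rw [hWμ] at hW
    exact le_of_mul_le_mul_right hW hbN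
  have hcs := Finset.sum_mul_sq_le_sq_mul_sq (univ : Finset ι) (fun g => F g - K / b)
    (fun g => w g - μ)
  have hone : ∀ c : ℝ, ∑ _g : ι, c = (b * N) * c := by
    intro c
    rw [Finset.sum_const, Finset.card_univ, nsmul_eq_mul, hcard]
  have e1 : ∑ g, (F g - K / b) * (w g - μ) = ∑ g, F g * w g - K * μ * N := by
    have h1 : ∀ g, (F g - K / b) * (w g - μ) = F g * w g - μ * F g - (K / b) * w g + (K / b) * μ :=
      fun g => by ring
    rw [Finset.sum_congr rfl fun g _ => h1 g, Finset.sum_add_distrib, Finset.sum_sub_distrib,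
      Finset.sum_sub_distrib, ← Finset.mul_sum, ← Finset.mul_sum, hone, hF1, hWμ]
    field_simp
    ring
  have e2 : ∑ g, (F g - K / b) ^ 2 = ∑ g, F g ^ 2 - K * K * (N / b) := by
    have h1 : ∀ g, (F g - K / b) ^ 2 = F g ^ 2 - (2 * (K / b)) * F g + (K / b) ^ 2 :=
      fun g => by ring
    rw [Finset.sum_congr rfl fun g _ => h1 g, Finset.sum_add_distrib, Finset.sum_sub_distrib,
      ← Finset.mul_sum, hone, hF1]
    field_simp
    ring
  have e3 : ∑ g, (w g - μ) ^ 2 = ∑ g, w g ^ 2 - μ ^ 2 * (b * N) := by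
    have h1 : ∀ g, (w g - μ) ^ 2 = w g ^ 2 - (2 * μ) * w g + μ ^ 2 := fun g => by ring
    rw [Finset.sum_congr rfl fun g _ => h1 g, Finset.sum_add_distrib, Finset.sum_sub_distrib,
      ← Finset.mul_sum, hone, hWμ]
    ring
  rw [e1, e2, e3] at hcs
  have g4 : 0 ≤ ∑ g, w g ^ 2 - μ ^ 2 * (b * N) := by
    rw [← e3]
    exact Finset.sum_nonneg fun g _ => sq_nonneg _
  generalize ∑ g, F g * w g = A at *
  generalize ∑ g, F g ^ 2 = B at *
  generalize ∑ g, w g ^ 2 = C at *
  have g1 : K * N * (θ - τ) ≤ A - K * μ * N := by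
    have h1 : K * N * μ ≤ K * N * τ := mul_le_mul_of_nonneg_left hμτ (by positivity)
    linarith
  have g2 : B - K * K * (N / b) ≤ K * N := by linarith
  have g3 : C - μ ^ 2 * (b * N) ≤ b * N / 4 := by
    have h1 : μ - μ ^ 2 ≤ 1 / 4 := by nlinarith [sq_nonneg (μ - 1 / 2)]
    have h2 : (μ - μ ^ 2) * (b * N) ≤ 1 / 4 * (b * N) :=
      mul_le_mul_of_nonneg_right h1 hbN.le
    have h3 : (μ - μ ^ 2) * (b * N) = μ * (b * N) - μ ^ 2 * (b * N) := by ring
    linarith
  have g5 : (K * N * (θ - τ)) ^ 2 ≤ (K * N) * (b * N / 4) := by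
    have h1 : 0 ≤ K * N * (θ - τ) := by
      have : 0 ≤ θ - τ := by linarith
      positivity
    calc (K * N * (θ - τ)) ^ 2 ≤ (A - K * μ * N) ^ 2 := pow_le_pow_left₀ h1 g1 2
      _ ≤ _ := hcs
      _ ≤ (K * N) * (b * N / 4) := mul_le_mul g2 g3 g4 (by positivity)
  rw [le_div_iff₀ (by positivity)]
  have g6 : (K * N * (θ - τ)) ^ 2 = (K * N ^ 2) * (K * (θ - τ) ^ 2) := by ring
  have g7 : (K * N) * (b * N / 4) = (K * N ^ 2) * (b / 4) := by ring
  rw [g6, g7] at g5
  have g8 : K * (θ - τ) ^ 2 ≤ b / 4 := le_of_mul_le_mul_left g5 (by positivity)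
  linarith

theorem heavy_card {b d : ℕ} [Fact b.Prime] {τ θ : ℝ} (hτθ : τ < θ) {w : G b d → ℝ}
    (hw : Prof τ w) (H : Finset (G b d))
    (hH : ∀ a ∈ H, θ * (b : ℝ) ^ d ≤ ∑ g ∈ line a, w g) :
    (H.card : ℝ) ≤ b / (4 * (θ - τ) ^ 2) := by
  have hb : (0 : ℝ) < b := by
    have := (Fact.out : b.Prime).pos
    exact_mod_cast this
  set N : ℝ := (b : ℝ) ^ d with hN
  have hNpos : 0 < N := by positivity
  set K : ℝ := (H.card : ℝ) with hK
  have hK0 : 0 ≤ K := Nat.cast_nonneg _
  rcases hK0.eq_or_lt with h0 | hKpos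
  · rw [← h0]
    positivity
  have hpos : 0 < (θ - τ) ^ 2 := by
    have : 0 < θ - τ := by linarith
    positivity
  set I : G b d → G b d → ℝ := fun a g => if g ∈ line a then 1 else 0 with hI
  have hcardG : (Fintype.card (G b d) : ℝ) = b * N := by
    rw [Fintype.card_prod, Fintype.card_fun, ZMod.card, Fintype.card_fin, hN]
    push_cast
    ring
  have hI1 : ∀ a, ∑ g, I a g = N := by
    intro a
    simp only [hI]
    rw [Finset.sum_ite_mem, Finset.univ_inter, Finset.sum_const, card_line, nsmul_eq_mul,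
      mul_one, hN]
    push_cast
    rfl
  have hIw : ∀ a, ∑ g, I a g * w g = ∑ g ∈ line a, w g := by
    intro a
    have : ∀ g, I a g * w g = if g ∈ line a then w g else 0 := by
      intro g
      simp only [hI]
      split_ifs <;> simp
    rw [Finset.sum_congr rfl fun g _ => this g, Finset.sum_ite_mem, Finset.univ_inter]
  have hII : ∀ a a', ∑ g, I a g * I a' g = ((line a ∩ line a').card : ℝ) := by
    intro a a'
    have : ∀ g, I a g * I a' g = if g ∈ line a ∩ line a' then 1 else 0 := by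
      intro g
      simp only [hI, Finset.mem_inter]
      by_cases h1 : g ∈ line a <;> by_cases h2 : g ∈ line a' <;> simp [h1, h2]
    rw [Finset.sum_congr rfl fun g _ => this g, Finset.sum_ite_mem, Finset.univ_inter,
      Finset.sum_const, nsmul_eq_mul, mul_one]
  set F : G b d → ℝ := fun g => ∑ a ∈ H, I a g with hF
  set W : ℝ := ∑ g, w g with hW
  have hF1 : ∑ g, F g = K * N := by
    rw [hF, Finset.sum_comm, Finset.sum_congr rfl fun a _ => hI1 a, Finset.sum_const,
      nsmul_eq_mul]
  have hFw : K * (θ * N) ≤ ∑ g, F g * w g := by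
    have h1 : ∑ g, F g * w g = ∑ a ∈ H, ∑ g ∈ line a, w g := by
      rw [Finset.sum_congr rfl fun a _ => (hIw a).symm, Finset.sum_comm]
      refine Finset.sum_congr rfl fun g _ => ?_
      rw [hF, Finset.sum_mul]
    rw [h1]
    have h2 := Finset.card_nsmul_le_sum H (fun a => ∑ g ∈ line a, w g) (θ * N) hH
    rwa [nsmul_eq_mul] at h2
  have hF2 : ∑ g, F g ^ 2 ≤ K * N + K * K * (N / b) := by
    have h1 : ∑ g, F g ^ 2 = ∑ a ∈ H, ∑ a' ∈ H, ((line a ∩ line a').card : ℝ) := by
      have h2 : ∀ g, F g ^ 2 = ∑ a ∈ H, ∑ a' ∈ H, I a g * I a' g := by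
        intro g
        rw [hF, sq, Finset.sum_mul_sum]
      rw [Finset.sum_congr rfl fun g _ => h2 g, Finset.sum_comm]
      refine Finset.sum_congr rfl fun a _ => ?_
      rw [Finset.sum_comm]
      exact Finset.sum_congr rfl fun a' _ => hII a a'
    rw [h1]
    have h2 : ∀ a ∈ H, ∑ a' ∈ H, ((line a ∩ line a').card : ℝ) ≤ N + K * (N / b) := by
      intro a ha
      have h3 : ∀ a' ∈ H, ((line a ∩ line a').card : ℝ) ≤
          (if a' = a then N else 0) + N / b := by
        intro a' _
        by_cases haa : a' = a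
        · rw [if_pos haa, haa, Finset.inter_self, card_line]
          have : 0 ≤ N / b := by positivity
          push_cast
          linarith
        · rw [if_neg haa, zero_add, le_div_iff₀ hb]
          have h4 := inter_line (a := a) (a' := a') (fun h => haa h.symm)
          have h5 : (b : ℝ) * ((line a ∩ line a').card : ℝ) ≤ N := by
            rw [hN]
            exact_mod_cast h4
          linarith
      refine (Finset.sum_le_sum h3).trans ?_
      rw [Finset.sum_add_distrib, Finset.sum_const, nsmul_eq_mul]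
      have h4 : ∑ a' ∈ H, (if a' = a then N else 0) ≤ N := by
        rw [Finset.sum_ite_eq', if_pos ha]
      linarith
    refine (Finset.sum_le_sum h2).trans ?_
    rw [Finset.sum_const, nsmul_eq_mul]
    have : (H.card : ℝ) * (N + K * (N / b)) = K * N + K * K * (N / b) := by
      rw [← hK]; ring
    exact this.le
  have hw2 : ∑ g, w g ^ 2 ≤ W :=
    Finset.sum_le_sum fun g _ => by
      have h1 := (hw.1 g).1
      have h2 := (hw.1 g).2
      nlinarith
  have hW' : ∑ g, w g ≤ τ * ((b : ℝ) * N) := by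
    have h1 := hw.2
    rw [pow_succ] at h1
    have h2 : τ * ((b : ℝ) ^ d * b) = τ * (b * N) := by rw [hN]; ring
    linarith
  exact grid_final F w b N K τ θ hb hNpos hKpos hτθ hcardG hF1 hFw hF2 hw2 hW'

end Pool.Agent.MPf4617e
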