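import Pool.Agent.Lib.MP_f4617e_lc.LSBasic
import Pool.Agent.Lib.MP_f4617e_lc.Grid

/-!
MP_f4617e_lc: the rendezvous (tournament classes and decoding).
-/

set_option autoImplicit false

namespace Pool.Agent.MPf4617e

open Finset Filter Topology

theorem exists_classes (K0 : ℕ) : ∃ (C : ℕ) (beats : Fin C → Fin C → Prop),
    (∀ c c', beats c c' → ¬ beats c' c) ∧
    ∀ H : Finset (Fin C), H.card ≤ K0 → ∃ c, ∀ c' ∈ H, beats c c' := by
  classical
  let U := Fin (K0 * K0 + 1)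
  let Cl := U × {B : Finset U // B.card ≤ K0}
  let e : Cl ≃ Fin (Fintype.card Cl) := Fintype.equivFin Cl
  refine ⟨Fintype.card Cl, fun c c' => (e.symm c').1 ∈ (e.symm c).2.1 ∧
    (e.symm c).1 ∉ (e.symm c').2.1, fun c c' h h' => h'.2 h.1, fun H hH => ?_⟩
  -- the set of first components
  let B : Finset U := H.image fun c => (e.symm c).1
  have hB : B.card ≤ K0 := card_image_le.trans hH
  let V : Finset U := H.biUnion fun c => (e.symm c).2.1
  have hV : V.card ≤ K0 * K0 := by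
    refine (card_biUnion_le_card_mul H _ K0 fun c _ => (e.symm c).2.2).trans ?_
    exact Nat.mul_le_mul_right _ hH
  obtain ⟨x, hx⟩ : ∃ x : U, x ∉ V := by
    by_contra hcon
    push Not at hcon
    have h1 : V = univ := eq_univ_of_forall hcon
    rw [h1, card_univ, Fintype.card_fin] at hV
    omega
  refine ⟨e (x, ⟨B, hB⟩), fun c' hc' => ?_⟩
  change (e.symm c').1 ∈ (e.symm (e (x, ⟨B, hB⟩))).2.1 ∧
    (e.symm (e (x, ⟨B, hB⟩))).1 ∉ (e.symm c').2.1
  rw [Equiv.symm_apply_apply]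
  refine ⟨mem_image_of_mem _ hc', fun h => hx ?_⟩
  exact mem_biUnion.2 ⟨c', hc', h⟩

theorem exists_rv (b : ℕ) [Fact b.Prime] (τ θ : ℝ) (hτθ : τ < θ) :
    ∃ C : ℕ, ∀ (d Q : ℕ) (a0 a1 : Fin d → ZMod b), Q * C + 2 ≤ b ^ d →
      Nonempty (RV b d Q τ θ a0 a1) := by
  classical
  obtain ⟨C, beats, hanti, hbeat⟩ := exists_classes ⌊(b : ℝ) / (4 * (θ - τ) ^ 2)⌋₊
  refine ⟨C, fun d Q a0 a1 hQ => ?_⟩
  obtain ⟨c0, _⟩ := hbeat ∅ (by simp)
  -- the slopes
  let S : Finset (Fin d → ZMod b) := univ \ {a0, a1}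
  have hS : Q * C ≤ S.card := by
    have h1 : (univ : Finset (Fin d → ZMod b)).card = b ^ d := by
      rw [card_univ, Fintype.card_fun, ZMod.card, Fintype.card_fin]
    have h2 : ({a0, a1} : Finset (Fin d → ZMod b)).card ≤ 2 := card_le_two
    have h3 : (univ : Finset (Fin d → ZMod b)).card ≤ S.card + ({a0, a1} : Finset _).card := by
      have := card_sdiff_add_card (univ : Finset (Fin d → ZMod b)) {a0, a1}
      have h4 : (univ ∪ {a0, a1} : Finset (Fin d → ZMod b)) = univ := by simp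
      rw [h4] at this
      exact this.ge
    omega
  obtain ⟨ι⟩ : Nonempty (Fin C × Fin Q ↪ S) := by
    rw [Function.Embedding.nonempty_iff_card_le]
    simp only [Fintype.card_prod, Fintype.card_fin, Fintype.card_coe]
    rw [mul_comm]
    exact hS
  let valid : Finset (Fin d → ZMod b) := univ.image fun p => (ι p : Fin d → ZMod b)
  have hvalid : ∀ α ∈ valid, α ∈ S := by
    intro α hα
    obtain ⟨p, _, rfl⟩ := mem_image.1 hα
    exact (ι p).2
  let cls : (Fin d → ZMod b) → Fin C := fun α =>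
    if h : ∃ p, (ι p : Fin d → ZMod b) = α then h.choose.1 else c0
  let lbl : (Fin d → ZMod b) → ℕ := fun α =>
    if h : ∃ p, (ι p : Fin d → ZMod b) = α then h.choose.2 else 0
  have hchoose : ∀ (p : Fin C × Fin Q) (h : ∃ p', (ι p' : Fin d → ZMod b) = ι p),
      h.choose = p := fun p h => ι.injective (Subtype.ext h.choose_spec)
  have hcls : ∀ p, cls (ι p) = p.1 := by
    intro p
    have h : ∃ p', (ι p' : Fin d → ZMod b) = ι p := ⟨p, rfl⟩
    simp only [cls, dif_pos h, hchoose p h]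
  have hlbl : ∀ p, lbl (ι p) = p.2 := by
    intro p
    have h : ∃ p', (ι p' : Fin d → ZMod b) = ι p := ⟨p, rfl⟩
    simp only [lbl, dif_pos h, hchoose p h]
  have key : ∀ (w : G b d → ℝ) (m : ℕ), ∃ a : G b d, Prof τ w → m < Q →
      a.1 ∈ valid ∧ lbl a.1 = m ∧ ∑ g ∈ line a, w g ≤ τ * (b : ℝ) ^ d ∧
      ∀ a' : G b d, a'.1 ∈ valid → θ * (b : ℝ) ^ d ≤ ∑ g ∈ line a', w g →
        beats (cls a.1) (cls a'.1) := by
    intro w m
    by_cases hwm : Prof τ w ∧ m < Q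
    · obtain ⟨hw, hm⟩ := hwm
      let H0 : Finset (G b d) := univ.filter fun a => a.1 ∈ valid ∧
        θ * (b : ℝ) ^ d ≤ ∑ g ∈ line a, w g
      have h1 : (H0.card : ℝ) ≤ b / (4 * (θ - τ) ^ 2) :=
        heavy_card hτθ hw H0 fun a ha => (mem_filter.1 ha).2.2
      have h2 : (H0.image fun a => cls a.1).card ≤ ⌊(b : ℝ) / (4 * (θ - τ) ^ 2)⌋₊ :=
        card_image_le.trans (Nat.le_floor h1)
      obtain ⟨c, hc⟩ := hbeat _ h2
      obtain ⟨u, hu⟩ := exists_light hw (ι (c, ⟨m, hm⟩) : Fin d → ZMod b)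
      refine ⟨(ι (c, ⟨m, hm⟩), u), fun _ _ => ⟨mem_image_of_mem _ (mem_univ _), hlbl _, hu, ?_⟩⟩
      intro a' ha' hθ'
      change beats (cls (ι (c, ⟨m, hm⟩))) (cls a'.1)
      rw [hcls]
      exact hc _ (mem_image.2 ⟨a', mem_filter.2 ⟨mem_univ _, ha', hθ'⟩, rfl⟩)
    · exact ⟨0, fun hw hm => absurd ⟨hw, hm⟩ hwm⟩
  choose enc henc using key
  let dec : Finset (G b d) → G b d := fun T =>
    if h : ∃ a ∈ T, ∀ a' ∈ T, a' ≠ a → beats (cls a.1) (cls a'.1) then h.choose else 0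
  refine ⟨⟨enc, dec, fun g => lbl g.1, valid, ?_, ?_, fun w m hw hm => (henc w m hw hm).1,
    fun w m hw hm => (henc w m hw hm).2.1, fun w m hw hm => (henc w m hw hm).2.2.1, ?_⟩⟩
  · intro h
    have := hvalid _ h
    simp [S] at this
  · intro h
    have := hvalid _ h
    simp [S] at this
  · intro w m hw hm T hT hTv hTh
    have hP : ∀ a' ∈ T, a' ≠ enc w m → beats (cls (enc w m).1) (cls a'.1) := fun a' ha' hne =>
      (henc w m hw hm).2.2.2 a' (hTv a' ha') (hTh a' ha' hne)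
    have h : ∃ a ∈ T, ∀ a' ∈ T, a' ≠ a → beats (cls a.1) (cls a'.1) := ⟨_, hT, hP⟩
    have h1 : dec T = h.choose := by
      simp only [dec, dif_pos h]
    rw [h1]
    by_contra hne
    exact hanti _ _ (hP _ h.choose_spec.1 hne) (h.choose_spec.2 _ hT (Ne.symm hne))

theorem RV.identify {b d : ℕ} [NeZero b] {Q : ℕ} {τ θ : ℝ} {a0 a1 : Fin d → ZMod b}
    (R : RV b d Q τ θ a0 a1) {w : G b d → ℝ} {m : ℕ} (hw : Prof τ w) (hm : m < Q)
    (hcard : ∀ a : G b d, (line a).card = b ^ d)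
    (lv : G b d → ℝ) (c1 c2 : ℝ) (hc1 : 0 < c1) (hθ : c1 * θ + c2 ≤ 1 - τ)
    (h1 : ∀ g ∈ line (R.enc w m), 1 - w g ≤ lv g)
    (h2 : ∀ a : G b d, a.1 ∈ R.valid → a ≠ R.enc w m →
      ∑ g ∈ line a, lv g ≤ c1 * ∑ g ∈ line a, w g + c2 * (b : ℝ) ^ d)
    (T : Finset (G b d))
    (hT : ∀ a, a ∈ T ↔ a.1 ∈ R.valid ∧ (1 - τ) * (b : ℝ) ^ d ≤ ∑ g ∈ line a, lv g) :
    R.dec T = R.enc w m := by
  have hb : (0 : ℝ) ≤ (b : ℝ) ^ d := by positivity
  refine R.dec_ok w m hw hm T ?_ (fun a ha => ((hT a).1 ha).1) ?_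
  · rw [hT]
    refine ⟨R.enc_valid w m hw hm, ?_⟩
    have h3 : ∑ g ∈ line (R.enc w m), (1 - w g) ≤ ∑ g ∈ line (R.enc w m), lv g :=
      sum_le_sum h1
    have h4 : ∑ g ∈ line (R.enc w m), (1 - w g) =
        (b : ℝ) ^ d - ∑ g ∈ line (R.enc w m), w g := by
      rw [sum_sub_distrib, sum_const, hcard, nsmul_eq_mul, mul_one]
      push_cast
      rfl
    have h5 := R.light w m hw hm
    rw [h4] at h3
    linarith
  · intro a ha hne
    have h3 := h2 a ((hT a).1 ha).1 hne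
    have h4 := ((hT a).1 ha).2
    have h5 : (c1 * θ + c2) * (b : ℝ) ^ d ≤ (1 - τ) * (b : ℝ) ^ d :=
      mul_le_mul_of_nonneg_right hθ hb
    have h6 : c1 * (θ * (b : ℝ) ^ d) ≤ c1 * ∑ g ∈ line a, w g := by nlinarith
    exact le_of_mul_le_mul_left h6 hc1

end Pool.Agent.MPf4617e
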