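import Pool.Agent.Lib.MP_f4617e_lc.LSBasic
import Pool.Agent.Lib.MP_f4617e_lc.Grid
import Pool.Agent.Lib.MP_f4617e_lc.Rendez

/-!
MP_f4617e_lc, module GA1: the two-level rendezvous (`transmit`).
-/

set_option autoImplicit false

namespace Pool.Agent.MPf4617e

open Finset Filter Topology

/-- the line of the points with last coordinate `c * (first coordinate) + u` -/
def transmit_lin {b d : ℕ} [NeZero b] (c u : ZMod b) : Finset (G b (d + 1)) :=
  line ((Pi.single 0 c : Fin (d + 1) → ZMod b), u)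

/-- the parametrisation of `transmit_lin c u` by the smaller grid -/
def transmit_emb {b d : ℕ} (c u : ZMod b) (γ : G b d) : G b (d + 1) :=
  ((Fin.cons γ.2 γ.1 : Fin (d + 1) → ZMod b), c * γ.2 + u)

theorem transmit_mem_lin {b d : ℕ} [NeZero b] {c u : ZMod b} {g : G b (d + 1)} :
    g ∈ transmit_lin c u ↔ g.2 = c * g.1 0 + u := by
  unfold transmit_lin line
  rw [mem_filter]
  simp only [mem_univ, true_and]
  have h : ∑ i, (Pi.single 0 c : Fin (d + 1) → ZMod b) i * g.1 i = c * g.1 0 := by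
    rw [Finset.sum_eq_single 0]
    · simp
    · intro i _ hi
      simp [Pi.single_eq_of_ne hi]
    · intro h
      exact absurd (mem_univ _) h
  rw [h]

theorem transmit_emb_mem {b d : ℕ} [NeZero b] (c u : ZMod b) (γ : G b d) :
    transmit_emb c u γ ∈ transmit_lin c u := by
  rw [transmit_mem_lin]
  simp [transmit_emb]

theorem transmit_emb_inj {b d : ℕ} (c u : ZMod b) :
    Function.Injective (transmit_emb c u : G b d → G b (d + 1)) := by
  intro γ γ' h
  have h1 : (Fin.cons γ.2 γ.1 : Fin (d + 1) → ZMod b) = Fin.cons γ'.2 γ'.1 :=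
    congrArg Prod.fst h
  have h2 : γ.2 = γ'.2 := by
    have := congrFun h1 0
    simpa using this
  have h3 : γ.1 = γ'.1 := by
    have := congrArg Fin.tail h1
    simpa using this
  exact Prod.ext h3 h2

theorem transmit_sum {b d : ℕ} [NeZero b] (c u : ZMod b) (f : G b (d + 1) → ℝ) :
    ∑ γ : G b d, f (transmit_emb c u γ) = ∑ g ∈ transmit_lin c u, f g := by
  refine Finset.sum_nbij' (transmit_emb c u) (fun g => (Fin.tail g.1, g.1 0)) ?_ ?_ ?_ ?_ ?_
  · intro γ _
    exact transmit_emb_mem c u γ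
  · intro g _
    exact mem_univ _
  · intro γ _
    simp [transmit_emb]
  · intro g hg
    rw [transmit_mem_lin] at hg
    simp only [transmit_emb, Fin.cons_self_tail]
    exact Prod.ext rfl hg.symm
  · intro γ _
    rfl

/-- the cardinality of the intersection of two different lines, as a real number -/
theorem transmit_inter {b d : ℕ} [Fact b.Prime] {a a' : G b (d + 1)} (h : a ≠ a') :
    ((line a ∩ line a').card : ℝ) ≤ (b : ℝ) ^ d := by
  have hb : 0 < b := (Fact.out : b.Prime).pos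
  have h1 := inter_line h
  have h2 : b * (line a ∩ line a').card ≤ b * b ^ d := by
    calc b * (line a ∩ line a').card ≤ b ^ (d + 1) := h1
      _ = b * b ^ d := by ring
  have h3 := Nat.le_of_mul_le_mul_left h2 hb
  exact_mod_cast h3

/-- the profile on the smaller grid -/
theorem transmit_prof {b d : ℕ} [Fact b.Prime] {τ : ℝ} {w : G b (d + 1) → ℝ}
    (hw : ∀ g, 0 ≤ w g ∧ w g ≤ 1) (c u : ZMod b)
    (hD : ∑ g ∈ transmit_lin c u, w g ≤ τ * (b : ℝ) ^ (d + 1))
    (O : Finset (G b (d + 1)))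
    (hO : ((transmit_lin c u ∩ O).card : ℝ) ≤ 2 * (b : ℝ) ^ d) :
    Prof (τ + 2 / b) (fun γ : G b d => if transmit_emb c u γ ∈ O then (1 : ℝ)
      else w (transmit_emb c u γ)) := by
  have hb : (0 : ℝ) < b := by exact_mod_cast (Fact.out : b.Prime).pos
  refine ⟨fun γ => ?_, ?_⟩
  · dsimp only
    split_ifs
    · exact ⟨zero_le_one, le_refl _⟩
    · exact hw _
  · have h1 : ∀ γ : G b d, (if transmit_emb c u γ ∈ O then (1 : ℝ) else w (transmit_emb c u γ)) ≤
        w (transmit_emb c u γ) + (if transmit_emb c u γ ∈ O then (1 : ℝ) else 0) := by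
      intro γ
      have := (hw (transmit_emb c u γ)).1
      split_ifs <;> linarith
    have h2 : ∑ γ : G b d, (if transmit_emb c u γ ∈ O then (1 : ℝ) else 0) =
        ((transmit_lin c u ∩ O).card : ℝ) := by
      rw [transmit_sum c u (fun g => if g ∈ O then (1 : ℝ) else 0)]
      rw [← Finset.sum_filter]
      simp [Finset.filter_mem_eq_inter]
    calc ∑ γ : G b d, (if transmit_emb c u γ ∈ O then (1 : ℝ) else w (transmit_emb c u γ))
        ≤ ∑ γ : G b d, (w (transmit_emb c u γ) +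
            (if transmit_emb c u γ ∈ O then (1 : ℝ) else 0)) :=
          Finset.sum_le_sum fun γ _ => h1 γ
      _ = ∑ g ∈ transmit_lin c u, w g + ((transmit_lin c u ∩ O).card : ℝ) := by
          rw [Finset.sum_add_distrib, h2, transmit_sum c u w]
      _ ≤ τ * (b : ℝ) ^ (d + 1) + 2 * (b : ℝ) ^ d := add_le_add hD hO
      _ = (τ + 2 / b) * (b : ℝ) ^ (d + 1) := by
          rw [pow_succ]
          field_simp

/-- second level: the line of the smaller grid is identified -/
theorem transmit_step2 {b d : ℕ} [Fact b.Prime] {Q : ℕ} {τ2 θ2 : ℝ} {a0 a1 : Fin d → ZMod b}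
    (R : RV b d Q τ2 θ2 a0 a1) (hθ : θ2 + 1 / b ≤ 1 - τ2) (c u : ZMod b)
    (O : Finset (G b (d + 1))) (w lv : G b (d + 1) → ℝ) (w' : G b d → ℝ)
    (hw' : w' = fun γ : G b d => if transmit_emb c u γ ∈ O then (1 : ℝ)
      else w (transmit_emb c u γ))
    (hP : Prof τ2 w') {n : ℕ} (hn : n < Q)
    (hlv : ∀ g, 0 ≤ lv g ∧ lv g ≤ 1)
    (hspec : ∀ γ ∈ line (R.enc w' n), transmit_emb c u γ ∉ O →
      1 - w (transmit_emb c u γ) ≤ lv (transmit_emb c u γ))
    (hzero : ∀ γ, γ ∉ line (R.enc w' n) → transmit_emb c u γ ∉ O →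
      lv (transmit_emb c u γ) ≤ w (transmit_emb c u γ))
    (T : Finset (G b d))
    (hT : ∀ a, a ∈ T ↔ a.1 ∈ R.valid ∧
      (1 - τ2) * (b : ℝ) ^ d ≤ ∑ γ ∈ line a, lv (transmit_emb c u γ)) :
    R.dec T = R.enc w' n := by
  have hb : (0 : ℝ) < b := by exact_mod_cast (Fact.out : b.Prime).pos
  refine R.identify hP hn card_line (fun γ => lv (transmit_emb c u γ)) 1 (1 / b) one_pos
    (by linarith) ?_ ?_ T hT
  · intro γ hγ
    by_cases h : transmit_emb c u γ ∈ O
    · have : w' γ = 1 := by rw [hw']; simp [h]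
      rw [this]
      simpa using (hlv _).1
    · have : w' γ = w (transmit_emb c u γ) := by rw [hw']; simp [h]
      rw [this]
      exact hspec γ hγ h
  · intro a _ hne
    have h1 : ∀ γ ∈ line a, lv (transmit_emb c u γ) ≤
        w' γ + (if γ ∈ line (R.enc w' n) then (1 : ℝ) else 0) := by
      intro γ _
      by_cases h : transmit_emb c u γ ∈ O
      · have h2 : w' γ = 1 := by rw [hw']; simp [h]
        rw [h2]
        have := (hlv (transmit_emb c u γ)).2
        split_ifs <;> linarith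
      · by_cases h3 : γ ∈ line (R.enc w' n)
        · rw [if_pos h3]
          have := (hlv (transmit_emb c u γ)).2
          have := (hP.1 γ).1
          linarith
        · rw [if_neg h3]
          have h2 : w' γ = w (transmit_emb c u γ) := by rw [hw']; simp [h]
          rw [h2]
          have := hzero γ h3 h
          linarith
    have h2 : ∑ γ ∈ line a, (if γ ∈ line (R.enc w' n) then (1 : ℝ) else 0) =
        ((line a ∩ line (R.enc w' n)).card : ℝ) := by
      rw [← Finset.sum_filter]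
      simp [Finset.filter_mem_eq_inter]
    have h3 : ((line a ∩ line (R.enc w' n)).card : ℝ) ≤ 1 / b * (b : ℝ) ^ d := by
      have h4 := inter_line hne
      have h5 : (b : ℝ) * ((line a ∩ line (R.enc w' n)).card : ℝ) ≤ (b : ℝ) ^ d := by
        exact_mod_cast h4
      rw [div_mul_eq_mul_div, one_mul, le_div_iff₀ hb]
      linarith
    calc ∑ γ ∈ line a, lv (transmit_emb c u γ)
        ≤ ∑ γ ∈ line a, (w' γ + (if γ ∈ line (R.enc w' n) then (1 : ℝ) else 0)) :=
          Finset.sum_le_sum h1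
      _ = ∑ γ ∈ line a, w' γ + ((line a ∩ line (R.enc w' n)).card : ℝ) := by
          rw [Finset.sum_add_distrib, h2]
      _ ≤ 1 * ∑ γ ∈ line a, w' γ + 1 / b * (b : ℝ) ^ d := by
          rw [one_mul]
          exact add_le_add le_rfl h3

/-- first level: the line `enc w m` of the big grid is identified -/
theorem transmit_step1 {b d : ℕ} [Fact b.Prime] {Q : ℕ} {τ θ c1 c2 : ℝ}
    (R : RV b (d + 1) Q τ θ (Pi.single 0 0) (Pi.single 0 1)) (hc1 : 0 < c1) (hc2 : 0 ≤ c2)
    (hθ : c1 * θ + (c2 + 3 / b) ≤ 1 - τ) {w lv : G b (d + 1) → ℝ} (hw : Prof τ w) {m : ℕ}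
    (hm : m < Q) (u1 u2 : ZMod b) (hlv : ∀ g, 0 ≤ lv g ∧ lv g ≤ 1)
    (hspec : ∀ g ∈ line (R.enc w m), 1 - w g ≤ lv g)
    (hpay : ∀ g, g ∉ line (R.enc w m) → g ∉ transmit_lin 0 u1 → g ∉ transmit_lin 1 u2 →
      lv g ≤ c1 * w g + c2)
    (T : Finset (G b (d + 1)))
    (hT : ∀ a, a ∈ T ↔ a.1 ∈ R.valid ∧
      (1 - τ) * (b : ℝ) ^ (d + 1) ≤ ∑ g ∈ line a, lv g) :
    R.dec T = R.enc w m := by
  classical
  have hb : (0 : ℝ) < b := by exact_mod_cast (Fact.out : b.Prime).pos
  refine R.identify hw hm card_line lv c1 (c2 + 3 / b) hc1 hθ hspec ?_ T hT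
  intro a ha hne
  have hne1 : a ≠ ((Pi.single 0 0 : Fin (d + 1) → ZMod b), u1) := by
    intro h
    exact R.not0 (by rw [h] at ha; exact ha)
  have hne2 : a ≠ ((Pi.single 0 1 : Fin (d + 1) → ZMod b), u2) := by
    intro h
    exact R.not1 (by rw [h] at ha; exact ha)
  have h1 : ∀ g ∈ line a, lv g ≤ c1 * w g + c2 +
      ((if g ∈ line (R.enc w m) then (1 : ℝ) else 0) +
        (if g ∈ transmit_lin 0 u1 then (1 : ℝ) else 0) +
        (if g ∈ transmit_lin 1 u2 then (1 : ℝ) else 0)) := by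
    intro g _
    have h3 := (hlv g).2
    have h4 : 0 ≤ c1 * w g := mul_nonneg hc1.le (hw.1 g).1
    by_cases ha1 : g ∈ line (R.enc w m)
    · rw [if_pos ha1]
      split_ifs <;> linarith
    · by_cases ha2 : g ∈ transmit_lin 0 u1
      · rw [if_pos ha2]
        split_ifs <;> linarith
      · by_cases ha3 : g ∈ transmit_lin 1 u2
        · rw [if_pos ha3]
          split_ifs <;> linarith
        · have := hpay g ha1 ha2 ha3
          rw [if_neg ha1, if_neg ha2, if_neg ha3]
          linarith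
  have hcnt : ∀ S : Finset (G b (d + 1)), ∑ g ∈ line a, (if g ∈ S then (1 : ℝ) else 0) =
      ((line a ∩ S).card : ℝ) := by
    intro S
    rw [← Finset.sum_filter]
    simp [Finset.filter_mem_eq_inter]
  have e1 := transmit_inter hne
  have e2 := transmit_inter hne1
  have e3 := transmit_inter hne2
  have hc : ((line a).card : ℝ) = (b : ℝ) ^ (d + 1) := by
    rw [card_line]; push_cast; rfl
  calc ∑ g ∈ line a, lv g ≤ ∑ g ∈ line a, (c1 * w g + c2 +
      ((if g ∈ line (R.enc w m) then (1 : ℝ) else 0) +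
        (if g ∈ transmit_lin 0 u1 then (1 : ℝ) else 0) +
        (if g ∈ transmit_lin 1 u2 then (1 : ℝ) else 0))) := Finset.sum_le_sum h1
    _ = c1 * ∑ g ∈ line a, w g + c2 * (b : ℝ) ^ (d + 1) +
        (((line a ∩ line (R.enc w m)).card : ℝ) + ((line a ∩ transmit_lin 0 u1).card : ℝ) +
          ((line a ∩ transmit_lin 1 u2).card : ℝ)) := by
        rw [Finset.sum_add_distrib, Finset.sum_add_distrib, Finset.sum_add_distrib,
          Finset.sum_add_distrib, hcnt, hcnt, hcnt, ← Finset.mul_sum, Finset.sum_const,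
          nsmul_eq_mul, hc]
        ring
    _ ≤ c1 * ∑ g ∈ line a, w g + c2 * (b : ℝ) ^ (d + 1) + 3 * (b : ℝ) ^ d := by
        unfold transmit_lin
        linarith
    _ = c1 * ∑ g ∈ line a, w g + (c2 + 3 / b) * (b : ℝ) ^ (d + 1) := by
        rw [pow_succ]
        field_simp
        ring

theorem transmit (b : ℕ) [Fact b.Prime] (c1 c2 τ : ℝ) (hc1 : 0 < c1) (hc2 : 0 ≤ c2)
    (hτ : 0 ≤ τ) (h1 : c1 * τ + c2 + 3 / b < 1 - τ) (h2 : 5 / (b : ℝ) < 1 - 2 * τ) :
    ∃ C : ℕ, ∀ d Q M : ℕ, Q * C + 2 ≤ b ^ d → b ^ 2 * C + 2 ≤ b ^ (d + 1) → M ≤ Q * Q →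
      ∃ (sp : (G b (d + 1) → ℝ) → ℕ → Finset (G b (d + 1)))
        (pay : (G b (d + 1) → ℝ) → Finset (G b (d + 1)))
        (dec : (G b (d + 1) → ℝ) → Finset (G b (d + 1)) × ℕ),
        ∀ w, Prof τ w → ∀ m, m < M →
          Disjoint (sp w m) (pay w) ∧ b ^ (d + 2) ≤ (pay w).card + 3 * b ^ (d + 1) ∧
          ∀ lv : G b (d + 1) → ℝ, (∀ g, 0 ≤ lv g ∧ lv g ≤ 1) →
            (∀ g ∈ sp w m, 1 - w g ≤ lv g) →
            (∀ g, g ∉ sp w m → g ∉ pay w → lv g ≤ w g) →
            (∀ g ∈ pay w, lv g ≤ c1 * w g + c2) → dec lv = (pay w, m) := by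
  classical
  have hbp : b.Prime := Fact.out
  have hb : (0 : ℝ) < b := by exact_mod_cast hbp.pos
  -- the constants
  set θ1 : ℝ := (1 - τ - c2 - 3 / b) / c1 with hθ1
  set τ2 : ℝ := τ + 2 / b with hτ2
  set θ2 : ℝ := 1 - τ2 - 1 / b with hθ2
  have hlt1 : τ < θ1 := by
    rw [hθ1, lt_div_iff₀ hc1]
    linarith
  have h5 : (5 : ℝ) / b = 2 / b + 2 / b + 1 / b := by ring
  have hlt2 : τ2 < θ2 := by
    rw [hθ2, hτ2]
    linarith
  have hθ1' : c1 * θ1 + (c2 + 3 / b) ≤ 1 - τ := by
    rw [hθ1, mul_div_cancel₀ _ hc1.ne']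
    linarith
  obtain ⟨C1, hC1⟩ := exists_rv b τ θ1 hlt1
  obtain ⟨C2, hC2⟩ := exists_rv b τ2 θ2 hlt2
  refine ⟨max C1 C2, fun d Q M hQ hb2 hM => ?_⟩
  obtain ⟨R1⟩ := hC1 (d + 1) (b ^ 2) (Pi.single 0 0) (Pi.single 0 1)
    (le_trans (Nat.add_le_add_right (Nat.mul_le_mul_left _ (le_max_left _ _)) _) hb2)
  obtain ⟨R2⟩ := hC2 d Q 0 0
    (le_trans (Nat.add_le_add_right (Nat.mul_le_mul_left _ (le_max_right _ _)) _) hQ)
  -- the encoder
  let U : ZMod b → (G b (d + 1) → ℝ) → ZMod b := fun c w =>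
    Classical.epsilon fun u => ∑ g ∈ transmit_lin c u, w g ≤ τ * (b : ℝ) ^ (d + 1)
  let m1 : (G b (d + 1) → ℝ) → ℕ := fun w => (U 0 w).val * b + (U 1 w).val
  let e1 : (G b (d + 1) → ℝ) → G b (d + 1) := fun w => R1.enc w (m1 w)
  let payOf : G b (d + 1) → ZMod b → ZMod b → Finset (G b (d + 1)) := fun e u u' =>
    univ \ (line e ∪ transmit_lin 0 u ∪ transmit_lin 1 u')
  let W1 : (G b (d + 1) → ℝ) → G b d → ℝ := fun w γ =>
    if transmit_emb 0 (U 0 w) γ ∈ line (e1 w) then (1 : ℝ) else w (transmit_emb 0 (U 0 w) γ)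
  let W2 : (G b (d + 1) → ℝ) → G b d → ℝ := fun w γ =>
    if transmit_emb 1 (U 1 w) γ ∈ line (e1 w) ∪ transmit_lin 0 (U 0 w) then (1 : ℝ)
      else w (transmit_emb 1 (U 1 w) γ)
  let T1 : (G b (d + 1) → ℝ) → Finset (G b (d + 1)) := fun lv =>
    univ.filter fun a => a.1 ∈ R1.valid ∧ (1 - τ) * (b : ℝ) ^ (d + 1) ≤ ∑ g ∈ line a, lv g
  let T2 : ZMod b → ZMod b → (G b (d + 1) → ℝ) → Finset (G b d) := fun c u lv =>
    univ.filter fun a => a.1 ∈ R2.valid ∧
      (1 - τ2) * (b : ℝ) ^ d ≤ ∑ γ ∈ line a, lv (transmit_emb c u γ)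
  refine ⟨fun w m => line (e1 w) ∪
      (line (R2.enc (W1 w) (m / Q))).image (transmit_emb 0 (U 0 w)) ∪
      ((line (R2.enc (W2 w) (m % Q))).image (transmit_emb 1 (U 1 w)) \ transmit_lin 0 (U 0 w)),
    fun w => payOf (e1 w) (U 0 w) (U 1 w),
    fun lv =>
      (payOf (R1.dec (T1 lv)) ((R1.lab (R1.dec (T1 lv)) / b : ℕ) : ZMod b)
        ((R1.lab (R1.dec (T1 lv)) % b : ℕ) : ZMod b),
       R2.lab (R2.dec (T2 0 ((R1.lab (R1.dec (T1 lv)) / b : ℕ) : ZMod b) lv)) * Q +
       R2.lab (R2.dec (T2 1 ((R1.lab (R1.dec (T1 lv)) % b : ℕ) : ZMod b) lv))), ?_⟩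
  intro w hw m hm
  -- facts about the encoder
  have hU : ∀ c, ∑ g ∈ transmit_lin c (U c w), w g ≤ τ * (b : ℝ) ^ (d + 1) := by
    intro c
    have := exists_light hw (Pi.single 0 c : Fin (d + 1) → ZMod b)
    exact Classical.epsilon_spec this
  have hv0 : (U 0 w).val < b := ZMod.val_lt _
  have hv1 : (U 1 w).val < b := ZMod.val_lt _
  have hm1 : m1 w < b ^ 2 := by
    change (U 0 w).val * b + (U 1 w).val < b ^ 2
    nlinarith
  have hval : (e1 w).1 ∈ R1.valid := R1.enc_valid w (m1 w) hw hm1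
  have hn0 : e1 w ≠ ((Pi.single 0 0 : Fin (d + 1) → ZMod b), U 0 w) := by
    intro h
    rw [h] at hval
    exact R1.not0 hval
  have hn1 : e1 w ≠ ((Pi.single 0 1 : Fin (d + 1) → ZMod b), U 1 w) := by
    intro h
    rw [h] at hval
    exact R1.not1 hval
  have hn01 : ((Pi.single 0 0 : Fin (d + 1) → ZMod b), U 0 w) ≠
      ((Pi.single 0 1 : Fin (d + 1) → ZMod b), U 1 w) := by
    intro h
    have h3 := congrFun (congrArg Prod.fst h) 0
    haveI : Fact (1 < b) := ⟨hbp.one_lt⟩
    have h4 : (0 : ZMod b) = 1 := by simpa using h3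
    exact zero_ne_one h4
  have hQ0 : 0 < Q := by
    rcases Nat.eq_zero_or_pos Q with h | h
    · subst h
      simp at hM
      omega
    · exact h
  have hmQ : m < Q * Q := lt_of_lt_of_le hm hM
  have hdiv : m / Q < Q := Nat.div_lt_of_lt_mul hmQ
  have hmod : m % Q < Q := Nat.mod_lt _ hQ0
  -- profiles
  have hP1 : Prof τ2 (W1 w) := by
    refine transmit_prof hw.1 0 (U 0 w) (hU 0) (line (e1 w)) ?_
    have h3 := transmit_inter hn0.symm
    have h4 : (0 : ℝ) ≤ (b : ℝ) ^ d := by positivity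
    unfold transmit_lin
    linarith
  have hP2 : Prof τ2 (W2 w) := by
    refine transmit_prof hw.1 1 (U 1 w) (hU 1) (line (e1 w) ∪ transmit_lin 0 (U 0 w)) ?_
    have h3 := transmit_inter hn1.symm
    have h4 := transmit_inter hn01.symm
    rw [Finset.inter_union_distrib_left]
    have h5 : (((transmit_lin 1 (U 1 w) ∩ line (e1 w) ∪
        transmit_lin 1 (U 1 w) ∩ transmit_lin 0 (U 0 w) : Finset (G b (d + 1)))).card : ℝ) ≤
        ((transmit_lin 1 (U 1 w) ∩ line (e1 w) : Finset (G b (d + 1))).card : ℝ) +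
        ((transmit_lin 1 (U 1 w) ∩ transmit_lin 0 (U 0 w) :
          Finset (G b (d + 1))).card : ℝ) := by
      exact_mod_cast Finset.card_union_le _ _
    unfold transmit_lin at h5 ⊢
    linarith
  refine ⟨?_, ?_, ?_⟩
  · -- disjointness
    rw [Finset.disjoint_left]
    intro g hg hg'
    simp only [payOf, Finset.mem_sdiff, mem_univ, true_and, mem_union, not_or] at hg'
    simp only [mem_union, Finset.mem_sdiff, mem_image] at hg
    rcases hg with (hg | ⟨γ, _, rfl⟩) | ⟨⟨γ, _, rfl⟩, _⟩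
    · exact hg'.1.1 hg
    · exact hg'.1.2 (transmit_emb_mem _ _ _)
    · exact hg'.2 (transmit_emb_mem _ _ _)
  · -- cardinality
    have h3 : (line (e1 w) ∪ transmit_lin 0 (U 0 w) ∪ transmit_lin 1 (U 1 w)).card ≤
        3 * b ^ (d + 1) := by
      refine le_trans (Finset.card_union_le _ _) ?_
      have h4 := Finset.card_union_le (line (e1 w)) (transmit_lin 0 (U 0 w))
      have h5 : (line (e1 w)).card = b ^ (d + 1) := card_line _
      have h6 : (transmit_lin 0 (U 0 w) : Finset (G b (d + 1))).card = b ^ (d + 1) :=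
        card_line _
      have h7 : (transmit_lin 1 (U 1 w) : Finset (G b (d + 1))).card = b ^ (d + 1) :=
        card_line _
      omega
    have h4 : (univ : Finset (G b (d + 1))).card = b ^ (d + 2) := by
      rw [Finset.card_univ]
      simp only [G, Fintype.card_prod, Fintype.card_fun, Fintype.card_fin, ZMod.card]
      ring
    have h5 := Finset.le_card_sdiff
      (line (e1 w) ∪ transmit_lin 0 (U 0 w) ∪ transmit_lin 1 (U 1 w))
      (univ : Finset (G b (d + 1)))
    rw [h4] at h5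
    change b ^ (d + 2) ≤ (univ \ (line (e1 w) ∪ transmit_lin 0 (U 0 w) ∪
      transmit_lin 1 (U 1 w))).card + 3 * b ^ (d + 1)
    omega
  · -- decoding
    intro lv hlv hs hz hp
    have hX : ∀ g ∈ line (e1 w), 1 - w g ≤ lv g := by
      intro g hg
      exact hs g (by simp only [mem_union]; exact Or.inl (Or.inl hg))
    have hd1 : R1.dec (T1 lv) = e1 w := by
      refine transmit_step1 R1 hc1 hc2 hθ1' hw hm1 (U 0 w) (U 1 w) hlv hX ?_ (T1 lv) ?_
      · intro g g1 g2 g3
        refine hp g ?_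
        simp only [payOf, Finset.mem_sdiff, mem_univ, true_and, mem_union, not_or]
        exact ⟨⟨g1, g2⟩, g3⟩
      · intro a
        simp [T1]
    have hlab : R1.lab (e1 w) = m1 w := R1.lab_enc w (m1 w) hw hm1
    have hu0 : ((m1 w / b : ℕ) : ZMod b) = U 0 w := by
      have : m1 w / b = (U 0 w).val := by
        change ((U 0 w).val * b + (U 1 w).val) / b = (U 0 w).val
        rw [Nat.mul_comm, Nat.mul_add_div hbp.pos, Nat.div_eq_of_lt hv1, Nat.add_zero]
      rw [this, ZMod.natCast_zmod_val]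
    have hu1 : ((m1 w % b : ℕ) : ZMod b) = U 1 w := by
      have : m1 w % b = (U 1 w).val := by
        change ((U 0 w).val * b + (U 1 w).val) % b = (U 1 w).val
        rw [Nat.mul_comm, Nat.mul_add_mod, Nat.mod_eq_of_lt hv1]
      rw [this, ZMod.natCast_zmod_val]
    have hd21 : R2.dec (T2 0 (U 0 w) lv) = R2.enc (W1 w) (m / Q) := by
      refine transmit_step2 R2 (by linarith) 0 (U 0 w) (line (e1 w)) w lv (W1 w) rfl hP1
        hdiv hlv ?_ ?_ (T2 0 (U 0 w) lv) ?_
      · intro γ hγ _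
        refine hs _ ?_
        simp only [mem_union, mem_image]
        exact Or.inl (Or.inr ⟨γ, hγ, rfl⟩)
      · intro γ hγ hO
        refine hz _ ?_ ?_
        · simp only [mem_union, mem_image, Finset.mem_sdiff, not_or]
          refine ⟨⟨hO, ?_⟩, ?_⟩
          · rintro ⟨γ', hγ', h⟩
            rw [transmit_emb_inj _ _ h] at hγ'
            exact hγ hγ'
          · rintro ⟨_, h⟩
            exact h (transmit_emb_mem _ _ _)
        · simp only [payOf, Finset.mem_sdiff, mem_univ, true_and, mem_union, not_or, not_and]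
          intro h
          exact absurd (transmit_emb_mem _ _ _) h.2
      · intro a
        simp [T2]
    have hd22 : R2.dec (T2 1 (U 1 w) lv) = R2.enc (W2 w) (m % Q) := by
      refine transmit_step2 R2 (by linarith) 1 (U 1 w) (line (e1 w) ∪ transmit_lin 0 (U 0 w))
        w lv (W2 w) rfl hP2 hmod hlv ?_ ?_ (T2 1 (U 1 w) lv) ?_
      · intro γ hγ hO
        refine hs _ ?_
        simp only [mem_union, not_or] at hO
        simp only [mem_union, mem_image, Finset.mem_sdiff]
        exact Or.inr ⟨⟨γ, hγ, rfl⟩, hO.2⟩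
      · intro γ hγ hO
        simp only [mem_union, not_or] at hO
        refine hz _ ?_ ?_
        · simp only [mem_union, mem_image, Finset.mem_sdiff, not_or]
          refine ⟨⟨hO.1, ?_⟩, ?_⟩
          · rintro ⟨γ', _, h⟩
            exact hO.2 (h ▸ transmit_emb_mem _ _ _)
          · rintro ⟨⟨γ', hγ', h⟩, _⟩
            rw [transmit_emb_inj _ _ h] at hγ'
            exact hγ hγ'
        · simp only [payOf, Finset.mem_sdiff, mem_univ, true_and, mem_union, not_or, not_and]
          intro _ h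
          exact h (transmit_emb_mem _ _ _)
      · intro a
        simp [T2]
    have hl1 : R2.lab (R2.enc (W1 w) (m / Q)) = m / Q := R2.lab_enc _ _ hP1 hdiv
    have hl2 : R2.lab (R2.enc (W2 w) (m % Q)) = m % Q := R2.lab_enc _ _ hP2 hmod
    dsimp only
    rw [hd1, hlab, hu0, hu1, hd21, hd22, hl1, hl2, Nat.div_add_mod']

end Pool.Agent.MPf4617e
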