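import Pool.Agent.Lib.MP_f4617e_lc.LSBasic
import Pool.Agent.Lib.MP_f4617e_lc.Chain
import Pool.Agent.Lib.MP_f4617e_lc.Transmit

/-!
MP_f4617e_lc, module GA2: the global code.
-/

set_option autoImplicit false

namespace Pool.Agent.MPf4617e

open Finset Filter Topology

/-- the `k`-th element of `F` -/
noncomputable def global_en {α : Type} (a0 : α) (F : Finset α) (k : ℕ) : α :=
  if h : k < F.card then (F.equivFin.symm ⟨k, h⟩ : α) else a0

theorem global_en_equiv {α : Type} (a0 : α) (F : Finset α) {N : ℕ} (hN : F.card = N + 1) :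
    ∃ e : Fin (N + 1) ≃ F, ∀ j : Fin (N + 1), (e j : α) = global_en a0 F j := by
  refine ⟨(finCongr hN.symm).trans F.equivFin.symm, fun j => ?_⟩
  have hj : (j : ℕ) < F.card := by rw [hN]; exact j.2
  simp only [global_en, dif_pos hj, Equiv.trans_apply]
  rfl

/-- the error set of the part `g` -/
noncomputable def global_Eg {α P : Type} [Fintype P] (E : Finset (α × P)) (g : α) : Finset P := by
  classical exact univ.filter fun p => (g, p) ∈ E

theorem global_mem_Eg {α P : Type} [Fintype P] (E : Finset (α × P)) (g : α) (p : P) :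
    p ∈ global_Eg E g ↔ (g, p) ∈ E := by
  classical
  simp [global_Eg]

theorem global_sum_Eg {α P : Type} [Fintype α] [Fintype P] (E : Finset (α × P)) :
    ∑ g, (global_Eg E g).card = E.card := by
  classical
  have h : ∀ g : α, (global_Eg E g).card = (E.filter fun x => x.1 = g).card := by
    intro g
    refine Finset.card_bij (fun p _ => (g, p)) ?_ ?_ ?_
    · intro p hp
      rw [global_mem_Eg] at hp
      simp [hp]
    · intro p _ p' _ hpp
      simpa using hpp
    · intro x hx
      rw [Finset.mem_filter] at hx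
      refine ⟨x.2, ?_, ?_⟩
      · rw [global_mem_Eg, ← hx.2]
        exact hx.1
      · rw [← hx.2]
  rw [Finset.sum_congr rfl fun g _ => h g]
  exact (Finset.card_eq_sum_card_fiberwise fun x _ => Finset.mem_coe.2 (Finset.mem_univ x.1)).symm

theorem global_exp (b C K : ℕ) (hb : 2 ≤ b) : ∃ d0 : ℕ, ∀ d : ℕ, d0 ≤ d → ∃ Q : ℕ,
    Q * C + 2 ≤ b ^ d ∧ b ^ 2 * C + 2 ≤ b ^ (d + 1) ∧ b ^ (d + 2) * K ≤ Q * Q := by
  have hb0 : 0 < b := by omega
  have hC : C + 2 ≤ b ^ (C + 2) := (Nat.lt_pow_self (by omega)).le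
  refine ⟨2 * (C + 2) + 2 + K, fun d hd => ⟨b ^ (d - (C + 2)), ?_, ?_, ?_⟩⟩
  · have h1 : 1 ≤ b ^ (d - (C + 2)) := Nat.one_le_pow _ _ hb0
    calc b ^ (d - (C + 2)) * C + 2 ≤ b ^ (d - (C + 2)) * (C + 2) := by nlinarith
      _ ≤ b ^ (d - (C + 2)) * b ^ (C + 2) := Nat.mul_le_mul_left _ hC
      _ = b ^ d := by rw [← pow_add]; congr 1; omega
  · have h1 : 1 ≤ b ^ 2 := Nat.one_le_pow _ _ hb0
    calc b ^ 2 * C + 2 ≤ b ^ 2 * (C + 2) := by nlinarith
      _ ≤ b ^ 2 * b ^ (C + 2) := Nat.mul_le_mul_left _ hC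
      _ = b ^ (2 + (C + 2)) := by rw [← pow_add]
      _ ≤ b ^ (d + 1) := Nat.pow_le_pow_right hb0 (by omega)
  · have hK : K ≤ b ^ K := (Nat.lt_pow_self (by omega)).le
    calc b ^ (d + 2) * K ≤ b ^ (d + 2) * b ^ K := Nat.mul_le_mul_left _ hK
      _ = b ^ (d + 2 + K) := by rw [← pow_add]
      _ ≤ b ^ ((d - (C + 2)) + (d - (C + 2))) := Nat.pow_le_pow_right hb0 (by omega)
      _ = b ^ (d - (C + 2)) * b ^ (d - (C + 2)) := by rw [← pow_add]

theorem global_list {α β : Type} (a0 : α) (F : Finset α) {N : ℕ} (hN : F.card = N + 1)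
    (e : Fin (N + 1) ≃ F) (he : ∀ j : Fin (N + 1), (e j : α) = global_en a0 F j)
    (s : Fin (N + 1)) (Y : α → β) :
    (List.range F.card).map (fun t => Y (global_en a0 F ((s + t) % F.card))) =
      List.ofFn fun t : Fin (N + 1) => Y (e (s + t)) := by
  refine List.ext_getElem (by simp [hN]) fun i h1 h2 => ?_
  have hi : i < N + 1 := by simpa using h2
  simp only [List.getElem_map, List.getElem_range, List.getElem_ofFn, he]
  rw [hN, Fin.val_add]

theorem global_getD {q ℓ : ℕ} [NeZero q] (x : Fin ℓ → Fin q) (l : List (Fin q))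
    (h : l.take ℓ = List.ofFn x) (i : Fin ℓ) : l.getD i 0 = x i := by
  have h1 : (l.take ℓ)[(i : ℕ)]? = l[(i : ℕ)]? := List.getElem?_take_of_lt i.2
  have h2 : (List.ofFn x)[(i : ℕ)]? = some (x i) := by
    rw [List.getElem?_ofFn]
    simp
  rw [List.getD_eq_getElem?_getD, ← h1, h, h2]
  rfl

/-- the global code -/
theorem global_code {q : ℕ} [NeZero q] {P : Type} [Fintype P] [Nonempty P] {K : ℕ}
    (S : PartScheme q P K) (V : PartLev q P) (b : ℕ) [Fact b.Prime] (c1 c2 τ A B σ : ℝ)
    (hc1 : 0 < c1) (hc2 : 0 ≤ c2) (hτ : 0 ≤ τ) (h1 : c1 * τ + c2 + 3 / b < 1 - τ)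
    (h2 : 5 / (b : ℝ) < 1 - 2 * τ)
    (hlev : ∀ (E : Finset P) (d : List (Fin q)) (y : P → Fin q), d.length = S.rho E →
      (∀ i, i ∉ E → y i = S.wd E d i) →
        V.lev y ≤ c1 * ((E.card : ℝ) / Fintype.card P) + c2)
    (hA : σ ≤ A * Fintype.card P) (hB : 0 ≤ B)
    (net : ∀ E : Finset P, A * Fintype.card P - B * E.card - σ ≤ (S.rho E : ℝ) - S.lam E) :
    ∃ d0 : ℕ, ∀ d : ℕ, d0 ≤ d → ∀ ℓ : ℕ,
      (ℓ : ℝ) ≤ (A * Fintype.card P - σ) * ((b : ℝ) ^ (d + 2) - 3 * (b : ℝ) ^ (d + 1))
        - B * (τ * ((b : ℝ) ^ (d + 2) * Fintype.card P)) →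
      LocCode q (G b (d + 1) × P)
        (fun E => (E.card : ℝ) ≤ τ * ((b : ℝ) ^ (d + 2) * Fintype.card P)) (Fin ℓ → Fin q) := by
  classical
  have hbp : b.Prime := Fact.out
  have hb2 : 2 ≤ b := hbp.two_le
  have hb0 : (0 : ℝ) < b := by exact_mod_cast hbp.pos
  have hb5 : (5 : ℝ) < b := by
    have : 5 / (b : ℝ) < 1 := by linarith
    rwa [div_lt_one hb0] at this
  have hPc : (0 : ℝ) < Fintype.card P := by exact_mod_cast Fintype.card_pos
  have hK : 0 < K := (Nat.zero_le _).trans_lt (S.hd ∅ []).2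
  obtain ⟨C, hC⟩ := transmit b c1 c2 τ hc1 hc2 hτ h1 h2
  obtain ⟨d0, hd0⟩ := global_exp b C K hb2
  refine ⟨d0, fun d hd ℓ hℓ => ?_⟩
  obtain ⟨Q, hQ1, hQ2, hQ3⟩ := hd0 d hd
  obtain ⟨sp, pay, dec, hmain⟩ := hC d Q (b ^ (d + 2) * K) hQ1 hQ2 hQ3
  -- the decoder
  set F0 : ((G b (d + 1) × P) → Fin q) → Finset (G b (d + 1)) × ℕ :=
    fun y => dec (fun g => V.lev fun p => y (g, p)) with hF0
  set dec' : ((G b (d + 1) × P) → Fin q) → Fin ℓ → Fin q := fun y i =>
    (S.decL [] ⟨(F0 y).2 % K, Nat.mod_lt _ hK⟩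
      ((List.range (F0 y).1.card).map fun t => fun p =>
        y (global_en 0 (F0 y).1 (((F0 y).2 / K + t) % (F0 y).1.card), p))).getD i 0 with hdec'
  have key : ∀ (x : Fin ℓ → Fin q) (E : Finset (G b (d + 1) × P)),
      (E.card : ℝ) ≤ τ * ((b : ℝ) ^ (d + 2) * Fintype.card P) →
      ∃ z : (G b (d + 1) × P) → Fin q, ∀ y : (G b (d + 1) × P) → Fin q,
        (∀ i, i ∉ E → y i = z i) → dec' y = x := by
    intro x E hE
    have hcardG : Fintype.card (G b (d + 1)) = b ^ (d + 2) := by
      simp [G, ZMod.card, pow_succ]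
    set w : G b (d + 1) → ℝ := fun g => ((global_Eg E g).card : ℝ) / Fintype.card P with hw
    have hsum : ∑ g, ((global_Eg E g).card : ℝ) = E.card := by
      exact_mod_cast global_sum_Eg E
    have hprof : Prof τ w := by
      refine ⟨fun g => ⟨by positivity, ?_⟩, ?_⟩
      · rw [div_le_one hPc]
        exact_mod_cast Finset.card_le_univ _
      · rw [← Finset.sum_div, hsum, div_le_iff₀ hPc]
        calc (E.card : ℝ) ≤ _ := hE
          _ = τ * (b : ℝ) ^ (d + 1 + 1) * Fintype.card P := by ring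
    have hM0 : 0 < b ^ (d + 2) * K := Nat.mul_pos (Nat.pow_pos hbp.pos) hK
    have hcard := (hmain w hprof 0 hM0).2.1
    have hcardR : (b : ℝ) ^ (d + 2) - 3 * (b : ℝ) ^ (d + 1) ≤ (pay w).card := by
      have : ((b ^ (d + 2) : ℕ) : ℝ) ≤ (((pay w).card + 3 * b ^ (d + 1) : ℕ) : ℝ) := by
        exact_mod_cast hcard
      push_cast at this
      linarith
    have hpos : 0 < (pay w).card := by
      have h3 : (0 : ℝ) < (b : ℝ) ^ (d + 2) - 3 * (b : ℝ) ^ (d + 1) := by
        have : (b : ℝ) ^ (d + 2) - 3 * (b : ℝ) ^ (d + 1) = (b : ℝ) ^ (d + 1) * (b - 3) := by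
          ring
        rw [this]
        exact mul_pos (by positivity) (by linarith)
      exact_mod_cast h3.trans_le hcardR
    obtain ⟨N, hN⟩ : ∃ N, (pay w).card = N + 1 := ⟨(pay w).card - 1, by omega⟩
    obtain ⟨e, he⟩ := global_en_equiv (0 : G b (d + 1)) (pay w) hN
    have hsumle : ∑ j, ((global_Eg E (e j : G b (d + 1))).card : ℝ) ≤ E.card := by
      calc ∑ j, ((global_Eg E (e j : G b (d + 1))).card : ℝ)
          = ∑ g : pay w, ((global_Eg E (g : G b (d + 1))).card : ℝ) :=
            Equiv.sum_comp e fun g : pay w => ((global_Eg E (g : G b (d + 1))).card : ℝ)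
        _ = ∑ g ∈ pay w, ((global_Eg E g).card : ℝ) :=
            Finset.sum_coe_sort (pay w) fun g => ((global_Eg E g).card : ℝ)
        _ ≤ ∑ g, ((global_Eg E g).card : ℝ) :=
            Finset.sum_le_sum_of_subset_of_nonneg (Finset.subset_univ _)
              fun g _ _ => Nat.cast_nonneg _
        _ = E.card := hsum
    have hlen : ((List.ofFn x).length : ℤ) ≤
        ∑ j, ((S.rho (global_Eg E (e j : G b (d + 1))) : ℤ) -
          S.lam (global_Eg E (e j : G b (d + 1)))) := by
      have hreal : (ℓ : ℝ) ≤ ∑ j, ((S.rho (global_Eg E (e j : G b (d + 1))) : ℝ) -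
          S.lam (global_Eg E (e j : G b (d + 1)))) := by
        calc (ℓ : ℝ) ≤ (A * Fintype.card P - σ) *
              ((b : ℝ) ^ (d + 2) - 3 * (b : ℝ) ^ (d + 1))
              - B * (τ * ((b : ℝ) ^ (d + 2) * Fintype.card P)) := hℓ
          _ ≤ (A * Fintype.card P - σ) * (N + 1 : ℝ) - B * E.card := by
            have h4 : (b : ℝ) ^ (d + 2) - 3 * (b : ℝ) ^ (d + 1) ≤ (N + 1 : ℝ) := by
              have : ((pay w).card : ℝ) = (N + 1 : ℝ) := by rw [hN]; push_cast; rfl
              rw [← this]; exact hcardR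
            have h5 := mul_le_mul_of_nonneg_left h4 (sub_nonneg.2 hA)
            have h6 := mul_le_mul_of_nonneg_left hE hB
            linarith
          _ ≤ (A * Fintype.card P - σ) * (N + 1 : ℝ) -
              B * ∑ j, ((global_Eg E (e j : G b (d + 1))).card : ℝ) := by
            have h6 := mul_le_mul_of_nonneg_left hsumle hB
            linarith
          _ = ∑ j, (A * Fintype.card P - B * (global_Eg E (e j : G b (d + 1))).card - σ) := by
            rw [Finset.mul_sum]
            simp only [Finset.sum_sub_distrib, Finset.sum_const, Finset.card_univ,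
              Fintype.card_fin, nsmul_eq_mul]
            push_cast
            ring
          _ ≤ _ := Finset.sum_le_sum fun j _ => net _
      rw [List.length_ofFn]
      have : ((ℓ : ℤ) : ℝ) ≤ ((∑ j, ((S.rho (global_Eg E (e j : G b (d + 1))) : ℤ) -
          S.lam (global_Eg E (e j : G b (d + 1)))) : ℤ) : ℝ) := by
        push_cast
        exact hreal
      exact_mod_cast this
    obtain ⟨s, h0, dd, hdd, hchain⟩ := chain S (fun j => global_Eg E (e j : G b (d + 1)))
      (List.ofFn x) hlen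
    set m' : ℕ := s.val * K + h0.val with hm'
    have hm'lt : m' < b ^ (d + 2) * K := by
      have hs : s.val + 1 ≤ b ^ (d + 2) := by
        have h7 : (pay w).card ≤ b ^ (d + 2) := by
          rw [← hcardG]
          exact Finset.card_le_univ _
        have := s.2
        omega
      calc m' < s.val * K + K := Nat.add_lt_add_left h0.2 _
        _ = (s.val + 1) * K := by ring
        _ ≤ b ^ (d + 2) * K := Nat.mul_le_mul_right _ hs
    obtain ⟨hdisj, -, hdec⟩ := hmain w hprof m' hm'lt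
    refine ⟨fun i => if i.1 ∈ sp w m' then V.spec (global_Eg E i.1) i.2 else
      if h : i.1 ∈ pay w then S.wd (global_Eg E i.1) (dd (e.symm ⟨i.1, h⟩)) i.2 else 0,
      fun y hy => ?_⟩
    have hF0y : F0 y = (pay w, m') := by
      refine hdec _ (fun g => ⟨V.lev_nonneg _, V.lev_le_one _⟩) ?_ ?_ ?_
      · intro g hg
        refine V.lev_spec (global_Eg E g) _ fun p hp => ?_
        rw [global_mem_Eg] at hp
        rw [hy (g, p) hp]
        simp only [if_pos hg]
      · intro g hg hg'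
        refine V.lev_zero (global_Eg E g) _ fun p hp => ?_
        rw [global_mem_Eg] at hp
        rw [hy (g, p) hp]
        simp only [if_neg hg, dif_neg hg']
      · intro g hg
        have hg' : g ∉ sp w m' := fun h => (Finset.disjoint_left.1 hdisj h) hg
        refine hlev (global_Eg E g) (dd (e.symm ⟨g, hg⟩)) _ ?_ fun p hp => ?_
        · rw [hdd]
          simp
        · rw [global_mem_Eg] at hp
          rw [hy (g, p) hp]
          simp only [if_neg hg', dif_pos hg]
    have hs : m' / K = s.val := by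
      rw [hm', Nat.add_comm, Nat.add_mul_div_right _ _ hK, Nat.div_eq_of_lt h0.2]
      simp
    have hh : m' % K = h0.val := by
      rw [hm', Nat.add_comm, Nat.add_mul_mod_self_right, Nat.mod_eq_of_lt h0.2]
    have hch := hchain (fun j p => y ((e j : G b (d + 1)), p)) fun j p hp => by
      rw [global_mem_Eg] at hp
      have hj : (e j : G b (d + 1)) ∈ pay w := (e j).2
      have hj' : (e j : G b (d + 1)) ∉ sp w m' := fun h => (Finset.disjoint_left.1 hdisj h) hj
      rw [hy _ hp]
      simp only [if_neg hj', dif_pos hj]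
      simp
    rw [List.length_ofFn] at hch
    rw [← global_list (0 : G b (d + 1)) (pay w) hN e he s (fun g p => y (g, p))] at hch
    funext i
    refine global_getD x _ ?_ i
    rw [hF0y]
    simp only [hs, hh]
    exact hch
  refine ⟨fun x E => if h : (E.card : ℝ) ≤ τ * ((b : ℝ) ^ (d + 2) * Fintype.card P) then
    Classical.choose (key x E h) else fun _ => 0, dec', fun x E hE y hy => ?_⟩
  have hE' : (E.card : ℝ) ≤ τ * ((b : ℝ) ^ (d + 2) * Fintype.card P) := hE
  refine Classical.choose_spec (key x E hE') y fun i hi => ?_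
  rw [hy i hi]
  simp only [dif_pos hE']

end Pool.Agent.MPf4617e
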