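import Pool.Agent.Lib.MP_f4617e_lc.LSBasic

/-!
MP_f4617e_lc, module PSA: a prefix code for headers.
-/

set_option autoImplicit false

namespace Pool.Agent.MPf4617e

open Finset Filter Topology

theorem header_fixed {q m c : ℕ} (h : m ≤ q ^ c) :
    ∃ f : Fin m → List (Fin q), Function.Injective f ∧ ∀ x, (f x).length = c := by
  have h1 : Fintype.card (Fin m) ≤ Fintype.card (Fin c → Fin q) := by
    simpa using h
  obtain ⟨g⟩ := Function.Embedding.nonempty_of_card_le h1
  refine ⟨fun x => List.ofFn (g x), ?_, fun x => by simp⟩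
  intro x y hxy
  exact g.injective (List.ofFn_injective hxy)

theorem header_clog {q m : ℕ} (hq : 2 ≤ q) (hm : 0 < m) :
    (Nat.clog q m : ℝ) ≤ Real.logb q m + 1 := by
  have hq1 : (1 : ℝ) < q := by exact_mod_cast hq
  rcases Nat.lt_or_ge m 2 with h | h
  · have : m = 1 := by omega
    subst this
    simp
  · have h1 : q ^ (Nat.clog q m).pred < m := Nat.pow_pred_clog_lt_self (by omega) (by omega)
    have h0 : 0 < Nat.clog q m := Nat.clog_pos (by omega) h
    have h2 : ((q : ℝ) ^ ((Nat.clog q m).pred : ℝ)) < m := by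
      rw [Real.rpow_natCast]
      exact_mod_cast h1
    have hm' : (0 : ℝ) < m := by exact_mod_cast hm
    have h3 : (((Nat.clog q m).pred : ℕ) : ℝ) < Real.logb q m := by
      rw [Real.lt_logb_iff_rpow_lt hq1 hm']
      exact h2
    have h4 : ((Nat.clog q m : ℕ) : ℝ) = ((Nat.clog q m).pred : ℕ) + 1 := by
      have : Nat.clog q m = (Nat.clog q m).pred + 1 := by
        simp only [Nat.pred_eq_sub_one]
        omega
      exact_mod_cast this
    rw [h4]
    linarith

theorem header_code {q : ℕ} (hq : 2 ≤ q) {Θ : Type} [Fintype Θ] [Nonempty Θ] (Kθ : Θ → ℕ)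
    (hK : ∀ θ, 0 < Kθ θ) :
    ∃ (K : ℕ) (e : (Σ θ : Θ, Fin (Kθ θ)) ≃ Fin K) (code : Fin K → List (Fin q))
      (parse : List (Fin q) → Fin K × List (Fin q)) (len : Θ → ℕ),
      (∀ h l, parse (code h ++ l) = (h, l)) ∧ (∀ x, (code (e x)).length = len x.1) ∧
      ∀ θ, (len θ : ℝ) ≤ Real.logb q (Fintype.card Θ) + Real.logb q (Kθ θ) + 2 := by
  classical
  obtain ⟨F, hFi, hFl⟩ := header_fixed (q := q) (m := Fintype.card Θ)
    (c := Nat.clog q (Fintype.card Θ)) (Nat.le_pow_clog (by omega) _)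
  have hG : ∀ θ : Θ, ∃ f : Fin (Kθ θ) → List (Fin q), Function.Injective f ∧
      ∀ x, (f x).length = Nat.clog q (Kθ θ) := fun θ =>
    header_fixed (Nat.le_pow_clog (by omega) _)
  choose G hGi hGl using hG
  set eΘ : Θ ≃ Fin (Fintype.card Θ) := Fintype.equivFin Θ with heΘ
  set K : ℕ := Fintype.card (Σ θ : Θ, Fin (Kθ θ)) with hKdef
  set e : (Σ θ : Θ, Fin (Kθ θ)) ≃ Fin K := Fintype.equivFin _ with he
  set code0 : (Σ θ : Θ, Fin (Kθ θ)) → List (Fin q) := fun x => F (eΘ x.1) ++ G x.1 x.2 with hc0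
  have huniq : ∀ (x y : Σ θ : Θ, Fin (Kθ θ)) (l l' : List (Fin q)),
      code0 x ++ l = code0 y ++ l' → x = y ∧ l = l' := by
    rintro ⟨θ, j⟩ ⟨θ', j'⟩ l l' h
    simp only [hc0, List.append_assoc] at h
    obtain ⟨h1, h2⟩ := List.append_inj h (by rw [hFl, hFl])
    have h3 : θ = θ' := eΘ.injective (hFi h1)
    subst h3
    obtain ⟨h4, h5⟩ := List.append_inj h2 (by rw [hGl, hGl])
    have h6 : j = j' := hGi θ h4
    subst h6
    exact ⟨rfl, h5⟩
  have hne : Nonempty (Σ θ : Θ, Fin (Kθ θ)) := by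
    obtain ⟨θ⟩ := (inferInstance : Nonempty Θ)
    exact ⟨⟨θ, ⟨0, hK θ⟩⟩⟩
  obtain ⟨x0⟩ := hne
  refine ⟨K, e, fun h => code0 (e.symm h), fun l =>
    if h : ∃ p : Fin K × List (Fin q), code0 (e.symm p.1) ++ p.2 = l then h.choose else (e x0, []),
    fun θ => Nat.clog q (Fintype.card Θ) + Nat.clog q (Kθ θ), ?_, ?_, ?_⟩
  · intro h l
    have hex : ∃ p : Fin K × List (Fin q),
        code0 (e.symm p.1) ++ p.2 = code0 (e.symm h) ++ l := ⟨(h, l), rfl⟩
    simp only []
    rw [dif_pos hex]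
    have hs := hex.choose_spec
    obtain ⟨h1, h2⟩ := huniq _ _ _ _ hs
    exact Prod.ext (e.symm.injective h1) h2
  · intro x
    simp only [Equiv.symm_apply_apply, hc0, List.length_append, hFl, hGl]
  · intro θ
    have h1 := header_clog hq (m := Fintype.card Θ) Fintype.card_pos
    have h2 := header_clog hq (hK θ)
    push_cast
    linarith

end Pool.Agent.MPf4617e
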