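import Pool.Agent.Lib.MP_f4617e_lc.Seq

/-!
MP_f4617e_lc: Markov inequality and pigeonhole for the number of symbols read.
-/

set_option autoImplicit false

namespace Pool.Agent.MPf4617e

open Finset Filter Topology

theorem pig_len_le {q L : ℕ} (l : Path L q) (h : (l.map Prod.fst).Nodup) : l.length ≤ L := by
  have h1 := h.length_le_card
  simpa using h1

open Classical in
theorem pig_prod {q L B : ℕ} [NeZero q] (W : Law q L) (E : Fin B → Finset (Fin L))
    (b0 : Fin B) (e : Path L q → ℝ) (p : Fin B → Path L q) :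
    ∏ b, (if b = b0 then (if W.good (p b) (E b) then e (p b) else 0)
        else (if W.good (p b) (E b) then 1 else 0) : ℝ) =
      (if (∀ b, W.good (p b) (E b)) then 1 else 0) * e (p b0) := by
  split_ifs with h
  · rw [one_mul, ← Finset.mul_prod_erase univ _ (mem_univ b0)]
    rw [if_pos rfl, if_pos (h b0), Finset.prod_eq_one, mul_one]
    intro b hb
    rw [if_neg (Finset.ne_of_mem_erase hb), if_pos (h b)]
  · rw [zero_mul]
    push Not at h
    obtain ⟨b, hb⟩ := h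
    refine Finset.prod_eq_zero (mem_univ b) ?_
    split_ifs <;> rfl

open Classical in
theorem pig {q L : ℕ} [NeZero q] (T : Table q L) (W : Law q L) (R : Reader q L W.tree)
    (B : ℕ) (E : Fin B → Finset (Fin L)) (hZ : ∀ b, 0 < W.Z (E b)) (μ M : ℝ) (hM : 0 < M)
    (hμ : ∑ b, W.X T (E b) / W.Z (E b) ≤ μ) :
    ∃ ρ : ℕ, ρ ≤ B * L ∧ ∀ δ : ℕ → Fin q,
      (∏ b, W.Z (E b)) * (1 - μ / M) / (B * L + 1) ≤
        (q : ℝ) ^ ρ * ∑ w : Fin B → R.Ω, (∏ b, R.P (w b)) *
          (if (∀ b, W.good (R.seqPath B w δ b) (E b)) ∧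
              ∑ b, (R.seqPath B w δ b).length = ρ ∧
              ∑ b, (T.exc (R.seqPath B w δ b) (E b) : ℝ) ≤ M then 1 else 0) := by
  set δ0 : ℕ → Fin q := fun _ => 0 with hδ0
  have hP : ∀ w : Fin B → R.Ω, 0 ≤ ∏ b, R.P (w b) :=
    fun w => Finset.prod_nonneg fun b _ => R.P_nonneg _
  have hq : (0 : ℝ) < q := by exact_mod_cast Nat.pos_of_ne_zero (NeZero.ne q)
  have hPi : 0 ≤ ∏ b, W.Z (E b) := Finset.prod_nonneg fun b _ => (hZ b).le
  -- abbreviations
  obtain ⟨g, hg⟩ : ∃ g : (Fin B → R.Ω) → ℝ, ∀ w, g w =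
    (if (∀ b, W.good (R.seqPath B w δ0 b) (E b)) then 1 else 0) := ⟨_, fun _ => rfl⟩
  obtain ⟨len, hlen⟩ : ∃ len : (Fin B → R.Ω) → ℕ, ∀ w, len w =
    ∑ b, (R.seqPath B w δ0 b).length := ⟨_, fun _ => rfl⟩
  obtain ⟨ex, hex⟩ : ∃ ex : (Fin B → R.Ω) → ℝ, ∀ w, ex w =
    ∑ b, (T.exc (R.seqPath B w δ0 b) (E b) : ℝ) := ⟨_, fun _ => rfl⟩
  have hg0 : ∀ w, 0 ≤ g w := fun w => by rw [hg]; split_ifs <;> norm_num
  have hex0 : ∀ w, 0 ≤ ex w := fun w => by
    rw [hex]; exact Finset.sum_nonneg fun b _ => Nat.cast_nonneg _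
  have hlen_le : ∀ w, len w ≤ B * L := by
    intro w
    rw [hlen]
    refine (Finset.sum_le_sum fun b _ => pig_len_le _ (seq_nodup R B w δ0 b)).trans ?_
    simp
  have h1 : ∑ w : Fin B → R.Ω, (∏ b, R.P (w b)) * ((q : ℝ) ^ len w * g w) =
      ∏ b, W.Z (E b) := by
    have h := seq_avg R B (fun b l => if W.good l (E b) then (1 : ℝ) else 0) δ0
    unfold Law.Z
    rw [← h]
    refine Finset.sum_congr rfl fun w _ => ?_
    rw [hlen, hg]
    congr 2
    split_ifs with h'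
    · rw [Finset.prod_eq_one]
      intro b _
      rw [if_pos (h' b)]
    · push Not at h'
      obtain ⟨b, hb⟩ := h'
      symm
      refine Finset.prod_eq_zero (mem_univ b) ?_
      rw [if_neg hb]
  have h2 : ∀ b0 : Fin B, ∑ w : Fin B → R.Ω, (∏ b, R.P (w b)) *
      ((q : ℝ) ^ len w * (g w * (T.exc (R.seqPath B w δ0 b0) (E b0) : ℝ))) =
      (∏ b, W.Z (E b)) * (W.X T (E b0) / W.Z (E b0)) := by
    intro b0
    have h := seq_avg R B (fun b l => if b = b0 then
      (if W.good l (E b) then (T.exc l (E b0) : ℝ) else 0)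
        else (if W.good l (E b) then (1 : ℝ) else 0)) δ0
    have h3 : ∏ b, W.tree.LS (fun l => if b = b0 then
        (if W.good l (E b) then (T.exc l (E b0) : ℝ) else 0)
          else (if W.good l (E b) then (1 : ℝ) else 0)) =
        (∏ b, W.Z (E b)) * (W.X T (E b0) / W.Z (E b0)) := by
      rw [← Finset.mul_prod_erase univ _ (mem_univ b0),
        ← Finset.mul_prod_erase univ (fun b => W.Z (E b)) (mem_univ b0)]
      have h4 : ∏ b ∈ univ.erase b0, W.tree.LS (fun l => if b = b0 then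
          (if W.good l (E b) then (T.exc l (E b0) : ℝ) else 0)
            else (if W.good l (E b) then (1 : ℝ) else 0)) =
          ∏ b ∈ univ.erase b0, W.Z (E b) := by
        refine Finset.prod_congr rfl fun b hb => ?_
        unfold Law.Z
        simp only [if_neg (Finset.ne_of_mem_erase hb)]
      rw [h4]
      have h5 : W.tree.LS (fun l => if b0 = b0 then
          (if W.good l (E b0) then (T.exc l (E b0) : ℝ) else 0)
            else (if W.good l (E b0) then (1 : ℝ) else 0)) = W.X T (E b0) := by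
        unfold Law.X
        simp only [if_true]
      rw [h5]
      have := (hZ b0).ne'
      field_simp
    rw [← h3, ← h]
    refine Finset.sum_congr rfl fun w _ => ?_
    rw [hlen, hg]
    congr 2
    exact (pig_prod W E b0 (fun l => (T.exc l (E b0) : ℝ)) (R.seqPath B w δ0)).symm
  have h3 : ∑ w : Fin B → R.Ω, (∏ b, R.P (w b)) * ((q : ℝ) ^ len w * (g w * ex w)) ≤
      (∏ b, W.Z (E b)) * μ := by
    have h4 : ∑ w : Fin B → R.Ω, (∏ b, R.P (w b)) * ((q : ℝ) ^ len w * (g w * ex w)) =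
        ∑ b0, (∏ b, W.Z (E b)) * (W.X T (E b0) / W.Z (E b0)) := by
      rw [← Finset.sum_congr rfl fun b0 _ => h2 b0, Finset.sum_comm]
      refine Finset.sum_congr rfl fun w _ => ?_
      rw [hex, Finset.mul_sum, Finset.mul_sum, Finset.mul_sum]
    rw [h4, ← Finset.mul_sum]
    exact mul_le_mul_of_nonneg_left hμ hPi
  -- Markov
  obtain ⟨G, hG⟩ : ∃ G : (Fin B → R.Ω) → ℝ, ∀ w, G w =
    g w * (if ex w ≤ M then 1 else 0) := ⟨_, fun _ => rfl⟩
  have h4 : (∏ b, W.Z (E b)) * (1 - μ / M) ≤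
      ∑ w : Fin B → R.Ω, (∏ b, R.P (w b)) * ((q : ℝ) ^ len w * G w) := by
    have h5 : ∀ w, g w ≤ G w + g w * ex w / M := by
      intro w
      rw [hG]
      split_ifs with h
      · have : 0 ≤ g w * ex w / M := div_nonneg (mul_nonneg (hg0 w) (hex0 w)) hM.le
        linarith
      · push Not at h
        rw [mul_zero, zero_add, le_div_iff₀ hM]
        exact mul_le_mul_of_nonneg_left h.le (hg0 w)
    have h6 : ∏ b, W.Z (E b) ≤
        ∑ w : Fin B → R.Ω, (∏ b, R.P (w b)) * ((q : ℝ) ^ len w * G w) +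
        (∑ w : Fin B → R.Ω, (∏ b, R.P (w b)) * ((q : ℝ) ^ len w * (g w * ex w))) / M := by
      rw [← h1, Finset.sum_div, ← Finset.sum_add_distrib]
      refine Finset.sum_le_sum fun w _ => ?_
      have h7 : (∏ b, R.P (w b)) * ((q : ℝ) ^ len w * g w) ≤
          (∏ b, R.P (w b)) * ((q : ℝ) ^ len w * (G w + g w * ex w / M)) :=
        mul_le_mul_of_nonneg_left (mul_le_mul_of_nonneg_left (h5 w) (by positivity)) (hP w)
      refine h7.trans (le_of_eq ?_)
      ring
    have h7 := div_le_div_of_nonneg_right h3 hM.le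
    have h8 : (∏ b, W.Z (E b)) * (1 - μ / M) = ∏ b, W.Z (E b) - (∏ b, W.Z (E b)) * μ / M := by
      ring
    rw [h8]
    linarith
  -- pigeonhole
  have h5 : ∑ w : Fin B → R.Ω, (∏ b, R.P (w b)) * ((q : ℝ) ^ len w * G w) =
      ∑ ρ ∈ range (B * L + 1), (q : ℝ) ^ ρ *
        ∑ w : Fin B → R.Ω, (∏ b, R.P (w b)) * (G w * if len w = ρ then 1 else 0) := by
    simp only [Finset.mul_sum]
    rw [Finset.sum_comm]
    refine Finset.sum_congr rfl fun w _ => ?_
    rw [Finset.sum_eq_single (len w)]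
    · rw [if_pos rfl]; ring
    · intro ρ _ hρ
      rw [if_neg (Ne.symm hρ)]; ring
    · intro h
      exact absurd (mem_range.2 (Nat.lt_succ_of_le (hlen_le w))) h
  obtain ⟨ρ, hρ, hρ2⟩ := Finset.exists_le_of_sum_le (s := range (B * L + 1))
    (f := fun _ => (∏ b, W.Z (E b)) * (1 - μ / M) / (B * L + 1))
    (g := fun ρ => (q : ℝ) ^ ρ *
        ∑ w : Fin B → R.Ω, (∏ b, R.P (w b)) * (G w * if len w = ρ then 1 else 0))
    ⟨0, by simp⟩ (by
      rw [← h5, Finset.sum_const, card_range, nsmul_eq_mul]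
      push_cast
      have : ((B : ℝ) * L + 1) ≠ 0 := by positivity
      rw [mul_div_cancel₀ _ this]
      exact h4)
  refine ⟨ρ, by rw [mem_range] at hρ; omega, fun δ => ?_⟩
  refine hρ2.trans (le_of_eq ?_)
  congr 1
  rw [← seq_indep R B (fun p => if (∀ b, W.good (p b) (E b)) ∧
    ∑ b, (p b).length = ρ ∧ ∑ b, (T.exc (p b) (E b) : ℝ) ≤ M then 1 else 0) δ0 δ]
  refine Finset.sum_congr rfl fun w _ => ?_
  congr 1
  rw [hG, hg, hex, hlen]
  by_cases a1 : ∀ b, W.good (R.seqPath B w δ0 b) (E b)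
  · by_cases a2 : ∑ b, (R.seqPath B w δ0 b).length = ρ
    · by_cases a3 : ∑ b, (T.exc (R.seqPath B w δ0 b) (E b) : ℝ) ≤ M
      · have h6 : (∀ b, W.good (R.seqPath B w δ0 b) (E b)) ∧
          ∑ b, (R.seqPath B w δ0 b).length = ρ ∧
          ∑ b, (T.exc (R.seqPath B w δ0 b) (E b) : ℝ) ≤ M := ⟨a1, a2, a3⟩
        rw [if_pos a1, if_pos a2, if_pos a3, if_pos h6]; norm_num
      · have h6 : ¬ ((∀ b, W.good (R.seqPath B w δ0 b) (E b)) ∧
          ∑ b, (R.seqPath B w δ0 b).length = ρ ∧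
          ∑ b, (T.exc (R.seqPath B w δ0 b) (E b) : ℝ) ≤ M) := fun h => a3 h.2.2
        rw [if_neg a3, if_neg h6]; norm_num
    · have h6 : ¬ ((∀ b, W.good (R.seqPath B w δ0 b) (E b)) ∧
          ∑ b, (R.seqPath B w δ0 b).length = ρ ∧
          ∑ b, (T.exc (R.seqPath B w δ0 b) (E b) : ℝ) ≤ M) := fun h => a2 h.2.1
      rw [if_neg a2, if_neg h6]; norm_num
  · have h6 : ¬ ((∀ b, W.good (R.seqPath B w δ0 b) (E b)) ∧
        ∑ b, (R.seqPath B w δ0 b).length = ρ ∧
        ∑ b, (T.exc (R.seqPath B w δ0 b) (E b) : ℝ) ≤ M) := fun h => a1 h.1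
    rw [if_neg a1, if_neg h6]; norm_num

end Pool.Agent.MPf4617e
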