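import Pool.Agent.Lib.MP_f4617e_lc.LSBasic

/-!
MP_f4617e_lc: sequences of blocks.
-/

set_option autoImplicit false

namespace Pool.Agent.MPf4617e

open Finset Filter Topology

theorem seq_seqPath_cons {q L : ℕ} [NeZero q] {t : RT L q} (R : Reader q L t) (B : ℕ)
    (w0 : R.Ω) (w : Fin B → R.Ω) (δ : ℕ → Fin q) :
    R.seqPath (B + 1) (Fin.cons w0 w : Fin (B + 1) → R.Ω) δ =
      Fin.cons (R.path w0 δ) (R.seqPath B w fun n => δ (n + (R.path w0 δ).length)) := by
  simp only [Reader.seqPath, Fin.cons_zero, Fin.tail_cons]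

theorem seq_sum_cons {Ω : Type} [Fintype Ω] (B : ℕ) (P : Ω → ℝ) (F : (Fin (B + 1) → Ω) → ℝ) :
    ∑ w : Fin (B + 1) → Ω, (∏ b, P (w b)) * F w =
      ∑ w0 : Ω, P w0 * ∑ w : Fin B → Ω, (∏ b, P (w b)) * F (Fin.cons w0 w : Fin (B + 1) → Ω) := by
  rw [← (Fin.consEquiv fun _ : Fin (B + 1) => Ω).sum_comp, Fintype.sum_prod_type]
  refine Finset.sum_congr rfl fun w0 _ => ?_
  rw [Finset.mul_sum]
  refine Finset.sum_congr rfl fun w _ => ?_
  have h : (Fin.consEquiv fun _ : Fin (B + 1) => Ω) (w0, w) =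
      (Fin.cons w0 w : Fin (B + 1) → Ω) := rfl
  rw [h]
  simp only [Fin.prod_univ_succ, Fin.cons_zero, Fin.cons_succ]
  ring

theorem seq_avg {q L : ℕ} [NeZero q] {t : RT L q} (R : Reader q L t) (B : ℕ)
    (f : Fin B → Path L q → ℝ) (δ : ℕ → Fin q) :
    ∑ w : Fin B → R.Ω, (∏ b, R.P (w b)) *
      ((q : ℝ) ^ (∑ b, (R.seqPath B w δ b).length) * ∏ b, f b (R.seqPath B w δ b)) =
    ∏ b, t.LS (f b) := by
  induction B generalizing δ with
  | zero => simp
  | succ B ih =>
    rw [seq_sum_cons B R.P fun w => ((q : ℝ) ^ (∑ b, (R.seqPath (B + 1) w δ b).length) *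
      ∏ b, f b (R.seqPath (B + 1) w δ b))]
    rw [Fin.prod_univ_succ, ← R.avg (f 0) δ, Finset.sum_mul]
    refine Finset.sum_congr rfl fun w0 _ => ?_
    rw [← ih (fun b => f b.succ) fun n => δ (n + (R.path w0 δ).length), Finset.mul_sum,
      Finset.mul_sum]
    refine Finset.sum_congr rfl fun w _ => ?_
    simp only [seq_seqPath_cons, Fin.sum_univ_succ, Fin.prod_univ_succ, Fin.cons_zero,
      Fin.cons_succ, pow_add]
    ring

theorem seq_indep {q L : ℕ} [NeZero q] {t : RT L q} (R : Reader q L t) (B : ℕ)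
    (F : (Fin B → Path L q) → ℝ) (δ δ' : ℕ → Fin q) :
    ∑ w : Fin B → R.Ω, (∏ b, R.P (w b)) * F (R.seqPath B w δ) =
    ∑ w : Fin B → R.Ω, (∏ b, R.P (w b)) * F (R.seqPath B w δ') := by
  have hq : (q : ℝ) ≠ 0 := by exact_mod_cast NeZero.ne q
  induction B generalizing δ δ' with
  | zero =>
    refine Finset.sum_congr rfl fun w _ => ?_
    rw [show R.seqPath 0 w δ = R.seqPath 0 w δ' from rfl]
  | succ B ih =>
    rw [seq_sum_cons B R.P fun w => F (R.seqPath (B + 1) w δ),
      seq_sum_cons B R.P fun w => F (R.seqPath (B + 1) w δ')]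
    simp only [seq_seqPath_cons]
    -- the inner sum does not depend on the stream
    let Φ : Path L q → ℝ := fun l =>
      ∑ w : Fin B → R.Ω, (∏ b, R.P (w b)) * F (Fin.cons l (R.seqPath B w fun _ => 0))
    have h1 : ∀ (δ : ℕ → Fin q), ∑ w0 : R.Ω, R.P w0 * ∑ w : Fin B → R.Ω, (∏ b, R.P (w b)) *
        F (Fin.cons (R.path w0 δ) (R.seqPath B w fun n => δ (n + (R.path w0 δ).length))) =
        t.LS fun l => Φ l / (q : ℝ) ^ l.length := by
      intro δ
      rw [← R.avg _ δ]
      refine Finset.sum_congr rfl fun w0 _ => ?_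
      congr 1
      rw [ih (fun v => F (Fin.cons (R.path w0 δ) v)) _ fun _ => 0]
      rw [mul_div_cancel₀]
      exact pow_ne_zero _ hq
    rw [h1 δ, h1 δ']

theorem seq_rd {q L : ℕ} [NeZero q] {t : RT L q} (R : Reader q L t) (B : ℕ)
    (w : Fin B → R.Ω) (δ : ℕ → Fin q) (y : Fin B → Fin L → Fin q)
    (hy : ∀ b, ∀ i ∈ sites (R.seqPath B w δ b), y b i = word (R.seqPath B w δ b) i) :
    (List.ofFn fun b => R.rd (w b) (y b)).flatten =
      (List.range (∑ b, (R.seqPath B w δ b).length)).map δ := by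
  induction B generalizing δ with
  | zero => simp
  | succ B ih =>
    have h0 := hy 0
    have hs := fun b : Fin B => hy b.succ
    simp only [Reader.seqPath, Fin.cons_zero, Fin.cons_succ] at h0 hs
    rw [List.ofFn_succ, List.flatten_cons, R.rd_ok (w 0) δ (y 0) h0,
      ih (fun b => w b.succ) (fun n => δ (n + (R.path (w 0) δ).length)) (fun b => y b.succ) hs]
    rw [Fin.sum_univ_succ]
    simp only [Reader.seqPath, Fin.cons_zero, Fin.cons_succ]
    rw [List.range_add, List.map_append, List.map_map]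
    congr 1
    refine List.map_congr_left fun n _ => ?_
    simp [Nat.add_comm]

theorem seq_nodup {q L : ℕ} [NeZero q] {t : RT L q} (R : Reader q L t) (B : ℕ)
    (w : Fin B → R.Ω) (δ : ℕ → Fin q) (b : Fin B) :
    ((R.seqPath B w δ b).map Prod.fst).Nodup := by
  induction B generalizing δ with
  | zero => exact b.elim0
  | succ B ih =>
    refine Fin.cases ?_ (fun b => ?_) b
    · simp only [Reader.seqPath, Fin.cons_zero]
      exact R.nodup _ _
    · simp only [Reader.seqPath, Fin.cons_succ]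
      exact ih _ _ b

end Pool.Agent.MPf4617e
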