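import Pool.Agent.Lib.MP_f4617e_lc.Read
import Pool.Agent.Lib.MP_f4617e_lc.Seq
import Pool.Agent.Lib.MP_f4617e_lc.Pig
import Pool.Agent.Lib.MP_f4617e_lc.Cover
import Pool.Agent.Lib.MP_f4617e_lc.Header

/-!
MP_f4617e_lc: the scheme for one part (many blocks).
-/

set_option autoImplicit false

namespace Pool.Agent.MPf4617e

open Finset Filter Topology

/-- the slack -/
noncomputable def partsch_sig (q L nΛ : ℕ) (γ : ℝ) (B : ℕ) : ℝ :=
  Real.logb q (nΛ * (B * L + 1) * (B * L + 1)) + Real.logb q (B * L * Real.log (2 * q) + 2) + 2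
    + Real.logb q ((1 + γ) / γ) + Real.logb q (B * L + 1)

theorem partsch_log_tendsto {a b : ℝ} (ha : 0 < a) (hb : 0 < b) :
    Tendsto (fun B : ℕ => Real.log (a * B + b) / B) atTop (𝓝 0) := by
  have h1 : Tendsto (fun B : ℕ => a * (B : ℝ) + b) atTop atTop :=
    tendsto_atTop_add_const_right _ _
      ((tendsto_natCast_atTop_atTop (R := ℝ)).const_mul_atTop ha)
  have h2 : Tendsto (fun x : ℝ => Real.log x / x) atTop (𝓝 0) := by
    have := Real.isLittleO_log_id_atTop
    exact this.tendsto_div_nhds_zero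
  have h3 := h2.comp h1
  have h4 : Tendsto (fun B : ℕ => (a * (B : ℝ) + b) / B) atTop (𝓝 a) := by
    have h5 : Tendsto (fun B : ℕ => a + b / (B : ℝ)) atTop (𝓝 (a + 0)) :=
      tendsto_const_nhds.add (tendsto_const_div_atTop_nhds_zero_nat b)
    rw [add_zero] at h5
    refine h5.congr' ?_
    filter_upwards [eventually_gt_atTop 0] with B hB
    have : (B : ℝ) ≠ 0 := by positivity
    field_simp
  have h6 := h3.mul h4
  rw [zero_mul] at h6
  refine h6.congr' ?_
  filter_upwards [eventually_gt_atTop 0] with B hB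
  have : (B : ℝ) ≠ 0 := by positivity
  have h7 : a * (B : ℝ) + b ≠ 0 := by positivity
  simp only [Function.comp]
  field_simp

theorem partsch_sig_tendsto {q L nΛ : ℕ} (hq : 2 ≤ q) (hL : 0 < L) (hn : 0 < nΛ) {γ : ℝ}
    (hγ : 0 < γ) : Tendsto (fun B : ℕ => partsch_sig q L nΛ γ B / B) atTop (𝓝 0) := by
  have hL' : (0 : ℝ) < L := by exact_mod_cast hL
  have hq' : (2 : ℝ) ≤ q := by exact_mod_cast hq
  have hlq : 0 < Real.log (2 * q) := Real.log_pos (by linarith)
  have hlq1 : 0 < Real.log q := Real.log_pos (by linarith)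
  have hn' : (0 : ℝ) < nΛ := by exact_mod_cast hn
  have h1 := partsch_log_tendsto (a := L) (b := 1) hL' one_pos
  have h2 := partsch_log_tendsto (a := L * Real.log (2 * q)) (b := 2) (by positivity) two_pos
  have h3 : Tendsto (fun B : ℕ => (Real.log nΛ / Real.log q + 2
      + Real.logb q ((1 + γ) / γ)) / (B : ℝ)) atTop (𝓝 0) :=
    tendsto_const_div_atTop_nhds_zero_nat _
  have h4 := (((h1.const_mul 3).add h2).div_const (Real.log q)).add h3
  simp only [mul_zero, add_zero, zero_div] at h4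
  refine h4.congr' ?_
  filter_upwards [eventually_gt_atTop 0] with B hB
  have hB' : (0 : ℝ) < B := by exact_mod_cast hB
  have hBL : (0 : ℝ) < (B : ℝ) * L + 1 := by positivity
  unfold partsch_sig
  simp only [Real.logb]
  have e3 : Real.log (nΛ * ((B : ℝ) * L + 1) * (B * L + 1)) =
      Real.log nΛ + Real.log (B * L + 1) + Real.log (B * L + 1) := by
    rw [Real.log_mul (by positivity) (by positivity), Real.log_mul (by positivity) (by positivity)]
  rw [e3]
  have e1 : (L : ℝ) * B + 1 = B * L + 1 := by ring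
  have e2 : (L : ℝ) * Real.log (2 * q) * B + 2 = B * L * Real.log (2 * q) + 2 := by ring
  rw [e1, e2]
  field_simp
  ring

/-- slice of an error set -/
def partsch_sl {B L : ℕ} (E : Finset (Fin B × Fin L)) (b : Fin B) : Finset (Fin L) :=
  univ.filter fun i => (b, i) ∈ E

theorem partsch_sl_card {B L : ℕ} (E : Finset (Fin B × Fin L)) :
    ∑ b, (partsch_sl E b).card = E.card := by
  classical
  simp only [partsch_sl, Finset.card_filter]
  rw [← Fintype.sum_prod_type' (f := fun b i => if (b, i) ∈ E then 1 else 0)]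
  simp

theorem partsch_prod {B L : ℕ} (E : Finset (Fin B × Fin L)) (a Q : ℝ) :
    ∏ b, (a ^ (partsch_sl E b).card * Q ^ (L - (partsch_sl E b).card)) =
      a ^ E.card * Q ^ (B * L - E.card) := by
  rw [Finset.prod_mul_distrib, Finset.prod_pow_eq_pow_sum, Finset.prod_pow_eq_pow_sum,
    partsch_sl_card]
  congr 2
  have h : ∀ b : Fin B, (partsch_sl E b).card ≤ L := fun b => by
    simpa using Finset.card_le_univ (partsch_sl E b)
  rw [Finset.sum_tsub_distrib _ (fun b _ => h b), partsch_sl_card]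
  simp

theorem partsch_card_le {B L : ℕ} (E : Finset (Fin B × Fin L)) : E.card ≤ B * L := by
  simpa using Finset.card_le_univ E

/-- the data stream of a list -/
def partsch_str {q : ℕ} [NeZero q] (d : List (Fin q)) : ℕ → Fin q := fun n => d.getD n 0

theorem partsch_str_map {q : ℕ} [NeZero q] (d : List (Fin q)) :
    (List.range d.length).map (partsch_str d) = d := by
  apply List.ext_getElem
  · simp
  · intro i h1 h2
    simp [partsch_str, h2]

theorem partsch_prob {q L : ℕ} [NeZero q] {t : RT L q} (R : Reader q L t) (B : ℕ) :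
    ∑ w : Fin B → R.Ω, ∏ b, R.P (w b) = 1 := by
  have := Finset.prod_univ_sum (fun _ : Fin B => (univ : Finset R.Ω)) (fun _ ω => R.P ω)
  rw [Fintype.piFinset_univ] at this
  rw [← this]
  simp [R.P_sum]

/-- acceptable excess -/
noncomputable def partsch_M (B L : ℕ) (c1 c2 γ : ℝ) (e : ℕ) : ℝ :=
  (c1 - 1) * e + c2 * (B * L) + γ * (B * L)

/-- the acceptable event -/
def partsch_ev {q L B : ℕ} [NeZero q] (T : Table q L) (W : Law q L) (R : Reader q L W.tree)
    (M : ℝ) (E : Finset (Fin B × Fin L)) (ρ : ℕ) (δ : ℕ → Fin q) (w : Fin B → R.Ω) : Prop :=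
  (∀ b, W.good (R.seqPath B w δ b) (partsch_sl E b)) ∧
    ∑ b, (R.seqPath B w δ b).length = ρ ∧
    ∑ b, (T.exc (R.seqPath B w δ b) (partsch_sl E b) : ℝ) ≤ M

/-- probability bound for a type -/
noncomputable def partsch_p (q B L : ℕ) (τ γ : ℝ) (ρ e : ℕ) : ℝ :=
  al q τ ^ e * (q * (1 - τ)) ^ (B * L - e) * (γ / (1 + γ)) / (B * L + 1) / (q : ℝ) ^ ρ

open Classical in
theorem partsch_choice {q L : ℕ} [NeZero q] (hq : 2 ≤ q) (hL : 0 < L) {τ c1 c2 : ℝ}
    (hτ0 : 0 < τ) (hτ1 : τ < 1 / 2) (hc1' : c1 ≤ 1) (hc2' : c2 ≤ 1) {γ : ℝ} (hγ : 0 < γ)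
    (T : Table q L) (W : Law q L) (R : Reader q L W.tree) {B : ℕ} (hB : 0 < B)
    (E : Finset (Fin B × Fin L)) (hZ : ∀ b, 0 < W.Z (partsch_sl E b))
    (hP : ∏ b, (al q τ ^ (partsch_sl E b).card * (q * (1 - τ)) ^ (L - (partsch_sl E b).card)) ≤
      ∏ b, W.Z (partsch_sl E b))
    (hX : ∑ b, (((partsch_sl E b).card : ℝ) + W.X T (partsch_sl E b) / W.Z (partsch_sl E b)) ≤
      c1 * ∑ b, ((partsch_sl E b).card : ℝ) + c2 * (B * L)) :
    ∃ ρ : ℕ, ρ ≤ B * L ∧ ∀ δ : ℕ → Fin q,
      partsch_p q B L τ γ ρ E.card ≤ ∑ w : Fin B → R.Ω, (∏ b, R.P (w b)) *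
        (if partsch_ev T W R (partsch_M B L c1 c2 γ E.card) E ρ δ w then 1 else 0) := by
  have hn : (0 : ℝ) < B * L := by
    have : (0 : ℝ) < B := by exact_mod_cast hB
    have : (0 : ℝ) < L := by exact_mod_cast hL
    positivity
  have hsum : ∑ b, ((partsch_sl E b).card : ℝ) = E.card := by
    rw [← partsch_sl_card E]; push_cast; rfl
  set μ : ℝ := (c1 - 1) * E.card + c2 * (B * L) with hμ
  have hXμ : ∑ b, W.X T (partsch_sl E b) / W.Z (partsch_sl E b) ≤ μ := by
    rw [Finset.sum_add_distrib, hsum] at hX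
    rw [hμ]; linarith
  have hX0 : 0 ≤ ∑ b, W.X T (partsch_sl E b) / W.Z (partsch_sl E b) :=
    Finset.sum_nonneg fun b _ => div_nonneg (W.X_nonneg T _) (W.Z_nonneg _)
  have hμ0 : 0 ≤ μ := hX0.trans hXμ
  have hM : partsch_M B L c1 c2 γ E.card = μ + γ * (B * L) := rfl
  have hM0 : 0 < partsch_M B L c1 c2 γ E.card := by rw [hM]; positivity
  have hμ1 : μ ≤ B * L := by
    have h1 : (c1 - 1) * (E.card : ℝ) ≤ 0 :=
      mul_nonpos_of_nonpos_of_nonneg (by linarith) (by positivity)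
    have h2 : c2 * ((B : ℝ) * L) ≤ 1 * (B * L) := mul_le_mul_of_nonneg_right hc2' hn.le
    rw [hμ]; linarith
  obtain ⟨ρ, hρ, h⟩ := pig T W R B (partsch_sl E) hZ μ _ hM0 hXμ
  refine ⟨ρ, hρ, fun δ => ?_⟩
  have hqρ : (0 : ℝ) < (q : ℝ) ^ ρ := by positivity
  have h1 := h δ
  unfold partsch_p
  rw [div_le_iff₀ hqρ, mul_comm (Finset.sum _ _) _]
  refine le_trans ?_ (h1.trans (le_of_eq ?_))
  swap
  · congr 1
    refine Finset.sum_congr rfl fun w _ => ?_
    congr 1
    exact if_congr Iff.rfl rfl rfl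
  rw [partsch_prod] at hP
  have ha : 0 < al q τ := by
    have : (2 : ℝ) ≤ q := by exact_mod_cast hq
    unfold al
    apply div_pos <;> nlinarith
  have hQ : 0 < (q : ℝ) * (1 - τ) := by
    have : (2 : ℝ) ≤ q := by exact_mod_cast hq
    nlinarith
  have h2 : γ / (1 + γ) ≤ 1 - μ / partsch_M B L c1 c2 γ E.card := by
    rw [hM]
    have h3 : 1 - μ / (μ + γ * (B * L)) = γ * (B * L) / (μ + γ * (B * L)) := by
      field_simp
      ring
    rw [h3, div_le_div_iff₀ (by positivity) (by positivity)]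
    nlinarith [mul_le_mul_of_nonneg_left hμ1 hγ.le]
  have h4 : 0 ≤ γ / (1 + γ) := by positivity
  apply div_le_div_of_nonneg_right _ (by positivity)
  exact mul_le_mul hP h2 h4 (le_trans (by positivity) hP)

theorem partsch_p_pos {q B L : ℕ} (hq : 2 ≤ q) {τ γ : ℝ} (hτ0 : 0 < τ) (hτ1 : τ < 1 / 2)
    (hγ : 0 < γ) (ρ e : ℕ) : 0 < partsch_p q B L τ γ ρ e := by
  have hq' : (2 : ℝ) ≤ q := by exact_mod_cast hq
  have ha : 0 < al q τ := by
    unfold al
    apply div_pos <;> nlinarith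
  have hQ : 0 < (q : ℝ) * (1 - τ) := by nlinarith
  unfold partsch_p
  positivity

/-- size of the code book -/
noncomputable def partsch_K (q B L : ℕ) (τ γ : ℝ) (ρ e : ℕ) : ℕ :=
  ⌈(B * L * Real.log (2 * q) + 1) / partsch_p q B L τ γ ρ e⌉₊

theorem partsch_K_pos {q B L : ℕ} (hq : 2 ≤ q) {τ γ : ℝ} (hτ0 : 0 < τ) (hτ1 : τ < 1 / 2)
    (hγ : 0 < γ) (ρ e : ℕ) : 0 < partsch_K q B L τ γ ρ e := by
  have hq' : (2 : ℝ) ≤ q := by exact_mod_cast hq
  have h1 : 0 ≤ Real.log (2 * q) := Real.log_nonneg (by linarith)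
  unfold partsch_K
  rw [Nat.ceil_pos]
  have := partsch_p_pos (B := B) (L := L) hq hτ0 hτ1 hγ ρ e
  positivity

/-- code book for one type -/
theorem partsch_book {q L : ℕ} [NeZero q] (hq : 2 ≤ q) {τ γ : ℝ} (hτ0 : 0 < τ)
    (hτ1 : τ < 1 / 2) (hγ : 0 < γ) {t : RT L q} (R : Reader q L t) {B : ℕ} (ρ e : ℕ)
    (hρ : ρ ≤ B * L) (C : Finset (Fin B × Fin L) → Prop)
    (ev : Finset (Fin B × Fin L) → (ℕ → Fin q) → (Fin B → R.Ω) → Prop)
    (h : ∀ E, C E → ∀ δ : ℕ → Fin q, ∀ [∀ w, Decidable (ev E δ w)],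
      partsch_p q B L τ γ ρ e ≤ ∑ w : Fin B → R.Ω, (∏ b, R.P (w b)) *
        (if ev E δ w then 1 else 0)) :
    ∃ c : Fin (partsch_K q B L τ γ ρ e) → (Fin B → R.Ω), ∀ E, C E → ∀ d : List (Fin q),
      d.length = ρ → ∃ j, ev E (partsch_str d) (c j) := by
  classical
  have hq' : (2 : ℝ) ≤ q := by exact_mod_cast hq
  have hp := partsch_p_pos (B := B) (L := L) hq hτ0 hτ1 hγ ρ e
  set p := partsch_p q B L τ γ ρ e with hpdef
  set Θ := {x : Finset (Fin B × Fin L) × (Fin ρ → Fin q) // C x.1} with hΘ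
  let str : (Fin ρ → Fin q) → ℕ → Fin q := fun f n => if h : n < ρ then f ⟨n, h⟩ else 0
  have hcardΘ : (Fintype.card Θ : ℝ) ≤ (2 * q) ^ (B * L) := by
    have h1 : Fintype.card Θ ≤ Fintype.card (Finset (Fin B × Fin L) × (Fin ρ → Fin q)) :=
      Fintype.card_subtype_le _
    have h2 : Fintype.card (Finset (Fin B × Fin L) × (Fin ρ → Fin q)) = 2 ^ (B * L) * q ^ ρ := by
      simp
    have h3 : q ^ ρ ≤ q ^ (B * L) := Nat.pow_le_pow_right (by omega) hρ
    have h4 : Fintype.card Θ ≤ 2 ^ (B * L) * q ^ (B * L) :=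
      (h1.trans h2.le).trans (Nat.mul_le_mul_left _ h3)
    rw [← mul_pow] at h4
    exact_mod_cast h4
  have hhit : ∀ x : Θ, p ≤ ∑ w : Fin B → R.Ω, (∏ b, R.P (w b)) *
      (if ev x.1.1 (str x.1.2) w then 1 else 0) := fun x => h x.1.1 x.2 (str x.1.2)
  have hK : (1 - p) ^ (partsch_K q B L τ γ ρ e) * Fintype.card Θ < 1 := by
    rcases isEmpty_or_nonempty Θ with hE | ⟨⟨x0⟩⟩
    · simp [Fintype.card_eq_zero]
    · have hp1 : p ≤ 1 := by
        refine ((hhit x0).trans (Finset.sum_le_sum fun w _ => ?_)).trans (partsch_prob R B).le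
        have : 0 ≤ ∏ b, R.P (w b) := Finset.prod_nonneg fun b _ => R.P_nonneg _
        split_ifs <;> simp [this]
      have h1 : (B * L * Real.log (2 * q) + 1) ≤ p * (partsch_K q B L τ γ ρ e : ℝ) := by
        have := Nat.le_ceil ((B * L * Real.log (2 * q) + 1) / p)
        rw [div_le_iff₀ hp] at this
        rw [mul_comm p]
        exact this
      have h2 : (1 - p) ^ (partsch_K q B L τ γ ρ e) ≤
          Real.exp (-(B * L * Real.log (2 * q) + 1)) := by
        calc (1 - p) ^ (partsch_K q B L τ γ ρ e) ≤ (Real.exp (-p)) ^ (partsch_K q B L τ γ ρ e) :=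
              pow_le_pow_left₀ (by linarith) (by linarith [Real.add_one_le_exp (-p)]) _
          _ = Real.exp (-(p * (partsch_K q B L τ γ ρ e : ℝ))) := by
              rw [← Real.exp_nat_mul]; ring_nf
          _ ≤ _ := Real.exp_le_exp.2 (by linarith)
      have h3 : ((2 * q : ℝ)) ^ (B * L) = Real.exp (B * L * Real.log (2 * q)) := by
        rw [← Real.exp_log (show (0 : ℝ) < 2 * q by linarith), ← Real.exp_nat_mul,
          Real.log_exp]
        push_cast
        ring_nf
      calc (1 - p) ^ (partsch_K q B L τ γ ρ e) * (Fintype.card Θ : ℝ)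
          ≤ Real.exp (-(B * L * Real.log (2 * q) + 1)) * (2 * q : ℝ) ^ (B * L) :=
            mul_le_mul h2 hcardΘ (by positivity) (Real.exp_pos _).le
        _ = Real.exp (-1) := by rw [h3, ← Real.exp_add]; ring_nf
        _ < 1 := by rw [Real.exp_lt_one_iff]; norm_num
  obtain ⟨c, hc⟩ := cover (fun w : Fin B → R.Ω => ∏ b, R.P (w b))
    (fun w => Finset.prod_nonneg fun b _ => R.P_nonneg _) (partsch_prob R B)
    (fun w (x : Θ) => ev x.1.1 (str x.1.2) w) p hp
    (fun x => by convert hhit x) _ hK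
  refine ⟨c, fun E hE d hd => ?_⟩
  obtain ⟨j, hj⟩ := hc ⟨(E, fun i => d.getD i 0), hE⟩
  refine ⟨j, ?_⟩
  have : str (fun i : Fin ρ => d.getD i 0) = partsch_str d := by
    funext n
    simp only [str, partsch_str]
    split_ifs with hn
    · rfl
    · rw [List.getD_eq_default]; omega
  rw [← this]
  exact hj

/-- logarithm estimate for the header length -/
theorem partsch_log {q B L nΛ : ℕ} (hq : 2 ≤ q) (hn : 0 < nΛ) {τ γ : ℝ} (hτ0 : 0 < τ)
    (hτ1 : τ < 1 / 2) (hγ : 0 < γ) {ρ e : ℕ} (he : e ≤ B * L)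
    (hp1 : partsch_p q B L τ γ ρ e ≤ 1) :
    ((B : ℝ) * L - e) * Real.logb q (q * (1 - τ)) + e * Real.logb q (al q τ)
        - partsch_sig q L nΛ γ B ≤
      (ρ : ℝ) - (Real.logb q (nΛ * (B * L + 1) * (B * L + 1)) +
        Real.logb q (partsch_K q B L τ γ ρ e) + 2) := by
  have hq' : (2 : ℝ) ≤ q := by exact_mod_cast hq
  have hq1 : (1 : ℝ) < q := by linarith
  have ha : 0 < al q τ := by
    unfold al
    apply div_pos <;> nlinarith
  have hQ : 0 < (q : ℝ) * (1 - τ) := by nlinarith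
  have hp := partsch_p_pos (B := B) (L := L) hq hτ0 hτ1 hγ ρ e
  have hl : 0 ≤ Real.log (2 * q) := Real.log_nonneg (by linarith)
  have hK : (partsch_K q B L τ γ ρ e : ℝ) ≤
      (B * L * Real.log (2 * q) + 2) / partsch_p q B L τ γ ρ e := by
    have h1 : (partsch_K q B L τ γ ρ e : ℝ) <
        (B * L * Real.log (2 * q) + 1) / partsch_p q B L τ γ ρ e + 1 :=
      Nat.ceil_lt_add_one (by positivity)
    have h2 : (1 : ℝ) ≤ 1 / partsch_p q B L τ γ ρ e := by
      rw [le_div_iff₀ hp]; linarith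
    have h3 : (B * L * Real.log (2 * q) + 2) / partsch_p q B L τ γ ρ e =
      (B * L * Real.log (2 * q) + 1) / partsch_p q B L τ γ ρ e +
        1 / partsch_p q B L τ γ ρ e := by ring
    rw [h3]; linarith
  have hKpos : (0 : ℝ) < partsch_K q B L τ γ ρ e := by
    exact_mod_cast partsch_K_pos (B := B) (L := L) hq hτ0 hτ1 hγ ρ e
  have h4 : Real.logb q (partsch_K q B L τ γ ρ e) ≤
      Real.logb q (B * L * Real.log (2 * q) + 2) - Real.logb q (partsch_p q B L τ γ ρ e) := by
    rw [← Real.logb_div (by positivity) hp.ne']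
    exact Real.logb_le_logb_of_le hq1 hKpos hK
  have h5 : Real.logb q (partsch_p q B L τ γ ρ e) = e * Real.logb q (al q τ) +
      ((B : ℝ) * L - e) * Real.logb q (q * (1 - τ)) - Real.logb q ((1 + γ) / γ) -
      Real.logb q (B * L + 1) - ρ := by
    unfold partsch_p
    have hqρ : (0 : ℝ) < (q : ℝ) ^ ρ := by positivity
    rw [Real.logb_div (by positivity) (by positivity), Real.logb_div (by positivity)
      (by positivity), Real.logb_mul (by positivity) (by positivity), Real.logb_mul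
      (by positivity) (by positivity), Real.logb_pow, Real.logb_pow, Real.logb_pow,
      Real.logb_self_eq_one hq1, Nat.cast_sub he]
    have h6 : Real.logb q (γ / (1 + γ)) = - Real.logb q ((1 + γ) / γ) := by
      rw [← Real.logb_inv, inv_div]
    rw [h6]
    push_cast
    ring
  unfold partsch_sig
  linarith

theorem partsch_fixed {q L : ℕ} [NeZero q] (hq : 2 ≤ q) (hL : 0 < L) {τ c1 c2 : ℝ}
    (hτ0 : 0 < τ) (hτ1 : τ < 1 / 2) (hc1' : c1 ≤ 1) (hc2' : c2 ≤ 1) (T : Table q L) {nΛ : ℕ}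
    (W : Fin nΛ → Law q L)
    (h : ∀ (B : ℕ) (E : Fin B → Finset (Fin L)), ∃ k : Fin nΛ,
      (∀ b, 0 < (W k).Z (E b)) ∧
      ∏ b, (al q τ ^ (E b).card * (q * (1 - τ)) ^ (L - (E b).card)) ≤ ∏ b, (W k).Z (E b) ∧
      ∑ b, (((E b).card : ℝ) + (W k).X T (E b) / (W k).Z (E b)) ≤
        c1 * ∑ b, ((E b).card : ℝ) + c2 * (B * L)) {γ : ℝ} (hγ : 0 < γ)
    {B : ℕ} (hB : 0 < B) :
    ∃ (K : ℕ) (S : PartScheme q (Fin B × Fin L) K) (V : PartLev q (Fin B × Fin L)),
      (∀ (E : Finset (Fin B × Fin L)) (d : List (Fin q)) (y : Fin B × Fin L → Fin q),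
        d.length = S.rho E → (∀ i, i ∉ E → y i = S.wd E d i) →
          V.lev y ≤ c1 * ((E.card : ℝ) / (B * L)) + c2 + γ) ∧
      ∀ E : Finset (Fin B × Fin L),
        ((B : ℝ) * L - E.card) * Real.logb q (q * (1 - τ)) + E.card * Real.logb q (al q τ)
          - partsch_sig q L nΛ γ B ≤ (S.rho E : ℝ) - S.lam E := by
  classical
  have hBL : (0 : ℝ) < (B : ℝ) * L := by
    have : (0 : ℝ) < B := by exact_mod_cast hB
    have : (0 : ℝ) < L := by exact_mod_cast hL
    positivity
  -- laws and lengths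
  choose kk hkZ hkP hkX using fun E : Finset (Fin B × Fin L) => h B (partsch_sl E)
  let R : ∀ k : Fin nΛ, Reader q L (W k).tree := fun k =>
    Classical.choice (exists_reader (W k).tree (W k).ok)
  choose rr hrr hev using fun E : Finset (Fin B × Fin L) =>
    partsch_choice hq hL hτ0 hτ1 hc1' hc2' hγ T (W (kk E)) (R (kk E)) hB E (hkZ E) (hkP E) (hkX E)
  have hn : 0 < nΛ := Fin.pos_iff_nonempty.2 ⟨kk ∅⟩
  -- types
  let Θ := Fin nΛ × Fin (B * L + 1) × Fin (B * L + 1)
  let tp : Finset (Fin B × Fin L) → Θ := fun E =>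
    (kk E, ⟨rr E, Nat.lt_succ_of_le (hrr E)⟩, ⟨E.card, Nat.lt_succ_of_le (partsch_card_le E)⟩)
  haveI : Nonempty Θ := ⟨tp ∅⟩
  let Kθ : Θ → ℕ := fun θ => partsch_K q B L τ γ θ.2.1.val θ.2.2.val
  have hKθ : ∀ θ, 0 < Kθ θ := fun θ => partsch_K_pos hq hτ0 hτ1 hγ _ _
  -- code books
  have hbook : ∀ θ : Θ, ∃ c : Fin (Kθ θ) → (Fin B → (R θ.1).Ω),
      ∀ E, tp E = θ → ∀ d : List (Fin q), d.length = θ.2.1.val →
        ∃ j, partsch_ev T (W θ.1) (R θ.1) (partsch_M B L c1 c2 γ θ.2.2.val) E θ.2.1.val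
          (partsch_str d) (c j) := by
    intro θ
    refine partsch_book hq hτ0 hτ1 hγ (R θ.1) θ.2.1.val θ.2.2.val (by omega)
      (fun E => tp E = θ)
      (fun E δ w => partsch_ev T (W θ.1) (R θ.1) (partsch_M B L c1 c2 γ θ.2.2.val) E θ.2.1.val
        δ w) ?_
    intro E hE δ _
    subst hE
    convert hev E δ
  choose cb hcb using hbook
  obtain ⟨K, e, code, parse, len, hparse, hlen, hbound⟩ := header_code hq Kθ hKθ
  -- choice of the index
  have hj : ∀ (E : Finset (Fin B × Fin L)) (d : List (Fin q)), ∃ j : Fin (Kθ (tp E)),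
      d.length = rr E → partsch_ev T (W (kk E)) (R (kk E)) (partsch_M B L c1 c2 γ E.card) E
        (rr E) (partsch_str d) (cb (tp E) j) := by
    intro E d
    by_cases hd : d.length = rr E
    · obtain ⟨j, hj⟩ := hcb (tp E) E rfl d hd
      exact ⟨j, fun _ => hj⟩
    · exact ⟨⟨0, hKθ _⟩, fun h' => absurd h' hd⟩
  choose jj hjj using hj
  let S : PartScheme q (Fin B × Fin L) K :=
    { code := code
      parse := parse
      parse_code := hparse
      rho := rr
      lam := fun E => len (tp E)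
      hd := fun E d => e ⟨tp E, jj E d⟩
      wd := fun E d x => word ((R (kk E)).seqPath B (cb (tp E) (jj E d)) (partsch_str d) x.1) x.2
      rd := fun h y => (List.ofFn fun b =>
        (R (e.symm h).1.1).rd (cb (e.symm h).1 (e.symm h).2 b) (fun i => y (b, i))).flatten
      len_hd := fun E d _ => hlen _
      rd_hd := by
        intro E d y hd hy
        have h0 : e.symm (e ⟨tp E, jj E d⟩) = ⟨tp E, jj E d⟩ := e.symm_apply_apply _
        show (List.ofFn fun b => (R (e.symm (e ⟨tp E, jj E d⟩)).1.1).rd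
          (cb (e.symm (e ⟨tp E, jj E d⟩)).1 (e.symm (e ⟨tp E, jj E d⟩)).2 b)
          (fun i => y (b, i))).flatten = d
        rw [h0]
        obtain ⟨hg, hl, -⟩ := hjj E d hd
        have h1 := seq_rd (R (kk E)) B (cb (tp E) (jj E d)) (partsch_str d)
          (fun b i => y (b, i)) (by
            intro b i hi
            refine hy (b, i) fun hE => ?_
            have := (W (kk E)).good_disj _ _ (hg b)
            rw [Finset.disjoint_left] at this
            exact this hi (by simpa [partsch_sl] using hE))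
        rw [hl, ← hd, partsch_str_map] at h1
        exact h1 }
  have hcard : (Fintype.card (Fin B × Fin L) : ℝ) = B * L := by simp
  have hsl : ∀ (E : Finset (Fin B × Fin L)) (b : Fin B) (i : Fin L),
      i ∉ partsch_sl E b → (b, i) ∉ E := fun E b i hi hE => hi (by simpa [partsch_sl] using hE)
  let V : PartLev q (Fin B × Fin L) :=
    { lev := fun y => (∑ b, (T.lev fun i => y (b, i) : ℝ)) / (B * L)
      spec := fun E x => T.spec (partsch_sl E x.1) x.2
      lev_nonneg := fun y => by positivity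
      lev_le_one := fun y => by
        rw [div_le_one hBL]
        calc ∑ b, (T.lev fun i => y (b, i) : ℝ) ≤ ∑ _b : Fin B, (L : ℝ) :=
              Finset.sum_le_sum fun b _ => by exact_mod_cast T.lev_le _
          _ = B * L := by simp
      lev_spec := fun E y hy => by
        rw [hcard, le_div_iff₀ hBL]
        have h1 : ∀ b : Fin B, (L : ℝ) ≤ (T.lev fun i => y (b, i) : ℝ) +
            (partsch_sl E b).card := fun b => by
          exact_mod_cast T.lev_spec (partsch_sl E b) (fun i => y (b, i))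
            (fun i hi => hy (b, i) (hsl E b i hi))
        have h2 := Finset.sum_le_sum fun (b : Fin B) (_ : b ∈ univ) => h1 b
        rw [Finset.sum_add_distrib] at h2
        have h3 : ∑ b, ((partsch_sl E b).card : ℝ) = E.card := by
          rw [← partsch_sl_card E]; push_cast; rfl
        rw [h3] at h2
        simp only [sum_const, card_univ, Fintype.card_fin, nsmul_eq_mul] at h2
        rw [sub_mul, div_mul_cancel₀ _ hBL.ne']
        linarith
      lev_zero := fun E y hy => by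
        rw [hcard]
        refine div_le_div_of_nonneg_right ?_ hBL.le
        have h3 : ∑ b, ((partsch_sl E b).card : ℝ) = E.card := by
          rw [← partsch_sl_card E]; push_cast; rfl
        rw [← h3]
        refine Finset.sum_le_sum fun b _ => ?_
        exact_mod_cast T.lev_zero (partsch_sl E b) (fun i => y (b, i))
          (fun i hi => hy (b, i) (hsl E b i hi)) }
  refine ⟨K, S, V, ?_, ?_⟩
  · intro E d y hd hy
    obtain ⟨hg, hl, hx⟩ := hjj E d hd
    show (∑ b, (T.lev fun i => y (b, i) : ℝ)) / (B * L) ≤ _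
    rw [div_le_iff₀ hBL]
    have h1 : ∀ b : Fin B, (T.lev fun i => y (b, i) : ℝ) ≤ (partsch_sl E b).card +
        (T.exc ((R (kk E)).seqPath B (cb (tp E) (jj E d)) (partsch_str d) b)
          (partsch_sl E b) : ℝ) := fun b => by
      exact_mod_cast T.lev_exc _ (partsch_sl E b) (fun i => y (b, i)) (seq_nodup _ _ _ _ _)
        ((W (kk E)).good_disj _ _ (hg b)) (fun i hi => hy (b, i) (hsl E b i hi))
    have h2 := Finset.sum_le_sum fun (b : Fin B) (_ : b ∈ univ) => h1 b
    rw [Finset.sum_add_distrib] at h2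
    have h3 : ∑ b, ((partsch_sl E b).card : ℝ) = E.card := by
      rw [← partsch_sl_card E]; push_cast; rfl
    rw [h3] at h2
    have h4 : (c1 * ((E.card : ℝ) / (B * L)) + c2 + γ) * (B * L) =
        c1 * E.card + c2 * (B * L) + γ * (B * L) := by
      field_simp
    rw [h4]
    unfold partsch_M at hx
    linarith
  · intro E
    have hp1 : partsch_p q B L τ γ (rr E) E.card ≤ 1 := by
      refine ((hev E fun _ => 0).trans (Finset.sum_le_sum fun w _ => ?_)).trans
        (partsch_prob (R (kk E)) B).le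
      have : 0 ≤ ∏ b, (R (kk E)).P (w b) := Finset.prod_nonneg fun b _ => (R (kk E)).P_nonneg _
      split_ifs <;> simp [this]
    have h1 := partsch_log hq hn hτ0 hτ1 hγ (partsch_card_le E) hp1
    refine h1.trans ?_
    have h2 := hbound (tp E)
    have h3 : (Fintype.card Θ : ℝ) = nΛ * (B * L + 1) * (B * L + 1) := by
      simp only [Θ, Fintype.card_prod, Fintype.card_fin]
      push_cast
      ring
    rw [h3] at h2
    show _ ≤ ((rr E : ℕ) : ℝ) - ((len (tp E) : ℕ) : ℝ)
    have h4 : (Kθ (tp E) : ℝ) = partsch_K q B L τ γ (rr E) E.card := rfl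
    rw [h4] at h2
    linarith

theorem part_scheme {q L : ℕ} [NeZero q] (hq : 2 ≤ q) (hL : 0 < L) {τ c1 c2 : ℝ}
    (hτ0 : 0 < τ) (hτ1 : τ < 1 / 2) (hc1 : 0 ≤ c1) (hc1' : c1 ≤ 1) (hc2 : 0 ≤ c2)
    (hc2' : c2 ≤ 1) (h : GoodSystem q L τ c1 c2) (γ : ℝ) (hγ : 0 < γ) :
    ∃ σ : ℕ → ℝ, Tendsto (fun B : ℕ => σ B / B) atTop (𝓝 0) ∧
      ∀ B : ℕ, 0 < B → ∃ (K : ℕ) (S : PartScheme q (Fin B × Fin L) K)
        (V : PartLev q (Fin B × Fin L)),
        (∀ (E : Finset (Fin B × Fin L)) (d : List (Fin q)) (y : Fin B × Fin L → Fin q),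
          d.length = S.rho E → (∀ i, i ∉ E → y i = S.wd E d i) →
            V.lev y ≤ c1 * ((E.card : ℝ) / (B * L)) + c2 + γ) ∧
        ∀ E : Finset (Fin B × Fin L),
          ((B : ℝ) * L - E.card) * Real.logb q (q * (1 - τ)) + E.card * Real.logb q (al q τ)
            - σ B ≤ (S.rho E : ℝ) - S.lam E := by
  obtain ⟨T, nΛ, W, hW⟩ := h
  have hn : 0 < nΛ := by
    obtain ⟨k, -⟩ := hW 0 (fun b => b.elim0)
    exact Fin.pos_iff_nonempty.2 ⟨k⟩
  exact ⟨partsch_sig q L nΛ γ, partsch_sig_tendsto hq hL hn hγ, fun B hB =>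
    partsch_fixed hq hL hτ0 hτ1 hc1' hc2' T W hW hγ hB⟩
end Pool.Agent.MPf4617e
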