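import Pool.Agent.Lib.MP_f4617e_lc.Loc
import Pool.Agent.Lib.MP_f4617e_lc.Global
import Pool.Agent.Lib.MP_f4617e_lc.PartSch

/-!
MP_f4617e_lc, module EN: the engine, a good block system gives codes that achieve the
Hamming bound.
-/

set_option autoImplicit false

namespace Pool.Agent.MPf4617e

open Finset Filter Topology

/-- the logarithms of the two weights -/
theorem engine_logs {q : ℕ} (hq2 : 2 ≤ q) {τ : ℝ} (h0 : 0 < τ) (h1 : τ < 1 / 2) :
    0 < Real.logb q (q * (1 - τ)) ∧ Real.logb q (al q τ) ≤ 0 ∧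
    Hq q τ = Real.logb q (q * (1 - τ)) -
      (Real.logb q (q * (1 - τ)) - Real.logb q (al q τ)) * τ := by
  have hq' : (2 : ℝ) ≤ q := by exact_mod_cast hq2
  have hq1 : (1 : ℝ) < q := by linarith
  have hq0 : (0 : ℝ) < q := by linarith
  have hqm : (0 : ℝ) < (q : ℝ) - 1 := by linarith
  have h1τ : (0 : ℝ) < 1 - τ := by linarith
  have hal : 0 < al q τ := by
    unfold al
    positivity
  have hal1 : al q τ ≤ 1 := by
    unfold al
    rw [div_le_one hqm]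
    nlinarith
  have hA : Real.logb q (q * (1 - τ)) = 1 + Real.logb q (1 - τ) := by
    rw [Real.logb_mul hq0.ne' h1τ.ne', Real.logb_self_eq_one hq1]
  have hD : Real.logb q (al q τ) = Real.logb q τ + 1 - Real.logb q (q - 1) := by
    unfold al
    rw [Real.logb_div (by positivity) hqm.ne', Real.logb_mul h0.ne' hq0.ne',
      Real.logb_self_eq_one hq1]
  refine ⟨?_, Real.logb_nonpos hq1 hal.le hal1, ?_⟩
  · exact Real.logb_pos hq1 (by nlinarith)
  · unfold Hq hq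
    rw [hA, hD]
    ring

/-- the arithmetic of the last step -/
theorem engine_arith {A Bp τ τ1 ε bb X n' BL s n B : ℝ} (hA : 0 < A) (hBp : 0 ≤ Bp)
    (hτ : 0 < τ) (hε : 0 < ε) (hB : 0 < B) (hBL : 0 < BL) (hbb : 0 < bb)
    (hs1 : |s| ≤ ε / 8 * BL) (hs2 : |s| ≤ A * BL)
    (h3 : Bp * (τ1 - τ) ≤ ε / 8) (p : ℝ) (hp : 0 ≤ p) (hp1 : p * (2 * A) ≤ ε / 8)
    (hn' : n' = bb * BL) (hX : X = (A * BL - s) * (bb - p * bb) - Bp * (τ1 * n')) :
    n' * (A - Bp * τ - 3 * ε / 8) ≤ X := by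
  have h5 := abs_le.1 hs1
  have h6 := abs_le.1 hs2
  have h7 : BL * (A - ε / 8) ≤ A * BL - s := by nlinarith [h5.2]
  have h8 : A * BL - s ≤ 2 * A * BL := by nlinarith [h6.1]
  have h9 : p * (A * BL - s) ≤ ε / 8 * BL := by
    calc p * (A * BL - s) ≤ p * (2 * A * BL) := mul_le_mul_of_nonneg_left h8 hp
      _ = p * (2 * A) * BL := by ring
      _ ≤ ε / 8 * BL := mul_le_mul_of_nonneg_right hp1 hBL.le
  have h10 : BL * (A - ε / 8 - ε / 8) ≤ (A * BL - s) - p * (A * BL - s) := by nlinarith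
  have h11 : bb * (BL * (A - ε / 8 - ε / 8)) ≤ bb * ((A * BL - s) - p * (A * BL - s)) :=
    mul_le_mul_of_nonneg_left h10 hbb.le
  have hn0 : 0 < n' := by rw [hn']; positivity
  have h12 : n' * (Bp * (τ1 - τ)) ≤ n' * (ε / 8) := mul_le_mul_of_nonneg_left h3 hn0.le
  rw [hX]
  have h13 : (A * BL - s) * (bb - p * bb) = bb * ((A * BL - s) - p * (A * BL - s)) := by ring
  rw [h13]
  have h14 : bb * (BL * (A - ε / 8 - ε / 8)) = n' * (A - ε / 8 - ε / 8) := by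
    rw [hn']; ring
  rw [h14] at h11
  nlinarith

theorem engine_trivial {q n t : ℕ} [NeZero q] {x : ℝ} (hx : x ≤ 0) :
    ∃ (M : ℕ) (f : Fin M → Finset (Fin n) → Fin n → Fin q),
      0 < M ∧ Corrects q n t M f ∧ x ≤ Real.logb q M := by
  refine ⟨1, fun _ _ _ => 0, one_pos, fun m m' h => ?_, by simpa using hx⟩
  exact absurd (Subsingleton.elim m m') h

theorem engine {q L : ℕ} [NeZero q] (hq : 2 ≤ q) (hL : 0 < L) {τ c1 c2 : ℝ} (hτ0 : 0 < τ)
    (hτ1 : τ < 1 / 2) (hc1 : 0 < c1) (hc1' : c1 ≤ 1) (hc2 : 0 ≤ c2)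
    (hc : c1 * τ + c2 < 1 - τ) (h : GoodSystem q L τ c1 c2) : Achievable q τ := by
  intro ε hε
  obtain ⟨hA, hD, hH⟩ := engine_logs hq hτ0 hτ1
  set A : ℝ := Real.logb q (q * (1 - τ)) with hAdef
  set D : ℝ := Real.logb q (al q τ) with hDdef
  set Bp : ℝ := A - D with hBpdef
  have hBp : 0 < Bp := by rw [hBpdef]; linarith
  rcases lt_or_ge (Hq q τ - ε) 0 with hneg | hpos
  · exact ⟨0, fun n _ => engine_trivial (mul_nonpos_of_nonpos_of_nonneg hneg.le (Nat.cast_nonneg n))⟩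
  -- constants
  set s : ℝ := 1 - τ - c1 * τ - c2 with hs
  have hs0 : 0 < s := by rw [hs]; linarith
  set δ : ℝ := min (s / 8) (min ((1 - 2 * τ) / 8) (ε / (8 * Bp))) with hδ
  have hδ0 : 0 < δ := by
    rw [hδ]
    refine lt_min (by positivity) (lt_min (by linarith) (by positivity))
  have hδ1 : δ ≤ s / 8 := min_le_left _ _
  have hδ2 : δ ≤ (1 - 2 * τ) / 8 := (min_le_right _ _).trans (min_le_left _ _)
  have hδ3 : Bp * δ ≤ ε / 8 := by
    have : δ ≤ ε / (8 * Bp) := (min_le_right _ _).trans (min_le_right _ _)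
    calc Bp * δ ≤ Bp * (ε / (8 * Bp)) := mul_le_mul_of_nonneg_left this hBp.le
      _ = ε / 8 := by field_simp
  set τ1 : ℝ := τ + δ with hτ1def
  have hL' : (1 : ℝ) ≤ L := by exact_mod_cast hL
  -- the prime
  obtain ⟨b, hb1, hbp⟩ := Nat.exists_infinite_primes
    (⌈12 / s + 10 / (1 - 2 * τ) + 48 * A / ε⌉₊ + 1)
  haveI : Fact b.Prime := ⟨hbp⟩
  have h2τ : 0 < 1 - 2 * τ := by linarith
  have hb2 : 12 / s + 10 / (1 - 2 * τ) + 48 * A / ε < b := by
    have h1 := Nat.le_ceil (12 / s + 10 / (1 - 2 * τ) + 48 * A / ε)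
    have h2 : ((⌈12 / s + 10 / (1 - 2 * τ) + 48 * A / ε⌉₊ : ℝ)) + 1 ≤ b := by exact_mod_cast hb1
    linarith
  have hb0 : (0 : ℝ) < b := by exact_mod_cast hbp.pos
  have e1 : 0 < 12 / s := by positivity
  have e2 : 0 < 10 / (1 - 2 * τ) := by positivity
  have e3 : 0 < 48 * A / ε := by positivity
  have hbs : 3 / (b : ℝ) < s / 4 := by
    have : 12 / s < b := by linarith
    rw [div_lt_iff₀ hs0] at this
    rw [div_lt_iff₀ hb0]
    linarith
  have hbt : 5 / (b : ℝ) < (1 - 2 * τ) / 2 := by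
    have : 10 / (1 - 2 * τ) < b := by linarith
    rw [div_lt_iff₀ h2τ] at this
    rw [div_lt_iff₀ hb0]
    linarith
  have hbA : 3 / (b : ℝ) * (2 * A) ≤ ε / 8 := by
    have : 48 * A / ε < b := by linarith
    rw [div_lt_iff₀ hε] at this
    rw [div_mul_eq_mul_div, div_le_iff₀ hb0]
    linarith
  have hcond1 : c1 * τ1 + (c2 + s / 4) + 3 / (b : ℝ) < 1 - τ1 := by
    have e4 : c1 * δ ≤ 1 * δ := mul_le_mul_of_nonneg_right hc1' hδ0.le
    have e5 : c1 * (τ + δ) = c1 * τ + c1 * δ := by ring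
    rw [hτ1def, e5]
    linarith
  have hcond2 : 5 / (b : ℝ) < 1 - 2 * τ1 := by
    rw [hτ1def]; linarith
  -- part schemes
  obtain ⟨σ, hσ, hps⟩ := part_scheme hq hL hτ0 hτ1 hc1.le hc1' hc2
    (by nlinarith [mul_pos hc1 hτ0]) h (s / 4) (by positivity)
  have hev : ∀ᶠ B : ℕ in atTop, |σ B / B| < min (ε / 8) A := by
    have h1 : (0 : ℝ) < min (ε / 8) A := lt_min (by positivity) hA
    have h2 := (Metric.tendsto_atTop.1 hσ) _ h1
    obtain ⟨B0, hB0⟩ := h2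
    filter_upwards [eventually_ge_atTop B0] with B hB
    have h3 := hB0 B hB
    rwa [Real.dist_eq, sub_zero] at h3
  obtain ⟨B1, hB1⟩ := eventually_atTop.1 hev
  obtain ⟨B2, hB2⟩ := exists_nat_gt (τ / δ + 8 * A / ε)
  set B0 : ℕ := max (max B1 B2) 1 with hB0def
  have hB0 : 1 ≤ B0 := le_max_right _ _
  have hBprop : ∀ B : ℕ, B0 ≤ B → (1 : ℝ) ≤ B ∧ |σ B| ≤ ε / 8 * ((B : ℝ) * L) ∧
      |σ B| ≤ A * ((B : ℝ) * L) ∧ τ ≤ δ * B ∧ A ≤ ε / 8 * B := by
    intro B hB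
    have hBN : 1 ≤ B := hB0.trans hB
    have hB1' : (1 : ℝ) ≤ B := by exact_mod_cast hBN
    have hBpos : (0 : ℝ) < B := by linarith
    have h1 := hB1 B (((le_max_left _ _).trans (le_max_left _ _)).trans hB)
    have h2 : (B2 : ℝ) ≤ B := by
      exact_mod_cast ((le_max_right _ _).trans (le_max_left _ _)).trans hB
    rw [abs_div, abs_of_pos hBpos, lt_min_iff, div_lt_iff₀ hBpos, div_lt_iff₀ hBpos] at h1
    have hBL : (B : ℝ) ≤ B * L := by nlinarith
    have g1 : 0 < τ / δ := by positivity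
    have g2 : 0 < 8 * A / ε := by positivity
    have g3 : τ / δ < B := by linarith
    have g4 : 8 * A / ε < B := by linarith
    rw [div_lt_iff₀ hδ0] at g3
    rw [div_lt_iff₀ hε] at g4
    refine ⟨hB1', ?_, ?_, by linarith, by linarith⟩
    · have : ε / 8 * B ≤ ε / 8 * (B * L) := mul_le_mul_of_nonneg_left hBL (by positivity)
      linarith [h1.1]
    · have : A * B ≤ A * (B * L) := mul_le_mul_of_nonneg_left hBL hA.le
      linarith [h1.2]
  -- the global codes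
  have key : ∀ B : ℕ, B0 ≤ B → ∃ d0 : ℕ, ∀ d : ℕ, d0 ≤ d → ∀ ℓ : ℕ,
      (ℓ : ℝ) ≤ (A * ((B : ℝ) * L) - σ B) * ((b : ℝ) ^ (d + 2) - 3 * (b : ℝ) ^ (d + 1))
        - Bp * (τ1 * ((b : ℝ) ^ (d + 2) * ((B : ℝ) * L))) →
      LocCode q (G b (d + 1) × (Fin B × Fin L))
        (fun E => (E.card : ℝ) ≤ τ1 * ((b : ℝ) ^ (d + 2) * ((B : ℝ) * L)))
        (Fin ℓ → Fin q) := by
    intro B hB
    have hBN : 0 < B := lt_of_lt_of_le one_pos (hB0.trans hB)
    obtain ⟨K, S, V, hlev, hnet⟩ := hps B hBN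
    obtain ⟨-, hσ1, hσ2, -, -⟩ := hBprop B hB
    haveI : Nonempty (Fin B × Fin L) := ⟨(⟨0, hBN⟩, ⟨0, hL⟩)⟩
    have hcard : ((Fintype.card (Fin B × Fin L) : ℕ) : ℝ) = (B : ℝ) * L := by
      simp
    have hg := global_code S V b c1 (c2 + s / 4) τ1 A Bp (σ B) hc1 (by positivity)
      (by positivity) hcond1 hcond2
      (fun E d y h1 h2 => by
        rw [hcard, ← add_assoc]
        exact hlev E d y h1 h2)
      (by rw [hcard]; exact (le_abs_self _).trans hσ2) hBp.le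
      (fun E => by
        rw [hcard]
        have := hnet E
        have e : A * ((B : ℝ) * L) - Bp * E.card - σ B =
            ((B : ℝ) * L - E.card) * A + E.card * D - σ B := by
          rw [hBpdef]; ring
        rw [e]
        exact this)
    rw [hcard] at hg
    exact hg
  choose! d0 hd0 using key
  set dmax : ℕ := (range (b * B0 + 1)).sup d0 with hdmax
  set m0 : ℕ := B0 * L with hm0
  have hm0pos : 0 < m0 := Nat.mul_pos (by omega) hL
  refine ⟨max (m0 * b ^ (dmax + 2)) (⌈4 / ε⌉₊ + 1), fun n hn => ?_⟩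
  have hn1 : m0 * b ^ (dmax + 2) ≤ n := (le_max_left _ _).trans hn
  have hn2 : 4 / ε ≤ n := by
    have h1 : ⌈4 / ε⌉₊ + 1 ≤ n := (le_max_right _ _).trans hn
    have h2 := Nat.le_ceil (4 / ε)
    have h3 : (⌈4 / ε⌉₊ : ℝ) + 1 ≤ n := by exact_mod_cast h1
    linarith
  have hb1' : 1 < b := hbp.one_lt
  have hbpos : 0 < b := hbp.pos
  set Dn : ℕ := Nat.log b (n / m0) with hDn
  have hdiv : b ^ (dmax + 2) ≤ n / m0 := by
    rw [Nat.le_div_iff_mul_le hm0pos, mul_comm]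
    exact hn1
  have hDn1 : dmax + 2 ≤ Dn := Nat.le_log_of_pow_le hb1' hdiv
  have hne : n / m0 ≠ 0 := by
    have : 0 < b ^ (dmax + 2) := pow_pos hbpos _
    omega
  have hDn2 : b ^ Dn ≤ n / m0 := Nat.pow_log_le_self b hne
  have hDn3 : n / m0 < b ^ (Dn + 1) := Nat.lt_pow_succ_log_self hb1' _
  obtain ⟨d, hd⟩ : ∃ d, Dn = d + 2 := ⟨Dn - 2, by omega⟩
  rw [hd] at hDn2 hDn3 hDn1
  set B : ℕ := n / (b ^ (d + 2) * L) with hB
  have hbL : 0 < b ^ (d + 2) * L := Nat.mul_pos (pow_pos hbpos _) hL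
  have hBge : B0 ≤ B := by
    rw [hB, Nat.le_div_iff_mul_le hbL]
    have h1 : b ^ (d + 2) * m0 ≤ n := by
      rw [← Nat.le_div_iff_mul_le hm0pos]; exact hDn2
    calc B0 * (b ^ (d + 2) * L) = b ^ (d + 2) * m0 := by rw [hm0]; ring
      _ ≤ n := h1
  have hBlt : B < b * B0 := by
    rw [hB, Nat.div_lt_iff_lt_mul hbL]
    have h1 : n < b ^ (d + 2 + 1) * m0 := by
      rw [← Nat.div_lt_iff_lt_mul hm0pos]; exact hDn3
    calc n < b ^ (d + 2 + 1) * m0 := h1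
      _ = b * B0 * (b ^ (d + 2) * L) := by rw [hm0]; ring
  have hdd : d0 B ≤ d := by
    have h1 : d0 B ≤ dmax := Finset.le_sup (f := d0) (mem_range.2 (by omega))
    omega
  obtain ⟨hB1r, hσ1, hσ2, hτB, hAB⟩ := hBprop B hBge
  have hBpos : (0 : ℝ) < B := by linarith
  have hlow : B * (b ^ (d + 2) * L) ≤ n := by
    rw [← Nat.le_div_iff_mul_le hbL]
  have hupp : n < (B + 1) * (b ^ (d + 2) * L) := by
    rw [← Nat.div_lt_iff_lt_mul hbL]
    exact Nat.lt_succ_self _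
  set n' : ℝ := (b : ℝ) ^ (d + 2) * ((B : ℝ) * L) with hn'
  have hlow' : n' ≤ n := by
    have : ((B * (b ^ (d + 2) * L) : ℕ) : ℝ) ≤ n := by exact_mod_cast hlow
    push_cast at this
    calc n' = (B : ℝ) * ((b : ℝ) ^ (d + 2) * L) := by rw [hn']; ring
      _ ≤ n := this
  have hupp' : (n : ℝ) ≤ n' * (1 + 1 / B) := by
    have : (n : ℝ) < (((B + 1) * (b ^ (d + 2) * L) : ℕ) : ℝ) := by exact_mod_cast hupp
    push_cast at this
    calc (n : ℝ) ≤ ((B : ℝ) + 1) * ((b : ℝ) ^ (d + 2) * L) := this.le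
      _ = n' * (1 + 1 / B) := by rw [hn']; field_simp
  have hn'0 : 0 < n' := by rw [hn']; positivity
  set X : ℝ := (A * ((B : ℝ) * L) - σ B) * ((b : ℝ) ^ (d + 2) - 3 * (b : ℝ) ^ (d + 1))
        - Bp * (τ1 * ((b : ℝ) ^ (d + 2) * ((B : ℝ) * L))) with hX
  have hXge : n' * (A - Bp * τ - 3 * ε / 8) ≤ X := by
    refine engine_arith (τ1 := τ1) (B := B) (n := n) hA hBp.le hτ0 hε hBpos
      (by positivity : (0 : ℝ) < (B : ℝ) * L) (by positivity : (0 : ℝ) < (b : ℝ) ^ (d + 2))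
      hσ1 hσ2 ?_ (3 / (b : ℝ)) (by positivity) hbA rfl ?_
    · rw [hτ1def, add_sub_cancel_left]
      exact hδ3
    · rw [hX]
      have : 3 / (b : ℝ) * (b : ℝ) ^ (d + 2) = 3 * (b : ℝ) ^ (d + 1) := by
        rw [pow_succ (b : ℝ) (d + 1)]
        field_simp
      rw [this]
  rw [← hH] at hXge
  have hX0 : 0 ≤ X := by
    refine le_trans (mul_nonneg hn'0.le ?_) hXge
    linarith
  have hloc := hd0 B hBge d hdd ⌊X⌋₊ (Nat.floor_le hX0)
  have hcardS : Fintype.card (G b (d + 1) × (Fin B × Fin L)) ≤ n := by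
    have : Fintype.card (G b (d + 1) × (Fin B × Fin L)) = B * (b ^ (d + 2) * L) := by
      simp only [G, Fintype.card_prod, Fintype.card_fin, Fintype.card_fun, ZMod.card]
      ring
    rw [this]
    exact hlow
  have ht : ((⌊τ * n⌋₊ : ℕ) : ℝ) ≤ τ1 * n' := by
    have h1 : ((⌊τ * n⌋₊ : ℕ) : ℝ) ≤ τ * n := Nat.floor_le (by positivity)
    have h2 : τ * n ≤ τ * (n' * (1 + 1 / B)) := mul_le_mul_of_nonneg_left hupp' hτ0.le
    have h3 : τ * (n' * (1 + 1 / B)) = n' * (τ + τ / B) := by ring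
    have h4 : τ / B ≤ δ := by
      rw [div_le_iff₀ hBpos]; exact hτB
    have h5 : n' * (τ + τ / B) ≤ n' * (τ + δ) :=
      mul_le_mul_of_nonneg_left (by linarith) hn'0.le
    rw [hτ1def]
    linarith
  obtain ⟨f, hf⟩ := corrects_of_locCode hcardS ht hloc
  have hq1 : (1 : ℝ) < q := by exact_mod_cast (show 1 < q by omega)
  refine ⟨q ^ ⌊X⌋₊, f, pow_pos (by omega) _, hf, ?_⟩
  rw [Nat.cast_pow, Real.logb_pow, Real.logb_self_eq_one hq1, mul_one]
  have hfl : X < (⌊X⌋₊ : ℝ) + 1 := Nat.lt_floor_add_one X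
  have hHA : Hq q τ ≤ A := by
    rw [hH]
    have : 0 ≤ Bp * τ := by positivity
    linarith
  have h1 : (Hq q τ - ε) * n ≤ (Hq q τ - ε) * (n' * (1 + 1 / B)) :=
    mul_le_mul_of_nonneg_left hupp' hpos
  have h2 : (Hq q τ - ε) * (n' * (1 + 1 / B)) =
      n' * (Hq q τ - ε) + n' * ((Hq q τ - ε) / B) := by ring
  have h3 : (Hq q τ - ε) / B ≤ ε / 8 := by
    rw [div_le_iff₀ hBpos]
    linarith
  have h4 : n' * ((Hq q τ - ε) / B) ≤ n' * (ε / 8) := mul_le_mul_of_nonneg_left h3 hn'0.le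
  have h5 : (n : ℝ) ≤ 2 * n' := by
    have h9 : (1 : ℝ) / B ≤ 1 := by
      rw [div_le_one hBpos]; exact hB1r
    have h10 : n' * (1 + 1 / B) ≤ n' * 2 := mul_le_mul_of_nonneg_left (by linarith) hn'0.le
    linarith
  have h6 : 4 ≤ ε * n := by
    rw [div_le_iff₀ hε] at hn2
    linarith
  have h7 : ε * n ≤ ε * (2 * n') := mul_le_mul_of_nonneg_left h5 hε.le
  have h8 : n' * (Hq q τ - 3 * ε / 8) = n' * (Hq q τ - ε) + n' * (ε / 8) + ε * n' / 2 := by ring
  linarith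
end Pool.Agent.MPf4617e
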