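import Pool.Agent.Lib.MP_f4617e_lc.SysDefs

/-!
MP_f4617e_lc: basic properties of leaf sums.
-/

set_option autoImplicit false

namespace Pool.Agent.MPf4617e

open Finset

namespace RT

variable {L q : ℕ}

theorem LS_stop (f : Path L q → ℝ) : (RT.stop : RT L q).LS f = f [] := rfl

theorem LS_read (i : Fin L) (k : Fin q → RT L q) (f : Path L q → ℝ) :
    (RT.read i k).LS f = ∑ a, (k a).LS fun l => f ((i, a) :: l) := rfl

theorem LS_mix (n : ℕ) (w : Fin n → ℝ) (t : Fin n → RT L q) (f : Path L q → ℝ) :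
    (RT.mix n w t).LS f = ∑ j, w j * (t j).LS f := rfl

theorem LS_mix_two (s r : ℝ) (t u : RT L q) (f : Path L q → ℝ) :
    (RT.mix 2 ![s, r] ![t, u]).LS f = s * t.LS f + r * u.LS f := by
  simp [LS_mix, Fin.sum_univ_two]

theorem LS_add (t : RT L q) (f g : Path L q → ℝ) :
    t.LS (fun l => f l + g l) = t.LS f + t.LS g := by
  induction t generalizing f g with
  | stop => rfl
  | read i k ih => simp only [LS_read, ih, Finset.sum_add_distrib]
  | mix n w t ih => simp only [LS_mix, ih, mul_add, Finset.sum_add_distrib]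

theorem LS_const_mul (t : RT L q) (c : ℝ) (f : Path L q → ℝ) :
    t.LS (fun l => c * f l) = c * t.LS f := by
  induction t generalizing f with
  | stop => rfl
  | read i k ih => simp only [LS_read, ih, Finset.mul_sum]
  | mix n w t ih =>
    simp only [LS_mix, ih, Finset.mul_sum]
    exact Finset.sum_congr rfl fun j _ => by ring

theorem LS_zero (t : RT L q) : t.LS (fun _ => 0) = 0 := by
  have := LS_const_mul t 0 (fun _ => 0)
  simpa using this

theorem LS_sum {ι : Type} (s : Finset ι) (t : RT L q) (f : ι → Path L q → ℝ) :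
    t.LS (fun l => ∑ i ∈ s, f i l) = ∑ i ∈ s, t.LS (f i) := by
  classical
  induction s using Finset.induction_on with
  | empty => simp [LS_zero]
  | insert a s ha ih => simp only [Finset.sum_insert ha, LS_add, ih]

/-- monotonicity on the paths that can occur -/
theorem LS_mono {t : RT L q} {S : Finset (Fin L)} (ht : t.Ok S) {f g : Path L q → ℝ}
    (h : ∀ l : Path L q, (l.map Prod.fst).Nodup → Disjoint (sites l) S → f l ≤ g l) :
    t.LS f ≤ t.LS g := by
  induction t generalizing S f g with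
  | stop => exact h [] (by simp) (by simp [sites])
  | read i k ih =>
    obtain ⟨hi, hk⟩ := ht
    rw [LS_read, LS_read]
    refine Finset.sum_le_sum fun a _ => ih a (hk a) fun l hl hd => ?_
    have hd' : Disjoint (sites l) S ∧ i ∉ sites l := by
      rw [Finset.disjoint_insert_right] at hd
      exact ⟨hd.2, hd.1⟩
    refine h _ ?_ ?_
    · simp only [List.map_cons, List.nodup_cons]
      refine ⟨fun h' => hd'.2 ?_, hl⟩
      simpa [sites] using h'
    · have : sites ((i, a) :: l) = insert i (sites l) := by simp [sites]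
      rw [this, Finset.disjoint_insert_left]
      exact ⟨hi, hd'.1⟩
  | mix n w t ih =>
    obtain ⟨hw, -, ht⟩ := ht
    rw [LS_mix, LS_mix]
    exact Finset.sum_le_sum fun j _ => mul_le_mul_of_nonneg_left (ih j (ht j) h) (hw j)

theorem LS_congr {t : RT L q} {S : Finset (Fin L)} (ht : t.Ok S) {f g : Path L q → ℝ}
    (h : ∀ l : Path L q, (l.map Prod.fst).Nodup → Disjoint (sites l) S → f l = g l) :
    t.LS f = t.LS g :=
  le_antisymm (LS_mono ht fun l h1 h2 => (h l h1 h2).le)
    (LS_mono ht fun l h1 h2 => (h l h1 h2).ge)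

theorem LS_nonneg {t : RT L q} {S : Finset (Fin L)} (ht : t.Ok S) {f : Path L q → ℝ}
    (h : ∀ l : Path L q, (l.map Prod.fst).Nodup → Disjoint (sites l) S → 0 ≤ f l) :
    0 ≤ t.LS f := by
  have := LS_mono ht (f := fun _ => 0) (g := f) h
  rwa [LS_zero] at this

end RT

theorem Law.X_nonneg {q L : ℕ} [NeZero q] (W : Law q L) (T : Table q L) (E : Finset (Fin L)) :
    0 ≤ W.X T E :=
  RT.LS_nonneg W.ok fun l _ _ => by
    split_ifs <;> positivity

theorem Law.Z_nonneg {q L : ℕ} (W : Law q L) (E : Finset (Fin L)) : 0 ≤ W.Z E :=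
  RT.LS_nonneg W.ok fun l _ _ => by
    split_ifs <;> positivity

/-- One law that is good for every single block gives a good system. -/
theorem goodSystem_single {q L : ℕ} [NeZero q] {τ c1 c2 : ℝ} (T : Table q L) (W : Law q L)
    (hpos : ∀ e : ℕ, 0 < al q τ ^ e * (q * (1 - τ)) ^ (L - e))
    (hZ : ∀ E : Finset (Fin L), al q τ ^ E.card * (q * (1 - τ)) ^ (L - E.card) ≤ W.Z E)
    (hX : ∀ E : Finset (Fin L), (E.card : ℝ) + W.X T E / W.Z E ≤ c1 * E.card + c2 * L) :
    GoodSystem q L τ c1 c2 := by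
  refine ⟨T, 1, fun _ => W, fun B E => ⟨0, fun b => lt_of_lt_of_le (hpos _) (hZ _), ?_, ?_⟩⟩
  · exact Finset.prod_le_prod (fun b _ => (hpos _).le) fun b _ => hZ _
  · calc ∑ b, (((E b).card : ℝ) + W.X T (E b) / W.Z (E b))
        ≤ ∑ b : Fin B, (c1 * ((E b).card : ℝ) + c2 * L) := Finset.sum_le_sum fun b _ => hX _
      _ = c1 * ∑ b, ((E b).card : ℝ) + c2 * (B * L) := by
        rw [Finset.sum_add_distrib, ← Finset.mul_sum]
        simp
        ring

end Pool.Agent.MPf4617e
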