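import Pool.Agent.Lib.MP_f4617e_lc.LSBasic

/-!
MP_f4617e_lc: leaf sums of the random order tree and of the tree reading everything.
-/

set_option autoImplicit false

namespace Pool.Agent.MPf4617e

open Finset Filter Topology

theorem randtree_sites_cons {q L : ℕ} (i : Fin L) (c : Fin q) (l : Path L q) :
    sites ((i, c) :: l) = insert i (sites l) := by
  simp [sites]

theorem randtree_soT_succ {q L : ℕ} (s : List (Fin q) → ℝ) (n : ℕ) (rem : Fin (n + 1) → Fin L)
    (a : List (Fin q)) (f : Path L q → ℝ) :
    (soT s (n + 1) rem a).LS f = s a * f [] + (1 - s a) *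
      ∑ j : Fin (n + 1), 1 / ((n : ℝ) + 1) * ∑ c : Fin q,
        (soT s n (fun i => rem (j.succAbove i)) (a ++ [c])).LS
          (fun l => f ((rem j, c) :: l)) := by
  rw [soT, RT.LS_mix_two, RT.LS_stop, RT.LS_mix]
  rfl

theorem randtree_soT_ok {q L : ℕ} {s : List (Fin q) → ℝ} (hs : ∀ a, 0 ≤ s a ∧ s a ≤ 1)
    (n : ℕ) : ∀ (rem : Fin n → Fin L) (a : List (Fin q)) (S : Finset (Fin L)),
      Function.Injective rem → (∀ j, rem j ∉ S) → (soT s n rem a).Ok S := by
  induction n with
  | zero => intro rem a S _ _; trivial
  | succ n ih =>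
    intro rem a S hinj hS
    rw [soT]
    refine ⟨?_, ?_, ?_⟩
    · intro j
      fin_cases j
      · exact (hs a).1
      · have := (hs a).2
        simp only [Fin.mk_one, Matrix.cons_val_one, Matrix.cons_val_zero]
        linarith
    · rw [Fin.sum_univ_two]
      simp
    · intro j
      fin_cases j
      · trivial
      · refine ⟨?_, ?_, ?_⟩
        · intro _
          positivity
        · rw [Finset.sum_const, Finset.card_univ, Fintype.card_fin, nsmul_eq_mul]
          push_cast
          field_simp
        · intro j
          refine ⟨hS j, fun c => ih _ _ _ ?_ ?_⟩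
          · intro x y hxy
            exact Fin.succAbove_right_injective (hinj hxy)
          · intro i
            rw [Finset.mem_insert, not_or]
            exact ⟨fun h => Fin.succAbove_ne j i (hinj h), hS _⟩

theorem soT_ok {q L : ℕ} {s : List (Fin q) → ℝ} (hs : ∀ a, 0 ≤ s a ∧ s a ≤ 1) :
    (soT (L := L) s L id []).Ok ∅ :=
  randtree_soT_ok hs L id [] ∅ Function.injective_id (by simp)

theorem randtree_raT_ok {q L : ℕ} (n : ℕ) : ∀ (rem : Fin n → Fin L) (S : Finset (Fin L)),
    Function.Injective rem → (∀ j, rem j ∉ S) → (raT (q := q) n rem).Ok S := by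
  induction n with
  | zero => intro rem S _ _; trivial
  | succ n ih =>
    intro rem S hinj hS
    rw [raT]
    refine ⟨hS 0, fun _ => ih _ _ ?_ ?_⟩
    · intro x y hxy
      exact Fin.succ_injective n (hinj hxy)
    · intro i
      rw [Finset.mem_insert, not_or]
      exact ⟨fun h => Fin.succ_ne_zero i (hinj h), hS _⟩

theorem raT_ok {q L : ℕ} : (raT (q := q) (L := L) L id).Ok ∅ :=
  randtree_raT_ok L id ∅ Function.injective_id (by simp)

/-- the weights of the labels read in `r` further steps -/
noncomputable def randtree_W {q : ℕ} (s g : List (Fin q) → ℝ) (a : List (Fin q)) (r : ℕ) : ℝ :=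
  ∑ x : Fin r → Fin q, (∏ j ∈ range r, (1 - s (a ++ (List.ofFn x).take j))) *
    s (a ++ List.ofFn x) * g (a ++ List.ofFn x)

theorem randtree_W_zero {q : ℕ} (s g : List (Fin q) → ℝ) (a : List (Fin q)) :
    randtree_W s g a 0 = s a * g a := by
  simp [randtree_W]

theorem randtree_W_succ {q : ℕ} (s g : List (Fin q) → ℝ) (a : List (Fin q)) (r : ℕ) :
    randtree_W s g a (r + 1) = (1 - s a) * ∑ c : Fin q, randtree_W s g (a ++ [c]) r := by
  unfold randtree_W
  rw [← (Fin.consEquiv (fun _ : Fin (r + 1) => Fin q)).sum_comp, Fintype.sum_prod_type,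
    Finset.mul_sum]
  refine Finset.sum_congr rfl fun c _ => ?_
  rw [Finset.mul_sum]
  refine Finset.sum_congr rfl fun x _ => ?_
  have h : List.ofFn ((Fin.consEquiv (fun _ : Fin (r + 1) => Fin q)) (c, x)) =
      c :: List.ofFn x := by
    rw [List.ofFn_succ]
    simp [Fin.consEquiv]
  rw [h, Finset.prod_range_succ']
  simp only [List.take_succ_cons, List.take_zero, List.append_nil]
  have hp : ∏ j ∈ range r, (1 - s (a ++ c :: (List.ofFn x).take j)) =
      ∏ j ∈ range r, (1 - s (a ++ [c] ++ (List.ofFn x).take j)) :=
    Finset.prod_congr rfl fun j _ => by rw [List.append_cons]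
  rw [hp, List.append_cons a c (List.ofFn x)]
  ring

theorem randtree_count {L n : ℕ} (E : Finset (Fin L)) (rem : Fin (n + 1) → Fin L)
    (j : Fin (n + 1)) (hj : rem j ∉ E) :
    (univ.filter fun i : Fin n => rem (j.succAbove i) ∉ E).card + 1 =
      (univ.filter fun i : Fin (n + 1) => rem i ∉ E).card := by
  rw [Finset.card_filter, Finset.card_filter, Fin.sum_univ_succAbove _ j, if_pos hj, add_comm]

open Classical in
theorem randtree_soT_LS {q L : ℕ} (s : List (Fin q) → ℝ) (E : Finset (Fin L))
    (g : List (Fin q) → ℝ) (n : ℕ) :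
    ∀ (rem : Fin n → Fin L) (a : List (Fin q)), (∀ b, b.length = a.length + n → s b = 1) →
      (soT s n rem a).LS
        (fun l => if Disjoint (sites l) E then g (a ++ l.map Prod.snd) else 0) =
      ∑ r ∈ range ((univ.filter fun j => rem j ∉ E).card + 1),
        ((((univ.filter fun j => rem j ∉ E).card).descFactorial r : ℝ) /
          (n.descFactorial r : ℝ)) * randtree_W s g a r := by
  induction n with
  | zero =>
    intro rem a h
    rw [soT, RT.LS_stop]
    simp [sites, randtree_W_zero, h a rfl]
  | succ n ih =>
    intro rem a h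
    set m := (univ.filter fun j : Fin (n + 1) => rem j ∉ E).card with hm
    set Q : ℝ := ∑ r ∈ range m, (((m - 1).descFactorial r : ℝ) / (n.descFactorial r : ℝ)) *
      ∑ c : Fin q, randtree_W s g (a ++ [c]) r with hQ
    have hj : ∀ j : Fin (n + 1), ∑ c : Fin q,
        (soT s n (fun i => rem (j.succAbove i)) (a ++ [c])).LS
          (fun l => if Disjoint (sites ((rem j, c) :: l)) E then
            g (a ++ ((rem j, c) :: l).map Prod.snd) else 0) =
        if rem j ∉ E then Q else 0 := by
      intro j
      by_cases hj : rem j ∉ E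
      · rw [if_pos hj, hQ]
        have hc := randtree_count E rem j hj
        rw [← hm] at hc
        have h1 : ∀ c : Fin q, (soT s n (fun i => rem (j.succAbove i)) (a ++ [c])).LS
            (fun l => if Disjoint (sites ((rem j, c) :: l)) E then
            g (a ++ ((rem j, c) :: l).map Prod.snd) else 0) =
            ∑ r ∈ range m, (((m - 1).descFactorial r : ℝ) / (n.descFactorial r : ℝ)) *
              randtree_W s g (a ++ [c]) r := by
          intro c
          have h2 := ih (fun i => rem (j.succAbove i)) (a ++ [c]) (fun b hb => h b (by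
            rw [hb, List.length_append, List.length_singleton]; omega))
          have h3 : (univ.filter fun i : Fin n => rem (j.succAbove i) ∉ E).card = m - 1 := by
            omega
          rw [h3, show m - 1 + 1 = m by omega] at h2
          rw [← h2]
          congr 1
          funext l
          have h4 : Disjoint (sites ((rem j, c) :: l)) E ↔ Disjoint (sites l) E := by
            rw [randtree_sites_cons, Finset.disjoint_insert_left]
            exact ⟨fun h => h.2, fun h => ⟨hj, h⟩⟩
          by_cases h5 : Disjoint (sites l) E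
          · rw [if_pos (h4.2 h5), if_pos h5]
            simp
          · rw [if_neg (fun h6 => h5 (h4.1 h6)), if_neg h5]
        rw [Finset.sum_congr rfl fun c _ => h1 c, Finset.sum_comm]
        refine Finset.sum_congr rfl fun r _ => ?_
        rw [Finset.mul_sum]
      · rw [if_neg hj]
        refine Finset.sum_eq_zero fun c _ => ?_
        have h1 : (fun l : Path L q => if Disjoint (sites ((rem j, c) :: l)) E then
            g (a ++ ((rem j, c) :: l).map Prod.snd) else 0) = fun _ => 0 := by
          funext l
          rw [if_neg]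
          rw [randtree_sites_cons, Finset.disjoint_insert_left]
          exact fun h => h.1 (not_not.1 hj)
        rw [h1, RT.LS_zero]
    rw [randtree_soT_succ, Finset.sum_congr rfl fun j _ => by rw [hj j]]
    have h0 : (if Disjoint (sites ([] : Path L q)) E then
        g (a ++ ([] : Path L q).map Prod.snd) else 0) = g a := by
      simp [sites]
    rw [h0, Finset.sum_range_succ', ← Finset.mul_sum, ← Finset.sum_filter, Finset.sum_const,
      nsmul_eq_mul, ← hm]
    have h1 : ∑ r ∈ range m, ((m.descFactorial (r + 1) : ℝ) /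
        ((n + 1).descFactorial (r + 1) : ℝ)) * randtree_W s g a (r + 1) =
        (1 - s a) * (1 / ((n : ℝ) + 1) * (m * Q)) := by
      rw [hQ, Finset.mul_sum, Finset.mul_sum, Finset.mul_sum]
      refine Finset.sum_congr rfl fun r hr => ?_
      have hm1 : m = (m - 1) + 1 := by
        have := Finset.mem_range.1 hr
        omega
      have h2 : (m.descFactorial (r + 1) : ℝ) = m * ((m - 1).descFactorial r : ℝ) := by
        conv_lhs => rw [hm1]
        rw [Nat.succ_descFactorial_succ, ← hm1]
        push_cast
        ring
      rw [h2, Nat.succ_descFactorial_succ, randtree_W_succ]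
      push_cast
      rw [mul_div_mul_comm]
      ring
    rw [h1, randtree_W_zero]
    simp
    ring

open Classical in
theorem soT_LS {q L : ℕ} {s : List (Fin q) → ℝ} (hs : ∀ a, a.length = L → s a = 1)
    (E : Finset (Fin L)) (g : List (Fin q) → ℝ) :
    (soT s L id []).LS (fun l => if Disjoint (sites l) E then g (l.map Prod.snd) else 0) =
      ∑ r ∈ range (L - E.card + 1),
        (((L - E.card).descFactorial r : ℝ) / (L.descFactorial r : ℝ)) *
          ∑ a : Fin r → Fin q, surv s (List.ofFn a) * s (List.ofFn a) * g (List.ofFn a) := by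
  have h := randtree_soT_LS s E g L id [] (fun b hb => hs b (by simpa using hb))
  have hm : (univ.filter fun j : Fin L => id j ∉ E).card = L - E.card := by
    have h1 : (univ.filter fun j : Fin L => id j ∉ E) = Eᶜ := by
      ext j; simp
    rw [h1, Finset.card_compl, Fintype.card_fin]
  rw [hm] at h
  simp only [List.nil_append] at h
  rw [h]
  refine Finset.sum_congr rfl fun r _ => ?_
  congr 1
  unfold randtree_W
  refine Finset.sum_congr rfl fun x _ => ?_
  simp only [List.nil_append, surv, List.length_ofFn]

theorem randtree_raT_succ {q L : ℕ} (n : ℕ) (rem : Fin (n + 1) → Fin L) (f : Path L q → ℝ) :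
    (raT (n + 1) rem).LS f = ∑ c : Fin q, (raT n fun i => rem i.succ).LS
      (fun l => f ((rem 0, c) :: l)) := by
  rw [raT, RT.LS_read]

open Classical in
theorem randtree_raT_zero {q L : ℕ} (E : Finset (Fin L)) (n : ℕ) :
    ∀ (rem : Fin n → Fin L) (g : Path L q → ℝ), (∃ j, rem j ∈ E) →
      (raT n rem).LS (fun l => if Disjoint (sites l) E then g l else 0) = 0 := by
  induction n with
  | zero => rintro rem g ⟨j, -⟩; exact j.elim0
  | succ n ih =>
    rintro rem g ⟨j, hj⟩
    rw [randtree_raT_succ]
    refine Finset.sum_eq_zero fun c _ => ?_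
    by_cases h0 : rem 0 ∈ E
    · have h1 : (fun l : Path L q => if Disjoint (sites ((rem 0, c) :: l)) E then
          g ((rem 0, c) :: l) else 0) = fun _ => 0 := by
        funext l
        rw [if_neg]
        rw [randtree_sites_cons, Finset.disjoint_insert_left]
        exact fun h => h.1 h0
      rw [h1, RT.LS_zero]
    · have hex : ∃ i : Fin n, rem i.succ ∈ E := by
        rcases Fin.eq_zero_or_eq_succ j with h | ⟨i, h⟩
        · exact absurd (h ▸ hj) h0
        · exact ⟨i, h ▸ hj⟩
      have h1 := ih (fun i => rem i.succ) (fun l => g ((rem 0, c) :: l)) hex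
      refine Eq.trans ?_ h1
      congr 1
      funext l
      have h4 : Disjoint (sites ((rem 0, c) :: l)) E ↔ Disjoint (sites l) E := by
        rw [randtree_sites_cons, Finset.disjoint_insert_left]
        exact ⟨fun h => h.2, fun h => ⟨h0, h⟩⟩
      by_cases h5 : Disjoint (sites l) E
      · rw [if_pos (h4.2 h5), if_pos h5]
      · rw [if_neg (fun h6 => h5 (h4.1 h6)), if_neg h5]

theorem randtree_raT_nonneg {q L : ℕ} (n : ℕ) : ∀ (rem : Fin n → Fin L) (G : Path L q → ℝ),
    (∀ l, 0 ≤ G l) → 0 ≤ (raT n rem).LS G := by
  induction n with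
  | zero => intro rem G h; exact h []
  | succ n ih =>
    intro rem G h
    rw [randtree_raT_succ]
    exact Finset.sum_nonneg fun c _ => ih _ _ fun l => h _

theorem randtree_card {q L : ℕ} :
    (q : ℝ) - L ≤ ((univ.filter fun a : Fin q => a.val = 0 ∨ L < a.val).card : ℝ) := by
  classical
  have h1 := Finset.card_filter_add_card_filter_not (s := (univ : Finset (Fin q)))
    (fun a : Fin q => a.val = 0 ∨ L < a.val)
  rw [Finset.card_univ, Fintype.card_fin] at h1
  have h2 : (univ.filter fun a : Fin q => ¬ (a.val = 0 ∨ L < a.val)).card ≤ L := by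
    calc (univ.filter fun a : Fin q => ¬ (a.val = 0 ∨ L < a.val)).card
        = ((univ.filter fun a : Fin q => ¬ (a.val = 0 ∨ L < a.val)).image Fin.val).card := by
          rw [Finset.card_image_of_injective _ Fin.val_injective]
      _ ≤ (Finset.Icc 1 L).card := by
          refine Finset.card_le_card ?_
          intro x hx
          rw [Finset.mem_image] at hx
          obtain ⟨a, ha, rfl⟩ := hx
          have := (Finset.mem_filter.1 ha).2
          rw [Finset.mem_Icc]
          omega
      _ = L := by rw [Nat.card_Icc]; omega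
  have h3 : q ≤ (univ.filter fun a : Fin q => a.val = 0 ∨ L < a.val).card + L := by omega
  have h4 : (q : ℝ) ≤ ((univ.filter fun a : Fin q => a.val = 0 ∨ L < a.val).card : ℝ) + L := by
    exact_mod_cast h3
  linarith

theorem randtree_raT_lower {q L : ℕ} (hLq : L < q) (n : ℕ) :
    ∀ (rem : Fin n → Fin L) (G : Path L q → ℝ), (∀ l, 0 ≤ G l) →
      (∀ l : Path L q, l.length = n → (∀ p ∈ l, p.2.val = 0 ∨ L < p.2.val) → G l = 1) →
      ((q : ℝ) - L) ^ n ≤ (raT n rem).LS G := by
  classical
  have hq : (0 : ℝ) ≤ (q : ℝ) - L := by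
    have : (L : ℝ) ≤ q := by exact_mod_cast hLq.le
    linarith
  induction n with
  | zero =>
    intro rem G _ h
    have := h [] rfl (by simp)
    rw [raT, RT.LS_stop, this, pow_zero]
  | succ n ih =>
    intro rem G h0 h
    rw [randtree_raT_succ, pow_succ]
    calc ((q : ℝ) - L) ^ n * ((q : ℝ) - L)
        ≤ ((q : ℝ) - L) ^ n *
          ((univ.filter fun a : Fin q => a.val = 0 ∨ L < a.val).card : ℝ) :=
          mul_le_mul_of_nonneg_left randtree_card (pow_nonneg hq n)
      _ = ∑ _c ∈ univ.filter (fun a : Fin q => a.val = 0 ∨ L < a.val), ((q : ℝ) - L) ^ n := by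
          rw [Finset.sum_const, nsmul_eq_mul, mul_comm]
      _ ≤ ∑ c ∈ univ.filter (fun a : Fin q => a.val = 0 ∨ L < a.val),
          (raT n fun i => rem i.succ).LS (fun l => G ((rem 0, c) :: l)) := by
          refine Finset.sum_le_sum fun c hc => ih _ _ (fun l => h0 _) fun l hl hp => ?_
          refine h _ (by rw [List.length_cons, hl]) fun p hp' => ?_
          rcases List.mem_cons.1 hp' with h1 | h1
          · rw [h1]
            exact (Finset.mem_filter.1 hc).2
          · exact hp p h1
      _ ≤ _ := Finset.sum_le_univ_sum_of_nonneg fun c =>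
          randtree_raT_nonneg n _ _ fun l => h0 _

open Classical in
theorem raT_LS {q L : ℕ} (hL : 0 < L) (E : Finset (Fin L)) (g : Path L q → ℝ) :
    (E.Nonempty → (raT L id).LS (fun l => if Disjoint (sites l) E then g l else 0) = 0) ∧
    ((∀ l : Path L q, l.length = L → (∀ p ∈ l, p.2.val = 0 ∨ L < p.2.val) → g l = 1) →
      (∀ l : Path L q, 0 ≤ g l) → L < q →
      ((q : ℝ) - L) ^ L ≤ (raT L id).LS (fun l => g l)) := by
  have _ := hL
  constructor
  · rintro ⟨i, hi⟩
    exact randtree_raT_zero E L id g ⟨i, hi⟩
  · intro h1 h0 hLq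
    exact randtree_raT_lower hLq L id g h0 h1

end Pool.Agent.MPf4617e
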