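import Pool.Agent.Lib.MP_f4617e_lc.LSBasic

/-!
MP_f4617e_lc: existence of the stopping rule of the random order system.
-/

set_option autoImplicit false

namespace Pool.Agent.MPf4617e

open Finset Filter Topology

section StopRule

variable {q : ℕ}

open Classical in
/-- the rule with stopping probabilities `σ` at the words without trouble -/
noncomputable def stoprule_s (L w0 : ℕ) (σ : ℕ → ℝ) (a : List (Fin q)) : ℝ :=
  if L ≤ a.length then 1 else if Trb L w0 a then 0 else σ a.length

theorem stoprule_s_mem {L w0 : ℕ} {σ : ℕ → ℝ} (hσ : ∀ j, 0 ≤ σ j ∧ σ j ≤ 1)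
    (a : List (Fin q)) : 0 ≤ stoprule_s L w0 σ a ∧ stoprule_s L w0 σ a ≤ 1 := by
  unfold stoprule_s
  split_ifs
  · exact ⟨zero_le_one, le_refl _⟩
  · exact ⟨le_refl _, zero_le_one⟩
  · exact hσ _

theorem stoprule_surv_append (s : List (Fin q) → ℝ) (a : List (Fin q)) (c : Fin q) :
    surv s (a ++ [c]) = surv s a * (1 - s a) := by
  unfold surv
  rw [List.length_append, List.length_singleton, Finset.prod_range_succ]
  congr 1
  · refine Finset.prod_congr rfl fun j hj => ?_
    rw [List.take_append_of_le_length (Finset.mem_range.1 hj).le]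
  · rw [List.take_left' rfl]

/-- product of the first `t` factors -/
noncomputable def stoprule_T (s : List (Fin q) → ℝ) (t : ℕ) (a : List (Fin q)) : ℝ :=
  ∏ j ∈ range t, (1 - s (a.take j))

theorem stoprule_T_take (s : List (Fin q) → ℝ) {t : ℕ} {a : List (Fin q)}
    (h : t ≤ a.length) : surv s (a.take t) = stoprule_T s t a := by
  unfold surv stoprule_T
  rw [List.length_take, min_eq_left h]
  refine Finset.prod_congr rfl fun j hj => ?_
  rw [List.take_take, min_eq_left (Finset.mem_range.1 hj).le]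

theorem stoprule_T_nonneg {s : List (Fin q) → ℝ} (hs : ∀ a, 0 ≤ s a ∧ s a ≤ 1) (t : ℕ)
    (a : List (Fin q)) : 0 ≤ stoprule_T s t a :=
  Finset.prod_nonneg fun j _ => by linarith [(hs (a.take j)).2]

theorem stoprule_surv_nonneg {s : List (Fin q) → ℝ} (hs : ∀ a, 0 ≤ s a ∧ s a ≤ 1)
    (a : List (Fin q)) : 0 ≤ surv s a :=
  Finset.prod_nonneg fun j _ => by linarith [(hs (a.take j)).2]

theorem stoprule_surv_le_T {s : List (Fin q) → ℝ} (hs : ∀ a, 0 ≤ s a ∧ s a ≤ 1) {t : ℕ}
    {a : List (Fin q)} (h : t ≤ a.length) : surv s a ≤ stoprule_T s t a := by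
  obtain ⟨d, hd⟩ := Nat.exists_eq_add_of_le h
  unfold surv stoprule_T
  rw [hd, Finset.prod_range_add]
  refine mul_le_of_le_one_right (stoprule_T_nonneg hs t a) ?_
  refine Finset.prod_le_one (fun j _ => ?_) (fun j _ => ?_)
  · linarith [(hs (a.take (t + j))).2]
  · linarith [(hs (a.take (t + j))).1]

theorem stoprule_sum_succ (r : ℕ) (G : List (Fin q) → ℝ) :
    ∑ b : Fin (r + 1) → Fin q, G (List.ofFn b) =
      ∑ a : Fin r → Fin q, ∑ c : Fin q, G (List.ofFn a ++ [c]) := by
  rw [← (Fin.snocEquiv (fun _ : Fin (r + 1) => Fin q)).sum_comp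
    (fun b => G (List.ofFn b)), Fintype.sum_prod_type, Finset.sum_comm]
  refine Finset.sum_congr rfl fun a _ => Finset.sum_congr rfl fun c _ => ?_
  congr 1
  rw [List.ofFn_succ', List.concat_eq_append]
  simp [Fin.snocEquiv]

theorem stoprule_sum_take (t d : ℕ) (G : List (Fin q) → ℝ) :
    ∑ b : Fin (t + d) → Fin q, G ((List.ofFn b).take t) =
      (q : ℝ) ^ d * ∑ c : Fin t → Fin q, G (List.ofFn c) := by
  induction d with
  | zero =>
    rw [pow_zero, one_mul]
    refine Finset.sum_congr rfl fun c _ => ?_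
    rw [List.take_of_length_le (by simp)]
  | succ d ih =>
    have h := stoprule_sum_succ (t + d) (fun l => G (l.take t))
    rw [show t + (d + 1) = t + d + 1 from rfl, h]
    have h2 : ∀ a : Fin (t + d) → Fin q, ∑ c : Fin q, G ((List.ofFn a ++ [c]).take t) =
        (q : ℝ) * G ((List.ofFn a).take t) := by
      intro a
      rw [Finset.sum_congr rfl (g := fun _ => G ((List.ofFn a).take t))]
      · simp
      · intro c _
        rw [List.take_append_of_le_length (by simp)]
    rw [Finset.sum_congr rfl fun a _ => h2 a, ← Finset.mul_sum, ih, pow_succ]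
    ring

theorem stoprule_cnt_mono {k : ℕ} {r : ℕ} (a b : Fin r → Fin q)
    (h : ∀ i, (a i).val = k → (b i).val = k) (j : ℕ) :
    cnt k ((List.ofFn a).take j) ≤ cnt k ((List.ofFn b).take j) := by
  induction r generalizing j with
  | zero => simp
  | succ r ih =>
    cases j with
    | zero => simp
    | succ j =>
      have h1 := ih (fun i => a i.succ) (fun i => b i.succ) (fun i => h i.succ) j
      rw [List.ofFn_succ, List.ofFn_succ, List.take_succ_cons, List.take_succ_cons]
      unfold cnt at h1 ⊢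
      rw [List.countP_cons, List.countP_cons]
      have h2 := h 0
      by_cases ha : (a 0).val = k
      · simp only [ha, h2 ha, decide_true, if_true]
        omega
      · simp only [ha, decide_false]
        simp only [Bool.false_eq_true, if_false]
        omega

theorem stoprule_cnt_eq {k : ℕ} {r : ℕ} (a : Fin r → Fin q) :
    cnt k (List.ofFn a) = (univ.filter fun i : Fin r => (a i).val = k).card := by
  induction r with
  | zero => simp [cnt]
  | succ r ih =>
    have h1 := ih (fun i => a i.succ)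
    rw [List.ofFn_succ, Fin.card_filter_univ_succ, ← h1]
    unfold cnt
    rw [List.countP_cons]
    by_cases ha : (a 0).val = k
    · simp [ha, add_comm]
    · simp [ha]

theorem stoprule_T_mono {L w0 k t r : ℕ} {σ : ℕ → ℝ} (hσ : ∀ j, 0 ≤ σ j ∧ σ j ≤ 1)
    (htr : t ≤ r) (htL : t ≤ L) (ht : t ≤ L + 1 - (k + w0)) {I : Finset (Fin r)}
    {a b : Fin r → Fin q}
    (ha : ∀ i ∈ I, (a i).val = k) (hb : ∀ i, i ∉ I → b i = a i) :
    stoprule_T (stoprule_s L w0 σ) t (List.ofFn a) ≤
      stoprule_T (stoprule_s L w0 σ) t (List.ofFn b) := by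
  unfold stoprule_T
  refine Finset.prod_le_prod (fun j _ => ?_) (fun j hj => ?_)
  · linarith [(stoprule_s_mem (L := L) (w0 := w0) hσ ((List.ofFn a).take j)).2]
  · have hj' := Finset.mem_range.1 hj
    have hla : ((List.ofFn a).take j).length = j := by
      rw [List.length_take, List.length_ofFn]; omega
    have hlb : ((List.ofFn b).take j).length = j := by
      rw [List.length_take, List.length_ofFn]; omega
    have key : Trb L w0 ((List.ofFn a).take j) → Trb L w0 ((List.ofFn b).take j) := by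
      rintro ⟨k', h1, h2, h3, h4⟩
      refine ⟨k', h1, h2, ?_, ?_⟩
      · rw [hlb]; rw [hla] at h3; exact h3
      · rw [hlb]; rw [hla] at h4 h3
        refine h4.trans (stoprule_cnt_mono a b (fun i hi => ?_) j)
        have hiI : i ∉ I := by
          intro hiI
          have := ha i hiI
          omega
        rw [hb i hiI]
        exact hi
    have : stoprule_s L w0 σ ((List.ofFn b).take j) ≤
        stoprule_s L w0 σ ((List.ofFn a).take j) := by
      unfold stoprule_s
      rw [hla, hlb]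
      have hjL : ¬ L ≤ j := by omega
      rw [if_neg hjL, if_neg hjL]
      by_cases hTa : Trb L w0 ((List.ofFn a).take j)
      · rw [if_pos hTa, if_pos (key hTa)]
      · rw [if_neg hTa]
        split_ifs
        · exact (hσ j).1
        · exact le_refl _
    linarith

theorem stoprule_swap {L w0 k t r : ℕ} {σ : ℕ → ℝ} (hσ : ∀ j, 0 ≤ σ j ∧ σ j ≤ 1)
    (htr : t ≤ r) (htL : t ≤ L) (ht : t ≤ L + 1 - (k + w0)) (I : Finset (Fin r)) :
    (q : ℝ) ^ I.card * ∑ a ∈ univ.filter (fun a : Fin r → Fin q => ∀ i ∈ I, (a i).val = k),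
      stoprule_T (stoprule_s L w0 σ) t (List.ofFn a) ≤
      ∑ b : Fin r → Fin q, stoprule_T (stoprule_s L w0 σ) t (List.ofFn b) := by
  classical
  set A := univ.filter (fun a : Fin r → Fin q => ∀ i ∈ I, (a i).val = k) with hA
  set g : (Fin r → Fin q) → ℝ := fun a => stoprule_T (stoprule_s L w0 σ) t (List.ofFn a) with hg
  have hg0 : ∀ a, 0 ≤ g a := fun a => stoprule_T_nonneg (fun _ => stoprule_s_mem hσ _) t _
  let φ : (Fin r → Fin q) × (I → Fin q) → (Fin r → Fin q) :=
    fun x i => if h : i ∈ I then x.2 ⟨i, h⟩ else x.1 i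
  have hinj : Set.InjOn φ (A ×ˢ (univ : Finset (I → Fin q)) : Finset _) := by
    rintro ⟨a, c⟩ h1 ⟨a', c'⟩ h2 h
    simp only [Finset.coe_product, Set.mem_prod, Finset.mem_coe, hA, Finset.mem_filter,
      Finset.mem_univ, true_and, and_true] at h1 h2
    have hc : c = c' := by
      funext ⟨i, hi⟩
      have := congrFun h i
      simpa [φ, hi] using this
    have ha : a = a' := by
      funext i
      by_cases hi : i ∈ I
      · exact Fin.ext ((h1 i hi).trans (h2 i hi).symm)
      · have := congrFun h i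
        simpa [φ, hi] using this
    rw [ha, hc]
  have h1 : (q : ℝ) ^ I.card * ∑ a ∈ A, g a =
      ∑ x ∈ A ×ˢ (univ : Finset (I → Fin q)), g x.1 := by
    rw [Finset.sum_product, Finset.mul_sum]
    refine Finset.sum_congr rfl fun a _ => ?_
    simp
  have h2 : ∑ x ∈ A ×ˢ (univ : Finset (I → Fin q)), g x.1 ≤
      ∑ x ∈ A ×ˢ (univ : Finset (I → Fin q)), g (φ x) := by
    refine Finset.sum_le_sum fun x hx => ?_
    rw [Finset.mem_product] at hx
    have hx1 := (Finset.mem_filter.1 hx.1).2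
    refine stoprule_T_mono hσ htr htL ht hx1 fun i hi => ?_
    simp [φ, hi]
  have h3 : ∑ x ∈ A ×ˢ (univ : Finset (I → Fin q)), g (φ x) =
      ∑ b ∈ (A ×ˢ (univ : Finset (I → Fin q))).image φ, g b := by
    rw [Finset.sum_image hinj]
  rw [h1]
  refine h2.trans ?_
  rw [h3]
  exact Finset.sum_le_univ_sum_of_nonneg hg0

/-! ### The target weights -/

/-- the binomial weights -/
noncomputable def stoprule_p (L : ℕ) (α β : ℝ) (r : ℕ) : ℝ :=
  (L.choose r : ℝ) * β ^ r * α ^ (L - r)

/-- their tails -/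
noncomputable def stoprule_P (L : ℕ) (α β : ℝ) (r : ℕ) : ℝ :=
  ∑ j ∈ Finset.Ico r (L + 1), stoprule_p L α β j

theorem stoprule_P_zero {L : ℕ} {α β : ℝ} (h : α + β = 1) : stoprule_P L α β 0 = 1 := by
  unfold stoprule_P stoprule_p
  have h1 := add_pow β α L
  rw [add_comm β α, h, one_pow] at h1
  rw [← Finset.range_eq_Ico]
  refine Eq.trans (Finset.sum_congr rfl fun j _ => ?_) h1.symm
  ring

theorem stoprule_P_succ {L : ℕ} (α β : ℝ) {r : ℕ} (h : r ≤ L) :
    stoprule_P L α β r = stoprule_p L α β r + stoprule_P L α β (r + 1) := by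
  unfold stoprule_P
  exact Finset.sum_eq_sum_Ico_succ_bot (by omega) _

theorem stoprule_P_last (L : ℕ) (α β : ℝ) : stoprule_P L α β L = stoprule_p L α β L := by
  rw [stoprule_P_succ α β (le_refl L)]
  unfold stoprule_P
  simp

theorem stoprule_p_pos {L : ℕ} {α β : ℝ} (hα : 0 < α) (hβ : 0 < β) {r : ℕ} (h : r ≤ L) :
    0 < stoprule_p L α β r := by
  unfold stoprule_p
  have := Nat.choose_pos h
  positivity

theorem stoprule_P_nonneg {L : ℕ} {α β : ℝ} (hα : 0 < α) (hβ : 0 < β) (r : ℕ) :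
    0 ≤ stoprule_P L α β r := by
  refine Finset.sum_nonneg fun j hj => ?_
  rw [Finset.mem_Ico] at hj
  exact (stoprule_p_pos hα hβ (by omega)).le

theorem stoprule_P_pos {L : ℕ} {α β : ℝ} (hα : 0 < α) (hβ : 0 < β) {r : ℕ} (h : r ≤ L) :
    0 < stoprule_P L α β r := by
  rw [stoprule_P_succ α β h]
  have h1 := stoprule_p_pos hα hβ h
  have h2 := stoprule_P_nonneg (L := L) hα hβ (r + 1)
  linarith

theorem stoprule_p_ratio {L : ℕ} {α β : ℝ} (hα : 0 < α) (hβ : 0 < β) (hab : α ≤ 2 * β)
    {j : ℕ} (h : j < L) : stoprule_p L α β j ≤ 2 * L * stoprule_p L α β (j + 1) := by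
  have h1 : (L.choose (j + 1) : ℝ) * (j + 1) = (L.choose j : ℝ) * ((L : ℝ) - j) := by
    have := Nat.choose_succ_right_eq L j
    have h2 : ((L.choose (j + 1) * (j + 1) : ℕ) : ℝ) = ((L.choose j * (L - j) : ℕ) : ℝ) := by
      rw [this]
    rw [Nat.cast_mul, Nat.cast_mul, Nat.cast_sub h.le] at h2
    push_cast at h2
    exact h2
  have h3 : α ^ (L - j) = α * α ^ (L - (j + 1)) := by
    rw [← pow_succ']
    congr 1
    omega
  have hp1 := stoprule_p_pos (L := L) hα hβ (r := j + 1) (by omega)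
  have hp0 := stoprule_p_pos (L := L) hα hβ (r := j) (by omega)
  have h4 : stoprule_p L α β j * (((L : ℝ) - j) * β) =
      ((j : ℝ) + 1) * α * stoprule_p L α β (j + 1) := by
    unfold stoprule_p
    rw [h3, pow_succ]
    linear_combination (-(β ^ j * α * α ^ (L - (j + 1)) * β)) * h1
  have h5 : (1 : ℝ) ≤ (L : ℝ) - j := by
    have : ((j + 1 : ℕ) : ℝ) ≤ (L : ℝ) := by exact_mod_cast h
    push_cast at this
    linarith
  have h6 : ((j : ℝ) + 1) ≤ L := by linarith
  have h7 : stoprule_p L α β j * β ≤ (2 * L * stoprule_p L α β (j + 1)) * β := by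
    calc stoprule_p L α β j * β ≤ stoprule_p L α β j * (((L : ℝ) - j) * β) := by
          refine mul_le_mul_of_nonneg_left ?_ hp0.le
          nlinarith
      _ = ((j : ℝ) + 1) * α * stoprule_p L α β (j + 1) := h4
      _ ≤ (L : ℝ) * (2 * β) * stoprule_p L α β (j + 1) := by
          refine mul_le_mul_of_nonneg_right ?_ hp1.le
          exact mul_le_mul h6 hab hα.le (by positivity)
      _ = _ := by ring
  exact le_of_mul_le_mul_right h7 hβ

theorem stoprule_P_ratio {L : ℕ} (hL : 1 ≤ L) {α β : ℝ} (hα : 0 < α) (hβ : 0 < β)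
    (hab : α ≤ 2 * β) {j : ℕ} (h : j < L) :
    stoprule_P L α β j ≤ 3 * L * stoprule_P L α β (j + 1) := by
  rw [stoprule_P_succ α β h.le]
  have h1 := stoprule_p_ratio hα hβ hab h
  have h2 : stoprule_p L α β (j + 1) ≤ stoprule_P L α β (j + 1) := by
    rw [stoprule_P_succ α β (r := j + 1) (by omega)]
    have := stoprule_P_nonneg (L := L) hα hβ (j + 1 + 1)
    linarith
  have h3 : (1 : ℝ) ≤ L := by exact_mod_cast hL
  have h4 := stoprule_P_nonneg (L := L) hα hβ (j + 1)
  nlinarith

theorem stoprule_P_pow {L : ℕ} (hL : 1 ≤ L) {α β : ℝ} (hα : 0 < α) (hβ : 0 < β)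
    (hab : α ≤ 2 * β) (t d : ℕ) (h : t + d ≤ L) :
    stoprule_P L α β t ≤ (3 * L : ℝ) ^ d * stoprule_P L α β (t + d) := by
  induction d with
  | zero => simp
  | succ d ih =>
    have h1 := ih (by omega)
    have h2 := stoprule_P_ratio hL hα hβ hab (j := t + d) (by omega)
    calc stoprule_P L α β t ≤ (3 * L : ℝ) ^ d * stoprule_P L α β (t + d) := h1
      _ ≤ (3 * L : ℝ) ^ d * (3 * L * stoprule_P L α β (t + d + 1)) :=
          mul_le_mul_of_nonneg_left h2 (by positivity)
      _ = _ := by rw [pow_succ, add_assoc]; ring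

/-! ### The sum over the thresholds -/

theorem stoprule_geom {y : ℝ} (hy : 0 ≤ y) (hy2 : y ≤ 1 / 2) (n : ℕ) :
    ∑ i ∈ range n, y ^ (i + 2) ≤ y * (1 - (1 / 2) ^ n) := by
  induction n with
  | zero => simp
  | succ n ih =>
    rw [Finset.sum_range_succ]
    have h1 : y ^ (n + 2) ≤ y * (1 / 2) ^ (n + 1) := by
      rw [pow_succ' y (n + 1)]
      exact mul_le_mul_of_nonneg_left (pow_le_pow_left₀ hy hy2 _) hy
    have h2 : ((1 : ℝ) / 2) ^ (n + 1) = (1 / 2) ^ n / 2 := by rw [pow_succ]; ring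
    rw [h2] at h1 ⊢
    nlinarith

theorem stoprule_numeric {L w0 r : ℕ} (hL : 1 ≤ L) (hLq : L < q) (hr : r < L)
    (hcond : ((w0 : ℝ) + 2) * (3 * L) ^ w0 * (3 * (L : ℝ) ^ 2) ≤ q) :
    ∑ k ∈ (Finset.Icc 2 L).filter (fun k => (L - r) + 1 ≤ k + w0),
      (r.choose (max 1 (k - (L - r))) : ℝ) * (3 * (L : ℝ)) ^ (r + 1 - (L + 1 - (k + w0))) /
        (q : ℝ) ^ (max 1 (k - (L - r))) ≤ 1 := by
  have hq : (0 : ℝ) < q := by
    have : 0 < q := by omega
    exact_mod_cast this
  have hL1 : (1 : ℝ) ≤ L := by exact_mod_cast hL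
  have h3L : (1 : ℝ) ≤ 3 * L := by linarith
  set f := L - r with hf
  set y : ℝ := 3 * (L : ℝ) ^ 2 / q with hy
  have hy0 : 0 ≤ y := by positivity
  have hpw : (1 : ℝ) ≤ (3 * (L : ℝ)) ^ w0 := one_le_pow₀ h3L
  have hy2 : y ≤ 1 / 2 := by
    rw [hy, div_le_iff₀ hq]
    have h1 : (2 : ℝ) * (3 * (L : ℝ) ^ 2) ≤
        ((w0 : ℝ) + 2) * (3 * L) ^ w0 * (3 * (L : ℝ) ^ 2) := by
      refine mul_le_mul_of_nonneg_right ?_ (by positivity)
      have : (0 : ℝ) ≤ w0 := Nat.cast_nonneg _
      nlinarith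
    linarith
  have htot : ((w0 : ℝ) + 2) * (3 * L) ^ w0 * y ≤ 1 := by
    rw [hy, ← mul_div_assoc, div_le_one hq]
    exact hcond
  have hterm : ∀ k ∈ (Finset.Icc 2 L).filter (fun k => f + 1 ≤ k + w0),
      (r.choose (max 1 (k - f)) : ℝ) * (3 * (L : ℝ)) ^ (r + 1 - (L + 1 - (k + w0))) /
        (q : ℝ) ^ (max 1 (k - f)) ≤
      if k ≤ f + 1 then (3 * (L : ℝ)) ^ w0 * y else (3 * (L : ℝ)) ^ w0 * y ^ (k - f) := by
    intro k hk
    rw [Finset.mem_filter, Finset.mem_Icc] at hk
    obtain ⟨⟨hk1, hk2⟩, hk3⟩ := hk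
    have he : r + 1 - (L + 1 - (k + w0)) ≤ k + w0 - f := by omega
    have hpow : (3 * (L : ℝ)) ^ (r + 1 - (L + 1 - (k + w0))) ≤ (3 * (L : ℝ)) ^ (k + w0 - f) :=
      pow_le_pow_right₀ h3L he
    have hch : ∀ m : ℕ, (r.choose m : ℝ) ≤ (L : ℝ) ^ m := by
      intro m
      have h1 : r.choose m ≤ r ^ m := Nat.choose_le_pow r m
      have h2 : r ^ m ≤ L ^ m := Nat.pow_le_pow_left hr.le m
      exact_mod_cast h1.trans h2
    split_ifs with hkf
    · have hm : max 1 (k - f) = 1 := by omega
      have hexp : (3 * (L : ℝ)) ^ (k + w0 - f) ≤ (3 * (L : ℝ)) ^ (w0 + 1) :=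
        pow_le_pow_right₀ h3L (by omega)
      rw [hm, div_le_iff₀ (by positivity)]
      calc (r.choose 1 : ℝ) * (3 * (L : ℝ)) ^ (r + 1 - (L + 1 - (k + w0)))
          ≤ (L : ℝ) ^ 1 * (3 * (L : ℝ)) ^ (w0 + 1) :=
            mul_le_mul (hch 1) (hpow.trans hexp) (by positivity) (by positivity)
        _ = (3 * (L : ℝ)) ^ w0 * y * q ^ 1 := by
            rw [hy]
            field_simp
            ring
    · have hm : max 1 (k - f) = k - f := by omega
      have hexp : k + w0 - f = w0 + (k - f) := by omega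
      rw [hm, div_le_iff₀ (by positivity)]
      rw [hexp] at hpow
      calc (r.choose (k - f) : ℝ) * (3 * (L : ℝ)) ^ (r + 1 - (L + 1 - (k + w0)))
          ≤ (L : ℝ) ^ (k - f) * (3 * (L : ℝ)) ^ (w0 + (k - f)) :=
            mul_le_mul (hch _) hpow (by positivity) (by positivity)
        _ = (3 * (L : ℝ)) ^ w0 * y ^ (k - f) * q ^ (k - f) := by
            rw [mul_assoc, ← mul_pow, hy, div_mul_cancel₀ _ hq.ne', pow_add]
            rw [show (3 * (L : ℝ) ^ 2) = L * (3 * L) by ring, mul_pow (L : ℝ) (3 * L)]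
            ring
  refine (Finset.sum_le_sum hterm).trans ?_
  rw [← Finset.sum_filter_add_sum_filter_not _ (fun k => k ≤ f + 1)]
  have hA : ∑ k ∈ ((Finset.Icc 2 L).filter (fun k => f + 1 ≤ k + w0)).filter
      (fun k => k ≤ f + 1),
      (if k ≤ f + 1 then (3 * (L : ℝ)) ^ w0 * y else (3 * (L : ℝ)) ^ w0 * y ^ (k - f)) ≤
      ((w0 : ℝ) + 1) * ((3 * (L : ℝ)) ^ w0 * y) := by
    have hcard : (((Finset.Icc 2 L).filter (fun k => f + 1 ≤ k + w0)).filter
        (fun k => k ≤ f + 1)).card ≤ w0 + 1 := by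
      have hsub : ((Finset.Icc 2 L).filter (fun k => f + 1 ≤ k + w0)).filter
          (fun k => k ≤ f + 1) ⊆ Finset.Icc (f + 1 - w0) (f + 1) := by
        intro k hk
        simp only [Finset.mem_filter, Finset.mem_Icc] at hk ⊢
        omega
      refine (Finset.card_le_card hsub).trans ?_
      rw [Nat.card_Icc]
      omega
    rw [Finset.sum_congr rfl (g := fun _ => (3 * (L : ℝ)) ^ w0 * y)]
    · rw [Finset.sum_const, nsmul_eq_mul]
      refine mul_le_mul_of_nonneg_right ?_ (by positivity)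
      have : ((((Finset.Icc 2 L).filter (fun k => f + 1 ≤ k + w0)).filter
        (fun k => k ≤ f + 1)).card : ℝ) ≤ ((w0 + 1 : ℕ) : ℝ) := by exact_mod_cast hcard
      push_cast at this
      exact this
    · intro k hk
      rw [if_pos (Finset.mem_filter.1 hk).2]
  have hB : ∑ k ∈ ((Finset.Icc 2 L).filter (fun k => f + 1 ≤ k + w0)).filter
      (fun k => ¬ k ≤ f + 1),
      (if k ≤ f + 1 then (3 * (L : ℝ)) ^ w0 * y else (3 * (L : ℝ)) ^ w0 * y ^ (k - f)) ≤
      (3 * (L : ℝ)) ^ w0 * y := by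
    have hsub : ((Finset.Icc 2 L).filter (fun k => f + 1 ≤ k + w0)).filter
        (fun k => ¬ k ≤ f + 1) ⊆ Finset.Ico (f + 2) (L + 1) := by
      intro k hk
      simp only [Finset.mem_filter, Finset.mem_Icc, Finset.mem_Ico] at hk ⊢
      omega
    calc _ ≤ ∑ k ∈ ((Finset.Icc 2 L).filter (fun k => f + 1 ≤ k + w0)).filter
          (fun k => ¬ k ≤ f + 1), (3 * (L : ℝ)) ^ w0 * y ^ (k - f) := by
          refine Finset.sum_le_sum fun k hk => ?_
          rw [if_neg (Finset.mem_filter.1 hk).2]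
      _ ≤ ∑ k ∈ Finset.Ico (f + 2) (L + 1), (3 * (L : ℝ)) ^ w0 * y ^ (k - f) :=
          Finset.sum_le_sum_of_subset_of_nonneg hsub fun k _ _ => by positivity
      _ = (3 * (L : ℝ)) ^ w0 * ∑ i ∈ range (L + 1 - (f + 2)), y ^ (i + 2) := by
          rw [← Finset.mul_sum, Finset.sum_Ico_eq_sum_range]
          congr 1
          refine Finset.sum_congr rfl fun i _ => ?_
          congr 1
          omega
      _ ≤ (3 * (L : ℝ)) ^ w0 * y := by
          refine mul_le_mul_of_nonneg_left ?_ (by positivity)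
          refine (stoprule_geom hy0 hy2 _).trans ?_
          have : (0 : ℝ) ≤ (1 / 2) ^ (L + 1 - (f + 2)) := by positivity
          nlinarith
  calc _ ≤ ((w0 : ℝ) + 1) * ((3 * (L : ℝ)) ^ w0 * y) + (3 * (L : ℝ)) ^ w0 * y := add_le_add hA hB
    _ = ((w0 : ℝ) + 2) * (3 * L) ^ w0 * y := by ring
    _ ≤ 1 := htot

/-! ### The trouble is rare -/

theorem stoprule_sum_T (s : List (Fin q) → ℝ) {t r : ℕ} (h : t ≤ r) :
    ∑ b : Fin r → Fin q, stoprule_T s t (List.ofFn b) =
      (q : ℝ) ^ (r - t) * ∑ c : Fin t → Fin q, surv s (List.ofFn c) := by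
  obtain ⟨d, rfl⟩ := Nat.exists_eq_add_of_le h
  rw [← stoprule_sum_take t (t + d - t), show t + (t + d - t) = t + d by omega]
  refine Finset.sum_congr rfl fun b _ => ?_
  rw [stoprule_T_take s (by simp)]

open Classical in
theorem stoprule_trouble {L w0 r : ℕ} (hL : 1 ≤ L) (hLq : L < q) {α β : ℝ} (hα : 0 < α)
    (hβ : 0 < β) (hab : α ≤ 2 * β)
    (hcond : ((w0 : ℝ) + 2) * (3 * L) ^ w0 * (3 * (L : ℝ) ^ 2) ≤ q)
    {σ : ℕ → ℝ} (hσ : ∀ j, 0 ≤ σ j ∧ σ j ≤ 1) (hr : r < L)
    (hV : ∀ j ≤ r, ∑ c : Fin j → Fin q, surv (stoprule_s L w0 σ) (List.ofFn c) =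
      (q : ℝ) ^ j * stoprule_P L α β j) :
    ∑ a : Fin r → Fin q, (if Trb L w0 (List.ofFn a) then
      surv (stoprule_s L w0 σ) (List.ofFn a) else 0) ≤
      (q : ℝ) ^ r * stoprule_P L α β (r + 1) := by
  have hq : (0 : ℝ) < q := by
    have : 0 < q := by omega
    exact_mod_cast this
  set s := stoprule_s (q := q) L w0 σ with hs
  have hs01 : ∀ a, 0 ≤ s a ∧ s a ≤ 1 := fun a => stoprule_s_mem hσ a
  set f := L - r with hf
  set K := (Finset.Icc 2 L).filter (fun k => f + 1 ≤ k + w0) with hK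
  have hpoint : ∀ a : Fin r → Fin q,
      (if Trb L w0 (List.ofFn a) then surv s (List.ofFn a) else 0) ≤
      ∑ k ∈ K, ∑ I ∈ Finset.powersetCard (max 1 (k - f)) (univ : Finset (Fin r)),
        (if ∀ i ∈ I, (a i).val = k then stoprule_T s (L + 1 - (k + w0)) (List.ofFn a) else 0) := by
    intro a
    have hnn : ∀ k ∈ K, 0 ≤ ∑ I ∈ Finset.powersetCard (max 1 (k - f)) (univ : Finset (Fin r)),
        (if ∀ i ∈ I, (a i).val = k then
          stoprule_T s (L + 1 - (k + w0)) (List.ofFn a) else 0) := by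
      intro k _
      refine Finset.sum_nonneg fun I _ => ?_
      split_ifs
      · exact stoprule_T_nonneg hs01 _ _
      · exact le_refl _
    split_ifs with hT
    · obtain ⟨k, h1, h2, h3, h4⟩ := hT
      rw [List.length_ofFn] at h3 h4
      rw [stoprule_cnt_eq] at h4
      obtain ⟨I, hI1, hI2⟩ := Finset.exists_subset_card_eq h4
      have hkK : k ∈ K := by
        rw [hK, Finset.mem_filter, Finset.mem_Icc]
        exact ⟨⟨h1, h2⟩, h3⟩
      refine le_trans ?_ (Finset.single_le_sum hnn hkK)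
      have hIm : I ∈ Finset.powersetCard (max 1 (k - f)) (univ : Finset (Fin r)) :=
        Finset.mem_powersetCard.2 ⟨Finset.subset_univ _, hI2⟩
      have hIk : ∀ i ∈ I, (a i).val = k := fun i hi => (Finset.mem_filter.1 (hI1 hi)).2
      refine le_trans ?_ (Finset.single_le_sum (f := fun I =>
        (if ∀ i ∈ I, (a i).val = k then
          stoprule_T s (L + 1 - (k + w0)) (List.ofFn a) else 0)) (fun J _ => ?_) hIm)
      · rw [if_pos hIk]
        refine stoprule_surv_le_T hs01 ?_
        rw [List.length_ofFn]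
        omega
      · split_ifs
        · exact stoprule_T_nonneg hs01 _ _
        · exact le_refl _
    · exact Finset.sum_nonneg hnn
  refine (Finset.sum_le_sum fun a _ => hpoint a).trans ?_
  rw [Finset.sum_comm]
  have hk : ∀ k ∈ K, ∑ a : Fin r → Fin q,
      ∑ I ∈ Finset.powersetCard (max 1 (k - f)) (univ : Finset (Fin r)),
        (if ∀ i ∈ I, (a i).val = k then
          stoprule_T s (L + 1 - (k + w0)) (List.ofFn a) else 0) ≤
      ((q : ℝ) ^ r * stoprule_P L α β (r + 1)) *
        ((r.choose (max 1 (k - f)) : ℝ) * (3 * (L : ℝ)) ^ (r + 1 - (L + 1 - (k + w0))) /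
        (q : ℝ) ^ (max 1 (k - f))) := by
    intro k hk
    rw [hK, Finset.mem_filter, Finset.mem_Icc] at hk
    obtain ⟨⟨hk1, hk2⟩, hk3⟩ := hk
    set t := L + 1 - (k + w0) with ht
    have htr : t ≤ r := by omega
    rw [Finset.sum_comm]
    have hI : ∀ I ∈ Finset.powersetCard (max 1 (k - f)) (univ : Finset (Fin r)),
        ∑ a : Fin r → Fin q, (if ∀ i ∈ I, (a i).val = k then
          stoprule_T s t (List.ofFn a) else 0) ≤
        (q : ℝ) ^ r * stoprule_P L α β (r + 1) * (3 * (L : ℝ)) ^ (r + 1 - t) /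
          (q : ℝ) ^ (max 1 (k - f)) := by
      intro I hI
      have hIc := (Finset.mem_powersetCard.1 hI).2
      rw [← Finset.sum_filter, le_div_iff₀ (by positivity), mul_comm]
      have h1 := stoprule_swap (q := q) (L := L) (w0 := w0) (k := k) (t := t) (r := r) hσ htr
        (by omega) (by omega) I
      rw [hIc] at h1
      refine h1.trans ?_
      rw [stoprule_sum_T _ htr, hV t htr]
      have h2 := stoprule_P_pow hL hα hβ hab t (r + 1 - t) (by omega)
      rw [show t + (r + 1 - t) = r + 1 by omega] at h2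
      calc (q : ℝ) ^ (r - t) * ((q : ℝ) ^ t * stoprule_P L α β t)
          = (q : ℝ) ^ r * stoprule_P L α β t := by
            rw [← mul_assoc, ← pow_add]
            congr 2
            omega
        _ ≤ (q : ℝ) ^ r * ((3 * (L : ℝ)) ^ (r + 1 - t) * stoprule_P L α β (r + 1)) :=
            mul_le_mul_of_nonneg_left h2 (by positivity)
        _ = _ := by ring
    refine (Finset.sum_le_sum hI).trans ?_
    rw [Finset.sum_const, Finset.card_powersetCard, Finset.card_univ, Fintype.card_fin,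
      nsmul_eq_mul]
    apply le_of_eq
    ring
  refine (Finset.sum_le_sum hk).trans ?_
  rw [← Finset.mul_sum]
  refine mul_le_of_le_one_right ?_ (stoprule_numeric hL hLq hr hcond)
  exact mul_nonneg (by positivity) (stoprule_P_nonneg hα hβ _)

/-! ### The choice of the stopping probabilities -/

theorem stoprule_V {L w0 n : ℕ} {α β : ℝ} (hαβ : α + β = 1) {σ : ℕ → ℝ} (hn : n ≤ L)
    (h : ∀ j < n, ∑ a : Fin j → Fin q, surv (stoprule_s L w0 σ) (List.ofFn a) *
      stoprule_s L w0 σ (List.ofFn a) = (q : ℝ) ^ j * stoprule_p L α β j) :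
    ∀ j ≤ n, ∑ c : Fin j → Fin q, surv (stoprule_s L w0 σ) (List.ofFn c) =
      (q : ℝ) ^ j * stoprule_P L α β j := by
  intro j
  induction j with
  | zero =>
    intro _
    rw [stoprule_P_zero hαβ]
    simp [surv]
  | succ j ih =>
    intro hj
    rw [stoprule_sum_succ j (fun l => surv (stoprule_s L w0 σ) l)]
    have h1 : ∀ a : Fin j → Fin q, ∑ c : Fin q,
        surv (stoprule_s L w0 σ) (List.ofFn a ++ [c]) =
        (q : ℝ) * (surv (stoprule_s L w0 σ) (List.ofFn a) -
          surv (stoprule_s L w0 σ) (List.ofFn a) * stoprule_s L w0 σ (List.ofFn a)) := by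
      intro a
      rw [Finset.sum_congr rfl fun c _ => stoprule_surv_append _ _ c, Finset.sum_const,
        Finset.card_univ, Fintype.card_fin, nsmul_eq_mul]
      ring
    rw [Finset.sum_congr rfl fun a _ => h1 a, ← Finset.mul_sum, Finset.sum_sub_distrib,
      ih (by omega), h j (by omega), stoprule_P_succ α β (r := j) (by omega), pow_succ]
    ring

theorem stoprule_s_congr {L w0 n : ℕ} {σ σ' : ℕ → ℝ} (h : ∀ j < n, σ j = σ' j)
    {a : List (Fin q)} (ha : a.length < n) :
    stoprule_s L w0 σ a = stoprule_s L w0 σ' a := by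
  unfold stoprule_s
  rw [h _ ha]

theorem stoprule_surv_congr {L w0 n : ℕ} {σ σ' : ℕ → ℝ} (h : ∀ j < n, σ j = σ' j)
    {a : List (Fin q)} (ha : a.length ≤ n) :
    surv (stoprule_s L w0 σ) a = surv (stoprule_s L w0 σ') a := by
  unfold surv
  refine Finset.prod_congr rfl fun j hj => ?_
  rw [Finset.mem_range] at hj
  rw [stoprule_s_congr h (n := n) (a := a.take j)]
  rw [List.length_take]
  omega

theorem stoprule_exists {L w0 : ℕ} (hL : 1 ≤ L) (hLq : L < q) {α β : ℝ} (hα : 0 < α)
    (hβ : 0 < β) (hαβ : α + β = 1) (hab : α ≤ 2 * β)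
    (hcond : ((w0 : ℝ) + 2) * (3 * L) ^ w0 * (3 * (L : ℝ) ^ 2) ≤ q) (n : ℕ) (hn : n ≤ L) :
    ∃ σ : ℕ → ℝ, (∀ j, 0 ≤ σ j ∧ σ j ≤ 1) ∧
      ∀ j < n, ∑ a : Fin j → Fin q, surv (stoprule_s L w0 σ) (List.ofFn a) *
        stoprule_s L w0 σ (List.ofFn a) = (q : ℝ) ^ j * stoprule_p L α β j := by
  classical
  induction n with
  | zero => exact ⟨fun _ => 0, fun _ => ⟨le_refl _, zero_le_one⟩, fun j hj => by omega⟩
  | succ n ih =>
    obtain ⟨σ, hσ, hsum⟩ := ih (by omega)
    have hq : (0 : ℝ) < q := by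
      have : 0 < q := by omega
      exact_mod_cast this
    have hV := stoprule_V (q := q) hαβ (by omega : n ≤ L) hsum
    have htr := stoprule_trouble hL hLq hα hβ hab hcond hσ (by omega : n < L) hV
    have hp := stoprule_p_pos (L := L) hα hβ (r := n) (by omega)
    set D : ℝ := ∑ a : Fin n → Fin q, (if Trb L w0 (List.ofFn a) then 0 else
      surv (stoprule_s L w0 σ) (List.ofFn a)) with hD
    have hDsum : ∑ a : Fin n → Fin q, (if Trb L w0 (List.ofFn a) then
        surv (stoprule_s L w0 σ) (List.ofFn a) else 0) + D =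
        (q : ℝ) ^ n * stoprule_P L α β n := by
      rw [hD, ← Finset.sum_add_distrib, ← hV n (le_refl n)]
      refine Finset.sum_congr rfl fun a _ => ?_
      split_ifs <;> ring
    have hDge : (q : ℝ) ^ n * stoprule_p L α β n ≤ D := by
      rw [stoprule_P_succ α β (by omega : n ≤ L)] at hDsum
      linarith
    have hpp : 0 < (q : ℝ) ^ n * stoprule_p L α β n := by positivity
    have hDpos : 0 < D := lt_of_lt_of_le hpp hDge
    refine ⟨Function.update σ n ((q : ℝ) ^ n * stoprule_p L α β n / D), ?_, ?_⟩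
    · intro j
      by_cases hj : j = n
      · subst hj
        rw [Function.update_self]
        exact ⟨by positivity, (div_le_one hDpos).2 hDge⟩
      · rw [Function.update_of_ne hj]
        exact hσ j
    · intro j hj
      have hcong : ∀ i < n, Function.update σ n ((q : ℝ) ^ n * stoprule_p L α β n / D) i =
          σ i := fun i hi => Function.update_of_ne (by omega) _ _
      by_cases hjn : j < n
      · rw [← hsum j hjn]
        refine Finset.sum_congr rfl fun a _ => ?_
        rw [stoprule_surv_congr hcong (by rw [List.length_ofFn]; omega),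
          stoprule_s_congr hcong (by rw [List.length_ofFn]; exact hjn)]
      · have hjn' : j = n := by omega
        subst hjn'
        have h1 : ∀ a : Fin j → Fin q,
            surv (stoprule_s L w0 (Function.update σ j
              ((q : ℝ) ^ j * stoprule_p L α β j / D))) (List.ofFn a) *
            stoprule_s L w0 (Function.update σ j
              ((q : ℝ) ^ j * stoprule_p L α β j / D)) (List.ofFn a) =
            ((q : ℝ) ^ j * stoprule_p L α β j / D) * (if Trb L w0 (List.ofFn a) then 0 else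
              surv (stoprule_s L w0 σ) (List.ofFn a)) := by
          intro a
          rw [stoprule_surv_congr hcong (by rw [List.length_ofFn])]
          have h2 : stoprule_s L w0 (Function.update σ j
              ((q : ℝ) ^ j * stoprule_p L α β j / D)) (List.ofFn a) =
              if Trb L w0 (List.ofFn a) then 0 else
              ((q : ℝ) ^ j * stoprule_p L α β j / D) := by
            unfold stoprule_s
            rw [List.length_ofFn, if_neg (by omega), Function.update_self]
          rw [h2]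
          split_ifs
          · ring
          · ring
        rw [Finset.sum_congr rfl fun a _ => h1 a, ← Finset.mul_sum, ← hD,
          div_mul_cancel₀ _ hDpos.ne']

end StopRule

theorem exists_stop {q L w0 : ℕ} (hL : 1 ≤ L) (hLq : L < q) {α β : ℝ} (hα : 0 < α)
    (hβ : 0 < β) (hαβ : α + β = 1) (hab : α ≤ 2 * β)
    (hcond : ((w0 : ℝ) + 2) * (3 * L) ^ w0 * (3 * (L : ℝ) ^ 2) ≤ q) :
    ∃ s : List (Fin q) → ℝ, (∀ a, 0 ≤ s a ∧ s a ≤ 1) ∧
      (∀ a, a.length < L → Trb L w0 a → s a = 0) ∧ (∀ a, L ≤ a.length → s a = 1) ∧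
      ∀ r, r ≤ L → ∑ a : Fin r → Fin q, surv s (List.ofFn a) * s (List.ofFn a) =
        (q : ℝ) ^ r * ((L.choose r : ℝ) * β ^ r * α ^ (L - r)) := by
  obtain ⟨σ, hσ, hsum⟩ := stoprule_exists hL hLq hα hβ hαβ hab hcond L (le_refl L)
  refine ⟨stoprule_s L w0 σ, fun a => stoprule_s_mem hσ a, ?_, ?_, ?_⟩
  · intro a ha hT
    unfold stoprule_s
    rw [if_neg (by omega), if_pos hT]
  · intro a ha
    unfold stoprule_s
    rw [if_pos ha]
  · intro r hr
    rcases Nat.lt_or_ge r L with h | h
    · exact hsum r h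
    · have hrL : r = L := le_antisymm hr h
      subst hrL
      have hV := stoprule_V (q := q) hαβ (le_refl r) hsum r (le_refl r)
      rw [stoprule_P_last] at hV
      refine Eq.trans (Finset.sum_congr rfl fun a _ => ?_) hV
      unfold stoprule_s
      rw [if_pos (by rw [List.length_ofFn] : r ≤ (List.ofFn a).length), mul_one]

end Pool.Agent.MPf4617e
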