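import Pool.Agent.Lib.MP_f4617e_lc.CountTab
import Pool.Agent.Lib.MP_f4617e_lc.RandTree
import Pool.Agent.Lib.MP_f4617e_lc.StopRule

/-!
MP_f4617e_lc: the block system for large alphabets.
-/

set_option autoImplicit false

namespace Pool.Agent.MPf4617e

open Finset Filter Topology

theorem largesys_coef {m L r : ℕ} (hm : m ≤ L) (hr : r ≤ m) :
    ((m.descFactorial r : ℝ) / (L.descFactorial r : ℝ)) * (L.choose r : ℝ) = m.choose r := by
  have h1 : (L.descFactorial r : ℝ) ≠ 0 := by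
    have : L.descFactorial r ≠ 0 := by
      rw [Ne, Nat.descFactorial_eq_zero_iff_lt]; omega
    exact_mod_cast this
  have h2 : (r.factorial : ℝ) ≠ 0 := by exact_mod_cast r.factorial_ne_zero
  have h3 : (m.descFactorial r : ℝ) = r.factorial * m.choose r := by
    exact_mod_cast Nat.descFactorial_eq_factorial_mul_choose m r
  have h4 : (L.descFactorial r : ℝ) = r.factorial * L.choose r := by
    exact_mod_cast Nat.descFactorial_eq_factorial_mul_choose L r
  rw [h4] at h1 ⊢
  rw [h3]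
  have h5 : (L.choose r : ℝ) ≠ 0 := right_ne_zero_of_mul h1
  field_simp

theorem largesys_choose {m w r : ℕ} (h : r + w < m) :
    m.choose r ≤ m.choose (w + 1) * (m - (w + 1)).choose r := by
  have h1 : m.choose (m - r) * (m - r).choose (w + 1) =
      m.choose (w + 1) * (m - (w + 1)).choose (m - r - (w + 1)) :=
    Nat.choose_mul (by omega)
  have h2 : m.choose (m - r) = m.choose r := Nat.choose_symm (by omega)
  have h3 : (m - (w + 1)).choose (m - r - (w + 1)) = (m - (w + 1)).choose r := by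
    rw [show m - r - (w + 1) = m - (w + 1) - r by omega]
    exact Nat.choose_symm (by omega)
  rw [← h3, ← h1, h2]
  exact Nat.le_mul_of_pos_right _ (Nat.choose_pos (by omega))

theorem largesys_tail {m w : ℕ} {x α : ℝ} (hx : 0 ≤ x) (hα : 0 ≤ α) :
    ∑ r ∈ (range (m + 1)).filter (fun r => r + w < m), (m.choose r : ℝ) * x ^ r * α ^ (m - r) ≤
      (m : ℝ) ^ (w + 1) * α ^ (w + 1) * (x + α) ^ (m - (w + 1)) := by
  by_cases hm : w < m
  swap
  · rw [Finset.sum_eq_zero]
    · positivity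
    · intro r hr
      simp only [mem_filter, mem_range] at hr
      omega
  have hset : (range (m + 1)).filter (fun r => r + w < m) = range (m - (w + 1) + 1) := by
    ext r
    simp only [mem_filter, mem_range]
    omega
  rw [hset]
  calc ∑ r ∈ range (m - (w + 1) + 1), (m.choose r : ℝ) * x ^ r * α ^ (m - r)
      ≤ ∑ r ∈ range (m - (w + 1) + 1), ((m : ℝ) ^ (w + 1) * α ^ (w + 1)) *
          (x ^ r * α ^ (m - (w + 1) - r) * ((m - (w + 1)).choose r : ℝ)) := by
        refine Finset.sum_le_sum fun r hr => ?_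
        rw [mem_range] at hr
        have h1 : (m.choose r : ℝ) ≤ (m : ℝ) ^ (w + 1) * (m - (w + 1)).choose r := by
          have h2 : (m.choose r : ℝ) ≤ (m.choose (w + 1) : ℝ) * (m - (w + 1)).choose r := by
            exact_mod_cast largesys_choose (m := m) (w := w) (r := r) (by omega)
          have h3 : (m.choose (w + 1) : ℝ) ≤ (m : ℝ) ^ (w + 1) := by
            exact_mod_cast Nat.choose_le_pow m (w + 1)
          exact h2.trans (mul_le_mul_of_nonneg_right h3 (by positivity))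
        have h4 : α ^ (m - r) = α ^ (w + 1) * α ^ (m - (w + 1) - r) := by
          rw [← pow_add]; congr 1; omega
        rw [h4]
        calc (m.choose r : ℝ) * x ^ r * (α ^ (w + 1) * α ^ (m - (w + 1) - r))
            = (m.choose r : ℝ) * (x ^ r * (α ^ (w + 1) * α ^ (m - (w + 1) - r))) := by ring
          _ ≤ ((m : ℝ) ^ (w + 1) * (m - (w + 1)).choose r) *
              (x ^ r * (α ^ (w + 1) * α ^ (m - (w + 1) - r))) :=
            mul_le_mul_of_nonneg_right h1 (by positivity)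
          _ = _ := by ring
    _ = _ := by
        rw [← Finset.mul_sum, ← add_pow]

theorem largesys_alpha {q : ℕ} (hq : 4 ≤ q) {τ : ℝ} (h0 : 0 < τ) (h1 : τ < 1 / 2) :
    0 < al q τ ∧ 0 < 1 - al q τ ∧ al q τ ≤ 2 * (1 - al q τ) ∧
      al q τ + q * (1 - al q τ) = q * (1 - τ) ∧ al q τ * (q - 1) ≤ q * (1 - τ) := by
  have hq' : (4 : ℝ) ≤ q := by exact_mod_cast hq
  have hq1 : (0 : ℝ) < q - 1 := by linarith
  have ha : al q τ * (q - 1) = τ * q := by
    unfold al; field_simp
  have ha0 : 0 < al q τ := by unfold al; positivity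
  have ha1 : al q τ ≤ 2 / 3 := by
    unfold al
    rw [div_le_iff₀ hq1]; nlinarith
  refine ⟨ha0, by linarith, by linarith, ?_, ?_⟩
  · linarith
  · rw [ha]; nlinarith

open Classical in
theorem largesys_Z {q L : ℕ} {s : List (Fin q) → ℝ} {α β : ℝ}
    (hs1 : ∀ a, L ≤ a.length → s a = 1)
    (hs2 : ∀ r, r ≤ L → ∑ a : Fin r → Fin q, surv s (List.ofFn a) * s (List.ofFn a) =
        (q : ℝ) ^ r * ((L.choose r : ℝ) * β ^ r * α ^ (L - r))) (E : Finset (Fin L)) :
    (soT s L id []).LS (fun l => if Disjoint (sites l) E then (1 : ℝ) else 0) =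
      α ^ E.card * (α + q * β) ^ (L - E.card) := by
  have hE : E.card ≤ L := by simpa using Finset.card_le_univ E
  have h1 := soT_LS (s := s) (fun a ha => hs1 a ha.ge) E (fun _ => (1 : ℝ))
  have h2 : ∀ r ∈ range (L - E.card + 1),
      (((L - E.card).descFactorial r : ℝ) / (L.descFactorial r : ℝ)) *
          ∑ a : Fin r → Fin q, surv s (List.ofFn a) * s (List.ofFn a) * 1 =
      α ^ E.card * ((q * β) ^ r * α ^ (L - E.card - r) * ((L - E.card).choose r : ℝ)) := by
    intro r hr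
    rw [mem_range] at hr
    simp only [mul_one]
    rw [hs2 r (by omega), ← largesys_coef (m := L - E.card) (L := L) (r := r) (by omega) (by omega)]
    have h3 : α ^ (L - r) = α ^ E.card * α ^ (L - E.card - r) := by
      rw [← pow_add]; congr 1; omega
    rw [h3, mul_pow]
    ring
  rw [Finset.sum_congr rfl h2, ← Finset.mul_sum, ← add_pow, add_comm] at h1
  exact h1

open Classical in
theorem largesys_X {q L w0 : ℕ} [NeZero q] (hq : 4 ≤ q) (hLq : L < q) {s : List (Fin q) → ℝ}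
    {τ : ℝ} (h0 : 0 < τ) (h1 : τ < 1 / 2)
    (hs0 : ∀ a, 0 ≤ s a ∧ s a ≤ 1)
    (hsT : ∀ a, a.length < L → Trb L w0 a → s a = 0)
    (hs1 : ∀ a, L ≤ a.length → s a = 1)
    (hs2 : ∀ r, r ≤ L → ∑ a : Fin r → Fin q, surv s (List.ofFn a) * s (List.ofFn a) =
        (q : ℝ) ^ r * ((L.choose r : ℝ) * (1 - al q τ) ^ r * al q τ ^ (L - r)))
    (E : Finset (Fin L)) (hE : E.Nonempty) :
    (soT s L id []).LS (fun l => if Disjoint (sites l) E then (excOf zs l E : ℝ) else 0) ≤
      L * ((L : ℝ) / (q - 1)) ^ (w0 + 1) *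
        (al q τ ^ E.card * (q * (1 - τ)) ^ (L - E.card)) := by
  obtain ⟨ha, hb, hab, hQ, haQ⟩ := largesys_alpha hq h0 h1
  have hq' : (4 : ℝ) ≤ q := by exact_mod_cast hq
  have hq1 : (0 : ℝ) < q - 1 := by linarith
  have hEc : E.card ≤ L := by simpa using Finset.card_le_univ E
  have hE1 : 1 ≤ E.card := hE.card_pos
  have hQ0 : 0 < (q : ℝ) * (1 - τ) := by nlinarith
  set m := L - E.card with hm
  let g : List (Fin q) → ℝ := fun a =>
    if L ≤ a.length + E.card + w0 ∧ ¬ Trb L w0 a then 0 else L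
  have hexc : ∀ l : Path L q, (l.map Prod.fst).Nodup → Disjoint (sites l) E →
      (excOf zs l E : ℝ) ≤ g (l.map Prod.snd) := by
    intro l hn hd
    by_cases h : L ≤ (l.map Prod.snd).length + E.card + w0 ∧ ¬ Trb L w0 (l.map Prod.snd)
    · simp only [g, if_pos h]
      rw [excOf_zs_eq_zero hLq l E hn hd hE1 (by simpa using h.1) h.2]
      simp
    · simp only [g, if_neg h]
      have h2 : excOf (q := q) zs l E ≤ L := by
        refine le_trans (Nat.sub_le _ _) (Finset.sup_le fun y _ => Finset.sup_le fun V _ => ?_)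
        simpa using Finset.card_le_univ V
      exact_mod_cast h2
  have hle : (soT s L id []).LS
      (fun l => if Disjoint (sites l) E then (excOf zs l E : ℝ) else 0) ≤
      (soT s L id []).LS (fun l => if Disjoint (sites l) E then g (l.map Prod.snd) else 0) := by
    refine RT.LS_mono (soT_ok hs0) fun l hn _ => ?_
    split_ifs with hd
    · exact hexc l hn hd
    · exact le_rfl
  refine hle.trans ?_
  rw [soT_LS (fun a ha => hs1 a ha.ge) E g, ← hm]
  have hsurv : ∀ a : List (Fin q), 0 ≤ surv s a := fun a =>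
    Finset.prod_nonneg fun j _ => by linarith [(hs0 (a.take j)).2]
  have hterm : ∀ r ∈ range (m + 1),
      ((m.descFactorial r : ℝ) / (L.descFactorial r : ℝ)) *
          ∑ a : Fin r → Fin q, surv s (List.ofFn a) * s (List.ofFn a) * g (List.ofFn a) ≤
      if r + w0 < m then L * al q τ ^ E.card *
        ((m.choose r : ℝ) * (q * (1 - al q τ)) ^ r * al q τ ^ (m - r)) else 0 := by
    intro r hr
    rw [mem_range] at hr
    split_ifs with hrm
    · have h3 : ∑ a : Fin r → Fin q, surv s (List.ofFn a) * s (List.ofFn a) * g (List.ofFn a) ≤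
          L * ((q : ℝ) ^ r * ((L.choose r : ℝ) * (1 - al q τ) ^ r * al q τ ^ (L - r))) := by
        rw [← hs2 r (by omega), Finset.mul_sum]
        refine Finset.sum_le_sum fun a _ => ?_
        have h4 : g (List.ofFn a) ≤ L := by
          simp only [g]; split_ifs
          · positivity
          · exact le_rfl
        have h5 : 0 ≤ surv s (List.ofFn a) * s (List.ofFn a) := mul_nonneg (hsurv _) (hs0 _).1
        calc _ ≤ surv s (List.ofFn a) * s (List.ofFn a) * L := mul_le_mul_of_nonneg_left h4 h5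
          _ = _ := by ring
      refine (mul_le_mul_of_nonneg_left h3 (by positivity)).trans (le_of_eq ?_)
      rw [← largesys_coef (m := m) (L := L) (r := r) (by omega) (by omega)]
      have h6 : al q τ ^ (L - r) = al q τ ^ E.card * al q τ ^ (m - r) := by
        rw [← pow_add]; congr 1; omega
      rw [h6, mul_pow]
      ring
    · rw [Finset.sum_eq_zero, mul_zero]
      intro a _
      by_cases hT : Trb L w0 (List.ofFn a)
      · rw [hsT _ (by simp; omega) hT]; ring
      · have h7 : g (List.ofFn a) = 0 := by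
          simp only [g]
          rw [if_pos ⟨by simp; omega, hT⟩]
        rw [h7, mul_zero]
  refine (Finset.sum_le_sum hterm).trans ?_
  rw [← Finset.sum_filter, ← Finset.mul_sum]
  by_cases hw : m ≤ w0
  · rw [Finset.sum_eq_zero]
    · rw [mul_zero]; positivity
    · intro r hr
      simp only [mem_filter, mem_range] at hr
      omega
  have h8 := largesys_tail (m := m) (w := w0) (x := q * (1 - al q τ)) (α := al q τ)
    (by positivity) ha.le
  refine (mul_le_mul_of_nonneg_left h8 (by positivity)).trans ?_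
  rw [add_comm (q * (1 - al q τ)) (al q τ), hQ]
  have h9 : (m : ℝ) ≤ L := by exact_mod_cast (Nat.sub_le _ _)
  have h10 : (m : ℝ) ^ (w0 + 1) * al q τ ^ (w0 + 1) ≤
      ((L : ℝ) / (q - 1)) ^ (w0 + 1) * (q * (1 - τ)) ^ (w0 + 1) := by
    rw [← mul_pow, ← mul_pow]
    refine pow_le_pow_left₀ (by positivity) ?_ _
    rw [div_mul_eq_mul_div, le_div_iff₀ hq1]
    calc (m : ℝ) * al q τ * (q - 1) = m * (al q τ * (q - 1)) := by ring
      _ ≤ L * (q * (1 - τ)) := mul_le_mul h9 haQ (by positivity) (by positivity)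
  have h11 : (q * (1 - τ)) ^ m =
      ((q : ℝ) * (1 - τ)) ^ (w0 + 1) * (q * (1 - τ)) ^ (m - (w0 + 1)) := by
    rw [← pow_add]; congr 1; omega
  rw [h11]
  calc (L : ℝ) * al q τ ^ E.card *
        ((m : ℝ) ^ (w0 + 1) * al q τ ^ (w0 + 1) * (q * (1 - τ)) ^ (m - (w0 + 1)))
      ≤ (L : ℝ) * al q τ ^ E.card *
        (((L : ℝ) / (q - 1)) ^ (w0 + 1) * (q * (1 - τ)) ^ (w0 + 1) *
          (q * (1 - τ)) ^ (m - (w0 + 1))) := by
        refine mul_le_mul_of_nonneg_left ?_ (by positivity)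
        exact mul_le_mul_of_nonneg_right h10 (by positivity)
    _ = _ := by ring

theorem largesys_wild {q L N : ℕ} (hLq : 2 * L ^ 2 ≤ q) (hL : 1 ≤ L) (hN : 1 ≤ N) {τ : ℝ}
    (hgain : 8 * (N : ℝ) * (1 - τ) ^ L ≤ 1) :
    2 * (q * (1 - τ)) ^ L ≤ 1 / (2 * (N : ℝ)) * ((q : ℝ) - L) ^ L := by
  have hL2 : L ≤ L ^ 2 := Nat.le_self_pow (by norm_num) L
  have hqpos : 0 < q := by nlinarith
  have hq' : (0 : ℝ) < q := by exact_mod_cast hqpos
  have hN' : (0 : ℝ) < N := by exact_mod_cast hN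
  have hLq' : 2 * (L : ℝ) ^ 2 ≤ q := by exact_mod_cast hLq
  have hL' : (1 : ℝ) ≤ L := by exact_mod_cast hL
  have h1 : (1 : ℝ) + L * (-(L / q)) ≤ (1 + -(L / q)) ^ L := by
    refine one_add_mul_le_pow ?_ L
    have : (L : ℝ) / q ≤ 1 := by
      rw [div_le_one hq']; nlinarith
    linarith
  have h2 : (L : ℝ) * (L / q) ≤ 1 / 2 := by
    rw [mul_div_assoc', div_le_iff₀ hq']; nlinarith
  have h3 : (1 : ℝ) / 2 ≤ (1 + -(L / q)) ^ L := by linarith
  have h4 : ((q : ℝ) - L) ^ L = q ^ L * (1 + -(L / q)) ^ L := by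
    rw [← mul_pow]; congr 1; field_simp; ring
  rw [h4, mul_pow]
  have h5 : (q : ℝ) ^ L * (1 / 2) ≤ q ^ L * (1 + -(L / q)) ^ L :=
    mul_le_mul_of_nonneg_left h3 (by positivity)
  have h6 : (1 / (2 * (N : ℝ))) * ((q : ℝ) ^ L * (1 / 2)) ≤
      1 / (2 * (N : ℝ)) * (q ^ L * (1 + -(L / q)) ^ L) :=
    mul_le_mul_of_nonneg_left h5 (by positivity)
  refine le_trans ?_ h6
  have h7 : 1 / (2 * (N : ℝ)) * ((q : ℝ) ^ L * (1 / 2)) = (q : ℝ) ^ L / (4 * N) := by
    field_simp; norm_num
  rw [h7, le_div_iff₀ (by positivity)]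
  have h8 : (0 : ℝ) < (q : ℝ) ^ L := by positivity
  nlinarith

theorem largesys_half {N : ℕ} (hN : 1 ≤ N) : (1 : ℝ) / 2 ≤ (1 - 1 / (2 * N)) ^ N := by
  have hN' : (1 : ℝ) ≤ N := by exact_mod_cast hN
  have h1 : (1 : ℝ) + N * (-(1 / (2 * N))) ≤ (1 + -(1 / (2 * (N : ℝ)))) ^ N := by
    refine one_add_mul_le_pow ?_ N
    have : 1 / (2 * (N : ℝ)) ≤ 1 := by
      rw [div_le_one (by positivity)]; linarith
    linarith
  have h2 : (N : ℝ) * (-(1 / (2 * N))) = -(1 / 2) := by field_simp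
  rw [h2] at h1
  rw [sub_eq_add_neg]
  linarith

open Classical in
/-- combining two families of block bounds -/
theorem largesys_combine {B L N : ℕ} (hL : 1 ≤ L) (hN : 1 ≤ N) {δ : ℝ} (hδ : 0 ≤ δ)
    (emp : Fin B → Prop) (tgt Z0 X0 Z1 X1 : Fin B → ℝ) (ht : ∀ b, 0 < tgt b)
    (hZ0 : ∀ b, Z0 b = tgt b) (hX0 : ∀ b, ¬ emp b → X0 b ≤ L * δ * tgt b)
    (hX0' : ∀ b, emp b → X0 b ≤ L * tgt b)
    (hZ1 : ∀ b, ¬ emp b → Z1 b = (1 - 1 / (2 * N)) * tgt b)
    (hX1 : ∀ b, ¬ emp b → X1 b ≤ (1 - 1 / (2 * N)) * (L * δ * tgt b))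
    (hZ1' : ∀ b, emp b → 2 * tgt b ≤ Z1 b) (hX1' : ∀ b, emp b → X1 b ≤ 0) :
    ((∀ b, 0 < Z0 b) ∧ ∏ b, tgt b ≤ ∏ b, Z0 b ∧ ∑ b, X0 b / Z0 b ≤ (1 / N + δ) * (B * L)) ∨
    ((∀ b, 0 < Z1 b) ∧ ∏ b, tgt b ≤ ∏ b, Z1 b ∧ ∑ b, X1 b / Z1 b ≤ (1 / N + δ) * (B * L)) := by
  have hN' : (1 : ℝ) ≤ N := by exact_mod_cast hN
  have hL' : (1 : ℝ) ≤ L := by exact_mod_cast hL
  have hw1 : (1 : ℝ) / (2 * N) ≤ 1 / 2 := by
    rw [div_le_div_iff₀ (by positivity) (by norm_num)]; linarith
  have hw2 : (0 : ℝ) < 1 - 1 / (2 * N) := by linarith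
  have hw3 : (1 : ℝ) - 1 / (2 * N) ≤ 1 := by
    have : (0 : ℝ) < 1 / (2 * N) := by positivity
    linarith
  set h : ℕ := (univ.filter fun b : Fin B => emp b).card with hh
  by_cases hc : N * h ≤ B
  · left
    refine ⟨fun b => by rw [hZ0]; exact ht b, ?_, ?_⟩
    · exact Finset.prod_le_prod (fun b _ => (ht b).le) fun b _ => (hZ0 b).ge
    · have h1 : ∀ b, X0 b / Z0 b ≤ (if emp b then (L : ℝ) else 0) + L * δ := by
        intro b
        rw [hZ0, div_le_iff₀ (ht b)]
        split_ifs with he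
        · nlinarith [hX0' b he, mul_nonneg (mul_nonneg (by positivity : (0 : ℝ) ≤ L) hδ) (ht b).le]
        · rw [zero_add]; exact hX0 b he
      refine (Finset.sum_le_sum fun b _ => h1 b).trans ?_
      rw [Finset.sum_add_distrib, ← Finset.sum_filter, Finset.sum_const, Finset.sum_const,
        ← hh, card_univ, Fintype.card_fin, nsmul_eq_mul, nsmul_eq_mul]
      have h2 : (h : ℝ) ≤ 1 / N * B := by
        rw [div_mul_eq_mul_div, one_mul, le_div_iff₀ (by linarith)]
        have : ((N * h : ℕ) : ℝ) ≤ B := by exact_mod_cast hc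
        push_cast at this; linarith
      nlinarith
  · right
    have hZpos : ∀ b, 0 < Z1 b := by
      intro b
      by_cases he : emp b
      · exact lt_of_lt_of_le (by have := ht b; positivity) (hZ1' b he)
      · rw [hZ1 b he]; exact mul_pos hw2 (ht b)
    refine ⟨hZpos, ?_, ?_⟩
    · have h1 : ∀ b, (if emp b then (2 : ℝ) else (1 - 1 / (2 * N))) * tgt b ≤ Z1 b := by
        intro b
        split_ifs with he
        · exact hZ1' b he
        · exact (hZ1 b he).ge
      have h2 : ∏ b, ((if emp b then (2 : ℝ) else (1 - 1 / (2 * N))) * tgt b) ≤ ∏ b, Z1 b :=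
        Finset.prod_le_prod (fun b _ => mul_nonneg (by split_ifs <;> linarith) (ht b).le)
          fun b _ => h1 b
      refine le_trans ?_ h2
      rw [Finset.prod_mul_distrib]
      refine le_mul_of_one_le_left (Finset.prod_nonneg fun b _ => (ht b).le) ?_
      rw [Finset.prod_ite, Finset.prod_const, Finset.prod_const, ← hh]
      have h3 : (univ.filter fun b : Fin B => ¬ emp b).card ≤ N * h := by
        have h4 : (univ.filter fun b : Fin B => ¬ emp b).card ≤ B := by
          simpa using Finset.card_le_univ (univ.filter fun b : Fin B => ¬ emp b)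
        omega
      have h5 : ((1 : ℝ) - 1 / (2 * N)) ^ (N * h) ≤
          (1 - 1 / (2 * N)) ^ (univ.filter fun b : Fin B => ¬ emp b).card :=
        pow_le_pow_of_le_one hw2.le hw3 h3
      have h6 : ((1 : ℝ) / 2) ^ h ≤ (1 - 1 / (2 * N)) ^ (N * h) := by
        rw [pow_mul]
        exact pow_le_pow_left₀ (by norm_num) (largesys_half hN) h
      have h7 : (1 : ℝ) = 2 ^ h * (1 / 2) ^ h := by
        rw [← mul_pow]; norm_num
      calc (1 : ℝ) = 2 ^ h * (1 / 2) ^ h := h7
        _ ≤ _ := mul_le_mul_of_nonneg_left (h6.trans h5) (by positivity)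
    · have h1 : ∀ b, X1 b / Z1 b ≤ L * δ := by
        intro b
        rw [div_le_iff₀ (hZpos b)]
        by_cases he : emp b
        · exact (hX1' b he).trans (mul_nonneg (by positivity) (hZpos b).le)
        · rw [hZ1 b he]
          calc X1 b ≤ (1 - 1 / (2 * N)) * (L * δ * tgt b) := hX1 b he
            _ = _ := by ring
      refine (Finset.sum_le_sum fun b _ => h1 b).trans ?_
      rw [Finset.sum_const, card_univ, Fintype.card_fin, nsmul_eq_mul]
      have : (0 : ℝ) ≤ 1 / N := by positivity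
      have h2 : (0 : ℝ) ≤ 1 / N * (B * L) := by positivity
      nlinarith

open Classical in
theorem goodSystem_large {q L w0 N : ℕ} [NeZero q] (hq : 4 ≤ q) (hL : 1 ≤ L) (hN : 1 ≤ N)
    (hLq : 2 * L ^ 2 ≤ q)
    (hcond : ((w0 : ℝ) + 2) * (3 * L) ^ w0 * (3 * (L : ℝ) ^ 2) ≤ q) {τ : ℝ}
    (h0 : 0 < τ) (h1 : τ < 1 / 2) (hgain : 8 * (N : ℝ) * (1 - τ) ^ L ≤ 1) :
    GoodSystem q L τ 1 (1 / N + ((L : ℝ) / (q - 1)) ^ (w0 + 1)) := by
  obtain ⟨ha, hb, hab, hQ, haQ⟩ := largesys_alpha hq h0 h1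
  have hLq1 : L < q := by nlinarith
  have hq' : (4 : ℝ) ≤ q := by exact_mod_cast hq
  have hq1 : (0 : ℝ) < q - 1 := by linarith
  have hN' : (1 : ℝ) ≤ N := by exact_mod_cast hN
  have hQ0 : 0 < (q : ℝ) * (1 - τ) := by nlinarith
  obtain ⟨s, hs0, hsT, hs1, hs2⟩ := exists_stop (w0 := w0) hL hLq1 ha hb (by ring) hab hcond
  have hw0 : (0 : ℝ) ≤ 1 / (2 * N) := by positivity
  have hw1 : (1 : ℝ) / (2 * N) ≤ 1 / 2 := by
    rw [div_le_div_iff₀ (by positivity) (by norm_num)]; linarith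
  let T : Table q L := tableOf zs (zs_ne_zero hLq1)
  obtain ⟨W0, hW0t, hW0g⟩ : ∃ W : Law q L, W.tree = soT s L id [] ∧
      ∀ l E, W.good l E ↔ Disjoint (sites l) E :=
    ⟨{ tree := soT s L id []
       ok := soT_ok hs0
       good := fun l E => Disjoint (sites l) E
       good_disj := fun _ _ h => h }, rfl, fun _ _ => Iff.rfl⟩
  obtain ⟨W1, hW1t, hW1g⟩ : ∃ W : Law q L,
      W.tree = .mix 2 ![1 - 1 / (2 * N), 1 / (2 * N)] ![soT s L id [], raT L id] ∧
      ∀ l E, W.good l E ↔ Disjoint (sites l) E ∧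
        (E = ∅ → l.length = L ∧ ∀ p ∈ l, p.2.val = 0 ∨ L < p.2.val) :=
    ⟨{ tree := .mix 2 ![1 - 1 / (2 * N), 1 / (2 * N)] ![soT s L id [], raT L id]
       ok := by
         refine ⟨?_, ?_, ?_⟩
         · intro j; fin_cases j
           · simpa using (by linarith : (0 : ℝ) ≤ 1 - 1 / (2 * N))
           · exact hw0
         · simp [Fin.sum_univ_two]
         · intro j; fin_cases j
           · exact soT_ok hs0
           · exact raT_ok
       good := fun l E => Disjoint (sites l) E ∧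
         (E = ∅ → l.length = L ∧ ∀ p ∈ l, p.2.val = 0 ∨ L < p.2.val)
       good_disj := fun _ _ h => h.1 }, rfl, fun _ _ => Iff.rfl⟩
  set δ : ℝ := ((L : ℝ) / (q - 1)) ^ (w0 + 1) with hδ
  have hδ0 : 0 ≤ δ := by positivity
  have hexcL : ∀ (l : Path L q) (E : Finset (Fin L)), (excOf zs l E : ℝ) ≤ L := by
    intro l E
    have h2 : excOf (q := q) zs l E ≤ L := by
      refine le_trans (Nat.sub_le _ _) (Finset.sup_le fun y _ => Finset.sup_le fun V _ => ?_)
      simpa using Finset.card_le_univ V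
    exact_mod_cast h2
  have hZ0 : ∀ E : Finset (Fin L), W0.Z E =
      al q τ ^ E.card * (q * (1 - τ)) ^ (L - E.card) := by
    intro E
    rw [← hQ, ← largesys_Z hs1 hs2 E]
    unfold Law.Z
    rw [hW0t]
    exact congrArg _ (funext fun l => if_congr (hW0g l E) rfl rfl)
  have hX0 : ∀ E : Finset (Fin L), E.Nonempty → W0.X T E ≤
      L * δ * (al q τ ^ E.card * (q * (1 - τ)) ^ (L - E.card)) := by
    intro E hE
    refine le_trans (le_of_eq ?_) (largesys_X hq hLq1 h0 h1 hs0 hsT hs1 hs2 E hE)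
    unfold Law.X
    rw [hW0t]
    exact congrArg _ (funext fun l => if_congr (hW0g l E) rfl rfl)
  have hX0' : ∀ E : Finset (Fin L), W0.X T E ≤
      L * (al q τ ^ E.card * (q * (1 - τ)) ^ (L - E.card)) := by
    intro E
    rw [← hZ0 E]
    unfold Law.X Law.Z
    rw [← RT.LS_const_mul]
    refine RT.LS_mono W0.ok fun l _ _ => ?_
    split_ifs
    · rw [mul_one]; exact hexcL l E
    · simp
  have hmix : ∀ f : Path L q → ℝ, W1.tree.LS f =
      (1 - 1 / (2 * N)) * (soT s L id []).LS f + 1 / (2 * N) * (raT L id).LS f :=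
    fun f => by rw [hW1t, RT.LS_mix_two]
  have hgood : ∀ (l : Path L q) (E : Finset (Fin L)), E.Nonempty →
      (W1.good l E ↔ Disjoint (sites l) E) := by
    intro l E hE
    rw [hW1g]
    exact ⟨fun h => h.1, fun h => ⟨h, fun h' => absurd h' hE.ne_empty⟩⟩
  have hZ1 : ∀ E : Finset (Fin L), E.Nonempty → W1.Z E =
      (1 - 1 / (2 * N)) * (al q τ ^ E.card * (q * (1 - τ)) ^ (L - E.card)) := by
    intro E hE
    rw [← hZ0 E]
    unfold Law.Z
    rw [hmix]
    have h2 := (raT_LS (q := q) (L := L) hL E (fun _ => (1 : ℝ))).1 hE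
    have h3 : (raT (q := q) L id).LS (fun l => if W1.good l E then (1 : ℝ) else 0) = 0 := by
      exact (congrArg _ (funext fun l => if_congr (hgood l E hE) rfl rfl)).trans h2
    rw [h3, mul_zero, add_zero, hW0t]
    exact congrArg _ (congrArg _ (funext fun l =>
      if_congr ((hgood l E hE).trans (hW0g l E).symm) rfl rfl))
  have hX1 : ∀ E : Finset (Fin L), E.Nonempty → W1.X T E ≤
      (1 - 1 / (2 * N)) * (L * δ * (al q τ ^ E.card * (q * (1 - τ)) ^ (L - E.card))) := by
    intro E hE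
    have h4 : W1.X T E = (1 - 1 / (2 * N)) * W0.X T E := by
      unfold Law.X
      rw [hmix]
      have h2 := (raT_LS (q := q) (L := L) hL E (fun l => (T.exc l E : ℝ))).1 hE
      have h3 : (raT (q := q) L id).LS
          (fun l => if W1.good l E then (T.exc l E : ℝ) else 0) = 0 := by
        exact (congrArg _ (funext fun l => if_congr (hgood l E hE) rfl rfl)).trans h2
      rw [h3, mul_zero, add_zero, hW0t]
      exact congrArg _ (congrArg _ (funext fun l =>
        if_congr ((hgood l E hE).trans (hW0g l E).symm) rfl rfl))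
    rw [h4]
    exact mul_le_mul_of_nonneg_left (hX0 E hE) (by linarith)
  have hZ1' : 2 * (al q τ ^ (∅ : Finset (Fin L)).card * (q * (1 - τ)) ^
      (L - (∅ : Finset (Fin L)).card)) ≤ W1.Z ∅ := by
    simp only [card_empty, pow_zero, one_mul, Nat.sub_zero]
    refine (largesys_wild hLq hL hN hgain).trans ?_
    unfold Law.Z
    rw [hmix]
    have h2 := (raT_LS (q := q) (L := L) hL ∅
      (fun l => if W1.good l ∅ then (1 : ℝ) else 0)).2 (by
        intro l hl hp
        rw [if_pos]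
        exact (hW1g _ _).2 ⟨by simp, fun _ => ⟨hl, hp⟩⟩) (by
        intro l; split_ifs <;> norm_num) hLq1
    have h3 : 0 ≤ (soT s L id []).LS (fun l => if W1.good l ∅ then (1 : ℝ) else 0) :=
      RT.LS_nonneg (soT_ok hs0) fun l _ _ => by split_ifs <;> norm_num
    have h4 := mul_le_mul_of_nonneg_left h2 hw0
    have h5 : 0 ≤ (1 - 1 / (2 * (N : ℝ))) *
        (soT s L id []).LS (fun l => if W1.good l ∅ then (1 : ℝ) else 0) :=
      mul_nonneg (by linarith) h3
    linarith
  have hX1' : W1.X T ∅ ≤ 0 := by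
    unfold Law.X
    refine (RT.LS_mono W1.ok (g := fun _ => 0) fun l _ _ => ?_).trans
      (RT.LS_zero W1.tree).le
    split_ifs with h
    · have h2 : T.exc l ∅ = 0 := excOf_zs_eq_zero' hLq1 l ∅ (by simp) (((hW1g _ _).1 h).2 rfl).2
      rw [h2]; simp
    · exact le_rfl
  refine ⟨T, 2, ![W0, W1], fun B E => ?_⟩
  have htgt : ∀ b, 0 < al q τ ^ (E b).card * (q * (1 - τ)) ^ (L - (E b).card) :=
    fun b => by positivity
  have hemp : ∀ b, ¬ (E b = ∅) → (E b).Nonempty := fun b h => Finset.nonempty_iff_ne_empty.2 h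
  have hcomb := largesys_combine (B := B) hL hN hδ0 (fun b => E b = ∅)
    (fun b => al q τ ^ (E b).card * (q * (1 - τ)) ^ (L - (E b).card))
    (fun b => W0.Z (E b)) (fun b => W0.X T (E b)) (fun b => W1.Z (E b))
    (fun b => W1.X T (E b)) htgt (fun b => hZ0 _) (fun b h => hX0 _ (hemp b h))
    (fun b _ => hX0' _) (fun b h => hZ1 _ (hemp b h)) (fun b h => hX1 _ (hemp b h))
    (fun b h => by
      rw [show E b = ∅ from h]; exact hZ1') (fun b h => by
      rw [show E b = ∅ from h]; exact hX1')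
  rcases hcomb with ⟨g1, g2, g3⟩ | ⟨g1, g2, g3⟩
  · refine ⟨0, g1, g2, ?_⟩
    rw [Finset.sum_add_distrib, one_mul]
    exact add_le_add le_rfl g3
  · refine ⟨1, g1, g2, ?_⟩
    rw [Finset.sum_add_distrib, one_mul]
    exact add_le_add le_rfl g3

end Pool.Agent.MPf4617e
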