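import Pool.Agent.Lib.MP_f4617e_lc.LSBasic
import Pool.Agent.Lib.MP_f4617e_lc.Engine
import Pool.Agent.Lib.MP_f4617e_lc.LargeSys

/-!
MP_f4617e_lc, module SDB: parameters for large alphabets.
-/

set_option autoImplicit false

namespace Pool.Agent.MPf4617e

open Finset Filter Topology


theorem large_eventually (k C : ℕ) : ∃ p0 : ℕ, ∀ p : ℕ, p0 ≤ p →
    ((C : ℝ) * (3 * (k + 1) * p) ^ (k + 2)) * 2 < 2 ^ p := by
  have h := tendsto_pow_const_div_const_pow_of_one_lt (k + 2) (r := (2 : ℝ)) (by norm_num)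
  have h2 : Tendsto (fun n : ℕ => ((C : ℝ) * (3 * (k + 1)) ^ (k + 2) * 2) *
      ((n : ℝ) ^ (k + 2) / 2 ^ n)) atTop (𝓝 (((C : ℝ) * (3 * (k + 1)) ^ (k + 2) * 2) * 0)) :=
    h.const_mul _
  rw [mul_zero] at h2
  obtain ⟨p0, hp0⟩ := eventually_atTop.1 (h2.eventually (gt_mem_nhds (zero_lt_one' ℝ)))
  refine ⟨p0, fun p hp => ?_⟩
  have h3 := hp0 p hp
  have h4 : (0 : ℝ) < 2 ^ p := by positivity
  rw [← mul_div_assoc, div_lt_one h4] at h3
  calc ((C : ℝ) * (3 * (k + 1) * p) ^ (k + 2)) * 2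
      = (C : ℝ) * (3 * (k + 1)) ^ (k + 2) * 2 * (p : ℝ) ^ (k + 2) := by
        rw [mul_pow]; ring
    _ < 2 ^ p := h3

theorem ach_large (k : ℕ) : ∃ q0 : ℕ, ∀ q : ℕ, q0 ≤ q → ∀ τ : ℝ, 1 / 4 ≤ τ →
    τ < 1 / 2 - 1 / (q : ℝ) ^ k → Achievable q τ := by
  obtain ⟨p0, hp0⟩ := large_eventually k ((k + 2) * 3 ^ (k + 1))
  refine ⟨max (2 ^ p0) 8, fun q hq τ hτ0 hτ1 => ?_⟩
  have hq8 : 8 ≤ q := (le_max_right _ _).trans hq
  have hq2 : 2 ^ p0 ≤ q := (le_max_left _ _).trans hq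
  have : NeZero q := ⟨by omega⟩
  have hqR : (8 : ℝ) ≤ q := by exact_mod_cast hq8
  have hqpos : (0 : ℝ) < q := by linarith
  set p : ℕ := Nat.log 2 q + 1 with hp
  have hpp : p0 ≤ p := by
    have := Nat.le_log_of_pow_le (by norm_num) hq2
    omega
  have hp1 : 1 ≤ p := by omega
  have hpow_le : 2 ^ p ≤ 2 * q := by
    rw [hp, pow_succ]
    have := Nat.pow_log_le_self 2 (x := q) (by omega)
    omega
  have hpow_lt : q < 2 ^ p := Nat.lt_pow_succ_log_self (by norm_num) q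
  set L : ℕ := 3 * (k + 1) * p with hL
  have hL1 : 1 ≤ L := by
    rw [hL]
    have : 1 * 1 ≤ 3 * (k + 1) * p := Nat.mul_le_mul (by omega) hp1
    omega
  have hLR1 : (1 : ℝ) ≤ L := by exact_mod_cast hL1
  -- the main inequality
  have hmain : ((k : ℝ) + 2) * 3 ^ (k + 1) * (L : ℝ) ^ (k + 2) < q := by
    have h1 := hp0 p hpp
    have h2 : ((2 : ℝ) ^ p) ≤ 2 * q := by exact_mod_cast hpow_le
    have h3 : (L : ℝ) = 3 * (k + 1) * p := by rw [hL]; push_cast; ring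
    rw [h3]
    push_cast at h1
    linarith
  have hLk : (L : ℝ) ^ 2 ≤ (L : ℝ) ^ (k + 2) := pow_le_pow_right₀ hLR1 (by omega)
  have hLk1 : (L : ℝ) ^ (k + 1) ≤ (L : ℝ) ^ (k + 2) := pow_le_pow_right₀ hLR1 (by omega)
  have h3k : (3 : ℝ) ≤ 3 ^ (k + 1) := by
    calc (3 : ℝ) = 3 ^ 1 := by norm_num
      _ ≤ 3 ^ (k + 1) := pow_le_pow_right₀ (by norm_num) (by omega)
  have hk0 : (0 : ℝ) ≤ k := Nat.cast_nonneg k
  have hC2 : (2 : ℝ) ≤ ((k : ℝ) + 2) * 3 ^ (k + 1) := by nlinarith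
  have hC3 : (2 : ℝ) ^ (k + 1) ≤ ((k : ℝ) + 2) * 3 ^ (k + 1) := by
    have h1 : (2 : ℝ) ^ (k + 1) ≤ 3 ^ (k + 1) := pow_le_pow_left₀ (by norm_num) (by norm_num) _
    nlinarith
  have hLpos2 : (0 : ℝ) ≤ (L : ℝ) ^ (k + 2) := by positivity
  -- (i)
  have hi : 2 * L ^ 2 ≤ q := by
    have : (2 : ℝ) * (L : ℝ) ^ 2 ≤ q := by nlinarith
    exact_mod_cast this
  -- (ii)
  have hii : ((k : ℝ) + 2) * (3 * L) ^ k * (3 * (L : ℝ) ^ 2) ≤ q := by
    have : ((k : ℝ) + 2) * (3 * L) ^ k * (3 * (L : ℝ) ^ 2) =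
        ((k : ℝ) + 2) * 3 ^ (k + 1) * (L : ℝ) ^ (k + 2) := by
      rw [mul_pow]; ring
    rw [this]
    exact hmain.le
  -- (iii)
  have hτhalf : τ < 1 / 2 := by
    have : (0 : ℝ) < 1 / (q : ℝ) ^ k := by positivity
    linarith
  have hiii : 8 * ((q ^ k : ℕ) : ℝ) * (1 - τ) ^ L ≤ 1 := by
    have h1 : (1 - τ) ^ L ≤ (3 / 4 : ℝ) ^ L :=
      pow_le_pow_left₀ (by linarith) (by linarith) _
    have h2 : (3 / 4 : ℝ) ^ L ≤ ((1 / 2 : ℝ) ^ p) ^ (k + 1) := by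
      rw [hL, show 3 * (k + 1) * p = 3 * (p * (k + 1)) by ring, ← pow_mul (1 / 2 : ℝ)]
      calc (3 / 4 : ℝ) ^ (3 * (p * (k + 1))) = ((3 / 4 : ℝ) ^ 3) ^ (p * (k + 1)) := by
            rw [pow_mul]
        _ ≤ (1 / 2 : ℝ) ^ (p * (k + 1)) :=
            pow_le_pow_left₀ (by norm_num) (by norm_num) _
    have h3 : ((1 / 2 : ℝ) ^ p) ≤ 1 / q := by
      rw [one_div_pow]
      refine one_div_le_one_div_of_le hqpos ?_
      exact_mod_cast hpow_lt.le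
    have h4 : ((1 / 2 : ℝ) ^ p) ^ (k + 1) ≤ (1 / q) ^ (k + 1) :=
      pow_le_pow_left₀ (by positivity) h3 _
    have h5 : (1 - τ) ^ L ≤ (1 / (q : ℝ)) ^ (k + 1) := h1.trans (h2.trans h4)
    have hqk : (0 : ℝ) < (q : ℝ) ^ k := by positivity
    push_cast
    calc 8 * (q : ℝ) ^ k * (1 - τ) ^ L ≤ 8 * (q : ℝ) ^ k * (1 / (q : ℝ)) ^ (k + 1) :=
          mul_le_mul_of_nonneg_left h5 (by positivity)
      _ = 8 / q := by
          rw [one_div_pow, pow_succ]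
          field_simp
      _ ≤ 1 := by
          rw [div_le_one hqpos]
          exact hqR
  -- (iv)
  have hiv : ((L : ℝ) / (q - 1)) ^ (k + 1) < 1 / (q : ℝ) ^ k := by
    have hq1 : (q : ℝ) / 2 ≤ q - 1 := by linarith
    have h1 : ((L : ℝ) / (q - 1)) ^ (k + 1) ≤ (2 * L / q) ^ (k + 1) := by
      refine pow_le_pow_left₀ (div_nonneg (by positivity) (by linarith)) ?_ _
      rw [div_le_div_iff₀ (by linarith) hqpos]
      nlinarith
    refine h1.trans_lt ?_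
    rw [div_pow, div_lt_div_iff₀ (by positivity) (by positivity), mul_pow, one_mul,
      pow_succ (q : ℝ) k]
    have h2 : (2 : ℝ) ^ (k + 1) * (L : ℝ) ^ (k + 1) < q := by
      have h3 : (2 : ℝ) ^ (k + 1) * (L : ℝ) ^ (k + 1) ≤
          ((k : ℝ) + 2) * 3 ^ (k + 1) * (L : ℝ) ^ (k + 2) :=
        mul_le_mul hC3 hLk1 (by positivity) (by positivity)
      linarith
    have hqk : (0 : ℝ) < (q : ℝ) ^ k := by positivity
    nlinarith
  have hgs := goodSystem_large (q := q) (L := L) (w0 := k) (N := q ^ k) (by omega) hL1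
    (Nat.one_le_pow _ _ (by omega)) hi hii (τ := τ) (by linarith) hτhalf hiii
  refine engine (by omega) (by omega) (by linarith) hτhalf zero_lt_one le_rfl ?_ ?_ hgs
  · have hq1 : (0 : ℝ) ≤ q - 1 := by linarith
    positivity
  · push_cast
    have h7 : ((L : ℝ) / (q - 1)) ^ (k + 1) < 1 / (q : ℝ) ^ k := hiv
    linarith

end Pool.Agent.MPf4617e
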