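import Pool.Agent.Lib.MP_f4617e_lc.Engine
import Pool.Agent.Lib.MP_f4617e_lc.LargeSys

/-!
MP_f4617e_lc: a uniform range for large alphabets.
-/

set_option autoImplicit false

namespace Pool.Agent.MPf4617e

open Finset Filter Topology

theorem large2_log_sq : ∀ᶠ x : ℝ in atTop, Real.log (x ^ 2 + 1) ≤ x / 100 := by
  have h1 : Tendsto (fun x : ℝ => Real.log x / x) atTop (𝓝 0) :=
    Real.isLittleO_log_id_atTop.tendsto_div_nhds_zero
  have h2 : ∀ᶠ x : ℝ in atTop, Real.log x / x < 1 / 400 :=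
    h1.eventually (gt_mem_nhds (by norm_num))
  filter_upwards [h2, eventually_ge_atTop 2, eventually_ge_atTop 400] with x hx h3 h4
  rw [div_lt_iff₀ (by linarith)] at hx
  have h5 : Real.log (x ^ 2 + 1) ≤ Real.log (x ^ 3) := by
    refine Real.log_le_log (by positivity) ?_
    nlinarith [sq_nonneg x, mul_nonneg (sub_nonneg.2 h3) (sq_nonneg x)]
  rw [Real.log_pow] at h5
  push_cast at h5
  linarith

theorem large2_exp_sq : ∀ᶠ x : ℝ in atTop, 4 * (x ^ 2 + 1) ^ 2 ≤ Real.exp x := by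
  filter_upwards [large2_log_sq, eventually_ge_atTop 100] with x hx h3
  have h1 : 4 * (x ^ 2 + 1) ^ 2 = Real.exp (Real.log 4 + 2 * Real.log (x ^ 2 + 1)) := by
    rw [Real.exp_add, Real.exp_log (by norm_num)]
    have : Real.exp (2 * Real.log (x ^ 2 + 1)) = (x ^ 2 + 1) ^ 2 := by
      rw [show 2 * Real.log (x ^ 2 + 1) = Real.log (x ^ 2 + 1) * ((2 : ℕ) : ℝ) by push_cast; ring,
        Real.exp_mul, Real.exp_log (by positivity), Real.rpow_natCast]
    rw [this]
  rw [h1, Real.exp_le_exp]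
  have : Real.log 4 ≤ 4 - 1 := Real.log_le_sub_one_of_pos (by norm_num)
  linarith

/-- the conditions on the parameters -/
theorem large2_params : ∀ᶠ q : ℕ in atTop, ∃ L w0 N : ℕ, 1 ≤ L ∧ 1 ≤ N ∧ 2 * L ^ 2 ≤ q ∧
    ((w0 : ℝ) + 2) * (3 * L) ^ w0 * (3 * (L : ℝ) ^ 2) ≤ q ∧
    8 * (N : ℝ) * (3 / 4) ^ L ≤ 1 ∧
    1 / (N : ℝ) ≤ Real.exp (-((Real.log q) ^ 2 / (4 * Real.log (Real.log q)))) ∧
    ((L : ℝ) / (q - 1)) ^ (w0 + 1) ≤
      Real.exp (-((Real.log q) ^ 2 / (4 * Real.log (Real.log q)))) := by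
  have hlog : Tendsto (fun q : ℕ => Real.log (q : ℝ)) atTop atTop :=
    Real.tendsto_log_atTop.comp tendsto_natCast_atTop_atTop
  filter_upwards [hlog.eventually large2_log_sq, hlog.eventually large2_exp_sq,
    hlog.eventually (eventually_ge_atTop (Real.exp 12)), eventually_ge_atTop 2]
    with q hA hB hC hq2
  have hq0 : (0 : ℝ) < q := by
    have : (2 : ℝ) ≤ q := by exact_mod_cast hq2
    linarith
  set x : ℝ := Real.log q with hx
  have hqx : (q : ℝ) = Real.exp x := (Real.exp_log hq0).symm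
  have hx0 : 0 < x := lt_of_lt_of_le (Real.exp_pos _) hC
  set μ : ℝ := Real.log x with hμ
  have hμ12 : 12 ≤ μ := by
    rw [hμ, Real.le_log_iff_exp_le hx0]; exact hC
  have hμ8 : 8 ≤ μ := by linarith
  have hx200 : 200 ≤ x := by
    have h2 : (12 : ℝ) ^ 3 / 6 ≤ Real.exp 12 := by
      have := Real.pow_div_factorial_le_exp (12 : ℝ) (by norm_num) 3
      norm_num [Nat.factorial] at this ⊢
      exact this
    norm_num at h2
    linarith
  set A : ℝ := Real.log (x ^ 2 + 1) with hAd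
  have hA0 : Real.exp A = x ^ 2 + 1 := Real.exp_log (by positivity)
  have hA2 : A ≤ 2 * μ + 1 := by
    have h1 : A ≤ Real.log (2 * x ^ 2) := Real.log_le_log (by positivity) (by nlinarith)
    rw [Real.log_mul (by norm_num) (by positivity), Real.log_pow] at h1
    have h2 : Real.log 2 ≤ 2 - 1 := Real.log_le_sub_one_of_pos (by norm_num)
    push_cast at h1
    linarith
  have hl3 : Real.log 3 ≤ 2 := by
    have := Real.log_le_sub_one_of_pos (x := 3) (by norm_num)
    linarith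
  have hL1 : x ^ 2 ≤ (⌈x ^ 2⌉₊ : ℝ) := Nat.le_ceil _
  have hL2 : (⌈x ^ 2⌉₊ : ℝ) ≤ x ^ 2 + 1 := (Nat.ceil_lt_add_one (by positivity)).le
  have hw1 : (⌊x / (3 * μ)⌋₊ : ℝ) ≤ x / (3 * μ) := Nat.floor_le (by positivity)
  have hw2 : x / (3 * μ) ≤ (⌊x / (3 * μ)⌋₊ : ℝ) + 1 := (Nat.lt_floor_add_one _).le
  have hN1 : Real.exp (x ^ 2 / (4 * μ)) ≤ (⌈Real.exp (x ^ 2 / (4 * μ))⌉₊ : ℝ) := Nat.le_ceil _
  have hN2 : (⌈Real.exp (x ^ 2 / (4 * μ))⌉₊ : ℝ) ≤ Real.exp (x ^ 2 / (4 * μ)) + 1 :=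
    (Nat.ceil_lt_add_one (by positivity)).le
  set L : ℕ := ⌈x ^ 2⌉₊ with hL
  set w : ℕ := ⌊x / (3 * μ)⌋₊ with hw
  set N : ℕ := ⌈Real.exp (x ^ 2 / (4 * μ))⌉₊ with hN
  have hLpos : (1 : ℝ) ≤ L := by nlinarith
  have hNpos : (1 : ℝ) ≤ N := by
    have : (1 : ℝ) ≤ Real.exp (x ^ 2 / (4 * μ)) := Real.one_le_exp (by positivity)
    linarith
  refine ⟨L, w, N, by exact_mod_cast hLpos, by exact_mod_cast hNpos, ?_, ?_, ?_, ?_, ?_⟩
  · have h1 : (2 : ℝ) * L ^ 2 ≤ q := by
      rw [hqx]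
      refine le_trans ?_ hB
      have : (L : ℝ) ^ 2 ≤ (x ^ 2 + 1) ^ 2 := pow_le_pow_left₀ (by positivity) hL2 2
      nlinarith [sq_nonneg (x ^ 2 + 1)]
    exact_mod_cast h1
  · have h1 : (w : ℝ) + 2 ≤ Real.exp A := by
      rw [hA0]
      have : x / (3 * μ) ≤ x := div_le_self hx0.le (by linarith)
      nlinarith
    have h2 : (3 * (L : ℝ)) ^ w ≤ Real.exp (w * (Real.log 3 + A)) := by
      have h3 : 3 * (L : ℝ) ≤ Real.exp (Real.log 3 + A) := by
        rw [Real.exp_add, Real.exp_log (by norm_num), hA0]; linarith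
      calc (3 * (L : ℝ)) ^ w ≤ Real.exp (Real.log 3 + A) ^ w :=
            pow_le_pow_left₀ (by positivity) h3 w
        _ = _ := by rw [← Real.exp_nat_mul]
    have h3 : 3 * (L : ℝ) ^ 2 ≤ Real.exp (Real.log 3 + 2 * A) := by
      rw [Real.exp_add, Real.exp_log (by norm_num), two_mul, Real.exp_add, hA0]
      nlinarith
    have h4 : (w : ℝ) * (Real.log 3 + A) ≤ 3 / 4 * x := by
      have h5 : Real.log 3 + A ≤ 2 * μ + 3 := by linarith
      calc (w : ℝ) * (Real.log 3 + A) ≤ w * (2 * μ + 3) :=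
            mul_le_mul_of_nonneg_left h5 (by positivity)
        _ ≤ x / (3 * μ) * (2 * μ + 3) := mul_le_mul_of_nonneg_right hw1 (by linarith)
        _ ≤ 3 / 4 * x * 1 := by
          rw [div_mul_eq_mul_div, div_le_iff₀ (by positivity)]
          nlinarith
        _ = 3 / 4 * x := mul_one _
    calc ((w : ℝ) + 2) * (3 * L) ^ w * (3 * (L : ℝ) ^ 2)
        ≤ Real.exp A * Real.exp (w * (Real.log 3 + A)) * Real.exp (Real.log 3 + 2 * A) := by
          refine mul_le_mul (mul_le_mul h1 h2 (by positivity) (by positivity)) h3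
            (by positivity) (by positivity)
      _ = Real.exp (A + w * (Real.log 3 + A) + (Real.log 3 + 2 * A)) := by
          rw [← Real.exp_add, ← Real.exp_add]
      _ ≤ Real.exp x := Real.exp_le_exp.2 (by linarith)
      _ = q := hqx.symm
  · have h1 : (3 / 4 : ℝ) ^ L ≤ Real.exp (-(x ^ 2 / 4)) := by
      have h2 : (3 / 4 : ℝ) ≤ Real.exp (-(1 / 4)) := by
        have := Real.add_one_le_exp (-(1 / 4 : ℝ))
        linarith
      calc (3 / 4 : ℝ) ^ L ≤ Real.exp (-(1 / 4)) ^ L := pow_le_pow_left₀ (by norm_num) h2 L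
        _ = Real.exp (L * (-(1 / 4))) := by rw [← Real.exp_nat_mul]
        _ ≤ _ := Real.exp_le_exp.2 (by linarith)
    have h2 : (N : ℝ) ≤ 2 * Real.exp (x ^ 2 / (4 * μ)) := by
      have : (1 : ℝ) ≤ Real.exp (x ^ 2 / (4 * μ)) := Real.one_le_exp (by positivity)
      linarith
    have h3 : x ^ 2 / (4 * μ) ≤ x ^ 2 / 32 :=
      div_le_div_of_nonneg_left (by positivity) (by norm_num) (by linarith)
    have h4 : (16 : ℝ) ≤ Real.exp (x ^ 2 / 8) := by
      have := Real.add_one_le_exp (x ^ 2 / 8)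
      nlinarith
    calc 8 * (N : ℝ) * (3 / 4) ^ L
        ≤ 8 * (2 * Real.exp (x ^ 2 / (4 * μ))) * Real.exp (-(x ^ 2 / 4)) := by
          refine mul_le_mul (mul_le_mul_of_nonneg_left h2 (by norm_num)) h1 (by positivity)
            (by positivity)
      _ = 16 * Real.exp (x ^ 2 / (4 * μ) + -(x ^ 2 / 4)) := by rw [Real.exp_add]; ring
      _ ≤ Real.exp (x ^ 2 / 8) * Real.exp (x ^ 2 / (4 * μ) + -(x ^ 2 / 4)) :=
          mul_le_mul_of_nonneg_right h4 (Real.exp_pos _).le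
      _ = Real.exp (x ^ 2 / 8 + (x ^ 2 / (4 * μ) + -(x ^ 2 / 4))) := by
          rw [← Real.exp_add]
      _ ≤ 1 := by
          rw [Real.exp_le_one_iff]
          nlinarith [sq_nonneg x]
  · rw [Real.exp_neg, ← one_div]
    exact one_div_le_one_div_of_le (Real.exp_pos _) hN1
  · have hq1 : (q : ℝ) / 2 ≤ q - 1 := by
      have : (2 : ℝ) ≤ q := by exact_mod_cast hq2
      linarith
    have h1 : (L : ℝ) / (q - 1) ≤ Real.exp (-(3 / 4 * x)) := by
      calc (L : ℝ) / (q - 1) ≤ (x ^ 2 + 1) / (q / 2) :=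
            div_le_div₀ (by positivity) hL2 (by positivity) hq1
        _ = Real.exp (A + Real.log 2 - x) := by
            rw [Real.exp_sub, Real.exp_add, hA0, Real.exp_log (by norm_num), ← hqx]
            field_simp
        _ ≤ _ := by
            refine Real.exp_le_exp.2 ?_
            have h2 : Real.log 2 ≤ 2 - 1 := Real.log_le_sub_one_of_pos (by norm_num)
            linarith
    calc ((L : ℝ) / (q - 1)) ^ (w + 1) ≤ Real.exp (-(3 / 4 * x)) ^ (w + 1) :=
          pow_le_pow_left₀ (div_nonneg (by positivity) (by linarith)) h1 _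
      _ = Real.exp (((w + 1 : ℕ) : ℝ) * (-(3 / 4 * x))) := by rw [← Real.exp_nat_mul]
      _ ≤ _ := by
          refine Real.exp_le_exp.2 ?_
          push_cast
          have h2 : x / (3 * μ) * (3 / 4 * x) ≤ ((w : ℝ) + 1) * (3 / 4 * x) :=
            mul_le_mul_of_nonneg_right hw2 (by positivity)
          have h3 : x / (3 * μ) * (3 / 4 * x) = x ^ 2 / (4 * μ) := by
            field_simp
          linarith

theorem ach_large2 : ∃ q0 : ℕ, ∀ q : ℕ, q0 ≤ q → ∀ τ : ℝ, 1 / 4 ≤ τ →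
    τ < 1 / 2 - Real.exp (-((Real.log q) ^ 2 / (4 * Real.log (Real.log q)))) →
      Achievable q τ := by
  obtain ⟨q0, hq0⟩ := eventually_atTop.1 large2_params
  refine ⟨max q0 4, fun q hq τ h0 h1 => ?_⟩
  have hq4 : 4 ≤ q := le_trans (le_max_right _ _) hq
  have : NeZero q := ⟨by omega⟩
  obtain ⟨L, w0, N, hL, hN, hLq, hc, hg, hN1, hw⟩ := hq0 q (le_trans (le_max_left _ _) hq)
  set δ := Real.exp (-((Real.log q) ^ 2 / (4 * Real.log (Real.log q)))) with hδ
  have hδ0 : 0 < δ := Real.exp_pos _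
  have hτ1 : τ < 1 / 2 := by linarith
  have hgain : 8 * (N : ℝ) * (1 - τ) ^ L ≤ 1 := by
    refine le_trans (mul_le_mul_of_nonneg_left ?_ (by positivity)) hg
    exact pow_le_pow_left₀ (by linarith) (by linarith) L
  have hq1 : (0 : ℝ) < q - 1 := by
    have : (4 : ℝ) ≤ q := by exact_mod_cast hq4
    linarith
  have hsys := goodSystem_large hq4 hL hN hLq hc (by linarith : 0 < τ) hτ1 hgain
  refine engine (by omega) (by omega) (by linarith) hτ1 one_pos le_rfl ?_ ?_ hsys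
  · positivity
  · linarith

end Pool.Agent.MPf4617e
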