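import Pool.Agent.Lib.MP_f4617e_lc.LSBasic

/-!
MP_f4617e_lc: a decodable code on an arbitrary set of positions gives a code of length `n`.
-/

set_option autoImplicit false

namespace Pool.Agent.MPf4617e

open Finset Filter Topology

theorem corrects_of_locCode {q n t ℓ : ℕ} [NeZero q] {S : Type} [Fintype S] {T : ℝ}
    (hS : Fintype.card S ≤ n) (ht : (t : ℝ) ≤ T)
    (h : LocCode q S (fun E => (E.card : ℝ) ≤ T) (Fin ℓ → Fin q)) :
    ∃ f : Fin (q ^ ℓ) → Finset (Fin n) → Fin n → Fin q, Corrects q n t (q ^ ℓ) f := by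
  classical
  obtain ⟨enc, dec, hdec⟩ := h
  obtain ⟨e⟩ : Nonempty (S ↪ Fin n) := by
    apply Function.Embedding.nonempty_of_card_le
    simpa using hS
  let gg : Fin (q ^ ℓ) ≃ (Fin ℓ → Fin q) := (finFunctionFinEquiv (m := q) (n := ℓ)).symm
  let res : Finset (Fin n) → Finset S := fun E => univ.filter (fun s => e s ∈ E)
  have hres : ∀ E : Finset (Fin n), (res E).card ≤ E.card := by
    intro E
    apply Finset.card_le_card_of_injOn e
    · intro s hs
      simpa [res] using hs
    · exact e.injective.injOn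
  let f : Fin (q ^ ℓ) → Finset (Fin n) → Fin n → Fin q := fun m E i =>
    if hi : ∃ s, e s = i then enc (gg m) (res E) hi.choose else 0
  have hf : ∀ m E s, f m E (e s) = enc (gg m) (res E) s := by
    intro m E s
    have hi : ∃ s', e s' = e s := ⟨s, rfl⟩
    have hc : hi.choose = s := e.injective hi.choose_spec
    simp only [f]
    rw [dif_pos hi, hc]
  have key : ∀ m E (y : Fin n → Fin q), E.card ≤ t → (∀ i, i ∉ E → y i = f m E i) →
      dec (fun s => y (e s)) = gg m := by
    intro m E y hE hy
    apply hdec (gg m) (res E)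
    · refine le_trans ?_ ht
      exact_mod_cast (hres E).trans hE
    · intro s hs
      have hs' : e s ∉ E := by simpa [res] using hs
      rw [hy (e s) hs', hf]
  refine ⟨f, ?_⟩
  intro m m' hmm E E' hE hE' ⟨y, hy, hy'⟩
  apply hmm
  apply gg.injective
  rw [← key m E y hE hy, ← key m' E' y hE' hy']

end Pool.Agent.MPf4617e
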