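import Pool.Agent.Lib.MP_f4617e_lc.OneSys
import Pool.Agent.Lib.MP_f4617e_lc.Engine

/-!
MP_f4617e_lc: blocks of length 1.
-/

set_option autoImplicit false

namespace Pool.Agent.MPf4617e

open Finset Filter Topology

theorem ach_one {q : ℕ} (hq : 3 ≤ q) {τ : ℝ} (h0 : 0 < τ)
    (h1 : (1 - al q τ) / q < 1 - 2 * τ) (h2 : τ < 1 / 2) : Achievable q τ := by
  have : NeZero q := ⟨by omega⟩
  exact one_of_engine hq h0 h1 h2 fun c1 c2 a b c d e =>
    engine (by omega) one_pos h0 h2 a b c d e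

end Pool.Agent.MPf4617e
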