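import Pool.Agent.Lib.MP_f4617e_lc.DynProg

/-!
MP_f4617e_lc: the block system with blocks of length 1.
-/

set_option autoImplicit false

namespace Pool.Agent.MPf4617e

open Finset Filter Topology

theorem one_al {q : ℕ} (hq : 3 ≤ q) {τ : ℝ} (h0 : 0 < τ) (h2 : τ < 1 / 2) :
    0 < al q τ ∧ al q τ < 1 ∧ al q τ + q * (1 - al q τ) = q * (1 - τ) := by
  have hq' : (3 : ℝ) ≤ q := by exact_mod_cast hq
  have hq1 : (0 : ℝ) < q - 1 := by linarith
  refine ⟨?_, ?_, ?_⟩
  · unfold al
    positivity
  · unfold al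
    rw [div_lt_one hq1]
    nlinarith
  · unfold al
    field_simp
    ring

/-- the law for blocks of length 1 -/
noncomputable def one_law {q : ℕ} (a : ℝ) (ha : 0 ≤ a ∧ a ≤ 1) : Law q 1 where
  tree := .mix 2 ![a, 1 - a] ![.stop, .read 0 fun _ => .stop]
  ok := by
    refine ⟨?_, ?_, ?_⟩
    · intro j
      fin_cases j
      · exact ha.1
      · simpa using ha.2
    · simp [Fin.sum_univ_two]
    · intro j
      fin_cases j
      · exact trivial
      · exact ⟨by simp, fun _ => trivial⟩
  good l E := Disjoint (sites l) E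
  good_disj _ _ h := h

theorem one_sites {q : ℕ} (c : Fin q) : sites ([((0 : Fin 1), c)] : Path 1 q) = {0} := by
  simp [sites]

theorem one_Z {q : ℕ} (a : ℝ) (ha : 0 ≤ a ∧ a ≤ 1) (E : Finset (Fin 1)) :
    (one_law (q := q) a ha).Z E = a + if (0 : Fin 1) ∈ E then 0 else q * (1 - a) := by
  classical
  unfold Law.Z one_law
  rw [RT.LS_mix_two]
  simp only [RT.LS_stop, RT.LS_read, one_sites]
  by_cases h : (0 : Fin 1) ∈ E
  · simp [h, sites]
  · simp [h, sites]
    ring

theorem one_gain_nil {q : ℕ} [NeZero q] (E : Finset (Fin 1)) :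
    gain E ([] : Path 1 q) = 0 := by
  unfold gain
  rw [Finset.card_eq_zero, Finset.filter_eq_empty_iff]
  rintro i - ⟨hi, h⟩
  obtain rfl : i = 0 := Subsingleton.elim _ _
  simp [cst, hi] at h

theorem one_gain_cons {q : ℕ} [NeZero q] (c : Fin q) (E : Finset (Fin 1))
    (_ : (0 : Fin 1) ∉ E) : gain E ([((0 : Fin 1), c)] : Path 1 q) ≤ if c = 1 then 1 else 0 := by
  by_cases hc : c = 1
  · rw [if_pos hc]
    unfold gain
    refine le_trans (Finset.card_le_univ _) (by simp)
  · rw [if_neg hc]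
    refine le_of_eq ?_
    unfold gain
    rw [Finset.card_eq_zero, Finset.filter_eq_empty_iff]
    rintro i - ⟨hi, h⟩
    obtain rfl : i = 0 := Subsingleton.elim _ _
    simp [cst, hi, hc] at h

theorem one_X {q : ℕ} [NeZero q] (hq : 3 ≤ q) (a : ℝ) (ha : 0 ≤ a ∧ a ≤ 1)
    (E : Finset (Fin 1)) :
    (one_law (q := q) a ha).X (tableOf zc (zc_ne_zero hq)) E ≤
      if (0 : Fin 1) ∈ E then 0 else 1 - a := by
  classical
  have hnil : excOf (q := q) zc ([] : Path 1 q) E = 0 := by
    have := excOf_zc_le_gain hq ([] : Path 1 q) E (by simp [sites])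
    rw [one_gain_nil] at this
    omega
  unfold Law.X one_law
  rw [RT.LS_mix_two]
  simp only [RT.LS_stop, RT.LS_read, one_sites, tableOf]
  rw [hnil]
  by_cases h : (0 : Fin 1) ∈ E
  · simp [h]
  · have h1 : ∀ c : Fin q, (excOf zc ([((0 : Fin 1), c)] : Path 1 q) E : ℝ) ≤
        if c = 1 then 1 else 0 := by
      intro c
      have h2 := excOf_zc_le_gain hq ([((0 : Fin 1), c)] : Path 1 q) E
        (by rw [one_sites]; simpa using h)
      have h3 := one_gain_cons c E h
      have h4 := h2.trans h3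
      have h5 : ((excOf zc ([((0 : Fin 1), c)] : Path 1 q) E : ℕ) : ℝ) ≤
          ((if c = 1 then 1 else 0 : ℕ) : ℝ) := by exact_mod_cast h4
      refine h5.trans (le_of_eq ?_)
      split_ifs <;> simp
    have h6 : ∑ c : Fin q, (excOf zc ([((0 : Fin 1), c)] : Path 1 q) E : ℝ) ≤ 1 := by
      refine (Finset.sum_le_sum fun c _ => h1 c).trans (le_of_eq ?_)
      simp
    rw [if_neg h]
    simp only [Finset.disjoint_singleton_left, h, not_false_eq_true, if_true, Nat.cast_zero,
      ite_self, mul_zero, zero_add]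
    nlinarith [ha.1, ha.2]

/-- the system of blocks of length 1 -/
theorem one_good {q : ℕ} [NeZero q] (hq : 3 ≤ q) {τ : ℝ} (h0 : 0 < τ) (h2 : τ < 1 / 2) :
    GoodSystem q 1 τ (1 - (1 - al q τ) / (q * (1 - τ))) ((1 - al q τ) / (q * (1 - τ))) := by
  obtain ⟨ha0, ha1, ha⟩ := one_al hq h0 h2
  have hq' : (3 : ℝ) ≤ q := by exact_mod_cast hq
  have hr : (0 : ℝ) < q * (1 - τ) := mul_pos (by linarith) (by linarith)
  refine goodSystem_single (tableOf zc (zc_ne_zero hq))
    (one_law (al q τ) ⟨ha0.le, ha1.le⟩) ?_ ?_ ?_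
  · intro e
    positivity
  · intro E
    rw [one_Z]
    by_cases h : (0 : Fin 1) ∈ E
    · have hE : E.card = 1 := by
        have : E = {0} := by
          ext i
          obtain rfl : i = 0 := Subsingleton.elim _ _
          simp [h]
        simp [this]
      rw [hE, if_pos h]
      simp
    · have hE : E = ∅ := by
        rw [Finset.eq_empty_iff_forall_notMem]
        intro i
        obtain rfl : i = 0 := Subsingleton.elim _ _
        exact h
      subst hE
      simp [ha]
  · intro E
    have hX := one_X hq (al q τ) ⟨ha0.le, ha1.le⟩ E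
    by_cases h : (0 : Fin 1) ∈ E
    · have hE : E.card = 1 := by
        have : E = {0} := by
          ext i
          obtain rfl : i = 0 := Subsingleton.elim _ _
          simp [h]
        simp [this]
      rw [hE]
      rw [if_pos h] at hX
      have h1 : (one_law (al q τ) ⟨ha0.le, ha1.le⟩).X (tableOf zc (zc_ne_zero hq)) E /
          (one_law (q := q) (al q τ) ⟨ha0.le, ha1.le⟩).Z E ≤ 0 :=
        div_nonpos_of_nonpos_of_nonneg hX (Law.Z_nonneg _ _)
      push_cast
      linarith
    · have hE : E = ∅ := by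
        rw [Finset.eq_empty_iff_forall_notMem]
        intro i
        obtain rfl : i = 0 := Subsingleton.elim _ _
        exact h
      subst hE
      rw [if_neg h] at hX
      rw [one_Z, if_neg h, ha]
      simp only [Finset.card_empty, Nat.cast_zero, zero_add, mul_zero, Nat.cast_one, mul_one]
      exact div_le_div_of_nonneg_right hX hr.le

/-- reduction of `ach_one` to the engine -/
theorem one_of_engine {q : ℕ} [NeZero q] (hq : 3 ≤ q) {τ : ℝ} (h0 : 0 < τ)
    (h1 : (1 - al q τ) / q < 1 - 2 * τ) (h2 : τ < 1 / 2)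
    (eng : ∀ c1 c2 : ℝ, 0 < c1 → c1 ≤ 1 → 0 ≤ c2 → c1 * τ + c2 < 1 - τ →
      GoodSystem q 1 τ c1 c2 → Achievable q τ) : Achievable q τ := by
  obtain ⟨ha0, ha1, ha⟩ := one_al hq h0 h2
  have hq' : (3 : ℝ) ≤ q := by exact_mod_cast hq
  have hr : (0 : ℝ) < q * (1 - τ) := mul_pos (by linarith) (by linarith)
  have hc0 : 0 ≤ (1 - al q τ) / (q * (1 - τ)) := div_nonneg (by linarith) hr.le
  have hc1 : (1 - al q τ) / (q * (1 - τ)) < 1 := by
    rw [div_lt_one hr, ← ha]
    nlinarith
  refine eng _ _ ?_ ?_ hc0 ?_ (one_good hq h0 h2)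
  · linarith
  · linarith
  · have h3 : (1 - al q τ) / (q * (1 - τ)) * (1 - τ) = (1 - al q τ) / q := by
      have : (1 - τ : ℝ) ≠ 0 := by linarith
      field_simp
    have h4 : (1 - (1 - al q τ) / (q * (1 - τ))) * τ + (1 - al q τ) / (q * (1 - τ)) =
        τ + (1 - al q τ) / (q * (1 - τ)) * (1 - τ) := by ring
    rw [h4, h3]
    linarith

end Pool.Agent.MPf4617e
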