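import Pool.Agent.Lib.MP_f4617e_lc.LSBasic

/-!
MP_f4617e_lc, module RD: every valid randomised reading tree is realised by a finite family of
deterministic readers with a random key.
-/

set_option autoImplicit false

namespace Pool.Agent.MPf4617e

open Finset Filter Topology

/-- deterministic reading trees -/
inductive read_DT (L q : ℕ) : Type
  | stop : read_DT L q
  | read : Fin L → (Fin q → read_DT L q) → read_DT L q

namespace read_DT

variable {L q : ℕ}

def LS : read_DT L q → (Path L q → ℝ) → ℝ
  | .stop, f => f []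
  | .read i k, f => ∑ a, (k a).LS fun l => f ((i, a) :: l)

def Ok : read_DT L q → Finset (Fin L) → Prop
  | .stop, _ => True
  | .read i k, S => i ∉ S ∧ ∀ a, (k a).Ok (insert i S)

def run : read_DT L q → (ℕ → Fin q) → Path L q
  | .stop, _ => []
  | .read i k, a => (i, a 0) :: (k (a 0)).run fun n => a (n + 1)

def rd [NeZero q] : read_DT L q → (Fin L → Fin q) → (ℕ → Fin q) → List (Fin q)
  | .stop, _, _ => []
  | .read i k, y, c => (y i - c 0) :: (k (y i)).rd y fun n => c (n + 1)

end read_DT

/-- a product of probability vectors is a probability vector, and it has the right marginals -/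
theorem read_prod_sum {q : ℕ} {ι : Fin q → Type} [∀ a, Fintype (ι a)] (p : ∀ a, ι a → ℝ)
    (hs : ∀ a, ∑ x, p a x = 1) : ∑ j : (∀ a, ι a), ∏ a, p a (j a) = 1 := by
  rw [← Fintype.piFinset_univ, ← Finset.prod_univ_sum]
  simp [hs]

theorem read_prod_marg {q : ℕ} {ι : Fin q → Type} [∀ a, Fintype (ι a)] (p : ∀ a, ι a → ℝ)
    (hs : ∀ a, ∑ x, p a x = 1) (b : Fin q) (g : ι b → ℝ) :
    ∑ j : (∀ a, ι a), (∏ a, p a (j a)) * g (j b) = ∑ x, p b x * g x := by
  classical
  have h1 : ∀ j : (∀ a, ι a), (∏ a, p a (j a)) * g (j b) =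
      ∏ a, p a (j a) * (if h : b = a then g (h ▸ j a) else 1) := by
    intro j
    rw [Finset.prod_mul_distrib]
    congr 1
    rw [Finset.prod_eq_single b]
    · simp
    · intro a _ ha
      rw [dif_neg (Ne.symm ha)]
    · simp
  rw [Finset.sum_congr rfl fun j _ => h1 j, ← Fintype.piFinset_univ,
    ← Finset.prod_univ_sum (fun _ => Finset.univ)
      (fun a x => p a x * (if h : b = a then g (h ▸ x) else 1))]
  rw [Finset.prod_eq_single b]
  · simp
  · intro a _ ha
    simp only [dif_neg (Ne.symm ha), mul_one]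
    exact hs a
  · simp

/-- (1) determinisation -/
theorem read_det {L q : ℕ} (t : RT L q) (S : Finset (Fin L)) (h : t.Ok S) :
    ∃ (ι : Type) (_ : Fintype ι) (p : ι → ℝ) (T : ι → read_DT L q),
      (∀ j, 0 ≤ p j) ∧ ∑ j, p j = 1 ∧ (∀ j, (T j).Ok S) ∧
        ∀ f, t.LS f = ∑ j, p j * (T j).LS f := by
  induction t generalizing S with
  | stop =>
    refine ⟨Unit, inferInstance, fun _ => 1, fun _ => .stop, fun _ => zero_le_one, by simp,
      fun _ => trivial, fun f => ?_⟩
    simp [RT.LS, read_DT.LS]
  | read i k ih =>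
    obtain ⟨hi, hk⟩ := h
    choose ι hι p T hp hs hok hLS using fun a => ih a (insert i S) (hk a)
    refine ⟨∀ a, ι a, inferInstance, fun j => ∏ a, p a (j a),
      fun j => .read i fun a => T a (j a), fun j => Finset.prod_nonneg fun a _ => hp a _,
      read_prod_sum p hs, fun j => ⟨hi, fun a => hok a _⟩, fun f => ?_⟩
    simp only [RT.LS, read_DT.LS, Finset.mul_sum]
    rw [Finset.sum_comm]
    refine Finset.sum_congr rfl fun a _ => ?_
    rw [hLS a]
    exact (read_prod_marg p hs a fun x => (T a x).LS fun l => f ((i, a) :: l)).symm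
  | mix n w t ih =>
    obtain ⟨hw, hw1, ht⟩ := h
    choose ι hι p T hp hs hok hLS using fun j => ih j S (ht j)
    refine ⟨Σ j, ι j, inferInstance, fun x => w x.1 * p x.1 x.2, fun x => T x.1 x.2,
      fun x => mul_nonneg (hw _) (hp _ _), ?_, fun x => hok _ _, fun f => ?_⟩
    · rw [Fintype.sum_sigma]
      simp only [← Finset.mul_sum, hs, mul_one, hw1]
    · rw [Fintype.sum_sigma]
      simp only [RT.LS, hLS, Finset.mul_sum, mul_assoc]

/-- the finite word `c` extended by `0` -/
def read_ext {q : ℕ} [NeZero q] {n : ℕ} (c : Fin n → Fin q) (m : ℕ) : Fin q :=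
  if h : m < n then c ⟨m, h⟩ else 0

theorem read_ext_zero {q : ℕ} [NeZero q] {n : ℕ} (a : Fin q) (c : Fin n → Fin q) :
    read_ext (Fin.cons a c : Fin (n + 1) → Fin q) 0 = a := by
  simp [read_ext]

theorem read_ext_succ {q : ℕ} [NeZero q] {n : ℕ} (a : Fin q) (c : Fin n → Fin q) (m : ℕ) :
    read_ext (Fin.cons a c : Fin (n + 1) → Fin q) (m + 1) = read_ext c m := by
  unfold read_ext
  by_cases h : m < n
  · rw [dif_pos h, dif_pos (by omega : m + 1 < n + 1)]
    exact Fin.cons_succ (α := fun _ => Fin q) a c ⟨m, h⟩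
  · rw [dif_neg h, dif_neg (by omega)]

/-- (2) a random key makes all labels uniform -/
theorem read_count {L q : ℕ} [NeZero q] (T : read_DT L q) (S : Finset (Fin L)) (h : T.Ok S)
    (n : ℕ) (hn : L ≤ n + S.card) (δ : ℕ → Fin q) (f : Path L q → ℝ) :
    ∑ c : Fin n → Fin q, ((q : ℝ) ^ (T.run fun m => δ m + read_ext c m).length *
      f (T.run fun m => δ m + read_ext c m)) = (q : ℝ) ^ n * T.LS f := by
  induction T generalizing S n δ f with
  | stop => simp [read_DT.run, read_DT.LS]
  | read i k ih =>
    obtain ⟨hi, hk⟩ := h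
    have hcard : (insert i S).card = S.card + 1 := Finset.card_insert_of_notMem hi
    have hle : (insert i S).card ≤ L := by
      simpa using Finset.card_le_univ (insert i S)
    obtain ⟨n, rfl⟩ : ∃ n', n = n' + 1 := ⟨n - 1, by omega⟩
    rw [← (Fin.consEquiv fun _ : Fin (n + 1) => Fin q).sum_comp, Fintype.sum_prod_type]
    have h1 : ∀ c0 : Fin q, ∑ c : Fin n → Fin q,
        ((q : ℝ) ^ ((read_DT.read i k).run fun m => δ m +
            read_ext ((Fin.consEquiv fun _ : Fin (n + 1) => Fin q) (c0, c)) m).length *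
          f ((read_DT.read i k).run fun m => δ m +
            read_ext ((Fin.consEquiv fun _ : Fin (n + 1) => Fin q) (c0, c)) m)) =
        (q : ℝ) ^ (n + 1) * (k (δ 0 + c0)).LS fun l => f ((i, δ 0 + c0) :: l) := by
      intro c0
      have h2 := ih (δ 0 + c0) (insert i S) (hk _) n (by omega) (fun m => δ (m + 1))
        (fun l => f ((i, δ 0 + c0) :: l))
      rw [pow_succ, mul_comm ((q : ℝ) ^ n) (q : ℝ), mul_assoc, ← h2, Finset.mul_sum]
      refine Finset.sum_congr rfl fun c _ => ?_
      have h3 : ((read_DT.read i k).run fun m => δ m +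
            read_ext ((Fin.consEquiv fun _ : Fin (n + 1) => Fin q) (c0, c)) m) =
          (i, δ 0 + c0) :: (k (δ 0 + c0)).run fun m => δ (m + 1) + read_ext c m := by
        show (i, δ 0 + read_ext (Fin.cons c0 c : Fin (n + 1) → Fin q) 0) ::
          (k (δ 0 + read_ext (Fin.cons c0 c : Fin (n + 1) → Fin q) 0)).run
            (fun m => δ (m + 1) + read_ext (Fin.cons c0 c : Fin (n + 1) → Fin q) (m + 1)) = _
        simp only [read_ext_zero, read_ext_succ]
      rw [h3, List.length_cons, pow_succ]
      ring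
    rw [Finset.sum_congr rfl fun c0 _ => h1 c0, ← Finset.mul_sum]
    congr 1
    exact Equiv.sum_comp (Equiv.addLeft (δ 0)) fun a => (k a).LS fun l => f ((i, a) :: l)

theorem read_nodup {L q : ℕ} (T : read_DT L q) (S : Finset (Fin L)) (h : T.Ok S)
    (a : ℕ → Fin q) :
    ((T.run a).map Prod.fst).Nodup ∧ ∀ i ∈ (T.run a).map Prod.fst, i ∉ S := by
  induction T generalizing S a with
  | stop => simp [read_DT.run]
  | read i k ih =>
    obtain ⟨hi, hk⟩ := h
    obtain ⟨h1, h2⟩ := ih (a 0) (insert i S) (hk _) (fun n => a (n + 1))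
    simp only [read_DT.run, List.map_cons, List.nodup_cons, List.mem_cons]
    refine ⟨⟨fun h3 => h2 i h3 (Finset.mem_insert_self _ _), h1⟩, ?_⟩
    rintro j (rfl | hj)
    · exact hi
    · exact fun hS => h2 j hj (Finset.mem_insert_of_mem hS)

theorem read_rd_ok {L q : ℕ} [NeZero q] (T : read_DT L q) (S : Finset (Fin L)) (h : T.Ok S)
    (δ c : ℕ → Fin q) (y : Fin L → Fin q)
    (hy : ∀ i ∈ sites (T.run fun m => δ m + c m), y i = word (T.run fun m => δ m + c m) i) :
    T.rd y c = (List.range (T.run fun m => δ m + c m).length).map δ := by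
  induction T generalizing S δ c with
  | stop => simp [read_DT.run, read_DT.rd]
  | read i k ih =>
    obtain ⟨hi, hk⟩ := h
    have hrun : ((read_DT.read i k).run fun m => δ m + c m) =
        (i, δ 0 + c 0) :: (k (δ 0 + c 0)).run fun m => δ (m + 1) + c (m + 1) := rfl
    have h2 := (read_nodup (k (δ 0 + c 0)) (insert i S) (hk _)
      (fun m => δ (m + 1) + c (m + 1))).2
    rw [hrun] at hy ⊢
    have hyi : y i = δ 0 + c 0 := by
      have := hy i (by simp [sites])
      simpa [word, List.lookup_cons] using this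
    have h3 := ih (δ 0 + c 0) (insert i S) (hk _) (fun m => δ (m + 1)) (fun m => c (m + 1)) (by
      intro j hj
      have hji : j ≠ i := by
        rintro rfl
        exact h2 j (by simpa [sites] using hj) (Finset.mem_insert_self _ _)
      have := hy j (by
        simp only [sites, List.map_cons, List.toFinset_cons, Finset.mem_insert]
        exact Or.inr hj)
      rw [this]
      have hne : (j == i) = false := by simpa using hji
      simp [word, List.lookup_cons, hne])
    show (y i - c 0) :: (k (y i)).rd y (fun n => c (n + 1)) = _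
    rw [hyi, h3, List.length_cons, List.range_succ_eq_map, List.map_cons, List.map_map,
      add_sub_cancel_right]
    rfl

theorem exists_reader {q L : ℕ} [NeZero q] (t : RT L q) (h : t.Ok ∅) :
    Nonempty (Reader q L t) := by
  obtain ⟨ι, hι, p, T, hp, hs, hok, hLS⟩ := read_det t ∅ h
  have hq : (0 : ℝ) < (q : ℝ) ^ L := by
    have : 0 < q := Nat.pos_of_ne_zero (NeZero.ne q)
    positivity
  refine ⟨{
    Ω := ι × (Fin L → Fin q)
    P := fun ω => p ω.1 / (q : ℝ) ^ L
    path := fun ω δ => (T ω.1).run fun m => δ m + read_ext ω.2 m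
    rd := fun ω y => (T ω.1).rd y (read_ext ω.2)
    P_nonneg := fun ω => div_nonneg (hp _) hq.le
    P_sum := ?_
    avg := ?_
    nodup := fun ω δ => (read_nodup (T ω.1) ∅ (hok _) _).1
    rd_ok := fun ω δ y hy => read_rd_ok (T ω.1) ∅ (hok _) δ (read_ext ω.2) y hy }⟩
  · rw [Fintype.sum_prod_type]
    simp only [Finset.sum_const, Finset.card_univ, Fintype.card_fun, Fintype.card_fin,
      nsmul_eq_mul, Nat.cast_pow]
    rw [← hs]
    exact Finset.sum_congr rfl fun j _ => by field_simp
  · intro f δ
    rw [Fintype.sum_prod_type, hLS f]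
    refine Finset.sum_congr rfl fun j _ => ?_
    have := read_count (T j) ∅ (hok j) L (by simp) δ f
    simp only
    rw [← Finset.mul_sum, this]
    field_simp

end Pool.Agent.MPf4617e
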