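import Mathlib

/-!
MP_f4617e_lc: the definitions of the problem.
-/

set_option autoImplicit false

namespace Pool.Agent.MPf4617e

open Finset

/-! ### The problem -/

/-- `f` is a code of length `n` with `M` messages over the alphabet `Fin q` correcting `t`
localized errors: the encoder knows the set `E` of positions where errors may occur. -/
def Corrects (q n t M : ℕ) (f : Fin M → Finset (Fin n) → Fin n → Fin q) : Prop :=
  ∀ m m' : Fin M, m ≠ m' → ∀ E E' : Finset (Fin n), E.card ≤ t → E'.card ≤ t →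
    ¬ ∃ y : Fin n → Fin q, (∀ i, i ∉ E → y i = f m E i) ∧ (∀ i, i ∉ E' → y i = f m' E' i)

/-- the `q`-ary logarithmic entropy `-τ log_q τ - (1-τ) log_q (1-τ)` -/
noncomputable def hq (q : ℕ) (τ : ℝ) : ℝ :=
  -τ * Real.logb q τ - (1 - τ) * Real.logb q (1 - τ)

/-- the Hamming bound -/
noncomputable def Hq (q : ℕ) (τ : ℝ) : ℝ := 1 - hq q τ - τ * Real.logb q (q - 1)

/-- The Hamming bound is achievable at `(q, τ)`. -/
def Achievable (q : ℕ) (τ : ℝ) : Prop :=
  ∀ ε : ℝ, 0 < ε → ∃ N : ℕ, ∀ n : ℕ, N ≤ n →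
    ∃ (M : ℕ) (f : Fin M → Finset (Fin n) → Fin n → Fin q),
      0 < M ∧ Corrects q n ⌊τ * n⌋₊ M f ∧ (Hq q τ - ε) * n ≤ Real.logb q M

end Pool.Agent.MPf4617e
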