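import Pool.Agent.Lib.MP_f4617e_lc.Defs

/-!
MP_f4617e_lc: definitions of the concrete block systems (tables from special words, the chain
tree, the random order tree with a stopping rule).
-/

set_option autoImplicit false

namespace Pool.Agent.MPf4617e

open Finset

/-! ### Tables from families of special words -/

/-- level: the largest `V` such that `y` carries the special word `z V` on `V` -/
def levOf {q L : ℕ} (z : Finset (Fin L) → Fin L → Fin q) (y : Fin L → Fin q) : ℕ :=
  (univ.filter fun V : Finset (Fin L) => ∀ i ∈ V, y i = z V i).sup card

/-- excess: the largest level over all words agreeing with `word l` off `E`, minus `|E|` -/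
def excOf {q L : ℕ} [NeZero q] (z : Finset (Fin L) → Fin L → Fin q) (l : Path L q)
    (E : Finset (Fin L)) : ℕ :=
  (univ.filter fun y : Fin L → Fin q => ∀ i, i ∉ E → y i = word l i).sup (levOf z) - E.card

/-- the table of a family of special words that never use the neutral symbol `0` -/
def tableOf {q L : ℕ} [NeZero q] (z : Finset (Fin L) → Fin L → Fin q)
    (hz : ∀ V, ∀ i ∈ V, z V i ≠ 0) : Table q L where
  lev := levOf z
  spec E := z Eᶜ
  exc := excOf z
  lev_le y := by
    refine Finset.sup_le fun V _ => ?_
    simpa using Finset.card_le_univ V
  lev_spec E y hy := by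
    have h : (Eᶜ).card ≤ levOf z y := by
      refine Finset.le_sup (f := card) (b := Eᶜ) ?_
      simp only [mem_filter, mem_univ, true_and]
      intro i hi
      exact hy i (by simpa using hi)
    have h2 : (Eᶜ).card + E.card = L := by
      rw [Finset.card_compl_add_card]; simp
    omega
  lev_zero E y hy := by
    refine Finset.sup_le fun V hV => ?_
    simp only [mem_filter, mem_univ, true_and] at hV
    refine Finset.card_le_card fun i hi => ?_
    by_contra h
    exact hz V i hi ((hV i hi).symm.trans (hy i h))
  lev_exc l E y _ _ hy := by
    have h : levOf z y ≤ (univ.filter fun y : Fin L → Fin q =>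
        ∀ i, i ∉ E → y i = word l i).sup (levOf z) :=
      Finset.le_sup (f := levOf z) (by simpa using hy)
    simp only [excOf]
    omega

/-! ### The chain -/

/-- special word of the chain: the symbol at `i` says whether the next position is in `V`
(`2`) or not (`1`) -/
def zc {q L : ℕ} [NeZero q] (V : Finset (Fin L)) (i : Fin L) : Fin q :=
  if ∃ j ∈ V, j.val = i.val + 1 then 2 else 1

/-- states of the dynamic programme -/
inductive DSt | neg | zero | one
  deriving DecidableEq

/-- state of position `i` in the dynamic programme for the path `l` and error set `E`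
(`cst E l k` is the state of position `L - k`; beyond the end the state is `neg`) -/
def cst {q L : ℕ} [NeZero q] (E : Finset (Fin L)) (l : Path L q) : ℕ → DSt
  | 0 => .neg
  | k + 1 =>
    if h : L - (k + 1) < L then
      if (⟨L - (k + 1), h⟩ : Fin L) ∈ E then .one
      else match l.lookup (⟨L - (k + 1), h⟩ : Fin L) with
        | none => .neg
        | some a =>
          if a = 2 then (if cst E l k = .neg then .neg else .one)
          else if a = 1 then (if cst E l k = .one then .zero else .one)
          else .neg
    else .neg

/-- number of clean positions with state `one` -/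
def gain {q L : ℕ} [NeZero q] (E : Finset (Fin L)) (l : Path L q) : ℕ :=
  (univ.filter fun i : Fin L => i ∉ E ∧ cst E l (L - i.val) = .one).card

/-- probability of reading the next position, given the previous one (`none`: not read) -/
def cpr {q : ℕ} [NeZero q] (be t : ℝ) : Option (Fin q) → ℝ
  | none => be
  | some a => if a = 1 then 0 else if a = 2 then 1 else t

/-- the chain tree on the last `n` positions -/
def chT {q L : ℕ} [NeZero q] (be t : ℝ) : (n : ℕ) → n ≤ L → Option (Fin q) → RT L q
  | 0, _, _ => .stop
  | n + 1, hn, st => .mix 2 ![cpr be t st, 1 - cpr be t st]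
      ![.read ⟨L - (n + 1), by omega⟩ (fun a => chT be t n (by omega) (some a)),
        chT be t n (by omega) none]

/-- position `L - k` is an error position -/
def posIn {L : ℕ} (E : Finset (Fin L)) (k : ℕ) : Prop := ∃ i ∈ E, i.val + k = L

open Classical in
/-- Weights for the chain, from the right. At position `L - k`: total weight `z` from this
position on, the weight `z'` from the next position on, the weights `S`, `A` of the states
`≠ neg`, `= one` of this position (summed over its label, given that it is clean and read), and
the total gain `X` from this position on. -/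
noncomputable def crec {L : ℕ} (q : ℕ) (τ : ℝ) (E : Finset (Fin L)) : ℕ → ℝ × ℝ × ℝ × ℝ × ℝ
  | 0 => (1, 1, 0, 0, 0)
  | k + 1 =>
    let c := crec q τ E k
    let A : ℝ := if k = 0 then 1 else if posIn E k then 0 else c.2.1 + c.2.2.1
    let S : ℝ := if k = 0 then 1 else if posIn E k then c.2.1 else c.2.1 + c.2.2.1
    (if posIn E (k + 1) then al q τ * c.1 else q * (1 - τ) * c.1, c.1, S, A,
      if posIn E (k + 1) then al q τ * c.2.2.2.2
      else (1 - al q τ) * A + q * (1 - τ) * c.2.2.2.2)

/-! ### Random order with a stopping rule -/

/-- special word of the counting table: the size of `V` -/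
def zs {q L : ℕ} [NeZero q] (V : Finset (Fin L)) (_ : Fin L) : Fin q := Fin.ofNat q V.card

/-- number of labels with value `k` -/
def cnt {q : ℕ} (k : ℕ) (a : List (Fin q)) : ℕ := a.countP fun c => c.val = k

/-- trouble: stopping after reading the labels `a` could give an excess for some error set with
at least one error and at most `w0` wild positions -/
def Trb {q : ℕ} (L w0 : ℕ) (a : List (Fin q)) : Prop :=
  ∃ k, 2 ≤ k ∧ k ≤ L ∧ (L - a.length) + 1 ≤ k + w0 ∧ max 1 (k - (L - a.length)) ≤ cnt k a

/-- probability (weight) of not having stopped before all labels of `a` are read -/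
def surv {q : ℕ} (s : List (Fin q) → ℝ) (a : List (Fin q)) : ℝ :=
  ∏ j ∈ range a.length, (1 - s (a.take j))

/-- read the positions of `rem` in random order, stopping with probability `s a` when the labels
`a` have been read -/
noncomputable def soT {q L : ℕ} (s : List (Fin q) → ℝ) :
    (n : ℕ) → (Fin n → Fin L) → List (Fin q) → RT L q
  | 0, _, _ => .stop
  | n + 1, rem, a => .mix 2 ![s a, 1 - s a]
      ![.stop, .mix (n + 1) (fun _ => 1 / ((n : ℝ) + 1)) fun j =>
        .read (rem j) fun c => soT s n (fun i => rem (j.succAbove i)) (a ++ [c])]

/-- read all positions of `rem` -/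
def raT {q L : ℕ} : (n : ℕ) → (Fin n → Fin L) → RT L q
  | 0, _ => .stop
  | n + 1, rem => .read (rem 0) fun _ => raT n fun i => rem i.succ

end Pool.Agent.MPf4617e
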