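import Pool.Agent.Lib.MP_f4617e_lc.DynProg
import Pool.Agent.Lib.MP_f4617e_lc.Engine

/-!
MP_f4617e_lc, module TWO: three symbols, blocks of length 2.
-/

set_option autoImplicit false

namespace Pool.Agent.MPf4617e

open Finset Filter Topology

/-- the reading tree on a block of length 2 -/
noncomputable def two_tree (s u1 v0 : ℝ) (u v : Fin 3 → ℝ) : RT 2 3 :=
  .mix 3 ![s, u1, v0]
    ![.stop,
      .read 0 (fun x => .mix 2 ![u x / u1, 1 - u x / u1] ![.stop, .read 1 (fun _ => .stop)]),
      .read 1 (fun y => .mix 2 ![v y / v0, 1 - v y / v0] ![.stop, .read 0 (fun _ => .stop)])]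

theorem two_LS {s u1 v0 : ℝ} {u v : Fin 3 → ℝ} (hu : u1 ≠ 0) (hv : v0 ≠ 0)
    (f : Path 2 3 → ℝ) :
    (two_tree s u1 v0 u v).LS f = s * f [] +
      ∑ x, (u x * f [(0, x)] + (u1 - u x) * ∑ y, f [(0, x), (1, y)]) +
      ∑ y, (v y * f [(1, y)] + (v0 - v y) * ∑ x, f [(1, y), (0, x)]) := by
  have e1 : ∀ x, u1 * (u x / u1) = u x := fun x => by field_simp
  have e2 : ∀ y, v0 * (v y / v0) = v y := fun y => by field_simp
  have h : (two_tree s u1 v0 u v).LS f = s * f [] +
      u1 * ∑ x, (u x / u1 * f [(0, x)] + (1 - u x / u1) * ∑ y, f [(0, x), (1, y)]) +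
      v0 * ∑ y, (v y / v0 * f [(1, y)] + (1 - v y / v0) * ∑ x, f [(1, y), (0, x)]) := by
    simp [two_tree, RT.LS_mix, RT.LS_read, RT.LS_stop, Fin.sum_univ_three, Fin.sum_univ_two]
  rw [h, Finset.mul_sum, Finset.mul_sum]
  congr 1
  · congr 1
    refine Finset.sum_congr rfl fun x _ => ?_
    rw [mul_add, ← mul_assoc, ← mul_assoc, mul_sub, mul_one, e1]
  · refine Finset.sum_congr rfl fun y _ => ?_
    rw [mul_add, ← mul_assoc, ← mul_assoc, mul_sub, mul_one, e2]

theorem two_ok {s u1 v0 : ℝ} {u v : Fin 3 → ℝ} (hs : 0 ≤ s) (hu : 0 < u1) (hv : 0 < v0)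
    (h1 : s + u1 + v0 = 1) (hu' : ∀ x, 0 ≤ u x ∧ u x ≤ u1) (hv' : ∀ y, 0 ≤ v y ∧ v y ≤ v0) :
    (two_tree s u1 v0 u v).Ok ∅ := by
  refine ⟨?_, ?_, ?_⟩
  · intro j
    fin_cases j
    · simpa using hs
    · simpa using hu.le
    · simpa using hv.le
  · rw [Fin.sum_univ_three]
    simpa using h1
  · intro j
    fin_cases j
    · trivial
    · refine ⟨by simp, fun x => ⟨?_, ?_, ?_⟩⟩
      · intro j
        fin_cases j
        · simpa using div_nonneg (hu' x).1 hu.le
        · simpa using (div_le_one hu).2 (hu' x).2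
      · rw [Fin.sum_univ_two]
        simp
      · intro j
        fin_cases j
        · trivial
        · exact ⟨by simp, fun _ => trivial⟩
    · refine ⟨by simp, fun x => ⟨?_, ?_, ?_⟩⟩
      · intro j
        fin_cases j
        · simpa using div_nonneg (hv' x).1 hv.le
        · simpa using (div_le_one hv).2 (hv' x).2
      · rw [Fin.sum_univ_two]
        simp
      · intro j
        fin_cases j
        · trivial
        · exact ⟨by simp, fun _ => trivial⟩

theorem two_gain_nil : ∀ E : Finset (Fin 2), gain E ([] : Path 2 3) = 0 := by decide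

theorem two_gain_0 : ∀ x : Fin 3, gain (∅ : Finset (Fin 2)) [((0 : Fin 2), x)] =
    if x = 1 then 1 else 0 := by decide

theorem two_gain_1 : ∀ y : Fin 3, gain (∅ : Finset (Fin 2)) [((1 : Fin 2), y)] =
    if y = 1 then 1 else 0 := by decide

theorem two_gain_01 : ∀ x y : Fin 3,
    gain (∅ : Finset (Fin 2)) [((0 : Fin 2), x), ((1 : Fin 2), y)] =
    if y = 1 then (if x = 2 then 2 else 1) else (if x = 1 then 1 else 0) := by decide

theorem two_gain_10 : ∀ x y : Fin 3,
    gain (∅ : Finset (Fin 2)) [((1 : Fin 2), y), ((0 : Fin 2), x)] =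
    if y = 1 then (if x = 2 then 2 else 1) else (if x = 1 then 1 else 0) := by decide

theorem two_gain_e1 : ∀ x : Fin 3, gain ({1} : Finset (Fin 2)) [((0 : Fin 2), x)] =
    if x = 2 then 1 else 0 := by decide

theorem two_gain_e0 : ∀ y : Fin 3, gain ({0} : Finset (Fin 2)) [((1 : Fin 2), y)] =
    if y = 1 then 1 else 0 := by decide

theorem two_cases : ∀ E : Finset (Fin 2), E = ∅ ∨ E = {0} ∨ E = {1} ∨ E = univ := by decide

/-- the parameter `m` -/
noncomputable def two_m (a : ℝ) : ℝ := a * (1 - a) * (10 + a) / (12 - a)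

/-- the parameter `v0` -/
noncomputable def two_w (a : ℝ) : ℝ := (3 * a * (1 - a) - two_m a) / 2

/-- the parameter `c` -/
noncomputable def two_c (a : ℝ) : ℝ := (1 - a) * (10 + a) / ((12 - a) * (3 - 2 * a))

/-- the weights `u` -/
noncomputable def two_u (a : ℝ) : Fin 3 → ℝ :=
  ![3 * two_w a - (1 - a ^ 2), 1 - a ^ 2 - two_w a, two_m a]

/-- the weights `v` -/
noncomputable def two_v (a : ℝ) : Fin 3 → ℝ := ![two_w a, two_m a, two_w a]

theorem two_num {a : ℝ} (h0 : 2 / 3 ≤ a) (h1 : a < 0.673) :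
    0 < two_m a ∧ 0 < two_w a ∧ 0 < 1 - a ^ 2 - two_w a ∧ 0 ≤ 3 * two_w a - (1 - a ^ 2) ∧
    3 * two_w a - (1 - a ^ 2) ≤ 1 - a ^ 2 - two_w a ∧ two_m a ≤ 1 - a ^ 2 - two_w a ∧
    two_m a ≤ two_w a := by
  have h12 : (0 : ℝ) < 12 - a := by linarith
  have hm : two_m a * (12 - a) = a * (1 - a) * (10 + a) := by
    unfold two_m
    field_simp
  have hm0 : 0 < two_m a := by
    unfold two_m
    apply div_pos _ h12
    apply mul_pos (mul_pos (by linarith) (by linarith)) (by linarith)
  have hw : two_w a = (3 * a * (1 - a) - two_m a) / 2 := rfl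
  -- `two_m a ≤ a (1 - a)`
  have hm1 : two_m a ≤ a * (1 - a) := by
    unfold two_m
    rw [div_le_iff₀ h12]
    have : 0 ≤ a * (1 - a) := mul_nonneg (by linarith) (by linarith)
    nlinarith
  have ha : 0 < a * (1 - a) := mul_pos (by linarith) (by linarith)
  have hb : 0 < 1 - a := by linarith
  -- upper bound of `two_m a` for `u0 ≥ 0`: `9 a β - 3 m ≥ 2 κ`
  have hm2 : 3 * two_m a ≤ 9 * a * (1 - a) - 2 * (1 - a ^ 2) := by
    have : 3 * (two_m a * (12 - a)) ≤ (9 * a * (1 - a) - 2 * (1 - a ^ 2)) * (12 - a) := by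
      rw [hm]
      have : (9 * a * (1 - a) - 2 * (1 - a ^ 2)) * (12 - a) - 3 * (a * (1 - a) * (10 + a)) =
        (1 - a) * (56 * a - 10 * a ^ 2 - 24) := by ring
      have h2 : 0 ≤ (1 - a) * (56 * a - 10 * a ^ 2 - 24) :=
        mul_nonneg hb.le (by nlinarith)
      linarith
    have h3 : 3 * two_m a * (12 - a) ≤ (9 * a * (1 - a) - 2 * (1 - a ^ 2)) * (12 - a) := by
      linarith
    exact le_of_mul_le_mul_right h3 h12
  -- lower bound: `3 a β - m ≤ κ`
  have hm3 : 3 * a * (1 - a) - (1 - a ^ 2) ≤ two_m a := by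
    have h3 : (3 * a * (1 - a) - (1 - a ^ 2)) * (12 - a) ≤ two_m a * (12 - a) := by
      rw [hm]
      have : a * (1 - a) * (10 + a) - (3 * a * (1 - a) - (1 - a ^ 2)) * (12 - a) =
        3 * (1 - a) * ((1 - a) * (4 - a)) := by ring
      have h2 : 0 ≤ 3 * (1 - a) * ((1 - a) * (4 - a)) :=
        mul_nonneg (by linarith) (mul_nonneg hb.le (by linarith))
      linarith
    exact le_of_mul_le_mul_right h3 h12
  have hm4 : two_m a + 3 * a * (1 - a) ≤ 2 * (1 - a ^ 2) := by
    nlinarith
  refine ⟨hm0, ?_, ?_, ?_, ?_, ?_, ?_⟩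
  · rw [hw]; linarith
  · rw [hw]; nlinarith
  · rw [hw]; linarith
  · rw [hw]; linarith
  · rw [hw]; linarith
  · rw [hw]; linarith

theorem ach_two {τ : ℝ} (h0 : 4 / 9 ≤ τ) (h1 : τ < 0.4486) : Achievable 3 τ := by
  classical
  set a : ℝ := 3 * τ / 2 with ha
  have ha0 : 2 / 3 ≤ a := by rw [ha]; linarith
  have ha1 : a < 0.673 := by rw [ha]; norm_num at h1 ⊢; linarith
  have ha2 : a < 0.6729 := by rw [ha]; norm_num at h1 ⊢; linarith
  have hτ : τ = 2 * a / 3 := by rw [ha]; ring
  have hal : al 3 τ = a := by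
    unfold al
    rw [ha]
    norm_num
    ring
  have hQ : ((3 : ℕ) : ℝ) * (1 - τ) = 3 - 2 * a := by
    rw [hτ]
    push_cast
    ring
  have hQ0 : 0 < 3 - 2 * a := by linarith
  have h12 : (0 : ℝ) < 12 - a := by linarith
  obtain ⟨p1, p2, p3, p4, p5, p6, p7⟩ := two_num ha0 ha1
  have hm : two_m a * (12 - a) = a * (1 - a) * (10 + a) := by
    unfold two_m
    field_simp
  have hcm : two_c a * (a * (3 - 2 * a)) = two_m a := by
    unfold two_c two_m
    rw [div_mul_eq_mul_div, div_eq_div_iff (mul_pos h12 hQ0).ne' h12.ne']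
    ring
  have hcc : two_c a * (3 - 2 * a) * (12 - a) = (1 - a) * (10 + a) := by
    unfold two_c
    rw [mul_assoc, div_mul_eq_mul_div, div_eq_iff (mul_pos h12 hQ0).ne']
    ring
  have hc0 : 0 < two_c a := by
    unfold two_c
    exact div_pos (mul_pos (by linarith) (by linarith)) (mul_pos h12 hQ0)
  have hc1 : two_c a < 1 := by
    unfold two_c
    rw [div_lt_one (mul_pos h12 hQ0)]
    nlinarith
  have hw : two_w a = (3 * a * (1 - a) - two_m a) / 2 := rfl
  -- the law
  set t : RT 2 3 := two_tree (a ^ 2) (1 - a ^ 2 - two_w a) (two_w a) (two_u a) (two_v a) with ht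
  have hok : t.Ok ∅ := by
    refine two_ok (by positivity) p3 p2 (by ring) ?_ ?_
    · intro x
      fin_cases x
      · exact ⟨by simpa [two_u] using p4, by simpa [two_u] using p5⟩
      · exact ⟨by simpa [two_u] using p3.le, by simp [two_u]⟩
      · exact ⟨by simpa [two_u] using p1.le, by simpa [two_u] using p6⟩
    · intro x
      fin_cases x
      · exact ⟨by simpa [two_v] using p2.le, by simp [two_v]⟩
      · exact ⟨by simpa [two_v] using p1.le, by simpa [two_v] using p7⟩
      · exact ⟨by simpa [two_v] using p2.le, by simp [two_v]⟩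
  let W : Law 3 2 :=
    { tree := t
      ok := hok
      good := fun l E => Disjoint (sites l) E
      good_disj := fun l E h => h }
  let T : Table 3 2 := tableOf zc fun V i hi => zc_ne_zero le_rfl V i hi
  have hLS := fun f => two_LS (s := a ^ 2) (u := two_u a) (v := two_v a) p3.ne' p2.ne' f
  have hZ : ∀ E : Finset (Fin 2), W.Z E = a ^ E.card * (3 - 2 * a) ^ (2 - E.card) := by
    intro E
    have h3 : W.Z E = t.LS (fun l => if Disjoint (sites l) E then (1 : ℝ) else 0) := by
      unfold Law.Z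
      refine congrArg t.LS (funext fun l => ?_)
      by_cases h : Disjoint (sites l) E
      · rw [if_pos h, if_pos (show W.good l E from h)]
      · rw [if_neg h, if_neg (show ¬ W.good l E from h)]
    rw [h3, ht, hLS]
    rcases two_cases E with rfl | rfl | rfl | rfl
    · simp [Fin.sum_univ_three, two_u, two_v, hw]
      ring
    · simp [Fin.sum_univ_three, two_u, two_v, hw, sites]
      ring
    · simp [Fin.sum_univ_three, two_u, two_v, hw, sites]
      ring
    · simp [sites]
  have hX : ∀ E : Finset (Fin 2), W.X T E ≤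
      t.LS (fun l => if Disjoint (sites l) E then (gain E l : ℝ) else 0) := by
    intro E
    unfold Law.X
    refine RT.LS_mono hok fun l _ _ => ?_
    by_cases h : Disjoint (sites l) E
    · rw [if_pos h, if_pos (show W.good l E from h)]
      exact_mod_cast excOf_zc_le_gain le_rfl l E h
    · rw [if_neg h, if_neg (show ¬ W.good l E from h)]
  have hgood : GoodSystem 3 2 τ (1 - two_c a) (two_c a) := by
    refine goodSystem_single T W ?_ ?_ ?_
    · intro e
      rw [hal, hQ]
      positivity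
    · intro E
      rw [hal, hQ, hZ]
    · intro E
      have hZ0 : 0 < W.Z E := by
        rw [hZ]
        positivity
      have key : W.X T E ≤ two_c a * (2 - E.card) * W.Z E := by
        refine le_trans (hX E) ?_
        rw [hZ, ht, hLS]
        rcases two_cases E with rfl | rfl | rfl | rfl
        · simp [Fin.sum_univ_three, two_u, two_v, two_gain_nil, two_gain_0, two_gain_1,
            two_gain_01, two_gain_10]
          rw [hw]
          nlinarith
        · simp [Fin.sum_univ_three, two_u, two_v, two_gain_nil, two_gain_e0, sites]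
          rw [← hcm]
          nlinarith
        · simp [Fin.sum_univ_three, two_u, two_v, two_gain_nil, two_gain_e1, sites]
          rw [← hcm]
          nlinarith
        · simp [two_gain_nil, sites]
      have h2 : W.X T E / W.Z E ≤ two_c a * (2 - E.card) := by
        rw [div_le_iff₀ hZ0]
        exact key
      push_cast
      linarith
  refine engine (by norm_num) (by norm_num) (by linarith) (by norm_num at h1 ⊢; linarith)
    (by linarith) (by linarith) hc0.le ?_ hgood
  rw [hτ]
  have h3 : two_c a * (3 - 2 * a) * (12 - a) < (3 - 4 * a) * (12 - a) := by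
    rw [hcc]
    nlinarith
  have h4 : two_c a * (3 - 2 * a) < 3 - 4 * a := lt_of_mul_lt_mul_right h3 h12.le
  linarith

end Pool.Agent.MPf4617e
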